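import Pool.Agent.Lib.MP_696deb_nt.B4.PA1
import Pool.Agent.Lib.MP_696deb_nt.B2.PAq

set_option autoImplicit false

open scoped Classical
open Finset Matrix PowerSeries Filter Submodule LinearMap

namespace Pool.Agent.B4.PA

open Pool.Agent.Lib.MP_696deb_nt Pool.Agent.Lib.MP_696deb_nt.B2 Pool.Agent.Lib.MP_696deb_nt.B2.PA

variable [Ep]

variable {O F : Type} [CommRing O] [IsDomain O] [IsDiscreteValuationRing O] [AddCommGroup F]
  [Module O F]

theorem bridge {R0 : Submodule O F} {p s : Fin 2 → F} {κ : F →ₗ[O] O}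
    (hκ : R0 ⊔ span O (Set.range s) ≤ ker κ) (rk : Rk1 (R0 ⊔ span O (Set.range s)))
    (ne : κ (p 1) - Ep.ε • κ (p 0) ≠ 0) (iso : IsoS (IsLocalRing.maximalIdeal O) R0 p s) :
    rl (R0 ⊔ span O {p 1 - Ep.ε • p 0, Ep.ε • s 0 + s 1}) ⊤ + 2 * rl (range κ) ⊤ ≤
      rl (R0 ⊔ span O (Set.range s)) (ker κ) + 2 * Ring.ord O (κ (p 1) - Ep.ε • κ (p 0)) := by
  obtain ⟨g, a, hg, hR, a0, rfl, ha, -⟩ := prim (fun k => ne (by rw [k]; simp)) hκ rk
  obtain ⟨u, hu, h1⟩ := iso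
  have h2 := h1 g (le_sup_left.trans hR)
  have h3 : ∀ i, g (s i) = 0 := fun i =>
    hR (mem_sup_right (subset_span (Set.mem_range_self i)))
  rw [smul_mem_iff_of_isUnit _ (IsLocalRing.notMem_maximalIdeal.1 hu)] at h2
  simp only [jv, Function.comp, h3, zero_smul, zero_add] at h2
  obtain ⟨b, hb⟩ : ∃ b, b = g (p 1) - Ep.ε • g (p 0) := ⟨_, rfl⟩
  have e1 : (a • g) (p 1) - Ep.ε • (a • g) (p 0) = a * b := by
    rw [hb, LinearMap.smul_apply, LinearMap.smul_apply, smul_eq_mul, smul_eq_mul, mul_sub,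
      mul_smul_comm]
  have e2 : ker (a • g) = ker g := by
    ext x
    simp [a0]
  generalize hL : R0 ⊔ span O {p 1 - Ep.ε • p 0, Ep.ε • s 0 + s 1} = L
  have l0 : R0 ≤ L := hL ▸ le_sup_left
  have l1 : p 1 - Ep.ε • p 0 ∈ L := hL ▸ mem_sup_right (subset_span (by simp))
  have l2 : Ep.ε • s 0 + s 1 ∈ L := hL ▸ mem_sup_right (subset_span (by simp))
  have h4 : b • s 0 ∈ L := by
    have h5 := sub_mem (l0 h2) (smul_mem _ (g (p 0)) l2)
    rwa [show g (p 1) • s 0 + g (p 0) • s 1 - g (p 0) • (Ep.ε • s 0 + s 1) = b • s 0 by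
      rw [hb, sub_smul, smul_assoc]; module] at h5
  have h5 := rl_sup_cyc h4
  generalize hY : L ⊔ span O {s 0} = Y at h5
  have y0 : L ≤ Y := hY ▸ le_sup_left
  have y1 : s 0 ∈ Y := hY ▸ mem_sup_right (mem_span_singleton_self _)
  have y2 : R0 ⊔ span O (Set.range s) ≤ Y := by
    refine sup_le (l0.trans y0) (span_le.2 ?_)
    rintro _ ⟨i, rfl⟩
    fin_cases i
    · exact y1
    · simpa using sub_mem (y0 l2) (zsmul_mem y1 Ep.ε)
  have y3 : Submodule.comap g (Ideal.span {b} : Ideal O) ≤ Y ⊔ ker g := by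
    intro x hx
    obtain ⟨c, hc⟩ := Ideal.mem_span_singleton'.1 (mem_comap.1 hx)
    rw [← add_sub_cancel (c • (p 1 - Ep.ε • p 0)) x]
    refine add_mem (mem_sup_left (smul_mem _ c (y0 l1))) (mem_sup_right ?_)
    rw [LinearMap.mem_ker, map_sub, map_smul, map_sub, map_zsmul, ← hb, smul_eq_mul, hc, sub_self]
  have h6 : rl (Y ⊔ ker g) ⊤ ≤ Ring.ord O b := by
    refine (rl_anti y3 ⊤).trans_eq ?_
    rw [rl_map, Submodule.map_top, range_eq_top.2 hg, rl_ord]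
  have h7 : rl Y ⊤ ≤ rl (R0 ⊔ span O (Set.range s)) (ker g) + Ring.ord O b := by
    rw [rl_add (le_sup_left : Y ≤ Y ⊔ ker g) le_top, rl_sup]
    exact add_le_add (rl_anti y2 _) h6
  have b0 : b ≠ 0 := fun k => ne (by rw [e1, k, mul_zero])
  rw [ha, e1, e2, Ring.ord_mul O (mem_nonZeroDivisors_of_ne_zero b0)]
  calc rl L ⊤ + 2 * Ring.ord O a
      ≤ rl (R0 ⊔ span O (Set.range s)) (ker g) + Ring.ord O b + Ring.ord O b +
        2 * Ring.ord O a := add_le_add (h5.trans (add_le_add h7 le_rfl)) le_rfl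
    _ = _ := by ring

end Pool.Agent.B4.PA
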