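import Pool.Agent.Lib.MP_696deb_nt.Heeg
import Pool.Agent.Lib.MP_696deb_nt.JFun

/-! Heegner forms of level `N` and their classes. -/

set_option autoImplicit false

namespace Pool.Agent.B4

open Pool.Agent.Lib.MP_696deb_nt

/-- Heegner forms `[N a, b, c]` of discriminant `D` with `b = r` modulo `2 N`. -/
structure Hg (N : ℕ) (D r : ℤ) (Q : Fm) : Prop where
  disc : fdisc Q = D
  pos : 0 < Q.1
  lev : (N : ℤ) ∣ Q.1
  res : 2 * (N : ℤ) ∣ Q.2.1 - r

/-- Points of the upper half plane that are equivalent under `Γ₀(N)`. -/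
def GEq (N : ℕ) (z z' : ℂ) : Prop := ∃ g : MZ, g.det = 1 ∧ (N : ℤ) ∣ g 1 0 ∧ z' = act g z

/-- A system of representatives of the Heegner forms modulo `Γ₀(N)`. -/
structure HRp (N : ℕ) (D r : ℤ) (T : Finset Fm) : Prop where
  mem : ∀ Q ∈ T, Hg N D r Q
  ex : ∀ Q, Hg N D r Q → ∃ R ∈ T, GEq N (froot R) (froot Q)
  uniq : ∀ Q ∈ T, ∀ R ∈ T, GEq N (froot Q) (froot R) → Q = R

end Pool.Agent.B4
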