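import Pool.Agent.Lib.MP_696deb_nt.B4.Red0
import Pool.Agent.Lib.MP_696deb_nt.B2.D1

/-! The Tate module, Selmer cocycles of quadratic twists, and systems of Heegner points. -/

set_option autoImplicit false

open scoped NNReal Classical
open Finset Matrix NumberTheorySymbols

namespace Pool.Agent.B4

open Pool.Agent.Lib.MP_696deb_nt Pool.Agent.Lib.MP_696deb_nt.B2

section

variable [Cv]

/-- The action twisted by a quadratic character. -/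
noncomputable def tw (d : ℤ) (g : Gam) (P : EE) : EE := (chi d g : ℤ) • g • P

/-- Cocycles for the twisted action that are locally trivial at every place. -/
structure hSel (d : ℤ) (ξ : Gam → EE) : Prop where
  sm : Sm ⊤ ξ
  coc : ∀ g h, ξ (g * h) = ξ g + tw d g (ξ h)
  loc : ∀ w : Plc, ∃ S, ∀ g ∈ Dec w, ξ g = tw d g S - S
  inf : ∃ S, ξ cc = tw d cc S - S

/-- The Selmer group of the twist has corank at most one. -/
def Cork (d : ℤ) : Prop := ∃ C : ℕ, ∀ (m : ℕ) (s : Finset (Gam → EE)),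
  (∀ ξ ∈ s, hSel d ξ ∧ ∀ g, 2 ^ m • ξ g = 0) → s.card ≤ C * 8 ^ m

/-- The twist has a rational point that is not divisible by two modulo torsion. -/
def Nz (d : ℤ) : Prop := ∃ P : EE, (∀ g, tw d g P = P) ∧
  ∀ Q : EE, (∀ g, tw d g Q = Q) → ¬ IsOfFinAddOrder (P - 2 • Q)

/-- The first coordinate of the descent map of the twist. -/
noncomputable def kA (d : ℤ) (P : EE) : Qbar :=
  if P = 0 then 1 else if P = T1 then cu * cv else d * (4 * xco P + cu)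

/-- The second coordinate of the descent map of the twist. -/
noncomputable def kB (d : ℤ) (P : EE) : Qbar :=
  if P = 0 then 1 else if P = T2 then -(cu * cw) else d * xco P

/-- The third coordinate of the descent map of the twist. -/
noncomputable def kC (d : ℤ) (P : EE) : Qbar :=
  if P = 0 then 1 else if P = T3 then cv * cw else d * (xco P - 4 * cw)

/-- The formula of descent. -/
def DescStmt : Prop := ∀ (d : ℤ) (D : Subgroup Gam) (Q : EE), d ≠ 0 →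
  (∀ g ∈ D, tw d g (2 • Q) = 2 • Q) → ∃ α β : Gam → ZMod (2 ^ 1), Kum 1 D (kA d (2 • Q)) α ∧
    Kum 1 D (kB d (2 • Q)) β ∧ Kum 1 D (kC d (2 • Q)) (α + β) ∧
    ∀ g ∈ D, tw d g Q - Q = (α g).val • T2 + (β g).val • T1

/-- The group generated by the inertia groups above two and the bad primes. -/
noncomputable def I30 : Subgroup Gam := ⨆ w : {w : Plc // w.p ∣ 2 * NN}, Ine w.1

/-- The point of order two that is nonsingular modulo a bad prime. -/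
noncomputable def Tp (l : ℕ) : EE := if l = Cv.p then T3 else if cw = 1 then T2 else T1

/-- Discriminants prime to twice the conductor. -/
structure Good (n : ℕ) : Prop where
  sqf : Squarefree n
  mod4 : n % 4 = 3
  cop : Nat.Coprime n NN

/-- The discriminants that are used. -/
structure Nok (n : ℕ) : Prop where
  good : Good n
  m8 : n % 8 = 3
  gt : 3 < n
  root : ∃ r : ℤ, 4 * (NN : ℤ) ∣ r ^ 2 + n
  condB : CondB n

/-- The congruence relation of Eichler and Shimura outside of `M`. -/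
def EsStmt (a : ℕ → ℤ) (M : ℕ) : Prop := ∀ (w : Plc) (φ : Gam) (P : EE), ¬ w.p ∣ M →
  IsFrob w w.p φ → φ • φ • P - a w.p • φ • P + w.p • P ∈ K1 w

/-- A bound for all errors. -/
def ee : ℕ := 8 + Cv.p ^ 2 + Cv.q ^ 2

end

/-- Quadratic characters of ring class fields are genus characters. -/
def QuadStmt : Prop := ∀ (n c : ℕ) (χ : Gam → ZMod 2), n % 4 = 3 → c ≠ 0 → Odd c → Sm (GK n) χ →
  IsHom (GK n) χ → (∀ g ∉ GK n, χ (g * g) = 0) →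
  (∀ w : Plc, ¬ w.p ∣ c → ∀ σ ∈ GK n ⊓ Ine w, χ σ = 0) →
  ∃ e : ℤ, Squarefree e ∧ e ∣ n * c ∧ e % 4 = 1 ∧ ∀ g ∈ GK n, χ g = xi e g

/-- A curve together with Hecke eigenvalues and a multiple of all primes that must be avoided. -/
class Md extends Cv where
  al : ℕ → ℤ
  M : ℕ
  M_ne : M ≠ 0
  dvd_M : 2 * (p * q) ∣ M

variable [Md]

/-- The Hecke eigenvalues. -/
def al (l : ℕ) : ℤ := Md.al l

/-- A multiple of all primes that must be avoided. -/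
def MM : ℕ := Md.M

theorem MM_ne : MM ≠ 0 := Md.M_ne

theorem dvd_MM : 2 * NN ∣ MM := Md.dvd_M

theorem nd_of_MM {l : ℕ} (h : ¬ l ∣ MM) : ¬ l ∣ 2 * NN := fun k => h (k.trans dvd_MM)

/-- The two-adic Tate module with a basis, and what is used of it. -/
structure Tate where
  ρ : Gam →* Matrix (Fin 2) (Fin 2) ℤ_[2]
  emb : (m : ℕ) → (Fin 2 → ZMod (2 ^ m)) →+ EE
  inj : ∀ m, Function.Injective (emb m)
  surj : ∀ m P, 2 ^ m • P = 0 → ∃ x, emb m x = P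
  two : ∀ m k x, 2 ^ k • emb (m + k) x =
    emb m fun i => ZMod.castHom (pow_dvd_pow 2 (Nat.le_add_right m k)) (ZMod (2 ^ m)) (x i)
  smul : ∀ m g x, g • emb m x = emb m (mred m (ρ g) *ᵥ x)
  sm : ∀ m, Sm ⊤ fun g => mred m (ρ g)
  det : ∀ g, (ρ g).det = cyc g
  e0 : emb 1 ![1, 0] = T1 + (eps - 1) • T2
  e1 : emb 1 ![0, 1] = T2
  conj : ρ cc = !![1, 0; 0, -1]
  mod2 : ∀ g, mred 1 (ρ g) = 1
  iso : ∀ (m : ℕ) (D : Subgroup Gam) (x y : Gam → Fin 2 → ZMod (2 ^ m)) (S S' : EE),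
    IsClosed (D : Set Gam) → (∀ g ∈ D, emb m (x g) = g • S - S) →
    (∀ g ∈ D, emb m (y g) = g • S' - S') →
    Spl m D fun g h => det2 (x g) (mred m (ρ g) *ᵥ y h)
  kum2 : ∀ (n : ℕ) (w : Plc) (α β : Gam → ZMod (2 ^ 1)), n % 8 = 3 → w.p = 2 →
    ((∃ S : EE, ∀ g ∈ GK n ⊓ Dec w, g • S - S = (α g).val • T2 + (β g).val • T1) ↔
      (Sm (GK n ⊓ Dec w) α ∧ IsHom (GK n ⊓ Dec w) α ∧ ∀ σ ∈ Ine w, α σ = 0) ∧
        ∃ u, w.V u = 1 ∧ Kum 1 (GK n ⊓ Dec w) u β)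
  kumc : ∀ (n m : ℕ) (w : Plc), n % 8 = 3 → w.p = 2 → (16 ^ m : ℕ∞) ≤
    Set.encard {c : Gam → Fin 2 → ZMod (2 ^ m) | (∀ g ∉ GK n ⊓ Dec w, c g = 0) ∧
      ∃ S : EE, ∀ g ∈ GK n ⊓ Dec w, emb m (c g) = g • S - S}
  unr : ∀ w : Plc, ¬ w.p ∣ 2 * NN → ∀ σ ∈ Ine w, ρ σ = 1
  es : ∀ (w : Plc) (φ : Gam) (P : EE), ¬ w.p ∣ MM → IsFrob w w.p φ →
    φ • φ • P - al w.p • φ • P + w.p • P ∈ K1 w
  tr : ∀ (w : Plc) (φ : Gam), ¬ w.p ∣ MM → IsFrob w w.p φ → (ρ φ).trace = al w.p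
  hasse : ∀ (w : Plc) (φ : Gam) (f : ℕ) (u : ℤˣ), ¬ w.p ∣ 2 * NN → IsFrob w (w.p ^ f) φ → f ≠ 0 →
    ((u : ℤ) • ρ φ - 1).det ≠ 0
  four : ∀ (w : Plc) (φ : Gam), ¬ w.p ∣ 2 * NN → IsFrob w w.p φ → w.p % 8 = 7 →
    J(cu * cv | w.p) = -1 → J(cv * cw | w.p) = -1 → ∃ u : ℤ_[2]ˣ, (ρ φ).trace = 4 * u
  mult : ∀ w : Plc, w.p = Cv.p ∨ w.p = Cv.q →
    ∃ (B : Matrix (Fin 2) (Fin 2) ℤ_[2]) (s : ℤ), (s = 1 ∨ s = -1) ∧ B.det = 1 ∧
    emb 1 (mred 1 B *ᵥ ![1, 0]) = Tp w.p ∧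
    (∀ σ ∈ Ine w, ∃ c, ρ σ * B = B * !![1, 2 * c; 0, 1] ∧ (Gen w σ → IsUnit c)) ∧
    ∀ φ, IsFrob w w.p φ → ∃ b, ρ φ * B = B * !![(s : ℤ_[2]) * w.p, b; 0, s]
  big : ∀ A, mred 5 A = 1 → ∀ k, ∃ g ∈ I30, mred k (ρ g) = mred k A

/-- Admissible conductors: products of distinct inert primes. -/
def Adm (n c : ℕ) : Prop := Squarefree c ∧ ∀ l : ℕ, l.Prime → l ∣ c → ¬ l ∣ MM ∧ J(-n | l) = -1

/-- The traces of Heegner points to the two-primary ring class fields of the imaginary quadratic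
field of discriminant `-n`. -/
structure HS (n : ℕ) where
  C : ℕ → Type
  [grp : ∀ c, CommGroup (C c)]
  [fin : ∀ c, Fintype (C c)]
  pr : ∀ c c', C c' →* C c
  ψ : ∀ c, Gam → C c
  y : ∀ c, C c → EE
  ν : ∀ l s : ℕ, C l →* Multiplicative (ZMod (2 ^ s))
  gen : ℤ → C 1 →* ℤˣ
  two : ∀ c (a : C c), ∃ k : ℕ, a ^ 2 ^ k = 1
  sm : ∀ c, Adm n c → Sm (GK n) (ψ c)
  mul : ∀ c, Adm n c → ∀ g ∈ GK n, ∀ h ∈ GK n, ψ c (g * h) = ψ c g * ψ c h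
  surj : ∀ c, Adm n c → ∀ a, ∃ g ∈ GK n, ψ c g = a
  pr_ψ : ∀ c c', Adm n c' → c ∣ c' → ∀ g ∈ GK n, pr c c' (ψ c' g) = ψ c g
  dih : ∀ c, Adm n c → ∀ g ∉ GK n, ψ c (g * g) = 1
  unr : ∀ c (w : Plc), Adm n c → ¬ w.p ∣ c → ∀ σ ∈ GK n ⊓ Ine w, ψ c σ = 1
  gal : ∀ c, Adm n c → ∀ g ∈ GK n, ∀ a, g • y c a = y c (ψ c g * a)
  conj : ∃ (b : C 1) (t : EE), IsOfFinAddOrder t ∧ Even (addOrderOf t) ∧
    ∀ a, cc • y 1 a = t - y 1 (b * a⁻¹)
  trace : ∀ c l, l.Prime → Adm n (c * l) → ∀ a,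
    ∑ a' with pr c (c * l) a' = a, y (c * l) a' = al l • y c a
  kron : ∀ c (w : Plc) (φ : Gam), Adm n (c * w.p) → IsFrob w w.p φ → ∀ a',
    y (c * w.p) a' - ordCompl[2] (w.p + 1) • φ • y c (pr c (c * w.p) a') ∈ K1 w
  ν_gen : ∀ (w : Plc) (s : ℕ) (τ : Gam), Adm n w.p → 2 ^ (s + 1) ∣ w.p + 1 → Gen w τ →
    IsUnit (ν w.p s (ψ w.p τ)).toAdd
  ν_ram : ∀ (l s : ℕ) (w : Plc), l.Prime → Adm n l → 2 ^ (s + 1) ∣ l + 1 → w.p ∣ n →
    ∀ g ∈ GK n ⊓ Dec w, ν l s (ψ l g) = 1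
  ν_fib : ∀ (c l s : ℕ), l.Prime → Adm n (c * l) → 2 ^ (s + 1) ∣ l + 1 → ∀ a x,
    (univ.filter fun a' => pr c (c * l) a' = a ∧ ν l s (pr l (c * l) a') = x).card * 2 ^ s =
      ordProj[2] (l + 1)
  gen_ψ : ∀ e : ℤ, e ∣ n → e % 4 = 1 → ∀ g ∈ GK n, gen e (ψ 1 g) = chi e g
  sep : ∀ a : C 1, (∀ e : ℤ, e ∣ n → e % 4 = 1 → gen e a = 1) → a = 1

attribute [instance] HS.grp HS.fin

/-- The Heegner point of a genus character. -/
noncomputable def HS.ychi {n : ℕ} (S : HS n) (e : ℤ) : EE := ∑ a, (S.gen e a : ℤ) • S.y 1 a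

/-- The bound for the divisibility by two of the Heegner point of the branch `e`. -/
def HS.RefDiv {n : ℕ} (S : HS n) (e : ℤ) : Prop := ∀ P : EE, (∀ g ∈ GK n, tw e g P = P) →
  ¬ IsOfFinAddOrder (S.ychi e - 2 ^ (n.primeFactors.card - 1) • P)

end Pool.Agent.B4
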