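import Pool.Agent.Lib.MP_696deb_nt.B2.TAg

/-! Two-adic representations that are trivial modulo two: unipotent inertia. -/

set_option autoImplicit false

open scoped NNReal Classical
open Matrix

namespace Pool.Agent.B4

open Pool.Agent.Lib.MP_696deb_nt.B2

/-- Representations that are trivial modulo two and have cyclotomic determinant. -/
structure Rho (ρ : Gam →* M2) : Prop where
  sm : ∀ m, Sm ⊤ fun g => mred m (ρ g)
  mod2 : ∀ g, mred 1 (ρ g) = 1
  det : ∀ g, (ρ g).det = cyc g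

variable {ρ : Gam →* M2} {w : Plc} {τ σ φ : Gam}

/-- The representation modulo a power of two. -/
noncomputable def tmPi (ρ : Gam →* M2) (k : ℕ) : Gam →* (Matrix (Fin 2) (Fin 2) (ZMod (2 ^ k)))ˣ :=
  (((PadicInt.toZModPow k).mapMatrix : M2 →+* _).toMonoidHom.comp ρ).toHomUnits

theorem tm_eq {k : ℕ} {g h : Gam} (e : tmPi ρ k g = tmPi ρ k h) :
    mred k (ρ g) = mred k (ρ h) := congrArg Units.val e

theorem Rho.pi_sm (h : Rho ρ) (k : ℕ) (D : Subgroup Gam) : Sm D (tmPi ρ k) := by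
  obtain ⟨U, h1, h2, h3⟩ := h.sm k
  exact ⟨U, h1, h2, fun g _ h _ e => Units.ext (h3 g trivial h trivial e)⟩

theorem Rho.two (h : Rho ρ) (g : Gam) : ∃ C : M2, ρ g = 1 + 2 • C := by
  simpa using mred_eq_iff.1 ((h.mod2 g).trans (mred_one 1).symm)

theorem Rho.pi_tors (h : Rho ρ) (k : ℕ) (g : Gam) : ∃ n : ℕ, tmPi ρ k g ^ 2 ^ n = 1 := by
  refine ⟨k, ?_⟩
  obtain ⟨C, hC⟩ := h.two g
  obtain ⟨C', e⟩ := tag_pow C k
  rw [← map_pow]
  refine Units.ext (Eq.trans ?_ (mred_one k))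
  show mred k (ρ (g ^ 2 ^ k)) = _
  rw [map_pow, hC, e, mred_eq_iff]
  exact ⟨2 • C', by rw [pow_succ, mul_smul]⟩

theorem Rho.gen (h : Rho ρ) (hw : w.p ≠ 2) (hτ : Gen w τ) (hσ : σ ∈ Ine w) (k : ℕ) :
    ∃ (j : ℕ) (C : M2), ρ σ = ρ τ ^ j + 2 ^ k • C := by
  obtain ⟨j, hj⟩ := tame_gen hw hτ (h.pi_sm k _) (fun g _ h _ => map_mul _ g h)
    (fun g _ => h.pi_tors k g) hσ
  rw [← map_pow] at hj
  exact ⟨j, map_pow ρ τ j ▸ mred_eq_iff.1 (tm_eq hj)⟩

theorem Rho.frob (h : Rho ρ) (hw : w.p ≠ 2) {n : ℕ} (hφ : IsFrob w n φ) (hσ : σ ∈ Ine w) :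
    ρ φ * ρ σ = ρ σ ^ n * ρ φ := by
  have e : ρ (φ * σ * φ⁻¹) = ρ (σ ^ n) := mred_ext fun k => tm_eq (by
    rw [map_pow]
    exact tame_frob (H := ⊤) hw (h.pi_sm k _) (fun g _ h _ => map_mul _ g h)
      (fun g _ => h.pi_tors k g) isOpen_univ hφ ⟨trivial, hσ⟩ trivial)
  rw [← map_pow, ← e, ← map_mul, ← map_mul, inv_mul_cancel_right]

theorem tm_trace {n : ℕ} (h : ρ φ * ρ σ = ρ σ ^ n * ρ φ) : (ρ σ ^ n).trace = (ρ σ).trace := by
  have h1 : ρ σ ^ n = ρ φ * ρ σ * ρ φ⁻¹ := by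
    rw [h, mul_assoc, ← map_mul, mul_inv_cancel, map_one, mul_one]
  rw [h1, trace_mul_comm, ← mul_assoc, ← map_mul, inv_mul_cancel, map_one, one_mul]

section

variable {M : M2}

theorem tm_ch (h : M.det = 1) : M * M = M.trace • M - 1 := by
  rw [det_fin_two] at h
  ext i j
  fin_cases i <;> fin_cases j <;> simp [mul_apply, trace_fin_two]
  · linear_combination -h
  · ring
  · ring
  · linear_combination -h

theorem tm_rec (h : M.det = 1) (k : ℕ) :
    (M ^ (k + 2)).trace = M.trace * (M ^ (k + 1)).trace - (M ^ k).trace := by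
  rw [pow_add, sq, tm_ch h, mul_sub, mul_smul_comm, ← pow_succ, mul_one, trace_sub, trace_smul,
    smul_eq_mul]

theorem tm_sq (h : M.det = 1) : (M * M).trace = M.trace * M.trace - 2 := by
  rw [tm_ch h, trace_sub, trace_smul, smul_eq_mul, trace_one]
  simp

theorem tm_lte (h : M.det = 1) (k : ℕ) :
    ∃ c, (M ^ k).trace - 2 = (M.trace - 2) * (k ^ 2 + (M.trace - 2) * c) := by
  induction k using Nat.twoStepInduction with
  | zero => exact ⟨0, by simp⟩
  | one => exact ⟨0, by simp⟩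
  | more k h1 h2 =>
    obtain ⟨c, hc⟩ := h1
    obtain ⟨d, hd⟩ := h2
    refine ⟨(k + 1) ^ 2 + (M.trace - 2) * d + 2 * d - c, ?_⟩
    rw [tm_rec h]
    push_cast at hd ⊢
    linear_combination M.trace * hd - hc

theorem tm_two {m : ℕ} (hm : m ≠ 0) (h : M.det = 1) (h8 : 8 ∣ M.trace - 2)
    (e : (M ^ m).trace = 2) : M.trace = 2 := by
  obtain ⟨k, u, ⟨v, rfl⟩, rfl⟩ := Nat.exists_eq_two_pow_mul_odd hm
  clear hm
  induction k generalizing M with
  | zero =>
    obtain ⟨c, hc⟩ := tm_lte h (2 * v + 1)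
    obtain ⟨s, hs⟩ := h8
    rw [pow_zero, one_mul] at e
    rw [e, sub_self, hs] at hc
    have := (mul_eq_zero.1 hc.symm).resolve_right fun k =>
      tag_odd (2 * v ^ 2 + 2 * v + 4 * s * c) (by push_cast at k; linear_combination k)
    linear_combination hs + this
  | succ k ih =>
    obtain ⟨s, hs⟩ := h8
    have h1 := ih (M := M * M) (by rw [det_mul, h, one_mul])
      ⟨s * (M.trace + 2), by rw [tm_sq h]; linear_combination (M.trace + 2) * hs⟩
      (by rw [← sq, ← pow_mul, ← mul_assoc, ← pow_succ', e])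
    rw [tm_sq h] at h1
    have h2 : (M.trace - 2) * (4 * (1 + 2 * s)) = 0 := by
      linear_combination h1 - (M.trace - 2) * hs
    exact sub_eq_zero.1 ((mul_eq_zero.1 h2).resolve_right
      (mul_ne_zero (by norm_num) (tag_odd s)))

theorem tm_inv (h : M.det = 1) (k : ℕ) : (M ^ (k + 1)).trace ^ 2 + (M ^ k).trace ^ 2 -
    M.trace * (M ^ (k + 1)).trace * (M ^ k).trace + M.trace ^ 2 - 4 = 0 := by
  induction k with
  | zero =>
    simp only [zero_add, pow_one, pow_zero, trace_one, Fintype.card_fin, Nat.cast_ofNat]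
    ring
  | succ k ih =>
    rw [tm_rec h]
    linear_combination ih

theorem tm_trace_two {n : ℕ} (hn : 2 ≤ n) (h : M.det = 1) (h8 : 8 ∣ M.trace - 2)
    (e : (M ^ n).trace = M.trace) : M.trace = 2 := by
  obtain ⟨k, rfl⟩ : ∃ k, n = k + 1 := ⟨n - 1, by omega⟩
  have h1 : ((M ^ (k + 2)).trace - 2) * ((M ^ k).trace - 2) = 0 := by
    have h2 := tm_inv h k
    rw [tm_rec h]
    rw [e] at h2 ⊢
    linear_combination -h2
  rcases mul_eq_zero.1 h1 with h1 | h1
  · exact tm_two (by omega) h h8 (sub_eq_zero.1 h1)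
  · exact tm_two (by omega) h h8 (sub_eq_zero.1 h1)

end

theorem tm_even {x : ℤ_[2]} : PadicInt.toZModPow 1 x = 0 ↔ ∃ y, x = 2 * y := by
  rw [← map_zero (PadicInt.toZModPow 1), red_eq_iff, pow_one, sub_zero]
  rfl

theorem tm_unit {x : ℤ_[2]} : IsUnit x ↔ PadicInt.toZModPow 1 x = 1 := by
  have h1 := red_two_iff (x := x) (y := 1)
  have h2 := red_eq_iff (m := 1) (x := x) (y := 1)
  rw [map_one] at h1 h2
  rw [isUnit_iff_red, h1, h2, pow_one]

theorem tm_cases (x : ZMod (2 ^ 1)) : x = 0 ∨ x = 1 := by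
  revert x
  decide

/-- A matrix of determinant one that is conjugate to a power of itself is unipotent. -/
theorem tm_nil {A : M2} {n : ℕ} (hn : 2 ≤ n) (h : (1 + 2 • A).det = 1)
    (h0 : mred 1 A * mred 1 A = 0) (e : ((1 + 2 • A) ^ n).trace = (1 + 2 • A).trace) :
    A 1 1 = -A 0 0 ∧ A 0 0 ^ 2 + A 0 1 * A 1 0 = 0 := by
  have h1 : PadicInt.toZModPow 1 A.det = 0 := by
    have := congrArg det h0
    rw [det_mul, mred_det, det_zero] at this
    exact (tm_cases _).resolve_right fun k => by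
      rw [k] at this
      exact absurd this (by decide)
  obtain ⟨y, hy⟩ := tm_even.1 h1
  have h2 : (1 + 2 • A).trace = 2 + 2 * (A 0 0 + A 1 1) := by
    simp [trace_fin_two, two_mul]
  have h3 : A 0 0 + A 1 1 = -2 * A.det := mul_left_cancel₀ (two_ne_zero (α := ℤ_[2])) (by
    rw [det_fin_two] at h ⊢
    simp [two_mul] at h
    linear_combination h)
  have h4 := tm_trace_two hn h ⟨-y, by rw [h2, h3, hy]; ring⟩ e
  have h5 : A 0 0 + A 1 1 = 0 :=
    mul_left_cancel₀ (two_ne_zero (α := ℤ_[2])) (by linear_combination h4 - h2)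
  have h6 : A.det = 0 := mul_left_cancel₀ (two_ne_zero (α := ℤ_[2])) (by linear_combination h3 - h5)
  rw [det_fin_two] at h6
  exact ⟨by linear_combination h5, by linear_combination A 0 0 * h5 - h6⟩

/-- The normal form of a primitive nilpotent matrix. -/
theorem tm_basis {A : M2} (h1 : A 1 1 = -A 0 0) (h2 : A 0 0 ^ 2 + A 0 1 * A 1 0 = 0)
    (h0 : mred 1 A ≠ 0) : ∃ (B : M2) (c : ℤ_[2]), B.det = 1 ∧ IsUnit c ∧
      A * B = B * !![0, c; 0, 0] := by
  obtain ⟨a, b, c, d, rfl⟩ : ∃ a b c d, A = !![a, b; c, d] := ⟨_, _, _, _, eta_fin_two A⟩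
  simp only [of_apply, cons_val', cons_val_zero, cons_val_one, cons_val_fin_one] at h1 h2
  subst h1
  by_cases hb : IsUnit b
  · obtain ⟨b', e⟩ := hb.exists_right_inv
    refine ⟨!![b, 0; -a, b'], b', by rw [det_fin_two_of, e]; ring,
      IsUnit.of_mul_eq_one_right _ e, ?_⟩
    ext i j
    fin_cases i <;> fin_cases j <;> simp
    · ring
    · linear_combination h2
  by_cases hc : IsUnit c
  · obtain ⟨c', e⟩ := hc.exists_right_inv
    refine ⟨!![a, -c'; c, 0], -c', by rw [det_fin_two_of]; linear_combination e,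
      (IsUnit.of_mul_eq_one_right _ e).neg, ?_⟩
    ext i j
    fin_cases i <;> fin_cases j <;> simp
    · linear_combination h2
    · ring
  rw [tm_unit] at hb hc
  have k1 := (tm_cases _).resolve_right hb
  have k3 := congrArg (PadicInt.toZModPow 1) h2
  rw [map_add, map_mul, k1, zero_mul, add_zero, map_zero, map_pow] at k3
  have k4 : PadicInt.toZModPow 1 a = 0 := (tm_cases _).resolve_right fun k => by
    rw [k] at k3
    exact absurd k3 (by decide)
  refine absurd ?_ h0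
  ext i j
  fin_cases i <;> fin_cases j <;> simp [mred_apply, k1, k4, (tm_cases _).resolve_right hc]

theorem tm_inv_mat {B : M2} (h : B.det = 1) : B * B.adjugate = 1 ∧ B.adjugate * B = 1 :=
  ⟨by rw [mul_adjugate, h, one_smul], by rw [adjugate_mul, h, one_smul]⟩

theorem tm_line {A B : M2} {c : ℤ_[2]} (hB : B.det = 1) (hc : IsUnit c)
    (h : A * B = B * !![0, c; 0, 0]) {v : Fin 2 → ZMod (2 ^ 1)} (hv : v ≠ 0)
    (hk : mred 1 A *ᵥ v = 0) : mred 1 B *ᵥ ![1, 0] = v := by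
  obtain ⟨y, hy⟩ : ∃ y, y = mred 1 B.adjugate *ᵥ v := ⟨_, rfl⟩
  have h1 : mred 1 B *ᵥ y = v := by
    rw [hy, mulVec_mulVec, ← mred_mul, (tm_inv_mat hB).1, mred_one, one_mulVec]
  have h2 : mred 1 !![0, c; 0, 0] *ᵥ y = 0 := by
    rw [← one_mulVec (_ *ᵥ y), ← mred_one, ← (tm_inv_mat hB).2, mulVec_mulVec, ← mred_mul,
      mul_assoc, ← h, mred_mul, mred_mul, ← mulVec_mulVec, ← mulVec_mulVec, h1, hk, mulVec_zero]
  have h3 : y 1 = 0 := by
    simpa [mred_apply, mulVec, dotProduct, tm_unit.1 hc] using congrFun h2 0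
  rcases tm_cases (y 0) with k | k
  · refine absurd ?_ hv
    rw [← h1, show y = 0 from funext (Fin.forall_fin_two.2 ⟨k, h3⟩), mulVec_zero]
  · rw [← h1]
    exact congrArg _ (funext (Fin.forall_fin_two.2 ⟨k.symm, h3.symm⟩))

theorem tm_upow (c : ℤ_[2]) (j : ℕ) : (!![1, c; 0, 1] : M2) ^ j = !![1, j * c; 0, 1] := by
  induction j with
  | zero => rw [pow_zero, Nat.cast_zero, zero_mul, one_fin_two]
  | succ j ih =>
    rw [pow_succ, ih]
    ext i k
    fin_cases i <;> fin_cases k <;> simp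
    ring

theorem tm_conj_pow {X B U : M2} (h : X * B = B * U) (j : ℕ) : X ^ j * B = B * U ^ j := by
  induction j with
  | zero => simp
  | succ j ih => rw [pow_succ', mul_assoc, ih, ← mul_assoc, h, mul_assoc, ← pow_succ']

/-- The shape of the representation at a place of multiplicative reduction. -/
theorem Rho.mult (h : Rho ρ) (hw : w.p ≠ 2) (hτ : Gen w τ) {A : M2} (hA : ρ τ = 1 + 2 • A)
    (h0 : mred 1 A ≠ 0) (hn : mred 1 A * mred 1 A = 0) {v : Fin 2 → ZMod (2 ^ 1)} (hv : v ≠ 0)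
    (hk : mred 1 A *ᵥ v = 0) : ∃ (B : M2) (ε : ℤ), (ε = 1 ∨ ε = -1) ∧ B.det = 1 ∧
      mred 1 B *ᵥ ![1, 0] = v ∧
      (∀ σ ∈ Ine w, ∃ c, ρ σ * B = B * !![1, 2 * c; 0, 1] ∧ (Gen w σ → IsUnit c)) ∧
      ∀ φ, IsFrob w w.p φ → ∃ b, ρ φ * B = B * !![(ε : ℤ_[2]) * w.p, b; 0, ε] := by
  obtain ⟨φ₀, hφ₀⟩ := exists_frob w
  obtain ⟨a1, a2⟩ := tm_nil w.prime.two_le (hA ▸ (h.det τ).trans (cyc_ine hw hτ.1)) hn
    (hA ▸ tm_trace (h.frob hw hφ₀ hτ.1))
  obtain ⟨B, c, dB, hc, hB⟩ := tm_basis a1 a2 h0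
  obtain ⟨h1, h3⟩ := tm_inv_mat dB
  generalize B.adjugate = B' at h1 h3
  have hX : ∀ j : ℕ, ρ τ ^ j * B = B * !![1, j * (2 * c); 0, 1] := fun j => by
    rw [← tm_upow]
    refine tm_conj_pow ?_ j
    rw [hA, add_mul, smul_mul_assoc, hB, one_mul, ← mul_smul_comm, ← mul_one_add]
    congr 1
    ext i k
    fin_cases i <;> fin_cases k <;> simp
  have k1 : ∀ A : M2, A * B = B * (B' * A * B) := fun A => by
    rw [← mul_assoc, ← mul_assoc, h1, one_mul]
  have k0 : ∀ {X Y : M2}, B * X = B * Y → X = Y := fun {X Y} e => by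
    rw [← one_mul X, ← h3, mul_assoc, e, ← mul_assoc, h3, one_mul]
  have hI : ∀ σ ∈ Ine w, ∃ c, ρ σ * B = B * !![1, 2 * c; 0, 1] := fun σ hσ => by
    have k2 : ∀ k : ℕ, ∃ j : ℕ, ∀ i l, 2 ^ k ∣ (B' * ρ σ * B) i l -
        (!![1, j * (2 * c); 0, 1] : M2) i l := fun k => by
      obtain ⟨j, C, hC⟩ := h.gen hw hτ hσ k
      refine ⟨j, fun i l => ⟨(B' * C * B) i l, ?_⟩⟩
      rw [hC, mul_add, add_mul, mul_assoc B', hX, ← mul_assoc, h3, one_mul, mul_smul_comm,
        smul_mul_assoc, Matrix.add_apply, Matrix.smul_apply, nsmul_eq_mul]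
      push_cast
      ring
    have k4 := k1 (ρ σ)
    generalize B' * ρ σ * B = M at k2 k4
    obtain ⟨j, hj⟩ := k2 1
    obtain ⟨y, hy⟩ := hj 0 1
    have m0 : M 0 0 = 1 := eq_of_dvd fun k => (k2 k).elim fun _ h => by simpa using h 0 0
    have m2 : M 1 0 = 0 := eq_of_dvd fun k => (k2 k).elim fun _ h => by simpa using h 1 0
    have m3 : M 1 1 = 1 := eq_of_dvd fun k => (k2 k).elim fun _ h => by simpa using h 1 1
    simp only [of_apply, cons_val', cons_val_one, cons_val_zero, cons_val_fin_one] at hy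
    have m1 : M 0 1 = 2 * (j * c + y) := by linear_combination hy
    exact ⟨_, by rw [k4, eta_fin_two M, m0, m1, m2, m3]⟩
  have hF : ∀ φ, IsFrob w w.p φ → ∃ (ε : ℤ) (b : ℤ_[2]), (ε = 1 ∨ ε = -1) ∧
      ρ φ * B = B * !![(ε : ℤ_[2]) * w.p, b; 0, ε] := fun φ hφ => by
    have k2 := k1 (ρ φ)
    generalize B' * ρ φ * B = M at k2
    have k3 : M * !![1, (1 : ℕ) * (2 * c); 0, 1] = !![1, w.p * (2 * c); 0, 1] * M := k0 (by
      rw [← mul_assoc, ← k2, mul_assoc, ← hX, pow_one, ← mul_assoc, h.frob hw hφ hτ.1,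
        mul_assoc, k2, ← mul_assoc, hX, mul_assoc])
    have k4 : M.det = w.p := by
      have k5 := congrArg Matrix.det k2
      rw [det_mul, det_mul, dB, mul_one, one_mul, h.det, cyc_frob hw hφ] at k5
      exact k5.symm
    obtain ⟨x, y, z, t, rfl⟩ : ∃ x y z t, M = !![x, y; z, t] := ⟨_, _, _, _, eta_fin_two M⟩
    have k6 := congrFun (congrFun k3 1) 1
    have k7 := congrFun (congrFun k3 0) 1
    rw [det_fin_two_of] at k4
    simp only [mul_fin_two, of_apply, cons_val', cons_val_one, cons_val_zero,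
      cons_val_fin_one, Nat.cast_one] at k6 k7
    have c2 : 2 * c ≠ 0 := mul_ne_zero two_ne_zero hc.ne_zero
    obtain rfl : z = 0 := mul_left_cancel₀ c2 (by linear_combination k6)
    obtain rfl : x = w.p * t := mul_left_cancel₀ c2 (by linear_combination k7)
    rcases mul_self_eq_one_iff.1 (mul_left_cancel₀ (Nat.cast_ne_zero.2 w.prime.ne_zero)
      (show (w.p : ℤ_[2]) * (t * t) = w.p * 1 by linear_combination k4)) with rfl | rfl
    · exact ⟨1, y, .inl rfl, by simpa using k2⟩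
    · exact ⟨-1, y, .inr rfl, by simpa using k2⟩
  obtain ⟨ε, b, e1, e2⟩ := hF φ₀ hφ₀
  refine ⟨B, ε, e1, dB, tm_line dB hc hB hv hk, fun σ hσ => ?_, fun φ hφ => ?_⟩
  · obtain ⟨c', hc'⟩ := hI σ hσ
    refine ⟨c', hc', fun hg => ?_⟩
    obtain ⟨j, C, hC⟩ := h.gen hw hg hτ.1 2
    have k2 := hX 1
    rw [pow_one, hC, add_mul, tm_conj_pow hc', tm_upow, smul_mul_assoc, k1 C, ← mul_smul_comm,
      ← mul_add] at k2
    have k3 := congrFun (congrFun (k0 k2) 0) 1
    generalize B' * C * B = D at k3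
    rw [Matrix.add_apply, Matrix.smul_apply, nsmul_eq_mul] at k3
    simp at k3
    have k4 : c = j * c' + 2 * D 0 1 :=
      mul_left_cancel₀ (two_ne_zero (α := ℤ_[2])) (by linear_combination -k3)
    rw [tm_unit] at hc ⊢
    rw [k4, map_add, tm_even.2 ⟨_, rfl⟩, add_zero, map_mul] at hc
    exact (tm_cases _).resolve_left fun k => by
      rw [k, mul_zero] at hc
      exact absurd hc (by decide)
  · obtain ⟨c', hc'⟩ := hI _ (hφ₀.inv_mul_mem hφ)
    refine ⟨ε * w.p * (2 * c') + b, ?_⟩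
    rw [← mul_inv_cancel_left φ₀ φ, map_mul, mul_assoc, hc', ← mul_assoc, e2, mul_assoc]
    congr 1
    ext i k
    fin_cases i <;> fin_cases k <;> simp

end Pool.Agent.B4
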