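import Pool.Agent.Lib.MP_696deb_nt.B2.CMz

/-! Forms, ideal classes and genus characters. -/

set_option autoImplicit false

open scoped Classical NumberTheorySymbols

namespace Pool.Agent.B4

open Pool.Agent.Lib.MP_696deb_nt Pool.Agent.Lib.MP_696deb_nt.B2 Pool.Agent.Lib.MP_696deb_nt.B2.CM

variable {n c p : ℕ} {a τ τ' : ℂ} {Q Q' : Fm} {g : Gam} {x y z w : ℤ}

theorem ok_neg (ok : Ok n c) : -((n : ℤ) * c ^ 2) < 0 := by
  have h1 : (0 : ℤ) < n := by have := ok.gt; omega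
  have h2 : (c : ℤ) ≠ 0 := by exact_mod_cast ok.ne
  exact neg_lt_zero.2 (by positivity)

theorem be_froot (hD : fdisc Q = -(n * c ^ 2)) (h : 0 < Q.1) :
    be n c (-Q.2.1) = Q.1 * froot Q := by
  have h0 : (Q.1 : ℂ) ≠ 0 := by exact_mod_cast h.ne'
  rw [froot, hD, be, ← del_eq, Gal.del]
  push_cast
  field_simp

theorem idl_froot (hD : fdisc Q = -(n * c ^ 2)) (h : 0 < Q.1) :
    idl n c Q.1 (-Q.2.1) = sc Q.1 (sp2 (froot Q) 1) := by
  rw [idl, be_froot hD h, sc_sp2, mul_one, cmb_comm]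

theorem sp2_mob (e : x * w - y * z = 1) (hτ : 0 < τ.im) :
    sp2 τ 1 = sc (z * τ + w) (sp2 (mob x y z w τ) 1) := by
  rw [sc_sp2, mul_one, mob, mul_div_cancel₀ _ (den_ne (a := x) (b := y) (by omega) hτ),
    ← cmc_basis e τ 1, mul_one, mul_one]

theorem exists_mob (hτ : 0 < τ.im) (hτ' : 0 < τ'.im) (ha : a ≠ 0)
    (e : sp2 τ' 1 = sc a (sp2 τ 1)) :
    ∃ x y z w : ℤ, x * w - y * z = 1 ∧ a = z * τ' + w ∧ τ = mob x y z w τ' := by
  obtain ⟨x, y, e1⟩ := cmd_mem (e ▸ (mul_mem_sc ha).2 (left_mem_sp2 τ 1) : a * τ ∈ sp2 τ' 1)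
  obtain ⟨z, w, e2⟩ := cmd_mem (e ▸ (mul_mem_sc ha).2 (right_mem_sp2 τ 1) : a * 1 ∈ sp2 τ' 1)
  obtain ⟨_, h1, e3⟩ := mem_sc.1 (e ▸ left_mem_sp2 τ' 1)
  obtain ⟨_, h2, e4⟩ := mem_sc.1 (e ▸ right_mem_sp2 τ' 1)
  obtain ⟨s, t, rfl⟩ := cmd_mem h1
  obtain ⟨u, v, rfl⟩ := cmd_mem h2
  rw [mul_one] at e2
  obtain ⟨k1, k2⟩ := tau_indep hτ'.ne' (x := s * x + t * z - 1) (y := s * y + t * w)
    (by push_cast; linear_combination e3 - s * e1 - t * e2)
  obtain ⟨k3, k4⟩ := tau_indep hτ'.ne' (x := u * x + v * z) (y := u * y + v * w - 1)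
    (by push_cast; linear_combination e4 - u * e1 - v * e2)
  have k5 : τ = mob x y z w τ' := by rw [mob, ← e1, ← e2, mul_div_cancel_left₀ _ ha]
  have k6 : (x * w - y * z) * (s * v - t * u) = 1 := by
    linear_combination (u * y + v * w) * k1 + k4 - (u * x + v * z) * k2
  refine ⟨x, y, z, w, (Int.eq_one_or_neg_one_of_mul_eq_one k6).resolve_right fun h => ?_, e2, k5⟩
  rw [k5, im_mob, h] at hτ
  have := div_nonneg hτ'.le (sq_nonneg ‖(z : ℂ) * τ' + w‖)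
  push_cast at hτ
  rw [neg_one_mul, neg_div] at hτ
  linarith

theorem exists_fmap (hD : fdisc Q < 0) (e : fdisc Q' = fdisc Q) (h : 0 < Q.1) (h' : 0 < Q'.1)
    (ha : a ≠ 0) (k : sp2 (froot Q') 1 = sc a (sp2 (froot Q) 1)) :
    ∃ x y z w : ℤ, x * w - y * z = 1 ∧ a = z * froot Q' + w ∧ Q' = fmap Q x y z w := by
  have i := im_froot_pos (e ▸ hD) h'
  obtain ⟨x, y, z, w, k1, k2, k3⟩ := exists_mob (im_froot_pos hD h) i ha k
  have k4 := fdisc_fmap k1 Q
  refine ⟨x, y, z, w, k1, k2, froot_inj (k4 ▸ hD) (fmap_pos k1 hD h) h' (e.trans k4.symm)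
    (eq_froot (k4 ▸ hD) (fmap_pos k1 hD h) i ?_)⟩
  have k5 := froot_root hD h
  rw [k3, mob, ← k2] at k5
  field_simp at k5
  simp only [fmap, fval]
  push_cast
  rw [k2] at k5
  linear_combination k5

/-- The genus characters of the Galois group and of forms agree. -/
theorem chi_form (ok : Ok n c) (hg : g ∈ GK n) (hp : p.Prime) (h2 : p ≠ 2) (hd : p ∣ n * c)
    (hD : fdisc Q = -(n * c ^ 2)) (h : 0 < Q.1) (hI : IsIv (Oc n c) (sp2 (froot Q) 1))
    (e : rho n c g = cl _ (sp2 (froot Q) 1)) : (chi (pst p) g : ℤ) = Gal.gp p Q := by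
  obtain ⟨σ, hσ⟩ := exists_ex g
  obtain ⟨κ, hκ0, hκ⟩ := Gal.exists_pow_zeta σ hp.pos
  obtain ⟨I, k⟩ := exists_cjS σ (isLat_Oc ok)
  obtain ⟨a, ha, rfl⟩ := (cl_eq_iff hI (k.isIv ok (.inl (hσ.dl hg)) (isIv_one _))).1
    (e.symm.trans (rho_cj ok hσ k))
  have hn : 0 < n := by have := ok.gt; omega
  have i1 : 0 < (be n c c).im := by
    have := dl_im hn
    have := Nat.pos_of_ne_zero ok.ne
    simp only [be, Complex.div_ofNat_im, Complex.add_im, Complex.intCast_im, Complex.mul_im,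
      Complex.natCast_re, Complex.natCast_im, zero_mul, add_zero, zero_add]
    positivity
  have i2 := im_froot_pos (hD ▸ ok_neg ok) h
  have e1 : (Unif.pairOf ⟨_, i1⟩ one_ne_zero).lattice = ot (Oc n c) := by
    change sp2 (1 * be n c c) 1 = _
    rw [one_mul, cmb_comm, cma_ot ok.m4]
  have e2 : (Unif.pairOf ⟨_, i2⟩ ha).lattice = sc a (sp2 (froot Q) 1) := by
    change sp2 (a * froot Q) a = _
    rw [sc_sp2, mul_one]
  have j := k.cj e1 e2
  have p0 : (p : ℂ) ≠ 0 := by exact_mod_cast hp.ne_zero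
  obtain ⟨u, hu⟩ := j.exists_rel ((((0 : ℤ) : ℂ) * (Unif.pairOf ⟨_, i1⟩ one_ne_zero).ω₁ +
    (1 : ℤ) * (Unif.pairOf ⟨_, i1⟩ one_ne_zero).ω₂) / p)
  obtain ⟨s, t, e3⟩ := PeriodPair.mem_lattice.mp ((j.nat_mul hu p).mem_iff.mpr (by
    rw [mul_div_cancel₀ _ p0]; exact PeriodPair.mem_lattice.mpr ⟨_, _, rfl⟩))
  obtain rfl := (eq_div_iff p0).mpr ((mul_comm _ _).trans e3.symm)
  obtain ⟨v, hv⟩ := two_dvd_sub (n := n) (c := c) (b := -Q.2.1) (N := Q.1 * Q.2.2) ok.m4 (by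
    rw [fdisc] at hD; linear_combination hD)
  have e4 : be n c c = Q.1 * froot Q - v := by
    rw [← be_froot hD h, show -Q.2.1 = c + 2 * v by omega, cmc_be_add, add_sub_cancel_right]
  have e5 := froot_root (hD ▸ ok_neg ok) h
  have := Gal.weil j (by simpa [Unif.pairOf] using i1)
    (by simpa [Unif.pairOf, mul_div_cancel_left₀ _ ha] using i2) hp hκ hu (c := 1) (d := 0)
    (c' := Q.1 * t - (Q.2.1 + v) * s) (d' := -Q.2.2 * s - v * t) (by
      convert hu.isog j j (α := be n c c) (fun e => i1.ne' (by rw [e]; rfl)) (fun z hz => by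
        rw [e1] at hz ⊢
        exact (isIv_one _).mul_mem (be_mem ok.m4 (by simp)) hz) using 1
      · simp [Unif.pairOf, div_eq_mul_inv]
      · rw [cmb_be_pos (hσ.dl hg), e4]
        simp only [Unif.pairOf]
        push_cast
        linear_combination -(a * s / p) * e5)
  have h3 : (p : ℤ) ∣ fval Q t (-s) - κ := by
    exact Gal.dvd_eq this.neg_right (by rw [fval]; ring)
  have h4 : ¬ (p : ℤ) ∣ fval Q t (-s) := fun h5 => (Nat.prime_iff_prime_int.1 hp).not_isUnit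
    (hκ0.isUnit_of_dvd' ((dvd_sub_right h5).1 h3) dvd_rfl)
  rw [chi_pst hp h2 hσ hκ, Gal.gp_eq hp h2 (by
    rw [hD, dvd_neg, sq, ← mul_assoc]
    exact Dvd.dvd.mul_right (by exact_mod_cast hd) _) h4]
  exact jacobiSym.mod_left' (Int.modEq_iff_dvd.mpr h3)

theorem exists_form (ok : Ok n c) (x : Pc n c) : ∃ Q : Fm, fdisc Q = -(n * c ^ 2) ∧ 0 < Q.1 ∧
    IsIv (Oc n c) (sp2 (froot Q) 1) ∧ cl _ (sp2 (froot Q) 1) = x := by
  obtain ⟨I, hI, rfl⟩ := cl_surj x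
  obtain ⟨a, m, b, k, ha, hm, e, -, rfl⟩ := hI.exists_idl ok
  have h1 : fdisc (m, -b, k) = -(n * c ^ 2) := by simp only [fdisc]; linear_combination e
  have h2 := idl_froot h1 hm
  have h3 : a * m ≠ 0 := mul_ne_zero ha (by exact_mod_cast hm.ne')
  simp only [neg_neg] at h2
  rw [h2, sc_sc] at hI ⊢
  have h4 := hI.sc (inv_ne_zero h3)
  rw [sc_inv_sc h3] at h4
  exact ⟨_, h1, hm, h4, (cl_sc h4 h3).symm⟩

theorem chi_rho (ok : Ok n c) (hg : g ∈ GK n) (hp : p.Prime) (h2 : p ≠ 2) (hd : p ∣ n * c)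
    (h : tq _ (rho n c g) = 1) : chi (pst p) g = 1 := by
  obtain ⟨k, hk, h⟩ := tq_eq_one.1 h
  have h1 : fdisc (1, c, c ^ 2 * ((n + 1) / 4)) = -(n * c ^ 2) := by
    simp only [fdisc]
    linear_combination -(c : ℤ) ^ 2 * cma_four ok.m4
  have h3 := idl_froot h1 one_pos
  simp only [Int.cast_one, sc_one, idl] at h3
  rw [← ot_Oc ok.m4 ⟨-c, by ring⟩] at h3
  have h4 := chi_form ok ((GK n).pow_mem hg k) hp h2 hd h1 one_pos (h3 ▸ isIv_one _)
    (by rw [rho_pow ok hg, h, ← h3, cl_one])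
  rw [Gal.gp, if_neg (cmd_one hp), jacobiSym.one_left, map_pow] at h4
  refine (Int.units_eq_one_or _).resolve_right fun h5 => ?_
  rw [h5, hk.neg_one_pow] at h4
  exact absurd h4 (by decide)

theorem ne_two (hn : n % 4 = 3) (h : p ∣ n) : p ≠ 2 := by
  rintro rfl
  omega

theorem chi_rho_one (ok : Ok n 1) (hs : Squarefree n) (hg : g ∈ GK n) {e : ℤ} (he : e ∣ n)
    (h4 : e % 4 = 1) (h : tq _ (rho n 1 g) = 1) : chi e g = 1 := by
  rw [chi_eq_prod ((Int.squarefree_natCast.2 hs).squarefree_of_dvd he) h4]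
  refine Finset.prod_eq_one fun p hp => ?_
  have h2 : p ∣ n := (Nat.dvd_of_mem_primeFactors hp).trans (Int.natAbs_dvd_natAbs.2 he)
  exact chi_rho ok hg (Nat.prime_of_mem_primeFactors hp) (ne_two ok.m4 h2) (h2.mul_right _) h

theorem isIv_froot (ok : Ok n 1) (hs : Squarefree n) (hD : fdisc Q = -n) (h : 0 < Q.1) :
    IsIv (Oc n 1) (sp2 (froot Q) 1) := by
  have h0 : (Q.1 : ℂ) ≠ 0 := by exact_mod_cast h.ne'
  have h1 : fdisc Q = -(n * (1 : ℕ) ^ 2) := by simpa using hD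
  have h2 := idl_mul_ot (n := n) (c := 1) (m := Q.1) (b := -Q.2.1) (k := Q.2.2) ok.m4 (by
    rw [fdisc] at h1; linear_combination h1)
  refine isIv_of_sqf ok hs (isLat_sp2 (im_froot_pos (h1 ▸ ok_neg ok) h).ne') fun a ha z hz => ?_
  rw [← mul_mem_sc h0, ← idl_froot h1 h] at hz ⊢
  rw [mul_left_comm, mul_comm, ← h2]
  exact Submodule.mul_mem_mul hz ha

theorem red_spec (hn : 0 < n) (h : Q ∈ redForms n) :
    fdisc Q = -n ∧ 0 < Q.1 ∧ IsReduced3 Q.1 Q.2.1 Q.2.2 := by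
  obtain ⟨h5, h6⟩ := (mem_redForms (a := Q.1) (b := Q.2.1) (c := Q.2.2) hn).mp h
  refine ⟨h5, ((abs_nonneg _).trans h6.1).lt_of_ne fun h => ?_, h6⟩
  have := sq_nonneg Q.2.1
  rw [← h, mul_zero, zero_mul] at h5
  omega

/-- The classes of the maximal order correspond to the reduced forms. -/
theorem exists_bij_red (ok : Ok n 1) (hs : Squarefree n) : ∃ e : Pc n 1 → Fm,
    Set.BijOn e Set.univ (redForms n) ∧ ∀ x, cl _ (sp2 (froot (e x)) 1) = x := by
  have hn := ok.gt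
  have h1 : ∀ x : Pc n 1, ∃ Q ∈ redForms n, cl _ (sp2 (froot Q) 1) = x := fun x => by
    obtain ⟨Q, h1, h2, h3, rfl⟩ := exists_form ok x
    obtain ⟨a, b, c, d, e, h4⟩ := Gal.exists_red (n := n) (by simpa using h1) (by omega) h2
    obtain ⟨h5, h6, -⟩ := red_spec (by omega) h4
    have i := im_froot_pos (by omega) h6
    refine ⟨_, h4, ?_⟩
    rw [sp2_mob e i, mob_froot e (h1 ▸ ok_neg ok) h2,
      cl_sc h3 (den_ne (a := a) (b := b) (by omega) i)]
  choose e he hx using h1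
  refine ⟨e, ⟨fun x _ => he x, fun x _ y _ h => by rw [← hx x, ← hx y, h], fun Q h => ?_⟩, hx⟩
  obtain ⟨h2, h3, h4⟩ := red_spec (by omega) h
  obtain ⟨h5, h6, h7⟩ := red_spec (by omega) (he (cl _ (sp2 (froot Q) 1)))
  obtain ⟨a, ha, k⟩ := (cl_eq_iff (isIv_froot ok hs h2 h3) (isIv_froot ok hs h5 h6)).1 (hx _).symm
  obtain ⟨x, y, z, w, k1, -, k2⟩ := exists_fmap (by omega) (h5.trans h2.symm) h3 h6 ha k
  refine ⟨_, trivial, k2.trans ?_⟩
  rw [k2] at h7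
  obtain ⟨rfl, rfl, rfl, t⟩ := reduced_rigid (Int.squarefree_natCast.mpr hs)
    (by have := ok.m4; omega) (by omega) h2 k1 h4 h7
  rcases t with rfl | rfl <;> simp [fmap, fval]

theorem genus_gp (hs : Squarefree n) (hp : p ∈ n.primeFactors) (hD : fdisc Q = -n) :
    genus p Q.1 Q.2.2 = 0 ↔ Gal.gp p Q = 1 := by
  have hp' := Nat.prime_of_mem_primeFactors hp
  have := Fact.mk hp'
  unfold genus Gal.gp
  split_ifs with ha
  · rw [aleg_eq_legendre (not_dvd_c hp' (Int.squarefree_natCast.mpr hs)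
      (Int.natCast_dvd_natCast.mpr (Nat.dvd_of_mem_primeFactors hp)) hD ha),
      jacobiSym.legendreSym.to_jacobiSym]
    simp
  · rw [aleg_eq_legendre ha, jacobiSym.legendreSym.to_jacobiSym]
    simp

/-- Under the condition on the class group, the principal genus has odd order. -/
theorem tq_sep (ok : Ok n 1) (hs : Squarefree n) (hB : CondB n) (hg : g ∈ GK n)
    (h : ∀ p ∈ n.primeFactors, chi (pst p) g = 1) : tq _ (rho n 1 g) = 1 := by
  obtain ⟨e, he, hx⟩ := exists_bij_red ok hs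
  have hn := ok.gt
  let H : Subgroup (Pc n 1) :=
    { carrier := {x | ∃ g ∈ GK n, (∀ p ∈ n.primeFactors, chi (pst p) g = 1) ∧ rho n 1 g = x}
      one_mem' := ⟨1, one_mem _, fun _ _ => map_one _, rho_one ok⟩
      mul_mem' := by
        rintro _ _ ⟨g, hg, h1, rfl⟩ ⟨h, hh, h2, rfl⟩
        exact ⟨g * h, mul_mem hg hh, fun p hp => by rw [map_mul, h1 p hp, h2 p hp, one_mul],
          rho_mul ok hg h⟩
      inv_mem' := by
        rintro _ ⟨g, hg, h1, rfl⟩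
        exact ⟨g⁻¹, inv_mem hg, fun p hp => by rw [map_inv, h1 p hp, inv_one], rho_inv ok hg⟩ }
  have key : ∀ g ∈ GK n, ∀ p ∈ n.primeFactors, genus p (e (rho n 1 g)).1 (e (rho n 1 g)).2.2 = 0 ↔
      chi (pst p) g = 1 := fun g hg p hp => by
    obtain ⟨h1, h2, -⟩ := red_spec (by omega) (he.1 (Set.mem_univ (rho n 1 g)))
    have h3 := Nat.dvd_of_mem_primeFactors hp
    rw [genus_gp hs hp h1, ← chi_form ok hg (Nat.prime_of_mem_primeFactors hp) (ne_two ok.m4 h3)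
      (h3.mul_right _) (by simpa using h1) h2 (isIv_froot ok hs h1 h2) (hx _).symm, Units.val_eq_one]
  have hb : Set.BijOn e H ((redForms n).filter fun f => ∀ p ∈ n.primeFactors,
      genus p f.1 f.2.2 = 0) := by
    refine ⟨?_, he.injOn.mono (Set.subset_univ _), fun Q h => ?_⟩
    · rintro _ ⟨g, hg, h1, rfl⟩
      exact Finset.mem_filter.2 ⟨he.1 trivial, fun p hp => (key g hg p hp).2 (h1 p hp)⟩
    · obtain ⟨h1, h2⟩ := Finset.mem_filter.1 h
      obtain ⟨y, -, rfl⟩ := he.2.2 h1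
      obtain ⟨g, hg, rfl⟩ := rho_surj ok y
      exact ⟨_, ⟨g, hg, fun p hp => (key g hg p hp).1 (h2 p hp), rfl⟩, rfl⟩
  have hc : Odd (Nat.card H) := by
    have := odd_card_genus hs ok.m4 hn hB (fun _ => 0) (by simp)
    rw [← Nat.card_eq_finsetCard] at this
    exact (Nat.card_congr (hb.equiv e)).symm ▸ this
  exact tq_eq_one.2 ⟨_, hc, congrArg Subtype.val (pow_card_eq_one' (x := (⟨_, g, hg, h, rfl⟩ : H)))⟩

theorem tq_two (ok : Ok n 1) (hs : Squarefree n) (hB : CondB n) (x : Pc n 1) :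
    tq _ x ^ 2 = 1 := by
  obtain ⟨g, hg, rfl⟩ := rho_surj ok x
  rw [← map_pow, ← rho_pow ok hg]
  exact tq_sep ok hs hB (pow_mem hg 2) fun p _ => by rw [map_pow, sq, Int.units_mul_self]

end Pool.Agent.B4
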