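import Pool.Agent.Lib.MP_696deb_nt.B4.HSa

/-! The two-primary ring class groups. -/

set_option autoImplicit false

open scoped Classical NumberTheorySymbols

namespace Pool.Agent.B4

open Pool.Agent.Lib.MP_696deb_nt Pool.Agent.Lib.MP_696deb_nt.B2 Pool.Agent.Lib.MP_696deb_nt.B2.CM

variable {n c d l : ℕ} {w : Plc} {g τ : Gam}

/-- What the theory of ring class groups uses of the discriminant. -/
structure Nw (n : ℕ) : Prop where
  sqf : Squarefree n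
  m8 : n % 8 = 3
  gt : 3 < n
  condB : CondB n

/-- Products of distinct odd inert primes. -/
def Aw (n c : ℕ) : Prop := Squarefree c ∧ ∀ l : ℕ, l.Prime → l ∣ c → l ≠ 2 ∧ J(-n | l) = -1

theorem Nw.ok (hn : Nw n) (hc : Aw n c) : Ok n c :=
  ⟨by have := hn.m8; omega, hn.gt, hc.1.ne_zero⟩

theorem aw_one : Aw n 1 := ⟨squarefree_one, fun _ hl h => absurd (Nat.dvd_one.1 h) hl.ne_one⟩

theorem Aw.dvd (h : Aw n d) (hc : c ∣ d) : Aw n c :=
  ⟨h.1.squarefree_of_dvd hc, fun l hl k => h.2 l hl (k.trans hc)⟩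

theorem Aw.mul (h : Aw n (c * l)) (hl : l.Prime) : l ≠ 2 ∧ J(-n | l) = -1 ∧ ¬ l ∣ c :=
  ⟨(h.2 l hl (dvd_mul_left l c)).1, (h.2 l hl (dvd_mul_left l c)).2,
    fun k => hl.not_isUnit (h.1 l (mul_dvd_mul_right k l))⟩

theorem Nw.fin (hn : Nw n) (c : ℕ) : Finite (Pc n c) :=
  finite_Pc (by have := hn.m8; omega) hn.gt c

theorem Nw.two (hn : Nw n) (hw : w.p = 2) : ∃ g ∈ Dec w, g ∉ GK n := by
  obtain ⟨φ, hφ⟩ := exists_frob w
  refine ⟨φ, hφ.1, fun h => ?_⟩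
  have h0 := hn.gt
  have h1 := chi_dec_two (a := -n * 5) hw (by have := hn.m8; omega) hφ.1
  rw [chi_mul (by omega) (by norm_num), B4c_mem.1 h, chi_frob_two hw (hw ▸ hφ)] at h1
  exact absurd h1 (by decide)

theorem hs_unr (F : CFT) (hn : Nw n) (hc : Aw n c) (hw : ¬ w.p ∣ c) (hg : g ∈ GK n ⊓ Ine w) :
    psi n c g = 1 := by
  have ok := hn.ok hc
  have := hn.fin c
  by_cases h : w.p ∣ n
  · exact tq_rho_ram ok hn.sqf h hg
  by_cases k : ∃ s ∈ Dec w, s ∉ GK n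
  · obtain ⟨s, hs, hs'⟩ := k
    by_contra k
    obtain ⟨m, θ, -, h2⟩ := exists_char tw_two ⊥ (a := psi n c g) k
    exact h2 (unr_inert F ok (θ.comp (tq _)) h hw hs hs' hg)
  · have h2 : w.p ≠ 2 := fun e => k (hn.two e)
    obtain ⟨φ, hφ⟩ := exists_frob w
    have h3 : φ ∈ GK n := by_contra fun e => k ⟨φ, hφ.1, e⟩
    have h4 : ¬ (w.p : ℤ) ∣ 2 * -n := fun e => by
      rcases (Nat.prime_iff_prime_int.1 w.prime).dvd_mul.1 e with e | e
      · exact h2 ((Nat.prime_dvd_prime_iff_eq w.prime Nat.prime_two).1 (by exact_mod_cast e))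
      · exact h (by exact_mod_cast (dvd_neg.1 e))
    have h5 := chi_frob h4 hφ
    rw [B4c_mem.1 h3] at h5
    obtain ⟨b, k, e, hb⟩ := exists_root_split ok.m4 w.prime h2 h5.symm hw
    rw [psi, rho_ine_split ok e hb hg.2, map_one]

theorem hs_card (hn : Nw n) (hd : d = c * l) (hl : l.Prime) (ha : Aw n d) :
    Nat.card (twm (pj n c d)).ker = ordProj[2] (l + 1) := by
  subst hd
  obtain ⟨h2, hJ, hc⟩ := ha.mul hl
  have := hn.fin (c * l)
  rw [card_ker_twm, card_ker_pj (hn.ok (ha.dvd (dvd_mul_right c l))) hl h2 hJ hc]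

/-- The inertia group generates the kernel of the projection. -/
theorem hs_ker (F : CFT) (hn : Nw n) (hd : d = c * w.p) (ha : Aw n d) (hτ : Gen w τ) :
    (twm (pj n c d)).ker = Subgroup.zpowers (psi n d τ) := by
  subst hd
  obtain ⟨h2, hJ, hc⟩ := ha.mul w.prime
  have ha' := ha.dvd (dvd_mul_right c w.p)
  have hI := cmz_ine h2 hJ
  have := hn.fin (c * w.p)
  refine le_antisymm (fun a h => by_contra fun k => ?_) (Subgroup.zpowers_le.2 ?_)
  · obtain ⟨m, θ, h1, h3⟩ := exists_char tw_two _ k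
    obtain ⟨x, hx, rfl⟩ := ker_twm h
    refine h3 (ram_onto F (hn.ok ha') (θ.comp (tq _)) h2 hJ hc (fun s hs => h1 _ ?_) hx)
    obtain ⟨j, hj⟩ := tame_gen h2 hτ (π := psi n (c * w.p)) ((sm_rho _ _ _).comp (tq _))
      (fun g hg k hk => psi_mul (hn.ok ha) g (hI hg) k (hI hk)) (fun g _ => tw_two _) hs
    exact ⟨j, (zpow_natCast _ j).trans hj.symm⟩
  · rw [MonoidHom.mem_ker, pr_psi (hn.ok ha) (dvd_mul_right c w.p)]
    exact hs_unr F hn ha' hc ⟨hI hτ.1, hτ.1⟩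

theorem hs_nu (F : CFT) (hn : Nw n) (l s : ℕ) :
    ∃ ν : Tw (Pc n l) →* Multiplicative (ZMod (2 ^ s)), l.Prime → Aw n l →
      2 ^ (s + 1) ∣ l + 1 → (∀ a, a ^ 2 = 1 → ν a = 1) ∧
        ∀ (w : Plc) (τ : Gam), w.p = l → Gen w τ → IsUnit (ν (psi n l τ)).toAdd := by
  by_cases h : l.Prime ∧ Aw n l ∧ 2 ^ (s + 1) ∣ l + 1
  swap
  · exact ⟨1, fun a b c => absurd ⟨a, b, c⟩ h⟩
  obtain ⟨hl, ha, hs⟩ := h
  obtain ⟨w, rfl⟩ := exists_plc hl
  have e := (one_mul w.p).symm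
  obtain ⟨h2, hJ, -⟩ := Aw.mul (e ▸ ha : Aw n (1 * w.p)) hl
  obtain ⟨τ, hτ⟩ := exists_gen h2
  have ok := hn.ok ha
  have hk := hs_ker F hn e ha hτ
  obtain ⟨θ, hθ⟩ := exists_lift (GK n) (psi n w.p) (chi (pst w.p)) (psi_mul ok)
    (psi_surj ok) fun g hg k => chi_rho ok hg hl h2 (dvd_mul_left _ _) k
  obtain ⟨ν, h3, h4⟩ := exists_nu (γ := psi n w.p τ) (v := (w.p + 1).factorization 2) (s := s)
    (by rw [← Nat.card_zpowers, ← hk, hs_card hn e hl ha])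
    ((Nat.prime_two.pow_dvd_iff_le_factorization (Nat.succ_ne_zero _)).1 hs) fun a => by
      obtain ⟨j, hj⟩ : a ^ 2 ∈ Subgroup.zpowers (psi n w.p τ) := by
        obtain ⟨x, rfl⟩ := tq_surj a
        rw [← hk, MonoidHom.mem_ker, map_pow, twm_tq]
        exact tq_two (hn.ok aw_one) hn.sqf hn.condB _
      have h5 := congrArg θ hj
      rw [map_zpow, map_pow, hθ τ (cmz_ine h2 hJ hτ.1), cmz_pst h2 hτ, Int.units_sq] at h5
      obtain ⟨k, rfl⟩ | hk := Int.even_or_odd j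
      · exact ⟨k, by rw [two_mul, ← hj]⟩
      · rw [hk.neg_one_zpow] at h5
        exact absurd h5 (by decide)
  refine ⟨ν, fun _ _ _ => ⟨h4, fun v σ hv hσ => ?_⟩⟩
  obtain ⟨j, hj⟩ : psi n w.p τ ∈ Subgroup.zpowers (psi n w.p σ) := by
    rw [← hs_ker F hn (c := 1) (by rw [hv, one_mul]) ha hσ, hk]
    exact Subgroup.mem_zpowers _
  have h5 := congrArg (fun x => (ν x).toAdd) hj
  simp only [map_zpow, h3, toAdd_zpow, toAdd_ofAdd, zsmul_eq_mul] at h5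
  exact IsUnit.of_mul_eq_one_right _ h5

theorem hs_gen (hn : Nw n) (e : ℤ) : ∃ θ : Tw (Pc n 1) →* ℤˣ,
    e ∣ n → e % 4 = 1 → ∀ g ∈ GK n, θ (psi n 1 g) = chi e g := by
  by_cases h : e ∣ n ∧ e % 4 = 1
  swap
  · exact ⟨1, fun a b => absurd ⟨a, b⟩ h⟩
  have ok := hn.ok aw_one
  obtain ⟨θ, hθ⟩ := exists_lift (GK n) (psi n 1) (chi e) (psi_mul ok) (psi_surj ok)
    fun g hg k => chi_rho_one ok hn.sqf hg h.1 h.2 k
  exact ⟨θ, fun _ _ => hθ⟩

theorem hs_fib [Fintype (Tw (Pc n (c * l)))] (F : CFT) (hn : Nw n) (hl : l.Prime)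
    (ha : Aw n (c * l)) {s : ℕ} (ν : Tw (Pc n l) →* Multiplicative (ZMod (2 ^ s)))
    (hν : ∀ (w : Plc) (τ : Gam), w.p = l → Gen w τ → IsUnit (ν (psi n l τ)).toAdd)
    (a : Tw (Pc n c)) (x : Multiplicative (ZMod (2 ^ s))) :
    (Finset.univ.filter fun a' => twm (pj n c (c * l)) a' = a ∧
      ν (twm (pj n l (c * l)) a') = x).card * 2 ^ s = ordProj[2] (l + 1) := by
  obtain ⟨w, rfl⟩ := exists_plc hl
  obtain ⟨h2, hJ, hc⟩ := ha.mul hl
  obtain ⟨τ, hτ⟩ := exists_gen h2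
  have ok := hn.ok (ha.dvd (dvd_mul_right c w.p))
  have h := card_fib_two (twm_surj (pj_surj ok hl h2 hJ hc)) (ν.comp (twm (pj n w.p (c * w.p))))
    (fun y => by
      obtain ⟨u, hu⟩ := (hν w τ rfl hτ).exists_left_inv
      refine ⟨psi n (c * w.p) τ ^ (y.toAdd * u).val, ?_, Multiplicative.toAdd.injective ?_⟩
      · rw [← MonoidHom.mem_ker, hs_ker F hn rfl ha hτ]
        exact Subgroup.npow_mem_zpowers _ _
      · rw [map_pow, MonoidHom.comp_apply, pr_psi (hn.ok ha) (dvd_mul_left _ _), toAdd_pow,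
          nsmul_eq_mul, ZMod.natCast_zmod_val, mul_assoc, hu, mul_one]) a x
  rw [hs_card hn rfl hl ha, Nat.card_congr Multiplicative.toAdd, Nat.card_zmod] at h
  convert h
  rfl

end Pool.Agent.B4
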