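import Pool.Agent.Lib.MP_696deb_nt.B4.GE1
import Pool.Agent.Lib.MP_696deb_nt.B4.Lk0

/-! Complex conjugation on twisted Heegner points. -/

set_option autoImplicit false

open Finset Filter Topology NumberTheorySymbols ComplexConjugate
open scoped Classical

namespace Pool.Agent.B4

open Pool.Agent.Lib.MP_696deb_nt Pool.Agent.Shared.Weier

variable {W : WeierstrassCurve ℚ} {N n e : ℕ} {D r : ℤ} {z z' z'' : ℂ} {Q R : Fm} {T : Finset Fm}

theorem fi_unif_conj {L : PeriodPair} (h : IsPer L (W.baseChange ℂ)) (z : ℂ) :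
    pmap (W := W) (starRingEnd ℂ) (h.unif z) = h.unif (conj z) :=
  (Gal.rel_iff_pmap (σ := starRingAut) h).mp ((Gal.rel_conj L z).2.congr_lat
    ((Gal.rel_conj L z).1.unique (Gal.cj_self h _)))

theorem GE.Par.F_conj (P : GE.Par W N) (hz : 0 < z.im) : P.F (-conj z) = conj (P.F z) := by
  have e : q1 (-conj z) = conj (q1 z) := by
    rw [q1, q1, ← Complex.exp_conj]
    simp [map_ofNat]
  refine (P.qe.hasSum (by simpa using hz)).unique ?_
  convert! Complex.hasSum_conj'.mpr (P.qe.hasSum hz) using 2 with k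
  simp [e]

theorem GE.Par.φ_conj (P : GE.Par W N) (hz : 0 < z.im) :
    pmap (starRingEnd ℂ) (P.φ z) = P.φ (-conj z) := by
  rw [GE.Par.φ, GE.Par.φ, P.F_conj hz, fi_unif_conj]

theorem GEq.symm (h : GEq N z z') (hz : 0 < z.im) : GEq N z' z := by
  obtain ⟨g, h1, h2, rfl⟩ := h
  exact ⟨g.adjugate, by rw [det_adjugate_two, h1], by simpa [Matrix.adjugate_fin_two] using h2,
    (act_adjugate (by omega) hz).symm⟩

theorem GEq.trans (h : GEq N z z') (h' : GEq N z' z'') (hz : 0 < z.im) : GEq N z z'' := by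
  obtain ⟨g, h1, h2, rfl⟩ := h
  obtain ⟨k, h3, h4, rfl⟩ := h'
  have := GE.G0.mul ⟨h3, h4⟩ ⟨h1, h2⟩
  exact ⟨k * g, this.1, this.2, (act_mul _ (by omega) hz).symm⟩

/-- The composition of the involution of Fricke with the reflection. -/
noncomputable def sig (N : ℕ) (z : ℂ) : ℂ := -1 / (N * -conj z)

theorem sig_sig (hN : N ≠ 0) (z : ℂ) : sig N (sig N z) = z := by
  have : (N : ℂ) ≠ 0 := by exact_mod_cast hN
  simp [sig, mul_div_cancel_left₀ _ this, ← div_eq_mul_inv]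

theorem GEq.sig (h : GEq N z z') (hN : N ≠ 0) (hz : 0 < z.im) : GEq N (sig N z) (sig N z') := by
  obtain ⟨g, h1, ⟨c, h2⟩, rfl⟩ := h
  have n0 : (N : ℂ) ≠ 0 := by exact_mod_cast hN
  have z0 : conj z ≠ 0 := fun k => by simp [(map_eq_zero _).1 k] at hz
  refine ⟨!![g 1 1, c; N * g 0 1, g 0 0], ?_, dvd_mul_right _ _, ?_⟩
  · rw [Matrix.det_fin_two, h2] at h1
    rw [Matrix.det_fin_two_of]
    linear_combination h1
  · simp only [B4.sig, act, mob, h2, map_div₀, map_add, map_mul, map_intCast, Matrix.of_apply,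
      Matrix.cons_val', Matrix.cons_val_zero, Matrix.cons_val_one, Matrix.cons_val_fin_one]
    push_cast
    rw [mul_neg, mul_neg, neg_div_neg_eq, neg_div_neg_eq, one_div, mul_inv, inv_div,
      show (N : ℂ) * g 0 1 * (1 / (N * conj z)) + g 0 0 = (g 0 0 * conj z + g 0 1) / conj z by
        field_simp; ring, div_div_eq_mul_div, ← mul_div_assoc]
    congr 1
    field_simp
    ring

/-- The form whose root is the image of the root under the involution. -/
def stN (N : ℕ) (Q : Fm) : Fm := (N * Q.2.2, Q.2.1, Q.1 / N)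

theorem Hg.im_pos (h : Hg N D r Q) (hD : D < 0) : 0 < (froot Q).im :=
  im_froot_pos (h.disc ▸ hD) h.pos

theorem Hg.st (h : Hg N D r Q) (hN : N ≠ 0) (hD : D < 0) :
    Hg N D r (stN N Q) ∧ froot (stN N Q) = sig N (froot Q) := by
  obtain ⟨a, ha⟩ := h.lev
  have n0 : (0 : ℤ) < N := by omega
  have n1 : (N : ℂ) ≠ 0 := by exact_mod_cast hN
  have e : Q.1 / N = a := by rw [ha, Int.mul_ediv_cancel_left _ n0.ne']
  have h0 := h.im_pos hD
  have h1 : Hg N D r (stN N Q) := ⟨by rw [← h.disc]; simp only [fdisc, stN, e]; rw [ha]; ring,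
    mul_pos n0 (pos_c (h.disc ▸ hD) h.pos), dvd_mul_right _ _, h.res⟩
  have h4 : conj (froot Q) ≠ 0 := fun k => by simp [(map_eq_zero _).1 k] at h0
  refine ⟨h1, (eq_froot (h1.disc ▸ hD) h1.pos ?_ ?_).symm⟩
  · have := act_pos (M := !![0, -1; (N : ℤ), 0]) (z := -conj (froot Q)) (by simpa using n0)
      (by simpa using h0)
    simpa [act_of, mob, sig] using this
  have h3 := congr_arg conj (froot_root (h.disc ▸ hD) h.pos)
  rw [ha] at h3
  simp only [map_add, map_mul, map_pow, map_intCast, map_zero] at h3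
  simp only [stN, e, sig]
  push_cast at h3 ⊢
  field_simp
  linear_combination h3

theorem Hg.gch_st (h : Hg N D r Q) (he : Squarefree e) (ho : Odd e) (hd : (e : ℤ) ∣ D)
    (hc : e.Coprime N) : gch e Q = J(N | e) * gch e (stN N Q) := by
  obtain ⟨a, ha⟩ := h.lev
  rw [jac_eq_prod _ he, Gal.gch_eq, Gal.gch_eq, ← prod_mul_distrib]
  refine prod_congr rfl fun p hp => ?_
  have h1 := Nat.prime_of_mem_primeFactors hp
  have h2 := Nat.dvd_of_mem_primeFactors hp
  have hP := Nat.prime_iff_prime_int.mp h1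
  have h3 : ¬ (p : ℤ) ∣ N := fun k =>
    h1.not_dvd_one (hc ▸ Nat.dvd_gcd h2 (Int.natCast_dvd_natCast.1 k))
  have n0 : (N : ℤ) ≠ 0 := fun k => h3 (k ▸ dvd_zero _)
  have h4 := jac_sq h1 h3
  simp only [Gal.gp, stN, ha, Int.mul_ediv_cancel_left _ n0, hP.dvd_mul, h3, false_or,
    jacobiSym.mul_left]
  split_ifs with k1 k2 k2
  · rw [jac_zero_of_dvd h1 k1, jac_zero_of_dvd h1 k2, mul_zero]
  · linear_combination -J(Q.2.2 | p) * h4
  · rfl
  · rw [← jacobiSym.mul_left, Gal.jac_of_dvd h1 (fun k => by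
      rw [k] at h2; exact (Nat.not_even_iff_odd.2 ho) (even_iff_two_dvd.2 h2))
      (fun k => (hP.dvd_or_dvd k).elim h3 k1) k2 (w := Q.2.1) (by
        rw [← ha]
        exact ((Int.natCast_dvd_natCast.2 h2).trans hd).trans (dvd_of_eq h.disc.symm))]
    linear_combination -J(Q.2.2 | p) * h4

theorem Hg.gch_eq (h : Hg N (-n) r Q) (h' : Hg N (-n) r R) (hn : Squarefree n) (ho : Odd e)
    (hd : e ∣ n) (k : GEq N (froot R) (froot Q)) : gch e R = gch e Q := by
  have hD : -(n : ℤ) < 0 := by have := hn.ne_zero; omega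
  obtain ⟨g, h1, -, h2⟩ := k
  have h3 := h1
  rw [Matrix.det_fin_two] at h3
  have h4 : fdisc Q < 0 := h.disc ▸ hD
  have h5 := fdisc_fmap h3 Q
  have h6 := fmap_pos h3 h4 h.pos
  obtain rfl : R = fmap Q (g 0 0) (g 0 1) (g 1 0) (g 1 1) :=
    froot_inj (h5 ▸ h4) h6 h'.pos (by rw [h5, h.disc, h'.disc]) (by
      rw [← act_adjugate (M := g) (by omega) (h'.im_pos hD), ← h2, ← mob_froot h3 h4 h.pos]
      exact act_adjugate (by omega) (im_froot_pos (h5 ▸ h4) h6))
  refine prod_congr rfl fun p hp => ?_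
  have p1 := Nat.prime_of_mem_primeFactors hp
  have p2 := Nat.dvd_of_mem_primeFactors hp
  have p3 : p ≠ 2 := fun k => by
    rw [k] at p2; exact (Nat.not_even_iff_odd.2 ho) (even_iff_two_dvd.2 p2)
  have p4 : (p : ℤ) ∣ n := Int.natCast_dvd_natCast.2 (p2.trans hd)
  obtain ⟨x, y, p5⟩ : ∃ x y, ¬ (p : ℤ) ∣ fval (fmap Q (g 0 0) (g 0 1) (g 1 0) (g 1 1)) x y := by
    by_cases k : (p : ℤ) ∣ (fmap Q (g 0 0) (g 0 1) (g 1 0) (g 1 1)).1
    · exact ⟨0, 1, by
        simpa [fval] using not_dvd_c p1 (Int.squarefree_natCast.mpr hn) p4 h'.disc k⟩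
    · exact ⟨1, 0, by simpa [fval] using k⟩
  refine (Gal.gp_eq p1 p3 (h'.disc ▸ dvd_neg.2 p4) p5).trans ?_
  rw [fval_fmap] at p5 ⊢
  exact (Gal.gp_eq p1 p3 (h.disc ▸ dvd_neg.2 p4) p5).symm

/-- The action of complex conjugation on the twisted Heegner point. -/
theorem HRp.conj_sum (hT : HRp N (-n) r T) (P : GE.Par W N) (hn : Squarefree n) (ho : Odd e)
    (hd : e ∣ n) (hc : e.Coprime N) :
    pmap (starRingEnd ℂ) (∑ Q ∈ T, gch e Q • P.φ (froot Q)) =
      (∑ Q ∈ T, gch e Q) • P.per.unif P.t0 - J(N | e) • ∑ Q ∈ T, gch e Q • P.φ (froot Q) := by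
  have hD : -(n : ℤ) < 0 := by have := hn.ne_zero; omega
  have hN := P.N0
  choose! ω o1 o2 using fun Q hQ => hT.ex _ ((hT.mem Q hQ).st hN hD).1
  have i := fun Q hQ => (hT.mem Q hQ).im_pos hD
  have inj : Set.InjOn ω T := fun Q hQ R hR k => by
    have k1 := ((hT.mem Q hQ).st hN hD)
    have := (((o2 Q hQ).symm (i _ (o1 Q hQ))).trans (k ▸ o2 R hR) (k1.1.im_pos hD)).sig hN
      (k1.1.im_pos hD)
    rw [k1.2, ((hT.mem R hR).st hN hD).2, sig_sig hN, sig_sig hN] at this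
    exact hT.uniq Q hQ R hR this
  have s := sum_nbij ω o1 inj (surjOn_of_injOn_of_card_le ω o1 inj le_rfl)
    (f := fun Q => gch e (ω Q) • P.φ (froot (ω Q))) (g := fun Q => gch e Q • P.φ (froot Q))
    fun _ _ => rfl
  rw [map_sum, ← s, Finset.sum_smul (R := ℤ) (M := Pt W ℂ), smul_sum, ← sum_sub_distrib]
  refine sum_congr rfl fun Q hQ => ?_
  have k1 := (hT.mem Q hQ).st hN hD
  obtain ⟨g, g1, g2, g3⟩ := o2 Q hQ
  rw [map_zsmul, P.φ_conj (i Q hQ), k1.1.gch_eq (hT.mem _ (o1 Q hQ)) hn ho hd (o2 Q hQ), smul_smul,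
    ← (hT.mem Q hQ).gch_st (hn.squarefree_of_dvd hd) ho
      (dvd_neg.2 (Int.natCast_dvd_natCast.2 hd)) hc, ← smul_sub,
    ← P.inv0 g ⟨g1, g2⟩ _ (i _ (o1 Q hQ)), ← g3, k1.2, sig, P.φ_al (by simpa using i Q hQ),
    sub_sub_cancel]

/-- The value at the cusp zero is killed by `l + 1 - a l`. -/
theorem GE.Par.t0_kill (P : GE.Par W N) {l : ℕ} (hl : l.Prime) (h : ¬ l ∣ N) :
    ((l : ℤ) + 1 - P.a l) • P.per.unif P.t0 = 0 := by
  have n0 : (0 : ℝ) < N := by exact_mod_cast Nat.pos_of_ne_zero P.N0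
  have n1 : (N : ℂ) ≠ 0 := by exact_mod_cast P.N0
  have l0 : (0 : ℝ) < l := by exact_mod_cast hl.pos
  have l1 : (l : ℂ) ≠ 0 := by exact_mod_cast hl.ne_zero
  have w : ∀ z : ℂ, 0 < z.im → 0 < (-1 / (N * z)).im := fun z hz => by
    simpa [act_of, mob] using act_pos (M := !![0, -1; (N : ℤ), 0]) (by simpa using n0) hz
  have key : ∀ i : Option (Fin l), ∃ (s : ℝ) (c : ℝ), 0 < s ∧ ∀ z : ℂ, 0 < z.im →
      P.F (act (rP l i) (-1 / (N * z))) - (P.t0 - P.F (s * z + c)) ∈ P.L.lattice := by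
    rintro (_ | k)
    · refine ⟨(l : ℝ)⁻¹, 0, inv_pos.2 l0, fun z hz => ?_⟩
      rw [← P.al _ (by simpa using mul_pos (inv_pos.2 l0) hz), act_none, sub_eq_zero.2]
      · exact zero_mem _
      · congr 1
        push_cast
        field_simp
        simp
    by_cases k0 : (k : ℕ) = 0
    · refine ⟨l, 0, l0, fun z hz => ?_⟩
      rw [← P.al _ (by simpa using mul_pos l0 hz), GE.act_rP_some, sub_eq_zero.2]
      · exact zero_mem _
      · congr 1
        rw [k0]
        push_cast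
        rw [add_zero, add_zero, div_div]
        ring
    obtain ⟨a, c, e⟩ : IsCoprime (l : ℤ) ((k : ℕ) * N) :=
      (Nat.isCoprime_iff_coprime.2 ((Nat.coprime_of_lt_prime k0 k.2 hl))).mul_right
        (Nat.isCoprime_iff_coprime.2 (hl.coprime_iff_not_dvd.2 h))
    refine ⟨(l : ℝ)⁻¹, -c / l, inv_pos.2 l0, fun z hz => ?_⟩
    have z0 : z ≠ 0 := fun k => by simp [k] at hz
    have h1 : 0 < (((l : ℝ)⁻¹ : ℝ) * z + (-c / l : ℝ)).im := by
      simpa using mul_pos (inv_pos.2 l0) hz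
    rw [← P.al _ h1]
    convert P.inv !![a, (k : ℕ); N * -c, l] ⟨by rw [Matrix.det_fin_two_of]; linear_combination e,
      dvd_mul_right _ _⟩ _ (w _ h1) using 3
    have h2 : z - c ≠ 0 := fun k => by simp [sub_eq_zero.1 k] at hz
    replace e := congrArg (Int.cast : ℤ → ℂ) e
    rw [GE.act_rP_some, act_of, mob, show (((l : ℝ)⁻¹ : ℝ) * z + (-c / l : ℝ) : ℂ) = (z - c) / l by
      push_cast; ring]
    push_cast at e ⊢
    rw [show (N : ℂ) * -c * (-1 / (N * ((z - c) / l))) + l = l * z / (z - c) by field_simp; ring]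
    field_simp
    linear_combination e
  choose s c hs hc using key
  have t : Tendsto P.F atI (𝓝 0) := by simpa [P.A0] using P.qe.tendsto
  rw [← neg_eq_zero, ← neg_smul, ← map_zsmul, P.per.unif_eq_zero_iff]
  refine P.L.isClosed_lattice.mem_of_tendsto (b := atI) (f := fun z => P.a l * (P.t0 - P.F z) -
    ∑ i, (P.t0 - P.F (s i * z + c i))) ?_ (ev_pos.mono fun z hz => ?_)
  · convert! ((t.const_sub P.t0).const_mul (P.a l : ℂ)).sub (tendsto_finsetSum univ fun i _ =>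
      (t.comp (tendsto_affine (hs i) (c i))).const_sub P.t0) using 2
    rw [sum_const, card_univ, Fintype.card_option, Fintype.card_fin]
    simp
    ring
  · rw [← P.al z hz, ← P.hecke l hl h _ (w z hz), ← sum_sub_distrib]
    exact sum_mem fun i _ => hc i z hz

end Pool.Agent.B4
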