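import Pool.Agent.Lib.MP_696deb_nt.B4.GBc
import Pool.Agent.Lib.MP_696deb_nt.Symbol

/-! The primitive of a cusp form of weight two. -/

set_option autoImplicit false

open PowerSeries Filter Topology Complex
open scoped Real MatrixGroups

namespace Pool.Agent.Lib.MP_696deb_nt.B4

variable {f G h : ℂ → ℂ} {A B : ℂ⟦X⟧} {N : ℕ} {g : MZ} {z : ℂ}

/-- The formal primitive. -/
noncomputable def prS (A : ℂ⟦X⟧) : ℂ⟦X⟧ := PowerSeries.mk fun n => coeff n A / n

/-- The sum of the formal primitive. -/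
noncomputable def prF (A : ℂ⟦X⟧) (z : ℂ) : ℂ := ∑' n : ℕ, coeff n A / n * q1 z ^ n

theorem gl_qe (h : QE f A) : QE (prF A) (prS A) := QE.of_hasSum fun z hz => by
  obtain ⟨G, hG, _⟩ := h
  simp only [prS, coeff_mk]
  refine (Summable.of_norm_bounded (hG.summable_norm (norm_q1_lt hz)) fun n => ?_).hasSum
  rw [norm_mul, norm_mul, norm_div]
  gcongr
  rcases Nat.eq_zero_or_pos n with rfl | hn
  · simp
  · exact div_le_self (norm_nonneg _) (by simpa using Nat.succ_le_of_lt hn)

theorem gl_deriv (h : QE f A) (h0 : coeff 0 A = 0) (hz : 0 < z.im) :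
    HasDerivAt (prF A) (2 * π * I * f z) z := by
  obtain ⟨F₁, h1, h2⟩ := (gl_qe h).hasDerivAt
  have h3 : X * d⁄dX ℂ (prS A) = A := by
    ext n
    rcases n with _ | n
    · simpa using h0.symm
    · have : (n + 1 : ℂ) ≠ 0 := Nat.cast_add_one_ne_zero n
      simp [coeff_succ_X_mul, coeff_derivative, prS, this]
  rw [h3] at h1
  rw [h.eq_of_eq h1 hz]
  exact h2 z hz

theorem gl_zero (h : QE f A) : Tendsto (prF A) atI (𝓝 0) := by
  simpa [prS] using (gl_qe h).tendsto

theorem gl_int (hG : ∀ z : ℂ, 0 < z.im → HasDerivAt G (2 * π * I * h z) z) (hB : QE h B)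
    (h0 : coeff 0 B = 0) : ∃ c, QE G (C c + prS B) := by
  obtain ⟨c, hc⟩ := const_of_deriv (G := fun z => G z - prF B z) fun z hz => by
    have := (hG z hz).fun_sub (gl_deriv hB h0 hz)
    rwa [sub_self] at this
  exact ⟨c, ((QE.const c).add (gl_qe hB)).congr fun z hz => by rw [← hc z hz, sub_add_cancel]⟩

theorem gl_act (hg : 0 < g.det) (hA : QE f A) (h0 : coeff 0 A = 0) (hz : 0 < z.im) :
    HasDerivAt (fun z => prF A (act g z)) (2 * π * I * (g.det * f (act g z) / den g z ^ 2)) z := by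
  have := (gl_deriv hA h0 (act_pos hg hz)).comp z
    (hasDerivAt_mob (a := g 0 0) (b := g 0 1) (c := g 1 0) (d := g 1 1)
      (by rw [← Matrix.det_fin_two]; exact hg.ne') hz)
  rw [← Matrix.det_fin_two] at this
  convert! this using 1
  rw [den]
  ring

/-- The expansion of the primitive at every cusp. -/
theorem gl_cusp (hN : N ≠ 0) (hA : QE f A) (h0 : coeff 0 A = 0)
    (hi : ∀ γ : MZ, γ.det = 1 → (N : ℤ) ∣ γ 1 0 → ∀ z : ℂ, 0 < z.im →
      f (act γ z) = den γ z ^ 2 * f z) (hg : g.det = 1)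
    (hc : Tendsto (fun z => f (act g z) / den g z ^ 2) atI (𝓝 0)) :
    ∃ B, QE (fun z => prF A (act g (N * z))) B := by
  have n0 : (0 : ℝ) < N := by exact_mod_cast Nat.pos_of_ne_zero hN
  have p0 : ∀ z : ℂ, 0 < z.im → 0 < ((N : ℂ) * z).im := fun z hz => by simpa using mul_pos n0 hz
  have p1 : Tendsto (fun z : ℂ => (N : ℂ) * z) atI atI := by simpa using tendsto_affine n0 0
  have p2 := (hc.comp p1).const_mul (N : ℂ)
  have t1 : Matrix.det !![1, (N : ℤ); 0, 1] = 1 := by simp
  have t2 : ∀ z : ℂ, act !![1, (N : ℤ); 0, 1] z = z + N := fun z => by simp [act_of, mob]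
  have t3 : ∀ z : ℂ, 0 < z.im → f (act g (z + N)) / den g (z + N) ^ 2 =
      f (act g z) / den g z ^ 2 := fun z hz => by
    have e : g * !![1, (N : ℤ); 0, 1] = g * !![1, (N : ℤ); 0, 1] * g.adjugate * g := by
      rw [mul_assoc _ _ g, Matrix.adjugate_mul, hg, one_smul, mul_one]
    have d1 := den_mul g (N := !![1, (N : ℤ); 0, 1]) (by omega) hz
    have d2 := den_mul (g * !![1, (N : ℤ); 0, 1] * g.adjugate) (N := g) (by omega) hz
    rw [← e, d1, t2, show den !![1, (N : ℤ); 0, 1] z = 1 by simp [den], mul_one] at d2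
    have d3 := den_ne' (M := g) (by omega) (z := z + N) (by simpa using hz)
    rw [← t2, ← act_mul _ (by omega) hz, e, act_mul _ (by omega) hz,
      hi _ (by simp [hg, det_adjugate_two]) ⟨-g 1 0 ^ 2, by
        simp [Matrix.mul_apply, Matrix.adjugate_fin_two]; ring⟩ _ (act_pos (by omega) hz), t2]
    rw [d2] at d3 ⊢
    rw [mul_pow, mul_div_mul_left _ _ (pow_ne_zero 2 (left_ne_zero_of_mul d3))]
  obtain ⟨B, hB⟩ := QE.exists_of_periodic
    (F := fun z => N * (f (act g (N * z)) / den g (N * z) ^ 2))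
    (fun z hz => by
      have k1 : DifferentiableAt ℂ (fun z : ℂ => f (act g (N * z))) z :=
        ((hA.hol _ (act_pos (by omega) (p0 z hz))).comp _
          (hol_act (by omega) _ (p0 z hz))).comp z (by fun_prop)
      have k2 := den_ne' (M := g) (by omega) (p0 z hz)
      have k3 : DifferentiableAt ℂ (fun z : ℂ => den g (N * z) ^ 2) z := by unfold den; fun_prop
      exact (k1.div k3 (pow_ne_zero 2 k2)).const_mul _)
    (fun z hz => by rw [mul_add, mul_one, t3 _ (p0 z hz)]) (Bdd.of_tendsto p2)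
  obtain ⟨c, k⟩ := gl_int (G := fun z => prF A (act g (N * z))) (fun z hz => by
    have := (gl_act (g := g) (by omega) hA h0 (p0 z hz)).comp z ((hasDerivAt_id z).const_mul (N : ℂ))
    convert! this using 1
    rw [hg]
    push_cast
    ring) hB (by simpa using tendsto_nhds_unique hB.tendsto p2)
  exact ⟨_, k⟩

theorem gl_eq_zero (hG : ∀ z : ℂ, 0 < z.im → HasDerivAt G 0 z) {c : ℂ}
    (h : Tendsto G atI (𝓝 c)) (hz : 0 < z.im) : G z = c := by
  obtain ⟨d, hd⟩ := const_of_deriv hG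
  rw [hd z hz]
  exact tendsto_nhds_unique (tendsto_const_nhds.congr' (ev_pos.mono fun z hz => (hd z hz).symm)) h

/-- The Hecke relation for the primitive. -/
theorem gl_hecke (hA : QE f A) (h0 : coeff 0 A = 0) {l : ℕ} (hl : l ≠ 0) {a : ℂ}
    (hT : ∀ z : ℂ, 0 < z.im →
      l * f (l * z) + (∑ k ∈ Finset.range l, f ((z + k) / l)) / l = a * f z) (hz : 0 < z.im) :
    prF A (l * z) + ∑ k ∈ Finset.range l, prF A ((z + k) / l) = a * prF A z := by
  have n0 : (0 : ℝ) < l := by exact_mod_cast Nat.pos_of_ne_zero hl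
  have p1 : Tendsto (fun z : ℂ => (l : ℂ) * z) atI atI := by simpa using tendsto_affine n0 0
  have p2 : ∀ k : ℕ, Tendsto (fun z : ℂ => (z + k) / l) atI atI := fun k =>
    (tendsto_affine (inv_pos.2 n0) (k / l)).congr fun z => by push_cast; ring
  refine sub_eq_zero.1 (gl_eq_zero (G := fun z => prF A (l * z) +
    ∑ k ∈ Finset.range l, prF A ((z + k) / l) - a * prF A z) (fun z hz => ?_) ?_ hz)
  · have k1 := (gl_deriv hA h0 (z := l * z) (by simpa using mul_pos n0 hz)).comp z
      ((hasDerivAt_id z).const_mul (l : ℂ))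
    have k2 := HasDerivAt.fun_sum (u := Finset.range l) fun k _ =>
      (gl_deriv hA h0 (z := (z + k) / l) (by simpa using div_pos hz n0)).comp z
        (((hasDerivAt_id z).add_const (k : ℂ)).div_const (l : ℂ))
    convert! (k1.add k2).sub ((gl_deriv hA h0 hz).const_mul a) using 1
    rw [← Finset.sum_mul, ← Finset.mul_sum]
    linear_combination -(2 * π * I) * hT z hz
  · simpa using (((gl_zero hA).comp p1).add (tendsto_finsetSum (Finset.range l) fun k _ =>
      (gl_zero hA).comp (p2 k))).sub ((gl_zero hA).const_mul a)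

/-- The Hecke relation for functions follows from the one for coefficients. -/
theorem gl_Tl (hA : QE f A) {l : ℕ} (hl : l.Prime) {a : ℂ}
    (hT : ∀ n, coeff (l * n) A + (if l ∣ n then l * coeff (n / l) A else 0) = a * coeff n A)
    (hz : 0 < z.im) :
    l * f (l * z) + (∑ k ∈ Finset.range l, f ((z + k) / l)) / l = a * f z := by
  have := Fact.mk hl
  have l0 : (l : ℂ) ≠ 0 := by exact_mod_cast hl.ne_zero
  have h1 := (hA.Up (p := l)).add ((hA.expand l hl.ne_zero).smul l)
  have h2 : (PowerSeries.mk fun n => coeff (l * n) A) + C (l : ℂ) * expand l hl.ne_zero A =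
      C a * A := by
    ext n
    rw [map_add, coeff_mk, coeff_C_mul, coeff_C_mul, coeff_expand, ← hT n, mul_ite, mul_zero]
  rw [h2] at h1
  rw [← h1.eq_of_eq (hA.smul a) hz, add_comm, Finset.sum_div]
  congr 1
  refine (Finset.sum_nbij' (fun j : ZMod l => j.val) (fun j : ℕ => (j : ZMod l)) (by
    simp [ZMod.val_lt]) (by simp) (by simp) (fun j hj => ZMod.val_cast_of_lt (by simpa using hj))
    fun j _ => ?_).symm
  simp only [sl, mob]
  simp only [Int.cast_one, one_mul, Int.cast_zero, zero_mul, zero_add, Int.cast_natCast, sub_zero,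
    mul_zero]
  field_simp

/-- The primitive under the involution of Fricke. -/
theorem gl_fricke (hN : N ≠ 0) (hA : QE f A) (h0 : coeff 0 A = 0)
    (hW : ∀ z : ℂ, 0 < z.im → f (-1 / (N * z)) = -(N * z ^ 2 * f z)) :
    ∃ Ω, (∀ z : ℂ, 0 < z.im → prF A (-1 / (N * z)) + prF A z = Ω) ∧
      Tendsto (fun y : ℝ => prF A (I * y)) (𝓝[>] 0) (𝓝 Ω) := by
  have n0 : (0 : ℝ) < N := by exact_mod_cast Nat.pos_of_ne_zero hN
  have n1 : (N : ℂ) ≠ 0 := by exact_mod_cast hN
  have e : ∀ z : ℂ, act !![0, -1; (N : ℤ), 0] z = -1 / (N * z) := fun z => by simp [act_of, mob]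
  obtain ⟨c, hc⟩ := const_of_deriv (G := fun z => prF A (-1 / (N * z)) + prF A z) fun z hz => by
    have z0 : z ≠ 0 := fun k => by simp [k] at hz
    have := (gl_act (g := !![0, -1; (N : ℤ), 0]) (by simpa using Nat.pos_of_ne_zero hN) hA h0
      hz).add (gl_deriv hA h0 hz)
    simp only [e] at this
    convert! this using 1
    rw [hW z hz]
    simp [den]
    field_simp
    ring
  refine ⟨c, hc, ?_⟩
  have t : Tendsto (fun y : ℝ => -1 / ((N : ℂ) * (I * y))) (𝓝[>] 0) atI := by
    refine tendsto_comap_iff.2 ((tendsto_inv_nhdsGT_zero.const_mul_atTop (inv_pos.2 n0)).congr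
      fun y => ?_)
    have : -1 / ((N : ℂ) * (I * y)) = (((N : ℝ)⁻¹ * y⁻¹ : ℝ) : ℂ) * I := by
      push_cast
      rw [div_eq_mul_inv, mul_inv, mul_inv, inv_I]
      ring
    rw [Function.comp_apply, this]
    simp
  have := ((gl_zero hA).comp t).const_sub c
  rw [sub_zero] at this
  refine this.congr' (eventually_mem_nhdsWithin.mono fun y hy => ?_)
  rw [← hc (I * y) (by simpa using hy), Function.comp_apply, add_sub_cancel_left]

/-- The primitive under complex conjugation. -/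
theorem gl_conj (hA : ∀ n, starRingEnd ℂ (coeff n A) = coeff n A) (z : ℂ) :
    prF A (-starRingEnd ℂ z) = starRingEnd ℂ (prF A z) := by
  have e : q1 (-starRingEnd ℂ z) = starRingEnd ℂ (q1 z) := by
    rw [q1, q1, ← exp_conj]
    simp [map_ofNat]
  rw [prF, prF, conj_tsum, e]
  simp [hA]

section
variable (F : CuspForm (CongruenceSubgroup.Gamma0 N : Subgroup (GL (Fin 2) ℝ)) 2)

/-- A cusp form as a function of a complex variable. -/
noncomputable def cf (z : ℂ) : ℂ := F (UpperHalfPlane.ofComplex z)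

theorem cf_coe (τ : UpperHalfPlane) : cf F τ = F τ := by rw [cf, UpperHalfPlane.ofComplex_apply]

theorem cf_slash (γ : SL(2, ℤ)) (τ : UpperHalfPlane) :
    (SlashAction.map (2 : ℤ) γ (F : UpperHalfPlane → ℂ)) τ =
      cf F (act γ.1 τ) / den γ.1 τ ^ 2 := by
  rw [ModularForm.SL_slash_apply, act, ← coe_smul_eq_mob, cf_coe, zpow_neg, div_eq_mul_inv]
  rfl

theorem cf_act (hg : g.det = 1) (hN : (N : ℤ) ∣ g 1 0) (hz : 0 < z.im) :
    cf F (act g z) = den g z ^ 2 * cf F z := by
  obtain ⟨γ, rfl⟩ : ∃ γ : SL(2, ℤ), γ.1 = g := ⟨⟨g, hg⟩, rfl⟩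
  have h1 := cf_slash F γ ⟨z, hz⟩
  have h2 : SlashAction.map (2 : ℤ) γ (F : UpperHalfPlane → ℂ) = F :=
    SlashInvariantForm.slash_action_eqn F (Matrix.SpecialLinearGroup.mapGL ℝ γ) ⟨γ,
      CongruenceSubgroup.Gamma0_mem.2 ((ZMod.intCast_zmod_eq_zero_iff_dvd _ _).2 hN), rfl⟩
  rw [h2, ← cf_coe, eq_div_iff (pow_ne_zero 2 (den_ne' (by simp [hg]) hz))] at h1
  rw [mul_comm]
  exact h1.symm

theorem cf_cusp [NeZero N] (hg : g.det = 1) :
    Tendsto (fun z => cf F (act g z) / den g z ^ 2) atI (𝓝 0) := by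
  obtain ⟨γ, rfl⟩ : ∃ γ : SL(2, ℤ), γ.1 = g := ⟨⟨g, hg⟩, rfl⟩
  have h1 := CuspFormClass.zero_at_infty_slash F γ
  have h2 : Tendsto UpperHalfPlane.ofComplex atI UpperHalfPlane.atImInfty :=
    UpperHalfPlane.tendsto_comap_im_ofComplex
  refine (Tendsto.comp h1 h2).congr' (ev_pos.mono fun z hz => ?_)
  rw [Function.comp_apply, UpperHalfPlane.ofComplex_apply_of_im_pos hz, cf_slash]

end

end Pool.Agent.Lib.MP_696deb_nt.B4
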