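import Pool.Agent.Lib.MP_696deb_nt.B4.GE0
import Pool.Agent.Lib.MP_696deb_nt.B4.GEl

/-! From an eigenform to the analytic data of a parametrization. -/

set_option autoImplicit false

open PowerSeries Filter Topology Complex
open scoped Real MatrixGroups

namespace Pool.Agent.B4.GE

open Pool.Agent.Lib.MP_696deb_nt Pool.Agent.Lib.MP_696deb_nt.B4 Pool.Agent.Shared.Weier

/-- An eigenform of weight two whose periods lie in the period lattice of a curve. -/
structure MD (W : WeierstrassCurve ℚ) (N : ℕ) where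
  N0 : N ≠ 0
  f : CuspForm (CongruenceSubgroup.Gamma0 N) 2
  c : ℕ → ℤ
  hc : c 1 = 1
  hf : ∀ τ : UpperHalfPlane, HasSum (fun n : ℕ => (c n : ℂ) * cexp (2 * π * I * τ) ^ n) (f τ)
  hT : ∀ l : ℕ, l.Prime → ¬ l ∣ N → ∀ n : ℕ,
    c (l * n) + (if l ∣ n then l * c (n / l) else 0) = c l * c n
  hW : ∀ τ τ₁ : UpperHalfPlane, (τ₁ : ℂ) = -1 / (N * τ) → f τ₁ = -(N * τ ^ 2) * f τ
  F : ℂ → ℂ
  hF : ∀ z, F z = ∑' n : ℕ, (c n : ℂ) / n * cexp (2 * π * I * z) ^ n
  L : PeriodPair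
  per : IsPer L (W.baseChange ℂ)
  k : ℚ
  hk : k ≠ 0
  hL : ∀ γ ∈ CongruenceSubgroup.Gamma0 N, ∀ τ : UpperHalfPlane,
    k * (F (γ • τ : UpperHalfPlane) - F τ) ∈ L.lattice
  Ω : ℂ
  hΩ : Tendsto (fun y : ℝ => F (y * I)) (𝓝[>] 0) (𝓝 Ω)

variable {W : WeierstrassCurve ℚ} {N : ℕ} (D : MD W N)

/-- The expansion of the form. -/
noncomputable def MD.S : ℂ⟦X⟧ := PowerSeries.mk fun n => (D.c n : ℂ)

theorem MD.qe : QE (cf D.f) D.S := QE.of_hasSum fun z hz => by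
  simpa only [MD.S, coeff_mk, ← cf_coe, q1] using D.hf ⟨z, hz⟩

theorem MD.F_eq : D.F = prF D.S := funext fun z => by simp only [D.hF, prF, MD.S, coeff_mk, q1]

theorem MD.S0 : coeff 0 D.S = 0 := by
  have : NeZero N := ⟨D.N0⟩
  refine tendsto_nhds_unique D.qe.tendsto ?_
  simpa only [act_one, den_one, one_pow, div_one] using cf_cusp D.f Matrix.det_one

theorem MD.fricke {z : ℂ} (hz : 0 < z.im) : D.F (-1 / (N * z)) = D.Ω - D.F z := by
  obtain ⟨Ω, h1, h2⟩ := gl_fricke D.N0 D.qe D.S0 fun z hz => by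
    have k : 0 < (-1 / (N * z)).im := by
      simpa [act_of, mob] using act_pos (M := !![0, -1; (N : ℤ), 0])
        (by simpa using Nat.pos_of_ne_zero D.N0) hz
    simpa only [← cf_coe, neg_mul] using D.hW ⟨z, hz⟩ ⟨_, k⟩ rfl
  have h3 := D.hΩ
  simp only [D.F_eq, mul_comm _ I] at h3 ⊢
  rw [tendsto_nhds_unique h3 h2, ← h1 z hz, add_sub_cancel_right]

theorem MD.conj (z : ℂ) : D.F (-starRingEnd ℂ z) = starRingEnd ℂ (D.F z) := by
  rw [D.F_eq]
  exact gl_conj (fun n => by simp [MD.S]) z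

/-- The analytic data. -/
noncomputable def MD.par : Par W N where
  N0 := D.N0
  L := D.L
  per := D.per
  F z := D.k * D.F z
  A := PowerSeries.mk fun n => D.k * (D.c n / n)
  qe := by
    convert (gl_qe D.qe).smul D.k using 1
    · rw [D.F_eq]
    · ext n
      simp [prS, MD.S]
  A0 := by simp
  A1 h := D.hk (by simpa [D.hc] using congrArg (coeff 1) h)
  inv g hg z hz := by
    obtain ⟨γ, rfl⟩ : ∃ γ : SL(2, ℤ), γ.1 = g := ⟨⟨g, hg.1⟩, rfl⟩
    have := D.hL γ (CongruenceSubgroup.Gamma0_mem.2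
      ((ZMod.intCast_zmod_eq_zero_iff_dvd _ _).2 hg.2)) ⟨z, hz⟩
    rw [coe_smul_eq_mob, mul_sub] at this
    exact this
  cusp g hg := by
    have : NeZero N := ⟨D.N0⟩
    obtain ⟨B, hB⟩ := gl_cusp D.N0 D.qe D.S0 (fun γ h1 h2 z hz => cf_act D.f h1 h2 hz) hg
      (cf_cusp D.f hg)
    exact ⟨_, D.F_eq ▸ hB.smul D.k⟩
  a := D.c
  hecke l hl h z hz := by
    have := gl_hecke D.qe D.S0 hl.ne_zero (a := D.c l) (fun z hz => gl_Tl D.qe hl (fun n => by
      simp only [MD.S, coeff_mk]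
      exact_mod_cast D.hT l hl h n) hz) hz
    rw [← Finset.mul_sum, mul_left_comm, D.F_eq, ← this, Fintype.sum_option, act_none,
      ← Fin.sum_univ_eq_sum_range fun k => prF D.S ((z + k) / l)]
    simp only [act_rP_some]
  t0 := D.k * D.Ω
  al z hz := by rw [D.fricke hz, mul_sub]

theorem MD.par_L : D.par.L = D.L := rfl

theorem MD.par_F (z : ℂ) : D.par.F z = D.k * D.F z := rfl

theorem MD.par_a : D.par.a = D.c := rfl

theorem MD.par_t0 : D.par.t0 = D.k * D.Ω := rfl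

theorem MD.par_φ (z : ℂ) : D.par.φ z = D.per.unif (D.k * D.F z) := rfl

end Pool.Agent.B4.GE
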