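import Pool.Agent.Lib.MP_696deb_nt.B4.GBd

/-! Laurent expansions, and the passage from complex to integral relations. -/

set_option autoImplicit false

open Polynomial Filter Topology
open scoped Classical

namespace Pool.Agent.B4.GE

open Pool.Agent.Lib.MP_696deb_nt Pool.Agent.Lib.MP_696deb_nt.B4

/-- Laurent series. -/
abbrev LL : Type := LaurentSeries ℂ

/-- Power series as Laurent series. -/
noncomputable abbrev io : PowerSeries ℂ →+* LL := HahnSeries.ofPowerSeries ℤ ℂ

/-- The variable. -/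
noncomputable def xx : LL := io PowerSeries.X

theorem xx_ne : xx ≠ 0 := fun h =>
  PowerSeries.X_ne_zero (HahnSeries.ofPowerSeries_injective (h.trans (map_zero io).symm))

/-- The function `F` has the Laurent expansion `a`. -/
def LS (F : ℂ → ℂ) (a : LL) : Prop :=
  ∃ (n : ℕ) (A : PowerSeries ℂ), QE (fun z => q1 z ^ n * F z) A ∧ io A = xx ^ n * a

variable {F G w : ℂ → ℂ} {a b : LL}

theorem LS.common (h : LS F a) (h' : LS G b) : ∃ (n : ℕ) (A B : PowerSeries ℂ),
    QE (fun z => q1 z ^ n * F z) A ∧ QE (fun z => q1 z ^ n * G z) B ∧ io A = xx ^ n * a ∧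
      io B = xx ^ n * b := by
  obtain ⟨n, A, h1, h2⟩ := h
  obtain ⟨m, B, h3, h4⟩ := h'
  refine ⟨m + n, _, _, (h1.pow_mul m).congr fun z _ => by ring,
    (h3.pow_mul n).congr fun z _ => by ring, ?_, ?_⟩
  · rw [map_mul, map_pow, h2, xx]
    ring
  · rw [map_mul, map_pow, h4, xx]
    ring

theorem LS.add (h : LS F a) (h' : LS G b) : LS (fun z => F z + G z) (a + b) := by
  obtain ⟨n, A, B, h1, h2, h3, h4⟩ := h.common h'
  exact ⟨n, _, (h1.add h2).congr fun z _ => by ring, by rw [map_add, h3, h4, mul_add]⟩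

theorem LS.mul (h : LS F a) (h' : LS G b) : LS (fun z => F z * G z) (a * b) := by
  obtain ⟨n, A, h1, h2⟩ := h
  obtain ⟨m, B, h3, h4⟩ := h'
  exact ⟨n + m, _, (h1.mul h3).congr fun z _ => by ring, by rw [map_mul, h2, h4]; ring⟩

theorem LS.const (c : ℂ) : LS (fun _ => c) (HahnSeries.C c) :=
  ⟨0, _, (QE.const c).congr fun z _ => by simp, by simp⟩

theorem LS.pow (h : LS F a) (k : ℕ) : LS (fun z => F z ^ k) (a ^ k) := by
  induction k with
  | zero => simpa using LS.const 1
  | succ k ih => simpa only [pow_succ] using ih.mul h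

theorem LS.unique (h : LS F a) (h' : LS G b) (e : ∀ z : ℂ, 0 < z.im → F z = G z) : a = b := by
  obtain ⟨n, A, B, h1, h2, h3, h4⟩ := h.common h'
  rw [h1.unique h2 fun z hz => by rw [e z hz], h4] at h3
  exact (mul_left_cancel₀ (pow_ne_zero n xx_ne) h3).symm

theorem LS.eq (h : LS F a) (h' : LS G a) {z : ℂ} (hz : 0 < z.im) : F z = G z := by
  obtain ⟨n, A, B, h1, h2, h3, h4⟩ := h.common h'
  obtain rfl : A = B := HahnSeries.ofPowerSeries_injective (h3.trans h4.symm)
  exact mul_left_cancel₀ (pow_ne_zero n (q1_ne z)) (h1.eq_of_eq h2 hz)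

theorem LS.ql {B : PowerSeries ℂ} (hw : QL w B) (h : LS F a) (h' : LS G b)
    (e : ∀ᶠ z in atI, G z = F z * w z) : b = a * io B := by
  obtain ⟨n, A, H, h1, h2, h3, h4⟩ := h.common h'
  rw [hw _ _ _ _ h1 h2 (e.mono fun z hz => by rw [hz, mul_assoc]), map_mul, h3, mul_assoc] at h4
  exact (mul_left_cancel₀ (pow_ne_zero n xx_ne) h4).symm

theorem LS.hol (h : LS F a) : Hol F := by
  obtain ⟨n, A, h, -⟩ := h
  exact hol_of_pow_mul h

/-- Evaluation of a polynomial at a Laurent series. -/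
noncomputable def e1 (x : LL) : ℂ[X] →+* LL := eval₂RingHom HahnSeries.C x

/-- Evaluation of a polynomial in two variables. -/
noncomputable def e2 (x y : LL) : ℂ[X][X] →+* LL := eval₂RingHom (e1 x) y

theorem LS.ev1 (h : LS F a) (p : ℂ[X]) : LS (fun z => p.eval (F z)) (e1 a p) := by
  induction p using Polynomial.induction_on' with
  | add p q hp hq => simpa only [eval_add, map_add] using hp.add hq
  | monomial n c =>
    simpa only [eval_monomial, e1, coe_eval₂RingHom, eval₂_monomial] using (LS.const c).mul (h.pow n)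

theorem LS.ev2 (h : LS F a) (h' : LS G b) (p : ℂ[X][X]) :
    LS (fun z => p.evalEval (F z) (G z)) (e2 a b p) := by
  induction p using Polynomial.induction_on' with
  | add p q hp hq => simpa only [evalEval_add, map_add] using hp.add hq
  | monomial n c =>
    simpa only [← C_mul_X_pow_eq_monomial, evalEval_mul, evalEval_C, evalEval_pow, evalEval_X, e2,
      coe_eval₂RingHom, eval₂_mul, eval₂_C, eval₂_pow, eval₂_X] using (h.ev1 c).mul (h'.pow n)

/-- The rational numbers. -/
noncomputable abbrev KQ : Subfield ℂ := (algebraMap ℚ ℂ).fieldRange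

/-- Laurent series with rational coefficients. -/
def Rt : Subring LL where
  carrier := {a | ∀ k, a.coeff k ∈ KQ}
  mul_mem' h h' k := by
    rw [HahnSeries.coeff_mul]
    exact sum_mem fun x _ => mul_mem (h _) (h' _)
  one_mem' k := by
    rw [HahnSeries.coeff_one]
    split_ifs
    exacts [one_mem _, zero_mem _]
  add_mem' h h' k := by
    rw [HahnSeries.coeff_add]
    exact add_mem (h k) (h' k)
  zero_mem' _ := zero_mem _
  neg_mem' h k := by
    rw [HahnSeries.coeff_neg]
    exact neg_mem (h k)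

theorem rt_io {A : PowerSeries ℂ} (h : ∀ k, PowerSeries.coeff k A ∈ KQ) : io A ∈ Rt := fun k => by
  rw [PowerSeries.coeff_coe]
  split_ifs
  exacts [zero_mem _, h _]

theorem exists_LS {S : AddSubgroup ℂ} (h : LE S F) :
    ∃ a, LS F a ∧ (S ≤ KQ.toAddSubgroup → a ∈ Rt) := by
  obtain ⟨n, A, h1, h2⟩ := h
  have e : xx * HahnSeries.single (-1) 1 = 1 := by
    rw [xx, HahnSeries.ofPowerSeries_X, HahnSeries.single_mul_single, add_neg_cancel, mul_one]
    rfl
  refine ⟨HahnSeries.single (-1) 1 ^ n * io A, ⟨n, A, h1, by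
    rw [← mul_assoc, ← mul_pow, e, one_pow, one_mul]⟩, fun k =>
      mul_mem (pow_mem (fun i => ?_) n) (rt_io fun i => k (h2 i))⟩
  rw [HahnSeries.coeff_single]
  split_ifs
  exacts [one_mem _, zero_mem _]

section
variable {R S : Type} [CommRing R] [CommRing S]

/-- An additive map acts on the coefficients of polynomials. -/
noncomputable def pm (π : R →+ R) : R[X] →+ R[X] :=
  (lsum fun k => (monomial k).restrictScalars ℤ ∘ₗ π.toIntLinearMap).toAddMonoidHom

theorem pm_monomial (π : R →+ R) (k : ℕ) (c : R) : pm π (monomial k c) = monomial k (π c) := by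
  simp [pm, sum_monomial_index]

theorem coeff_pm (π : R →+ R) (p : R[X]) (k : ℕ) : (pm π p).coeff k = π (p.coeff k) := by
  induction p using Polynomial.induction_on' with
  | add p q hp hq => simp only [map_add, coeff_add, hp, hq]
  | monomial n c =>
    rw [pm_monomial, coeff_monomial, coeff_monomial]
    split_ifs
    exacts [rfl, (map_zero π).symm]

/-- The projection `P` of series is computed on coefficients. -/
def Prj (P : LL →+ LL) (e : R →+* LL) (π : R →+ R) : Prop :=
  ∀ r, ∀ x ∈ Rt, P (e r * x) = e (π r) * x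

theorem Prj.ev {P : LL →+ LL} {e : R →+* LL} {π : R →+ R} (h : Prj P e π) {y : LL} (hy : y ∈ Rt) :
    Prj P (eval₂RingHom e y) (pm π) := fun p x hx => by
  induction p using Polynomial.induction_on' with
  | add p q hp hq => simp only [map_add, add_mul, hp, hq]
  | monomial n c =>
    rw [pm_monomial, coe_eval₂RingHom, eval₂_monomial, eval₂_monomial, mul_assoc, mul_assoc,
      h c _ (mul_mem (pow_mem hy n) hx)]

/-- Elements with a multiple in the image of `f`. -/
def TT (f : R →+* S) : AddSubmonoid S where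
  carrier := {s | ∃ n : ℕ, n ≠ 0 ∧ ∃ r, f r = n * s}
  zero_mem' := ⟨1, one_ne_zero, 0, by simp⟩
  add_mem' := by
    rintro s t ⟨n, hn, r, e⟩ ⟨m, hm, r', e'⟩
    refine ⟨n * m, mul_ne_zero hn hm, m * r + n * r', ?_⟩
    rw [map_add, map_mul, map_mul, e, e', map_natCast, map_natCast]
    push_cast
    ring

theorem tt_poly {f : R →+* S} {p : S[X]} (h : ∀ k, p.coeff k ∈ TT f) :
    p ∈ TT (mapRingHom f) := by
  rw [p.as_sum_support]
  refine sum_mem fun k _ => ?_
  obtain ⟨n, hn, r, e⟩ := h k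
  exact ⟨n, hn, monomial k r, by
    rw [coe_mapRingHom, Polynomial.map_monomial, e, ← C_eq_natCast, C_mul_monomial]⟩

end

theorem exists_prj {c : ℂ} (hc : c ≠ 0) : ∃ (P : LL →+ LL) (π : ℂ →+ ℂ), Prj P HahnSeries.C π ∧
    π c ≠ 0 ∧ ∀ x, π x ∈ TT (Int.castRingHom ℂ) := by
  obtain ⟨f, hf⟩ := Module.Projective.exists_dual_ne_zero ℚ hc
  let π : ℂ →+ ℂ := (algebraMap ℚ ℂ).toAddMonoidHom.comp f.toAddMonoidHom
  have e : ∀ x, π x = (f x : ℂ) := fun _ => rfl
  refine ⟨AddMonoidHom.mk' (fun a => a.map π) fun _ _ => HahnSeries.map_add π, π, fun r x hx => ?_,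
    by rw [e]; exact_mod_cast hf, fun x => ⟨(f x).den, (f x).den_ne_zero, (f x).num, ?_⟩⟩
  · ext k
    obtain ⟨s, hs⟩ := hx k
    rw [HahnSeries.C_mul_eq_smul, HahnSeries.C_mul_eq_smul, HahnSeries.coeff_smul]
    change π (r • x.coeff k) = _
    rw [← hs, e, e, smul_eq_mul, smul_eq_mul, mul_comm r, ← Algebra.smul_def, map_smul, smul_eq_mul,
      Rat.cast_mul, mul_comm]
    rfl
  · rw [e, eq_intCast]
    exact_mod_cast (Rat.den_mul_eq_num (f x)).symm

/-- Integral polynomials as complex polynomials. -/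
noncomputable abbrev m1 : ℤ[X] →+* ℂ[X] := mapRingHom (Int.castRingHom ℂ)

/-- The same in two variables. -/
noncomputable abbrev m2 : ℤ[X][X] →+* ℂ[X][X] := mapRingHom m1

theorem eval_m1 (x : ℂ) (p : ℤ[X]) : (m1 p).eval x = aeval x p := by
  rw [coe_mapRingHom, eval_map, aeval_def]
  rfl

theorem eval_m2 (x y : ℂ) (A : ℤ[X][X]) : (m2 A).evalEval x y = aevalAeval x y A :=
  RingHom.congr_fun (show (evalEvalRingHom x y).comp m2 =
    (aevalAeval x y : ℤ[X][X] →ₐ[ℤ] ℂ).toRingHom by ext <;> simp) A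

theorem proj_pair {J J' : LL} {U : Bool → LL} (hJ : J ∈ Rt) (hJ' : J' ∈ Rt) (hU : ∀ i, U i ∈ Rt)
    {D : ℂ[X]} (hD : D ≠ 0) {A : Bool → ℂ[X][X]} (h : ∀ i, e1 J D * U i = e2 J J' (A i)) :
    ∃ m : ℤ[X], m ≠ 0 ∧ ∃ B : Bool → ℤ[X][X], ∀ i, e1 J (m1 m) * U i = e2 J J' (m2 (B i)) := by
  obtain ⟨P, π, p1, p2, p3⟩ := exists_prj (leadingCoeff_ne_zero.2 hD)
  obtain ⟨n, hn, m, hm⟩ := tt_poly (p := pm π D) fun k => coeff_pm π D k ▸ p3 _
  choose r hr B hB using fun i => tt_poly (f := m1) (p := pm (pm π) (A i)) fun k =>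
    tt_poly fun l => by rw [coeff_pm, coeff_pm]; exact p3 _
  have k : ∀ i, e1 J (pm π D) * U i = e2 J J' (pm (pm π) (A i)) := fun i => by
    have k1 := p1.ev hJ D _ (hU i)
    have k2 := (p1.ev hJ).ev hJ' (A i) 1 (one_mem _)
    rw [mul_one, mul_one] at k2
    exact k1.symm.trans ((congrArg P (h i)).trans k2)
  refine ⟨r true * r false * m, mul_ne_zero (mul_ne_zero (Nat.cast_ne_zero.2 (hr _))
    (Nat.cast_ne_zero.2 (hr _))) fun e => ?_, fun i => n * r (!i) * B i, fun i => ?_⟩
  · rw [e, map_zero] at hm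
    have := congrArg (coeff · D.natDegree) ((mul_eq_zero.1 hm.symm).resolve_left
      (Nat.cast_ne_zero.2 hn))
    exact p2 (by simpa [coeff_pm] using this)
  · simp only [map_mul, map_natCast, hm, hB, ← k]
    cases i <;> simp only [Bool.not_true, Bool.not_false] <;> ring

theorem proj_one {J U : LL} (hJ : J ∈ Rt) (hU : U ∈ Rt) {A : ℂ[X][X]} (hA : A ≠ 0)
    (h : e2 J U A = 0) : ∃ B : ℤ[X][X], B ≠ 0 ∧ e2 J U (m2 B) = 0 := by
  obtain ⟨P, π, p1, p2, p3⟩ := exists_prj (leadingCoeff_ne_zero.2 (leadingCoeff_ne_zero.2 hA))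
  obtain ⟨n, hn, B, hB⟩ := tt_poly (f := m1) (p := pm (pm π) A) fun k =>
    tt_poly fun l => by rw [coeff_pm, coeff_pm]; exact p3 _
  have k := (p1.ev hJ).ev hU A 1 (one_mem _)
  rw [mul_one, mul_one] at k
  refine ⟨B, fun e => ?_, ?_⟩
  · rw [e, map_zero] at hB
    have := congrArg (fun q => (q.coeff A.natDegree).coeff A.leadingCoeff.natDegree)
      ((mul_eq_zero.1 hB.symm).resolve_left (Nat.cast_ne_zero.2 hn))
    exact p2 (by simpa [coeff_pm] using this)
  · rw [hB, map_mul, show e2 J U (pm (pm π) A) = 0 from k.symm.trans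
      ((congrArg P h).trans (map_zero P)), mul_zero]

end Pool.Agent.B4.GE
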