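import Pool.Agent.Lib.MP_696deb_nt.B4.GEa
import Pool.Agent.Lib.MP_696deb_nt.B4.GEb0

/-! The coordinates of a chart are rational in the two invariants. -/

set_option autoImplicit false

open Polynomial Filter Topology
open scoped Classical PeriodPair

namespace Pool.Agent.B4.GE

open Pool.Agent.Lib.MP_696deb_nt Pool.Agent.Lib.MP_696deb_nt.B2 Pool.Agent.Shared.Weier
open Pool.Agent.Lib.MP_696deb_nt.B4

variable {W : WeierstrassCurve ℚ} {N : ℕ}

theorem geb_mul (hN : N ≠ 0) : Tendsto (fun z : ℂ => (N : ℂ) * z) atI atI := by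
  simpa using tendsto_affine (r := N) (Nat.cast_pos.2 (Nat.pos_of_ne_zero hN)) 0

theorem geb_lim (hN : N ≠ 0) {G : ℂ → ℂ} {c : ℂ} (h : Tendsto (fun z => G (N * z)) atI (𝓝 c)) :
    Tendsto G atI (𝓝 c) := by
  have h0 : (N : ℂ) ≠ 0 := Nat.cast_ne_zero.2 hN
  refine (h.comp (tendsto_affine (r := (N : ℝ)⁻¹)
    (inv_pos.2 (Nat.cast_pos.2 (Nat.pos_of_ne_zero hN))) 0)).congr fun z => ?_
  simp [h0]

theorem Par.ig (P : Par W N) : Ig N P.L P.F (PowerSeries.map (algebraMap ℚ ℂ) P.A) :=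
  ⟨P.N0, P.qe, by rw [PowerSeries.coeff_map, P.A0, map_zero],
    fun e => P.A1 (PowerSeries.map_injective _ (algebraMap ℚ ℂ).injective
      (e.trans (map_zero _).symm)),
    fun γ h1 h2 => P.inv γ ⟨h1, h2⟩, fun g hg =>
      (P.cusp g hg).elim fun _ h => ⟨_, geb_lim (G := fun z => P.F (act g z)) P.N0 h.tendsto⟩⟩

theorem Par.CV_finite (P : Par W N) : P.CV.Finite := by
  obtain ⟨R, r1, r2, r3⟩ := gb_reps P.N0
  choose! c hc using P.ig.cusp
  refine (r1.image fun r => P.per.unif (c r)).subset ?_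
  rintro _ ⟨g, x, hg, hx, rfl⟩
  obtain ⟨r, hr, γ, c1, c2, rfl⟩ := r3 g hg
  have h1 := r2 r hr
  refine ⟨r, hr, (P.per.unif_eq_iff.2 (P.L.isClosed_lattice.mem_of_tendsto
    ((geb_lim (G := fun z => P.F (act (γ * r) z)) P.N0 hx).sub (hc r h1))
    (ev_pos.mono fun z hz => ?_))).symm⟩
  rw [act_mul _ (by omega) hz]
  exact P.inv γ ⟨c1, c2⟩ _ (act_pos (by omega) hz)

/-- The two coordinates on the complex torus. -/
noncomputable def cW (L : PeriodPair) (a : ℂ) (i : Bool) : ℂ → ℂ := bif i then cU L a else cV L a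

/-- The point `a` of the torus belongs to the chart with parameter `c`. -/
structure Par.Pa (P : Par W N) (c a : ℂ) : Prop where
  nm : a ∉ P.L.lattice
  eq : ℘[P.L] a = c + (W.baseChange ℂ).b₂ / 12

theorem Par.exists_pa (P : Par W N) (c : ℂ) : ∃ a, P.Pa c a :=
  (wp_surjective _).imp fun _ h => ⟨h.1, h.2⟩

variable {P : Par W N} {c a : ℂ}

theorem Par.Pa.fn (h : P.Pa c a) (z : ℂ) : Fn c (P.per.unif z : Pt W ℂ) ↔ ¬ Po P.L a z := by
  by_cases hz : z ∈ P.L.lattice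
  · exact iff_of_true (.inl (P.per.unif_eq_zero_iff.2 hz)) (not_po_of_mem h.nm hz)
  rw [po_iff h.nm, Fn, P.per.unif_eq_zero_iff, P.per.unif_of_notMem hz, h.eq]
  simp only [hz, false_or, not_false_eq_true, true_and]
  exact not_congr sub_eq_iff_eq_add

theorem Par.Pa.ch (h : P.Pa c a) (i : Bool) (z : ℂ) :
    ch c i (P.per.unif z : Pt W ℂ) = cW P.L a i z := by
  have h1 : cu c (P.per.unif z : Pt W ℂ) = cU P.L a z := by
    by_cases hz : z ∈ P.L.lattice
    · rw [cu, if_pos (P.per.unif_eq_zero_iff.2 hz), cU_of_mem hz]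
    · rw [cu, if_neg (mt P.per.unif_eq_zero_iff.1 hz), cU_eq h.nm hz, P.per.unif_of_notMem hz, h.eq,
        add_comm c, ← sub_sub]
      rfl
  cases i
  · change cv c _ = cV P.L a z
    rw [cv, cV, h1]
    by_cases hz : z ∈ P.L.lattice
    · simp [cU_of_mem hz]
    · rw [P.per.unif_of_notMem hz]
      congr 1
      change 2 * uy _ _ z + W.a₁ * ux _ _ z + W.a₃ = _
      rw [uy]
      simp only [WeierstrassCurve.baseChange, WeierstrassCurve.map_a₁, WeierstrassCurve.map_a₃,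
        eq_ratCast]
      ring
  · exact h1

theorem an_cW {L : PeriodPair} (ha : a ∉ L.lattice) (i : Bool) (z : ℂ) (hz : ¬ Po L a z) :
    AnalyticAt ℂ (cW L a i) z := by
  cases i
  exacts [an_cV ha hz, an_cU hz]

theorem Par.hol_ch (P : Par W N) (c : ℂ) (i : Bool) {z : ℂ} (hz : 0 < z.im) (h : Fn c (P.φ z)) :
    DifferentiableAt ℂ (fun z => ch c i (P.φ z)) z := by
  obtain ⟨a, ha⟩ := P.exists_pa c
  simp only [Par.φ, ha.ch]
  exact (an_cW ha.nm i _ ((ha.fn _).1 h)).differentiableAt.comp z (P.qe.hol z hz)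

theorem Par.Pa.avo (h : P.Pa c a) (hc : ∀ R ∈ P.CV, Fn c R) : Avo P.L P.F a :=
  ⟨h.nm, fun g hg x hx => (h.fn x).1 (hc _ ⟨g, x, hg, hx.comp (geb_mul P.N0), rfl⟩)⟩

/-- The first coordinate takes all values that are not values at cusps. -/
theorem Par.x_surj (P : Par W N) (c : ℂ) (hc : ∀ R ∈ P.CV, Fn c R) :
    ∃ z : ℂ, 0 < z.im ∧ ¬ Fn c (P.φ z) := by
  obtain ⟨a, ha⟩ := P.exists_pa c
  obtain ⟨z, h1, h2⟩ := P.ig.surj (ha.avo hc)
  exact ⟨z, h1, fun k => (ha.fn _).1 k h2⟩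

theorem geb_ne {b : ℂ[X]} (hb : b ≠ 0) {z : ℂ} (hz : 0 < z.im) :
    ∀ᶠ t in 𝓝[≠] z, 0 < t.im ∧ b.eval (jf t) ≠ 0 := by
  refine .and (mem_nhdsWithin_of_mem_nhds (gb_ev hz)) ((gb_nonconst hol_jf (fun c hc => ?_)
    hz).eventually (nhdsNE_le_cofinite _ (b.finite_setOfPred_isRoot hb).compl_mem_cofinite))
  obtain ⟨w, w1, w2⟩ :=
    ((tendsto_jf.eventually (Set.finite_singleton c).isBounded).and ev_pos).exists
  exact w1 (hc w w2)

theorem geb_eq {f g : ℂ → ℂ} {z : ℂ} (hf : ContinuousAt f z) (hg : ContinuousAt g z)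
    (h : ∀ᶠ t in 𝓝[≠] z, f t = g t) : f z = g z :=
  ((hf.eventuallyEq_nhds_iff_eventuallyEq_nhdsNE hg).1 h).eq_of_nhds

theorem exists_J : ∃ J, LS jf J ∧ J ∈ Rt :=
  (exists_LS (lz_jf.mem KQ.toSubring)).imp fun _ h => ⟨h.1, h.2 le_rfl⟩

theorem exists_JN (hN : N ≠ 0) : ∃ J, LS (jN N) J ∧ J ∈ Rt := by
  have h : LZ (jN N) := ⟨N, PowerSeries.expand N hN Js, by
    have := qe_jf.expand N hN
    simp only [pow_one, q1_nat_mul] at this
    rwa [PowerSeries.map_expand]⟩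
  exact (exists_LS (h.mem KQ.toSubring)).imp fun _ h => ⟨h.1, h.2 le_rfl⟩

/-- The cleared coordinates and their expansions. -/
theorem Par.Pa.data {c : ℤ} (h : P.Pa c a) (hc : ∀ R ∈ P.CV, Fn (c : ℂ) R) {J : LL} (hJ : LS jf J) :
    ∃ (b : ℂ[X]) (k : Bool → ℂ → ℂ) (U : Bool → LL), b ≠ 0 ∧ ∀ i, MF N (k i) ∧ U i ∈ Rt ∧
      LS (k i) (e1 J b * U i) ∧
      ∀ z : ℂ, 0 < z.im → ¬ Po P.L a (P.F z) → k i z = b.eval (jf z) * cW P.L a i (P.F z) := by
  have ha := h.avo hc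
  choose m hm using fun i => P.ig.clear ha (U := cW P.L a i)
    (fun z l hl => by cases i; exacts [cV_add h.nm hl, cU_add h.nm hl])
    (fun z => by cases i; exacts [mero_cV z, mero_cU z]) (an_cW h.nm i)
  let b : ℂ[X] := (∏ x ∈ (P.ig.finite_poles ha).toFinset, (X - C x)) ^ (m true + m false)
  choose k k1 k2 k3 k4 using fun i => hm i b fun z hz hp =>
    (pow_dvd_pow _ (by cases i <;> omega)).trans (pow_dvd_pow_of_dvd (Finset.dvd_prod_of_mem _
      ((P.ig.finite_poles ha).mem_toFinset.2 (Set.mem_image_of_mem jf ⟨hz, hp⟩))) _)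
  have q : ∀ r : ℚ, (r : ℂ) ∈ KQ := fun r => ⟨r, rfl⟩
  obtain ⟨Au, Av, u1, v1, u2, v2⟩ := P.ig.series (K := KQ) h.nm
    (by
      have := P.per.h4
      rw [WeierstrassCurve.baseChange, WeierstrassCurve.map_c₄, eq_ratCast] at this
      rw [show P.L.g₂ = (W.c₄ / 12 : ℚ) by push_cast; rw [this]; ring]
      exact q _)
    (by
      have := P.per.h6
      rw [WeierstrassCurve.baseChange, WeierstrassCurve.map_c₆, eq_ratCast] at this
      rw [show P.L.g₃ = (W.c₆ / 216 : ℚ) by push_cast; rw [this]; ring]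
      exact q _)
    (by
      rw [h.eq, WeierstrassCurve.baseChange, WeierstrassCurve.map_b₂, eq_ratCast]
      exact_mod_cast q (c + W.b₂ / 12))
    fun k => ⟨_, (PowerSeries.coeff_map _ _ _).symm⟩
  refine ⟨b, k, fun i => io (bif i then Au else Av), pow_ne_zero _
    (Finset.prod_ne_zero_iff.2 fun x _ => X_sub_C_ne_zero x), fun i =>
      ⟨⟨fun g hg => k1 i g hg.1 hg.2, k2 i⟩, rt_io (by cases i; exacts [v1, u1]), ?_, k4 i⟩⟩
  obtain ⟨H, hH, -⟩ := exists_LS (LE.of_comp (F := k i) P.N0 (fun z hz => by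
    simpa [act_of, mob] using k1 i !![1, 1; 0, 1] (by simp) (by simp) z hz)
    (by simpa only [act_one] using k2 i 1 Matrix.det_one))
  have hq : QL (fun z => cW P.L a i (P.F z)) (bif i then Au else Av) := by
    cases i
    exacts [v2, u2]
  refine LS.ql hq (hJ.ev1 b) hH ?_ ▸ hH
  filter_upwards [P.ig.ev_avo ha 1 Matrix.det_one, ev_pos] with z h1 h2
  exact k4 i z h2 (by rwa [act_one] at h1)

theorem Par.chart_rel (P : Par W N) (c : ℤ) (hc : ∀ R ∈ P.CV, Fn (c : ℂ) R) :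
    ∃ m : ℤ[X], m ≠ 0 ∧ ∃ A : Bool → ℤ[X][X], ∀ z : ℂ, 0 < z.im →
      (Fn (c : ℂ) (P.φ z) → ∀ i, aeval (jf z) m * ch (c : ℂ) i (P.φ z) =
        aevalAeval (jf z) (jN N z) (A i)) ∧
      (¬ Fn (c : ℂ) (P.φ z) → aeval (jf z) m = 0) := by
  obtain ⟨a, ha⟩ := P.exists_pa c
  obtain ⟨J, j1, j2⟩ := exists_J
  obtain ⟨J', j3, j4⟩ := exists_JN P.N0
  obtain ⟨b, k, U, hb, hk⟩ := ha.data hc j1
  choose D hD A hA using fun i => field_thm P.N0 (hk i).1
  obtain ⟨m, hm, B, hB⟩ := proj_pair j2 j4 (fun i => (hk i).2.1)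
    (mul_ne_zero (mul_ne_zero (hD true) (hD false)) hb) (A := fun i => C (D (!i)) * A i) fun i => by
      rw [map_mul (e2 J J'), ← ((j1.ev1 (D i)).mul (hk i).2.2.1).unique (j1.ev2 j3 (A i)) (hA i),
        show e2 J J' (C (D (!i))) = e1 J (D (!i)) from eval₂_C _ _, map_mul, map_mul]
      cases i <;> simp only [Bool.not_true, Bool.not_false] <;> ring
  have key : ∀ i (z : ℂ), 0 < z.im → ∀ᶠ t in 𝓝[≠] z, (m1 m).eval (jf t) * cW P.L a i (P.F t) =
      (m2 (B i)).evalEval (jf t) (jN N t) := fun i z hz => by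
    filter_upwards [geb_ne hb hz, P.ig.ev_not_po (a := a) z hz] with t h1 h2
    refine mul_left_cancel₀ h1.2 ?_
    have h3 := (j1.ev1 b).mul (j1.ev2 j3 (m2 (B i)))
    rw [← hB, mul_left_comm] at h3
    rw [h3.eq ((j1.ev1 (m1 m)).mul (hk i).2.2.1) h1.1, (hk i).2.2.2 t h1.1 h2]
    ring
  refine ⟨m, hm, B, fun z hz => ⟨fun h i => ?_, fun h => ?_⟩⟩
  · rw [Par.φ, ha.ch, ← eval_m1, ← eval_m2]
    exact geb_eq (((j1.ev1 _).hol z hz).continuousAt.mul ((an_cW ha.nm i _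
      ((ha.fn _).1 h)).continuousAt.comp (P.qe.hol z hz).continuousAt))
      ((j1.ev2 j3 _).hol z hz).continuousAt (key i z hz)
  · obtain ⟨h1, h2⟩ := (po_iff ha.nm).1 (not_not.1 (mt (ha.fn _).2 h))
    have h3 := (P.qe.hol z hz).continuousAt
    rw [← eval_m1, geb_eq (g := fun t => (m2 (B true)).evalEval (jf t) (jN N t) *
      (℘[P.L] (P.F t) - ℘[P.L] a)) ((j1.ev1 _).hol z hz).continuousAt
      (((j1.ev2 j3 _).hol z hz).continuousAt.mul
        (((hasDerivAt_wp h1).continuousAt.comp h3).sub continuousAt_const)) ?_, h2, sub_self, mul_zero]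
    filter_upwards [key true z hz, P.ig.ev_not_po (a := a) z hz,
      mem_nhdsWithin_of_mem_nhds (h3.eventually (isOpen_compl.mem_nhds h1))] with t k1 k2 k3
    rw [← k1, mul_assoc, show cW P.L a true (P.F t) = _ from cU_eq ha.nm k3, inv_mul_cancel₀
      (sub_ne_zero.2 fun e => k2 ((po_iff ha.nm).2 ⟨k3, e⟩)), mul_one]

theorem geb_ev2 {f g : ℂ → ℂ} {z : ℂ} (hf : ContinuousAt f z) (hg : ContinuousAt g z)
    (A : ℂ[X][X]) : ContinuousAt (fun t => A.evalEval (f t) (g t)) z := by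
  induction A using Polynomial.induction_on' with
  | add p q hp hq => simpa only [evalEval_add] using! hp.add hq
  | monomial n p =>
    simpa only [← C_mul_X_pow_eq_monomial, evalEval_mul, evalEval_C, evalEval_pow, evalEval_X]
      using! (p.continuous.continuousAt.comp hf).mul (hg.pow n)

/-- The invariant is algebraic over the field of the coordinate. -/
theorem Par.j_rel (P : Par W N) (c : ℤ) (hc : ∀ R ∈ P.CV, Fn (c : ℂ) R) :
    ∃ Q : ℤ[X][X], Q ≠ 0 ∧ ∀ z : ℂ, 0 < z.im → Fn (c : ℂ) (P.φ z) →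
      aevalAeval (cu (c : ℂ) (P.φ z)) (jf z) Q = 0 := by
  obtain ⟨a, ha⟩ := P.exists_pa c
  obtain ⟨J, j1, j2⟩ := exists_J
  obtain ⟨b, k, U, hb, hk⟩ := ha.data hc j1
  obtain ⟨k1, k2, k3, k4⟩ := hk true
  obtain ⟨A, hA, hA'⟩ := monic_rel P.N0 k1
  obtain ⟨B, hB, hB'⟩ := proj_one j2 k2 (A := A.comp (C b * X))
    (mt (comp_C_mul_X_eq_zero_iff (mem_nonZeroDivisors_of_ne_zero hb)).1 hA.ne_zero) (by
      have := (j1.ev2 k3 A).unique (LS.const 0) hA'
      rw [map_zero] at this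
      rw [e2, coe_eval₂RingHom, eval₂_comp, eval₂_mul, eval₂_C, eval₂_X]
      exact this)
  refine ⟨Bivariate.swap B, by simpa using hB, fun z hz h => ?_⟩
  rw [Bivariate.aevalAeval_swap, ← eval_m2, show cu (c : ℂ) (P.φ z) = _ from ha.ch true _]
  refine geb_eq (g := fun _ => 0) (geb_ev2 (hol_jf z hz).continuousAt ((an_cW ha.nm true _
    ((ha.fn _).1 h)).continuousAt.comp (P.qe.hol z hz).continuousAt) _) continuousAt_const ?_
  filter_upwards [geb_ne hb hz, P.ig.ev_not_po (a := a) z hz] with t h1 h2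
  have h3 := (j1.ev2 k3 ((m2 B).scaleRoots b)).eq (G := fun _ => 0) (by
    rw [e2, coe_eval₂RingHom, scaleRoots_eval₂_mul, show eval₂ (e1 J) (U true) (m2 B) = 0 from hB',
      mul_zero]
    simpa using LS.const 0) h1.1
  rw [k4 t h1.1 h2, ← eval₂_evalRingHom, ← coe_evalRingHom, scaleRoots_eval₂_mul,
    eval₂_evalRingHom] at h3
  exact (mul_eq_zero.1 h3).resolve_left (pow_ne_zero _ h1.2)

end Pool.Agent.B4.GE
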