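import Pool.Agent.Lib.MP_696deb_nt.B4.GEf

/-! The congruence relation for all points, and the interface. -/

set_option autoImplicit false

open Polynomial Filter Topology
open scoped Classical

namespace Pool.Agent.B4.GE

open Pool.Agent.Lib.MP_696deb_nt Pool.Agent.Lib.MP_696deb_nt.B2 Pool.Agent.Shared.Weier

variable {W : WeierstrassCurve ℚ} {N : ℕ}

theorem gg_root {K Γ : Type*} [Field K] [LinearOrderedCommGroupWithZero Γ] (V : Valuation K Γ)
    {q : K[X]} (h : ∀ k, V (q.coeff k) ≤ 1) (hl : 1 ≤ V q.leadingCoeff) {x : K}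
    (hx : q.eval x = 0) : V x ≤ 1 := by
  by_contra! k
  rw [eval_eq_sum_range, Finset.sum_range_succ, add_eq_zero_iff_neg_eq] at hx
  have h1 : V (∑ i ∈ Finset.range q.natDegree, q.coeff i * x ^ i) < V x ^ q.natDegree :=
    V.map_sum_lt (pow_ne_zero _ (zero_lt_one.trans k).ne') fun i hi => by
      rw [map_mul, map_pow]
      exact (mul_le_of_le_one_left' (h i)).trans_lt (pow_lt_pow_right₀ k (Finset.mem_range.1 hi))
  rw [← V.map_neg, hx, map_mul, map_pow] at h1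
  exact h1.not_ge (le_mul_of_one_le_left' hl)

theorem gg_int (w : Plc) (n : ℤ) : w.V n ≤ 1 := intCast_mem w.V.integer n

theorem gg_unit (w : Plc) {n : ℤ} (hn : ¬ w.p ∣ n.natAbs) : w.V n = 1 := by
  obtain ⟨a, b, h⟩ := (Nat.prime_iff_prime_int.mp w.prime).irreducible.coprime_iff_not_dvd.mpr
    (mt Int.natCast_dvd.1 hn)
  have h1 : (b : Qbar) * n = 1 - a * w.p := by rw [eq_sub_iff_add_eq']; exact_mod_cast h
  have h2 := w.V.map_one_sub_of_lt (x := a * w.p) (by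
    rw [map_mul, w.hV]
    exact mul_lt_one_of_nonneg_of_lt_one_right (gg_int w a) zero_le
      (inv_lt_one_of_one_lt₀ (by exact_mod_cast w.prime.one_lt)))
  rw [← h1, map_mul] at h2
  exact le_antisymm (gg_int w n) (h2 ▸ mul_le_of_le_one_left' (gg_int w b))

theorem gg_aeval (w : Plc) {u : Qbar} (hu : w.V u ≤ 1) (q : ℤ[X]) : w.V (aeval u q) ≤ 1 :=
  (map_ev1 w.V.integer.subtype ⟨u, hu⟩ q) ▸ (aeval (⟨u, hu⟩ : w.V.integer) q).2

theorem gg_lead (w : Plc) {q : ℤ[X]} (hq : w.V q.leadingCoeff = 1) {u : Qbar}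
    (h : ∀ r ∈ q.aroots Qbar, 1 ≤ w.V (u - r)) : 1 ≤ w.V (aeval u q) := by
  have e := (IsAlgClosed.splits (q.map (algebraMap ℤ Qbar))).eval_eq_prod_roots u
  rw [eval_map_algebraMap, leadingCoeff_map_of_injective (algebraMap ℤ Qbar).injective_int] at e
  rw [e, map_mul, eq_intCast, hq, one_mul, map_multiset_prod, Multiset.map_map]
  exact Multiset.one_le_prod_of_one_le fun x hx => by
    obtain ⟨r, hr, rfl⟩ := Multiset.mem_map.1 hx
    exact h r hr

theorem gg_pm {K : Type*} [Field K] [DecidableEq K] [CharZero K] {R S : Pt W K} (hR : R ≠ 0)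
    (hS : S ≠ 0) (h : xco R = xco S) : R = S ∨ -R = S := by
  rcases R with _ | ⟨x, y, k⟩
  · exact absurd rfl hR
  rcases S with _ | ⟨x', y', k'⟩
  · exact absurd rfl hS
  exact (WeierstrassCurve.Affine.Point.X_eq_iff.1 h).imp_right neg_eq_iff_eq_neg.2

/-- Points outside finitely many residue classes are values at integral points. -/
theorem Par.generic (P : Par W N) : ∃ M : ℕ, M ≠ 0 ∧ ∀ w : Plc, ¬ w.p ∣ M → ∃ s : Set Qbar,
    s.Finite ∧ ∀ R : Pt W Qbar, ¬ Big w R → (∀ x ∈ s, ¬ w.V (xco R - x) < 1) →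
      ∃ (τ : ℂ) (x : Qbar), 0 < τ.im ∧ jC x = jf τ ∧ w.V x ≤ 1 ∧
        (pmap jC R = P.φ τ ∨ pmap jC (-R) = P.φ τ) := by
  obtain ⟨c, hc⟩ := exists_fn P.CV_finite
  obtain ⟨Q, q0, hQ⟩ := P.j_rel c hc
  refine ⟨Q.leadingCoeff.leadingCoeff.natAbs, by simpa using q0, fun w hw =>
    ⟨jC ⁻¹' (xco '' P.CV) ∪ {(c : Qbar)} ∪
      (fun r => c + r⁻¹) '' (Q.leadingCoeff.aroots Qbar).toFinset,
    (((P.CV_finite.image _).preimage jC.injective.injOn).union (Set.finite_singleton _)).union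
      ((Finset.finite_toSet _).image _), fun R hR hs => ?_⟩⟩
  rw [Big, not_or, not_lt] at hR
  obtain ⟨z, hz, k⟩ := P.x_surj (jC (xco R)) fun S hS =>
    .inr fun e => hs _ (.inl (.inl ⟨S, hS, e⟩)) (by simp)
  rw [Fn, not_or, not_not] at k
  have h1 : w.V (xco R - c) = 1 := le_antisymm (w.V.map_sub_le hR.2 (gg_int w c))
    (not_lt.1 (hs _ (.inl (.inr rfl))))
  have h2 : xco R - c ≠ 0 := fun e => by simp [e] at h1
  have h3 : w.V (xco R - c)⁻¹ = 1 := by rw [map_inv₀, h1, inv_one]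
  have h4 := hQ z hz (.inr fun e => h2 (jC.injective (by rw [map_sub, ← k.2, e]; simp)))
  have h5 : 1 ≤ w.V (aeval (xco R - c)⁻¹ Q.leadingCoeff) :=
    gg_lead w (gg_unit w hw) fun r hr => not_lt.1 fun e => by
      have e1 : w.V r = 1 := by
        rw [← sub_sub_cancel (xco R - c)⁻¹ r, w.V.map_sub_eq_of_lt_left (h3 ▸ e), h3]
      have e2 : r ≠ 0 := fun e => by simp [e] at e1
      refine hs _ (.inr ⟨r, by simpa using hr, rfl⟩) ?_
      rw [show xco R - (c + r⁻¹) = -((xco R - c) * r⁻¹ * ((xco R - c)⁻¹ - r)) by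
        field_simp; ring, w.V.map_neg, map_mul, map_mul, map_inv₀, h1, e1]
      simpa using e
  rw [cu, if_neg k.1, k.2, ← map_intCast jC, ← map_sub, ← map_inv₀] at h4
  generalize (xco R - c)⁻¹ = u at h3 h4 h5
  have h6 : (aeval u : ℤ[X] →ₐ[ℤ] Qbar).toRingHom Q.leadingCoeff ≠ 0 := fun e => by
    rw [show aeval u Q.leadingCoeff = 0 from e] at h5
    simp at h5
  have h7 : ∀ {K : Type} [Field K] (a b : K), aevalAeval a b Q =
      (Q.map (aeval a : ℤ[X] →ₐ[ℤ] K).toRingHom).eval b := fun a b => by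
    rw [eval_map]
    exact RingHom.congr_fun (show (aevalAeval a b : ℤ[X][X] →ₐ[ℤ] _).toRingHom =
      eval₂RingHom (aeval a : ℤ[X] →ₐ[ℤ] _).toRingHom b by ext <;> simp) Q
  have h8 : (Q.map (aeval u : ℤ[X] →ₐ[ℤ] Qbar).toRingHom).map jC =
      Q.map (aeval (jC u) : ℤ[X] →ₐ[ℤ] ℂ).toRingHom := by
    rw [Polynomial.map_map]
    exact congrArg (Q.map ·) (RingHom.ext (map_ev1 jC u))
  obtain ⟨x, hx⟩ := (IsAlgClosed.splits (Q.map (aeval u : ℤ[X] →ₐ[ℤ] Qbar).toRingHom)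
    ).mem_range_of_isRoot (i := jC) (x := jf z) (fun e => h6 (by
      rw [← leadingCoeff_map_of_leadingCoeff_ne_zero _ h6, e, leadingCoeff_zero]))
    (by rw [IsRoot, h8, ← h7, h4])
  refine ⟨z, x, hz, hx, gg_root w.V (q := Q.map (aeval u : ℤ[X] →ₐ[ℤ] Qbar).toRingHom)
    (fun k => by rw [coeff_map]; exact gg_aeval w h3.le _)
    (by rw [leadingCoeff_map_of_leadingCoeff_ne_zero _ h6]; exact h5)
    ((h7 u x).symm.trans (jC.injective (by rw [map_ev, hx, h4, map_zero]))), ?_⟩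
  rw [map_neg]
  exact gg_pm (fun e => hR.1 (pmap_injective jC (e.trans (map_zero _).symm))) k.1
    (by rw [xco_pmap, k.2])

theorem Par.es (P : Par W N) : ∃ M : ℕ, M ≠ 0 ∧ ∀ (w : Plc) (f : Gam)
    (K : AddSubgroup (Pt W Qbar)), ¬ w.p ∣ M → IsFrob w w.p f → (∀ R S, R - S ∈ K ↔ Near w R S) →
    ∀ Q, ga f (ga f Q) - P.a w.p • ga f Q + w.p • Q ∈ K := by
  have := P.elliptic
  obtain ⟨M1, m1, h1⟩ := P.kron
  obtain ⟨M2, m2, h2⟩ := P.generic
  obtain ⟨M3, m3, h3⟩ := exists_int5 W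
  refine ⟨N * M1 * M2 * M3, by simp [P.N0, m1, m2, m3], fun w f K hw hf hK Q => ?_⟩
  simp only [w.prime.dvd_mul, not_or] at hw
  have k0 : ∀ R, R ∈ K ↔ Big w R := fun R => by simpa [Near, Big] using hK R 0
  have k1 : ∀ R ∈ K, ga f R ∈ K := fun R hR => (k0 _).2 ((big_ga hf.1).2 ((k0 _).1 hR))
  obtain ⟨s, s1, s2⟩ := h2 w hw.1.2
  let ψ : Pt W Qbar →+ Pt W Qbar := (ga f).comp (ga f) - P.a w.p • ga f + w.p • AddMonoidHom.id _
  have k2 : ∀ (R : Pt W Qbar) (τ : ℂ) (x : Qbar), 0 < τ.im → jC x = jf τ → w.V x ≤ 1 →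
      pmap jC R = P.φ τ → R ∈ K.comap ψ := fun R τ x t1 t2 t3 t4 => by
    obtain ⟨S, e1, i, e2, e3⟩ := h1 w f τ x R hw.1.1.2 hf t1 t2 t3 t4
    have e4 : ∑ k, S k = P.a w.p • R := pmap_injective jC (by
      rw [map_sum, map_zsmul, t4, ← P.φ_hecke w.prime hw.1.1.1 t1]
      simp only [e1])
    have e5 := add_mem (k1 _ ((hK _ _).2 e2)) (sum_mem (t := Finset.univ.erase i) fun k hk =>
      (hK _ _).2 (e3 k (Finset.ne_of_mem_erase hk)))
    rw [Finset.sum_sub_distrib, Finset.sum_const, Finset.card_erase_of_mem (Finset.mem_univ i),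
      Finset.card_univ, Fintype.card_option, Fintype.card_fin, Nat.add_sub_cancel, ← map_sum,
      Finset.sum_erase_eq_sub (Finset.mem_univ i), e4, map_sub, map_sub, map_zsmul] at e5
    refine (neg_mem_iff (H := K)).1 ?_
    convert e5 using 1
    change -(ga f (ga f R) - P.a w.p • ga f R + w.p • R) = _
    abel
  have k3 := eq_top_of_cofinite (h3 w hw.2) hK (H := K.comap ψ) (fun R hR =>
    add_mem (sub_mem (k1 _ (k1 _ hR)) (zsmul_mem (k1 _ hR) _)) (nsmul_mem hR _)) s1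
    fun R r1 r2 => by
      obtain ⟨τ, x, t1, t2, t3, t4 | t4⟩ := s2 R r1 r2
      exacts [k2 R τ x t1 t2 t3 t4, neg_mem_iff.1 (k2 _ τ x t1 t2 t3 t4)]
  exact (k3 ▸ AddSubgroup.mem_top Q : Q ∈ K.comap ψ)

theorem Par.geo (P : Par W N) : Nonempty (Geo P) := by
  obtain ⟨M1, m1, h1⟩ := P.kron
  obtain ⟨M2, m2, h2⟩ := P.es
  obtain ⟨m, Φ, k1, k2, k3⟩ := P.exists_Φ
  exact ⟨⟨2 * N * (M1 * M2), by simp [P.N0, m1, m2], dvd_mul_right _ _, m, k1, Φ, k2, k3,
    fun _ _ => P.alg, fun w f τ x Q hw => h1 w f τ x Q fun e =>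
      hw ((e.mul_right _).mul_left _), fun w f K hw => h2 w f K fun e =>
      hw ((e.mul_left _).mul_left _)⟩⟩

end Pool.Agent.B4.GE
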