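import Pool.Agent.Lib.MP_696deb_nt.B2.KRb

/-! Comparison of roots in the congruence relation, for a family of coordinates. -/

set_option autoImplicit false

open Finset Polynomial

namespace Pool.Agent.B4.GE

open Pool.Agent.Lib.MP_696deb_nt.B2

theorem gek_gen {k J T : Type*} [Field k] [Infinite k] [Finite J] [Fintype T] (v w : J → T → k) :
    ∃ S : T → k, ∀ j, ∑ t, S t * v j t = ∑ t, S t * w j t → v j = w j := by
  classical
  obtain ⟨f, hf⟩ := Module.exists_dual_forall_apply_ne_zero (K := k)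
    (fun j : {j // v j ≠ w j} => v j - w j) fun j => sub_ne_zero.2 j.2
  have h1 : ∀ u : T → k, f u = ∑ t, f (Pi.single t 1) * u t := fun u => by
    conv_lhs => rw [pi_eq_sum_univ' u]
    simp [mul_comm]
  refine ⟨fun t => f (Pi.single t 1), fun j h => by_contra fun e => hf ⟨j, e⟩ ?_⟩
  rw [map_sub, h1, h1, h, sub_self]

theorem gek_field {k ι T : Type*} [Field k] [Infinite k] [Fintype ι] [Fintype T] {p : ℕ}
    {a : ι → T → k} {x y : T → k} (h : ∀ (Y : k) (S : T → k), ∏ i, (Y - ∑ t, S t * a i t) =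
      (Y - ∑ t, S t * y t) * (Y - ∑ t, S t * x t) ^ p) : ∃ i, a i = y ∧ ∀ j ≠ i, a j = x := by
  classical
  obtain ⟨S, hS⟩ := gek_gen (fun j : ι × Bool => a j.1) fun j => bif j.2 then y else x
  have h1 := h (∑ t, S t * y t) S
  rw [sub_self, zero_mul, prod_eq_zero_iff] at h1
  obtain ⟨i, -, hi⟩ := h1
  have e := sub_eq_zero.1 hi
  refine ⟨i, hS (i, true) e.symm, fun j hj => hS (j, false) ?_⟩
  have h2 : ∏ l ∈ univ.erase i, (X - C (∑ t, S t * a l t)) = (X - C (∑ t, S t * x t)) ^ p :=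
    eq_of_infinite_eval_eq _ _ ((Set.finite_singleton (∑ t, S t * y t)).infinite_compl.mono
      fun Y hY => by
        have h3 := h Y S
        rw [← mul_prod_erase _ _ (mem_univ i), ← e] at h3
        simpa only [Set.mem_ofPred_eq, eval_prod, eval_sub, eval_X, eval_C, eval_pow] using
          mul_left_cancel₀ (sub_ne_zero.2 hY) h3)
  have h3 := congrArg (eval (∑ t, S t * a j t)) h2
  rw [eval_prod, prod_eq_zero (mem_erase.mpr ⟨hj, mem_univ j⟩)
    (by rw [eval_sub, eval_X, eval_C, sub_self])] at h3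
  simp only [eval_sub, eval_pow, eval_X, eval_C] at h3
  exact sub_eq_zero.1 (pow_eq_zero_iff'.1 h3.symm).1

theorem kr_fam {K : Type*} [Field K] [IsAlgClosed K] (B : ValuationSubring K) {ι T : Type*}
    [Fintype ι] [Fintype T] {p : ℕ} (hp : p.Prime) (hV : B.valuation p < 1) {a : ι → T → K}
    {x : T → K} (ha : ∀ i t, a i t ∈ B) (hx : ∀ t, x t ∈ B)
    (h : ∀ Y ∈ B, ∀ S : T → K, (∀ t, S t ∈ B) →
      B.valuation (∏ i, (Y - ∑ t, S t * a i t ^ p) -
        (Y - ∑ t, S t * (x t ^ p) ^ p) * (Y - ∑ t, S t * x t) ^ p) < 1) :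
    ∃ i, (∀ t, B.valuation (a i t - x t ^ p) < 1) ∧
      ∀ j ≠ i, ∀ t, B.valuation (a j t ^ p - x t) < 1 := by
  have := kr_infinite B
  have := Fact.mk hp
  have : CharP (IsLocalRing.ResidueField B) p := (CharP.charP_iff_prime_eq_zero hp).mpr (by
    rw [← map_natCast (IsLocalRing.residue B), ← map_zero (IsLocalRing.residue B), kr_res]
    simpa using hV)
  obtain ⟨a, rfl⟩ : ∃ b : ι → T → B, a = fun i t => (b i t).1 := ⟨fun i t => ⟨_, ha i t⟩, rfl⟩
  lift x to T → B using hx
  obtain ⟨i, h1, h2⟩ := gek_field (a := fun i t => IsLocalRing.residue B (a i t) ^ p)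
    (x := fun t => IsLocalRing.residue B (x t))
    (y := fun t => (IsLocalRing.residue B (x t) ^ p) ^ p) (p := p) fun Y S => by
      obtain ⟨Y, rfl⟩ := IsLocalRing.residue_surjective Y
      choose S' hS using fun t => IsLocalRing.residue_surjective (S t)
      simp only [← hS, ← map_pow, ← map_mul, ← map_sum, ← map_sub, ← map_prod, kr_res]
      simpa using h Y Y.2 (fun t => S' t) fun t => (S' t).2
  refine ⟨i, fun t => ?_, fun j hj t => ?_⟩
  · have h3 := frobenius_inj _ p (congrFun h1 t)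
    rwa [← map_pow, kr_res] at h3
  · have h3 := congrFun (h2 j hj) t
    rwa [← map_pow, kr_res] at h3

end Pool.Agent.B4.GE
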