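import Pool.Agent.Lib.MP_696deb_nt.B4.GEd
import Pool.Agent.Lib.MP_696deb_nt.B4.GEk

/-! The congruence relation for modular functions. -/

set_option autoImplicit false

open Polynomial Filter Topology
open scoped Classical

namespace Pool.Agent.B4.GE

open Pool.Agent.Lib.MP_696deb_nt Pool.Agent.Lib.MP_696deb_nt.B2 Pool.Agent.Shared.Weier

variable {W : WeierstrassCurve ℚ} {N l : ℕ} {g : MZ}

/-- The power map as a ring homomorphism. -/
def fro {R : Type*} [CommRing R] (hl : l.Prime) (h : (l : R) = 0) : R →+* R where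
  toFun x := x ^ l
  map_one' := one_pow l
  map_mul' x y := mul_pow x y l
  map_zero' := zero_pow hl.ne_zero
  map_add' x y := by
    obtain ⟨r, hr⟩ := exists_add_pow_prime_eq hl x y
    rw [hr, h, zero_mul, zero_mul, zero_mul, add_zero]

theorem gee_prime (hl : l.Prime) : Prime (l : ℤ) := Nat.prime_iff_prime_int.1 hl

theorem gee_ndvd (hl : l.Prime) (hg : g.det = 1) (h0 : (l : ℤ) ∣ g 0 0) (h1 : (l : ℤ) ∣ g 1 0) :
    False :=
  (gee_prime hl).not_dvd_one (by
    rw [← hg, Matrix.det_fin_two]; exact (h0.mul_right _).sub (h1.mul_left _))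

theorem gee_inv (hl : l.Prime) (hlN : ¬ l ∣ N) {α : Type*} {G : ℂ → α} (h : Inv0 N G)
    (hg : G0 N g) : ∃ σ : Equiv.Perm (Option (Fin l)), ∀ z : ℂ, 0 < z.im → ∀ i,
      G (act (rP l i) (act g z)) = G (act (rP l (σ i)) z) := by
  obtain ⟨σ, hσ⟩ := (isReps_rP hl).perm hg.1
  refine ⟨σ, fun z hz i => ?_⟩
  obtain ⟨k, k1, k2⟩ := hσ i
  have h1 := hg.1
  rw [← act_mul _ (by omega) hz, k2, act_mul _ (rP_pos hl _).ne' hz]
  refine h _ ⟨k1, ?_⟩ _ (act_pos (rP_pos hl _) hz)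
  obtain ⟨c, hc⟩ := hg.2
  have h2 := congrFun (congrFun k2 1) 0
  generalize σ i = j at h2
  have h3 : (N : ℤ) ∣ k 1 0 * rP l j 0 0 := ⟨rP l i 1 1 * c, by
    cases i <;> cases j <;> simp [rP, ut, Matrix.mul_apply, hc] at h2 ⊢ <;> linear_combination -h2⟩
  cases j
  · exact (Nat.isCoprime_iff_coprime.mpr ((Nat.Prime.coprime_iff_not_dvd hl).mpr
      hlN).symm).dvd_of_dvd_mul_right (by simpa [rP, ut] using h3)
  · simpa [rP, ut] using h3

theorem gee_type (hl : l.Prime) {a b d : ℕ} (hlN : ¬ l ∣ a * d) {k g' : MZ} (hk : k.det = 1)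
    (h : ut (a * d) 0 1 * g = k * ut a b d) (hg' : g'.det = 1) {i j : Option (Fin l)}
    (h' : rP l i * g = g' * rP l j) : ∃ (k' : MZ) (j' : Option (Fin l)), k'.det = 1 ∧
      ut (a * d) 0 1 * (g' * rP l j) = k' * (rP l j' * ut a b d) ∧ (j = none ↔ j' = none) := by
  obtain ⟨r, r1, r2⟩ : ∃ r : MZ, r.det = l ∧ ut (a * d) 0 1 * rP l i = r * ut (a * d) 0 1 := by
    refine ⟨!![rP l i 0 0, (a * d : ℕ) * rP l i 0 1; 0, rP l i 1 1], ?_, ?_⟩
    · cases i <;> simp [rP, ut]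
    · ext x y
      cases i <;> fin_cases x <;> fin_cases y <;> simp [rP, ut, Matrix.mul_apply, mul_comm]
  obtain ⟨j', k', k1, k2⟩ := (isReps_rP hl).surj (r * k) (by rw [Matrix.det_mul, r1, hk, mul_one])
  have e : ut (a * d) 0 1 * (g' * rP l j) = k' * (rP l j' * ut a b d) := by
    rw [← h', ← mul_assoc, r2, mul_assoc, h, ← mul_assoc, k2, mul_assoc]
  refine ⟨k', j', k1, e, ?_⟩
  have e0 := congrFun (congrFun e 0) 0
  have e1 := congrFun (congrFun e 1) 0
  have hp := gee_prime hl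
  have h1 : ¬ (l : ℤ) ∣ a * d := by exact_mod_cast hlN
  cases j <;> cases j' <;> simp [rP, ut, Matrix.mul_apply] at e0 e1 ⊢
  · have h2 : ¬ (l : ℤ) ∣ a := fun k => h1 (k.mul_right _)
    exact gee_ndvd hl k1 ((hp.dvd_or_dvd ⟨a * d * g' 0 0, by linear_combination -e0⟩).resolve_right
      h2) ((hp.dvd_or_dvd ⟨g' 1 0, by linear_combination -e1⟩).resolve_right h2)
  · exact gee_ndvd hl hg' ((hp.dvd_or_dvd ⟨k' 0 0 * a, by linear_combination e0⟩).resolve_left h1)
      ⟨k' 1 0 * a, by linear_combination e1⟩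

variable {Γ : Type*} [LinearOrderedCommGroupWithZero Γ] {V : Valuation ℂ Γ}
  {e : ℤ[X]} {A : ℤ[X][X]} {h : ℂ → ℂ}

theorem Ja_fro (hl : l.Prime) (hV : V l < 1) {a a' : ℕ} (ha : a ≠ 0) (ha' : a' ≠ 0) {c c' : ℚ}
    (h1 : a' = l * a) (k : ℕ) (h2 : c' + k = l * c) :
    red V (Ja V ha c) ^ l = red V (Ja V ha' c') := by
  have h3 : red V (Ja V ha' c') = red V ⟨fun z => jf (l * aff a c z), le_aff ged_int
      (lz_jf.expand_mem V hl.ne_zero) ha c⟩ := red_congr fun z hz => by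
    have h4 : (l : ℂ) * aff a c z = act (ut 1 k 1) (aff a' c' z) := by
      rw [eq_sub_of_add_eq h2, h1]
      simp [aff, ut, act_of, mob]
      ring
    change jf _ = jf _
    rw [h4, jf_act (by simp [det_ut]) (aff_pos ha' c' hz)]
  rw [h3, ← map_pow]
  exact (Ideal.Quotient.eq.mpr (le_aff ged_lt (lz_jf.frob V hl hV) ha c)).symm

theorem RF.nbr (hN : N ≠ 0) (hh : RF N e A h) (he : V (e.leadingCoeff : ℂ) = 1) (hl : l.Prime)
    (hlN : ¬ l ∣ N) (hV : V l < 1) (hg : g.det = 1) {g' : MZ} (hg' : g'.det = 1)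
    {i j : Option (Fin l)} (h' : rP l i * g = g' * rP l j) :
    ∃ (x y : LR V.integer), (∀ z : ℂ, 0 < z.im → h (act g ((N * l : ℕ) * z)) = x.1 z ∧
      h (act (rP l i) (act g ((N * l : ℕ) * z))) = y.1 z) ∧
      red V y ^ l = if j = none then (red V x ^ l) ^ l else red V x := by
  obtain ⟨a, b, d, k, rfl, k1, k2⟩ := exists_dg hN hg
  obtain ⟨ha, hd⟩ := mul_ne_zero_iff.1 hN
  obtain ⟨k', j', k3, k4, k5⟩ := gee_type hl hlN k1 k2 hg' h'
  have l0 := hl.ne_zero
  have l1 : (l : ℂ) ≠ 0 := Nat.cast_ne_zero.2 l0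
  have l2 : (l : ℚ) ≠ 0 := Nat.cast_ne_zero.2 l0
  have n1 := mul_ne_zero hN l0
  have n2 := mul_ne_zero (mul_ne_zero ha ha) l0
  have w0 : ∀ z : ℂ, ((a * d * l : ℕ) : ℂ) * z = aff (a * d * l) 0 z := fun z => by simp [aff]
  obtain ⟨x, hx⟩ := hh.dat he hg n1 n2 0 (b / d) fun z hz => by
    rw [jN_act hN hg k1 k2 (aff_pos n1 0 hz), act_ut_aff hd]
  have w1 : ∀ z : ℂ, 0 < z.im → jN (a * d) (act g' (act (rP l j) (aff (a * d * l) 0 z))) =
      jf (act (rP l j') (aff (a * a * l) (b / d) z)) := fun z hz => by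
    have p1 := aff_pos n1 0 hz
    have p2 := rP_pos hl j
    have p3 : 0 < (ut a b d).det := by rw [det_ut]; positivity
    have p4 : 0 < (rP l j' * ut a b d).det := by
      rw [Matrix.det_mul]; exact mul_pos (rP_pos hl j') p3
    rw [jN, ← act_dg, ← act_mul _ p2.ne' p1, ← act_mul _ (by rw [Matrix.det_mul]; positivity) p1, k4,
      act_mul _ p4.ne' p1, jf_act k3 (act_pos p4 p1), act_mul _ p3.ne' p1, act_ut_aff hd]
  have w2 : ∀ z : ℂ, 0 < z.im → act (rP l i) (act g (aff (a * d * l) 0 z)) =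
      act g' (act (rP l j) (aff (a * d * l) 0 z)) := fun z hz => by
    rw [← act_mul _ (by omega) (aff_pos n1 0 hz), h', act_mul _ (rP_pos hl j).ne' (aff_pos n1 0 hz)]
  have fr := fun x y : LR V.integer ⧸ LI V => map_ev (fro hl (red_nat hV)) x y A
  have fr1 := fun x : LR V.integer ⧸ LI V => map_ev1 (fro hl (red_nat hV)) x e
  simp only [w0]
  rcases j with _ | s
  · obtain rfl := k5.1 rfl
    have w3 : ∀ (n : ℕ) (c : ℚ) (z : ℂ), act (rP l none) (aff n c z) = aff (n * l) (l * c) z :=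
      fun n c z => by simp [act_none, aff]; ring
    simp only [w3, mul_assoc (a * d)] at w1 w2
    have n3 := mul_ne_zero hN (mul_ne_zero l0 l0)
    obtain ⟨y, hy⟩ := hh.dat he hg' n3 (mul_ne_zero n2 l0) _ _ w1
    refine ⟨⟨_, x⟩, ⟨_, y⟩, fun z hz => ⟨rfl, by rw [w2 z hz]⟩, ?_⟩
    rw [if_pos rfl]
    congr 1
    refine red_cancel (lu_aeval n3 (l * 0) he) ?_
    rw [map_ev1, hy, ← Ja_fro hl hV n1 n3 (c := 0) (by ring) 0 (by simp),
      ← Ja_fro hl hV n2 (mul_ne_zero n2 l0) (c := b / d) (by ring) 0 (by simp)]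
    exact (fr _ _).symm.trans (((congrArg _ hx.symm).trans (map_mul _ _ _)).trans
      (congrArg (· * _) (fr1 _)))
  · obtain ⟨s', rfl⟩ := Option.ne_none_iff_exists'.1 fun e => Option.some_ne_none s (k5.2 e)
    have w3 : ∀ (n : ℕ) (c : ℚ) (s : Fin l) (z : ℂ), act (rP l (some s)) (aff (n * l) c z) =
        aff (n * 1) ((c + (s : ℕ)) / l) z := fun n c s z => by
      simp [act_rP_some, aff]; field_simp; ring
    simp only [w3] at w1 w2
    have n3 := mul_ne_zero hN one_ne_zero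
    have n4 := mul_ne_zero (mul_ne_zero ha ha) one_ne_zero
    obtain ⟨y, hy⟩ := hh.dat he hg' n3 n4 _ _ w1
    refine ⟨⟨_, x⟩, ⟨_, y⟩, fun z hz => ⟨rfl, by rw [w2 z hz]⟩, ?_⟩
    rw [if_neg (Option.some_ne_none s)]
    refine red_cancel (lu_aeval n1 0 he) ?_
    rw [map_ev1, hx, ← Ja_fro hl hV n3 n1 (by ring) s (c := (0 + (s : ℕ)) / l) (by field_simp),
      ← Ja_fro hl hV n4 n2 (by ring) s' (c := (b / d + (s' : ℕ)) / l) (by field_simp)]
    exact ((fr _ _).symm.trans (((congrArg _ hy.symm).trans (map_mul _ _ _)).trans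
      (congrArg (· * _) (fr1 _)))).symm

theorem RF.kron (hN : N ≠ 0) {T : Type} [Fintype T] {e : ℤ[X]} {A : T → ℤ[X][X]} {h : T → ℂ → ℂ}
    (hh : ∀ t, RF N e (A t) (h t)) (B : ValuationSubring ℂ)
    (he : B.valuation (e.leadingCoeff : ℂ) = 1) {l : ℕ} (hl : l.Prime) (hlN : ¬ l ∣ N)
    (hV : B.valuation (l : ℂ) < 1) {τ : ℂ} (hτ : 0 < τ.im) (hj : B.valuation (jf τ) ≤ 1) :
    ∃ k, (∀ t, B.valuation (h t (act (rP l k) τ) - h t τ ^ l) < 1) ∧
      ∀ k' ≠ k, ∀ t, B.valuation (h t (act (rP l k') τ) ^ l - h t τ) < 1 := by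
  refine kr_fam B hl hV (a := fun k t => h t (act (rP l k) τ)) (x := fun t => h t τ)
    (fun k t => (B.valuation_le_one_iff _).1 ((hh t).val_le hN he (act_pos (rP_pos hl k) hτ)
      (val_isog (rP_pos hl k) hτ hj).2))
    (fun t => (B.valuation_le_one_iff _).1 ((hh t).val_le hN he hτ hj)) fun Y hY S hS => ?_
  have hi : Inv0 N fun z t => h t z := fun g hg z hz => funext fun t => (hh t).inv g hg z hz
  refine Inv0.val_lt (G := fun z => ∏ i, (Y - ∑ t, S t * h t (act (rP l i) z) ^ l) -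
    (Y - ∑ t, S t * (h t z ^ l) ^ l) * (Y - ∑ t, S t * h t z) ^ l) hN (fun g hg z hz => ?_)
    (mul_ne_zero hN hl.ne_zero) (fun g hg => ?_) hτ hj
  · obtain ⟨σ, hσ⟩ := gee_inv hl hlN hi hg
    simp only [(hh _).inv g hg z hz, fun i t => congrFun (hσ z hz i) t]
    rw [Equiv.prod_comp σ fun i => Y - ∑ t, S t * h t (act (rP l i) z) ^ l]
  · obtain ⟨σ, hσ⟩ := (isReps_rP hl).perm hg
    choose k k1 k2 using hσ
    choose x y h1 h2 using fun i t => (hh t).nbr hN he hl hlN hV hg (k1 i) (k2 i)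
    have h3 : ∀ i t, red _ (x i t) = red _ (x none t) := fun i t =>
      red_congr fun z hz => (h1 i t z hz).1.symm.trans (h1 none t z hz).1
    let y0 : LR B.valuation.integer := ⟨_, const_mem _ ((B.valuation_le_one_iff _).2 hY)⟩
    let s (t : T) : LR B.valuation.integer := ⟨_, const_mem _ ((B.valuation_le_one_iff _).2 (hS t))⟩
    have h4 : red _ (∏ i, (y0 - ∑ t, s t * y i t ^ l) - (y0 - ∑ t, s t * (x none t ^ l) ^ l) *
        (y0 - ∑ t, s t * x none t) ^ l) = 0 := by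
      simp only [map_sub, map_prod, map_sum, map_mul, map_pow, h2, h3]
      rw [Equiv.prod_comp σ fun j => red _ y0 - ∑ t, red _ (s t) *
        if j = none then (red _ (x none t) ^ l) ^ l else red _ (x none t), Fintype.prod_option]
      simp
    refine (le_of_red h4 fun _ => rfl).congr fun z hz => ?_
    simp only [map_sub, map_prod, map_sum, map_mul, map_pow, evz_apply, ← (h1 _ _ z hz).1,
      ← (h1 _ _ z hz).2, y0, s]

end Pool.Agent.B4.GE
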