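import Pool.Agent.Lib.MP_696deb_nt.B4.GE0
import Pool.Agent.Lib.MP_696deb_nt.B2.KRb

/-! Points and the coordinates of a chart. -/

set_option autoImplicit false

open Polynomial Filter Topology
open scoped Classical

namespace Pool.Agent.B4.GE

open Pool.Agent.Lib.MP_696deb_nt Pool.Agent.Lib.MP_696deb_nt.B2 Pool.Agent.Shared.Weier

variable {W : WeierstrassCurve ℚ} {N : ℕ}

section
variable {K L : Type*} [Field K] [DecidableEq K] [CharZero K] [Field L] [DecidableEq L] [CharZero L]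

theorem gep_zero (f : K →+* L) (R : Pt W K) : pmap f R = 0 ↔ R = 0 :=
  map_eq_zero_iff _ (pmap_injective f)

theorem fn_pmap (f : K →+* L) (c : K) (R : Pt W K) : Fn (f c) (pmap f R) ↔ Fn c R := by
  rw [Fn, Fn, gep_zero, xco_pmap, f.injective.ne_iff]

theorem gep_cu (f : K →+* L) (c : K) (R : Pt W K) : cu (f c) (pmap f R) = f (cu c R) := by
  by_cases h : R = 0
  · rw [cu, cu, if_pos h, if_pos ((gep_zero f R).2 h), map_zero]
  · rw [cu, cu, if_neg h, if_neg (mt (gep_zero f R).1 h), xco_pmap, map_inv₀, map_sub]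

theorem ch_pmap (f : K →+* L) (c : K) (i : Bool) (R : Pt W K) :
    ch (f c) i (pmap f R) = f (ch c i R) := by
  cases i
  · change cv _ _ = f (cv _ _)
    simp only [cv, gep_cu, xco_pmap, yco_pmap, map_mul, map_add, map_pow, map_ratCast, map_ofNat]
  · exact gep_cu f c R

/-- The point with given coordinates. -/
noncomputable def ofUV (W : WeierstrassCurve ℚ) (c u v : K) : Pt W K :=
  if h : u ≠ 0 ∧ (W.baseChange K).toAffine.Nonsingular (c + u⁻¹)
    ((v / u ^ 2 - (W.a₁ : K) * (c + u⁻¹) - (W.a₃ : K)) / 2) then .some _ _ h.2 else 0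

theorem gep_some {c u v x y : K} (h : (W.baseChange K).toAffine.Nonsingular x y) (hu : u ≠ 0)
    (hx : c + u⁻¹ = x) (hy : (v / u ^ 2 - (W.a₁ : K) * (c + u⁻¹) - (W.a₃ : K)) / 2 = y) :
    ofUV W c u v = .some x y h := by
  subst hx hy
  exact dif_pos ⟨hu, h⟩

theorem ofUV_ch {c : K} {R : Pt W K} (h : Fn c R) : ofUV W c (ch c true R) (ch c false R) = R := by
  rcases R with _ | ⟨x, y, k⟩
  · exact dif_neg fun e => e.1 (show cu c (0 : Pt W K) = 0 from if_pos rfl)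
  · have h0 : (.some x y k : Pt W K) ≠ 0 := fun e => by cases e
    have h1 : x - c ≠ 0 := sub_ne_zero.2 (h.resolve_left h0)
    have h2 : cu c (.some x y k : Pt W K) = (x - c)⁻¹ := if_neg h0
    change ofUV W c (cu c (.some x y k)) (cv c (.some x y k)) = _
    rw [cv, h2]
    refine gep_some k (inv_ne_zero h1) (by rw [inv_inv]; ring) ?_
    rw [xco_some, yco_some]
    field_simp
    ring

theorem pmap_ofUV (f : K →+* L) (c u v : K) :
    pmap f (ofUV W c u v) = ofUV W (f c) (f u) (f v) := by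
  have e1 : f c + (f u)⁻¹ = f (c + u⁻¹) := by simp
  have e2 : (f v / f u ^ 2 - (W.a₁ : L) * (f c + (f u)⁻¹) - (W.a₃ : L)) / 2 =
      f ((v / u ^ 2 - (W.a₁ : K) * (c + u⁻¹) - (W.a₃ : K)) / 2) := by simp [map_ofNat]
  have e3 := W.toAffine.baseChange_nonsingular (f := f.toRatAlgHom) f.injective (c + u⁻¹)
    ((v / u ^ 2 - (W.a₁ : K) * (c + u⁻¹) - (W.a₃ : K)) / 2)
  by_cases h : u ≠ 0 ∧ (W.baseChange K).toAffine.Nonsingular (c + u⁻¹)
    ((v / u ^ 2 - (W.a₁ : K) * (c + u⁻¹) - (W.a₃ : K)) / 2)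
  · rw [gep_some h.2 h.1 rfl rfl, gep_some (e3.2 h.2) ((_root_.map_ne_zero f).2 h.1) e1 e2]
    rfl
  · rw [ofUV, dif_neg h, map_zero, ofUV, dif_neg]
    rw [e2, e1]
    exact fun k => h ⟨(_root_.map_ne_zero f).1 k.1, e3.1 k.2⟩

omit [DecidableEq K] in
theorem gep_eqn {x y : K} : (W.baseChange K).toAffine.Equation x y ↔
    y ^ 2 + (W.a₁ : K) * x * y + (W.a₃ : K) * y =
      x ^ 3 + (W.a₂ : K) * x ^ 2 + (W.a₄ : K) * x + (W.a₆ : K) := by
  rw [WeierstrassCurve.Affine.equation_iff]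
  simp [WeierstrassCurve.baseChange]

omit [DecidableEq K] in
theorem gep_eq {R : Pt W K} (h : R ≠ 0) :
    yco R ^ 2 + (W.a₁ : K) * xco R * yco R + (W.a₃ : K) * yco R =
      xco R ^ 3 + (W.a₂ : K) * xco R ^ 2 + (W.a₄ : K) * xco R + (W.a₆ : K) := by
  rcases R with _ | ⟨x, y, k⟩
  · exact absurd rfl h
  · exact gep_eqn.1 k.1

omit [DecidableEq K] in
theorem gep_neg {R : Pt W K} (h : R ≠ 0) :
    yco (-R) = -yco R - (W.a₁ : K) * xco R - (W.a₃ : K) := by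
  rcases R with _ | ⟨x, y, k⟩
  · exact absurd rfl h
  · change (W.baseChange K).toAffine.negY x y = -y - _ * x - _
    simp [WeierstrassCurve.Affine.negY, WeierstrassCurve.baseChange]

end

/-- The coefficients of the curve are integral at the place. -/
def Int5 (W : WeierstrassCurve ℚ) (w : Plc) : Prop := w.V (W.a₁ : Qbar) ≤ 1 ∧
  w.V (W.a₂ : Qbar) ≤ 1 ∧ w.V (W.a₃ : Qbar) ≤ 1 ∧ w.V (W.a₄ : Qbar) ≤ 1 ∧ w.V (W.a₆ : Qbar) ≤ 1

theorem gep_rat (w : Plc) {r : ℚ} {M : ℕ} (h : ¬ w.p ∣ M) (hr : r.den ∣ M) :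
    w.V (r : Qbar) ≤ 1 := by
  rw [Rat.cast_def, map_div₀, ← Int.cast_natCast r.den, w.V_int_eq_one.2 fun k =>
    h ((Int.natCast_dvd_natCast.1 k).trans hr), div_one]
  exact w.V_int_le _

theorem exists_int5 (W : WeierstrassCurve ℚ) :
    ∃ M : ℕ, M ≠ 0 ∧ ∀ w : Plc, ¬ w.p ∣ M → Int5 W w := by
  refine ⟨W.a₁.den * W.a₂.den * W.a₃.den * W.a₄.den * W.a₆.den, by simp, fun w h =>
    ⟨gep_rat w h ?_, gep_rat w h ?_, gep_rat w h ?_, gep_rat w h ?_, gep_rat w h ?_⟩⟩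
  · exact ⟨W.a₂.den * W.a₃.den * W.a₄.den * W.a₆.den, by ring⟩
  · exact ⟨W.a₁.den * W.a₃.den * W.a₄.den * W.a₆.den, by ring⟩
  · exact ⟨W.a₁.den * W.a₂.den * W.a₄.den * W.a₆.den, by ring⟩
  · exact ⟨W.a₁.den * W.a₂.den * W.a₃.den * W.a₆.den, by ring⟩
  · exact ⟨W.a₁.den * W.a₂.den * W.a₃.den * W.a₄.den, by ring⟩

variable {w : Plc} {R S : Pt W Qbar}

theorem gep_notBig : ¬ Big w R ↔ R ≠ 0 ∧ w.V (xco R) ≤ 1 := by
  rw [Big, not_or, not_lt]

theorem gep_big {c : ℤ} (hR : Fn (c : Qbar) R) : Big w R ↔ w.V (cu (c : Qbar) R) < 1 := by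
  by_cases h : R = 0
  · simp [Big, cu, h]
  have h1 : xco R - c ≠ 0 := sub_ne_zero.2 (hR.resolve_left h)
  rw [Big, cu, if_neg h, or_iff_right h, map_inv₀,
    inv_lt_one₀ (zero_lt_iff.2 ((_root_.map_ne_zero _).2 h1)), ← not_le, ← not_le]
  refine not_congr ⟨fun k => w.V.map_sub_le k (w.V_int_le c), fun k => ?_⟩
  simpa using w.V.map_add_le k (w.V_int_le c)

theorem near_of_ch (hW : Int5 W w) (h2 : w.p ≠ 2) {c : ℤ} (hR : Fn (c : Qbar) R)
    (hS : Fn (c : Qbar) S) (iR : ∀ i, w.V (ch (c : Qbar) i R) ≤ 1)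
    (h : ∀ i, w.V (ch (c : Qbar) i R - ch (c : Qbar) i S) < 1) : Near w R S := by
  have u1 : w.V (cu (c : Qbar) R) ≤ 1 := iR true
  have v1 : w.V (cv (c : Qbar) R) ≤ 1 := iR false
  have u2 : w.V (cu (c : Qbar) R - cu (c : Qbar) S) < 1 := h true
  have v2 : w.V (cv (c : Qbar) R - cv (c : Qbar) S) < 1 := h false
  by_cases b : Big w R
  · refine .inl ⟨b, (gep_big hS).2 ?_⟩
    simpa using w.V.map_sub_lt ((gep_big hR).1 b) u2
  have u3 : w.V (cu (c : Qbar) R) = 1 := u1.antisymm (not_lt.1 (mt (gep_big hR).2 b))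
  have u4 : w.V (cu (c : Qbar) S) = 1 := by
    rw [← u3]
    exact w.V.map_eq_of_sub_lt (by rwa [w.V.map_sub_swap, u3])
  have b' : ¬ Big w S := mt (gep_big hS).1 (not_lt.2 u4.ge)
  obtain ⟨r0, r1⟩ := gep_notBig.1 b
  obtain ⟨s0, s1⟩ := gep_notBig.1 b'
  have r2 : xco R - c ≠ 0 := sub_ne_zero.2 (hR.resolve_left r0)
  have s2 : xco S - c ≠ 0 := sub_ne_zero.2 (hS.resolve_left s0)
  have r3 : w.V (xco R - c) ≤ 1 := w.V.map_sub_le r1 (w.V_int_le c)
  have s3 : w.V (xco S - c) ≤ 1 := w.V.map_sub_le s1 (w.V_int_le c)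
  have r4 : cu (c : Qbar) R = (xco R - c)⁻¹ := if_neg r0
  have s4 : cu (c : Qbar) S = (xco S - c)⁻¹ := if_neg s0
  have hx : w.V (xco R - xco S) < 1 := by
    rw [show xco R - xco S = -(xco R - c) * (xco S - c) * (cu (c : Qbar) R - cu (c : Qbar) S) by
      rw [r4, s4]; field_simp; ring]
    exact b2a_mul_lt w (b2a_mul_le w (by rwa [w.V.map_neg]) s3) u2
  refine .inr ⟨b, b', hx, ?_⟩
  have t : w.V (2 : Qbar) = 1 := by
    have := w.V_int_eq_one (a := 2).2 fun k => h2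
      ((Nat.prime_dvd_prime_iff_eq w.prime Nat.prime_two).1 (Int.natCast_dvd_natCast.1 k))
    simpa using this
  rw [← one_mul (w.V _), ← t, ← map_mul, t, show 2 * (yco R - yco S) =
    (xco S - c) ^ 2 * (cv (c : Qbar) R - cv (c : Qbar) S) +
      (cv (c : Qbar) R * (xco R - c + (xco S - c)) - (W.a₁ : Qbar)) * (xco R - xco S) by
    rw [cv, cv, r4, s4]; field_simp; ring]
  exact w.V.map_add_lt (b2a_mul_lt w (b2a_pow_le w s3 2) v2) (b2a_mul_lt w
    (w.V.map_sub_le (b2a_mul_le w v1 (w.V.map_add_le r3 s3)) hW.1) hx)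

theorem big_ga {f : Gam} (hf : f ∈ Dec w) : Big w (ga f R) ↔ Big w R := by
  rw [Big, Big, gep_zero, xco_pmap]
  exact or_congr_right (by rw [← mem_Dec.1 hf (xco R)]; rfl)

theorem exists_pt [W.IsElliptic] (x : Qbar) : ∃ R : Pt W Qbar, R ≠ 0 ∧ xco R = x := by
  obtain ⟨y, hy⟩ := IsAlgClosed.exists_root (C 1 * X ^ 2 + C ((W.a₁ : Qbar) * x + (W.a₃ : Qbar)) * X
    + C (-(x ^ 3 + (W.a₂ : Qbar) * x ^ 2 + (W.a₄ : Qbar) * x + (W.a₆ : Qbar))))
    (by rw [degree_quadratic one_ne_zero]; decide)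
  simp only [IsRoot, eval_add, eval_mul, eval_pow, eval_X, eval_C] at hy
  exact ⟨.some x y (WeierstrassCurve.Affine.equation_iff_nonsingular.1
    (gep_eqn.2 (by linear_combination hy))), WeierstrassCurve.Affine.Point.some_ne_zero _, rfl⟩

theorem gep_yco (hW : Int5 W w) (h : ¬ Big w R) : w.V (yco R) ≤ 1 := by
  obtain ⟨r0, r1⟩ := gep_notBig.1 h
  obtain ⟨a1, a2, a3, a4, a6⟩ := hW
  refine r0_quad w (a := (W.a₁ : Qbar) * xco R + (W.a₃ : Qbar))
    (w.V.map_add_le (b2a_mul_le w a1 r1) a3) ?_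
  rw [add_mul, ← add_assoc, gep_eq r0]
  exact w.V.map_add_le (w.V.map_add_le (w.V.map_add_le (b2a_pow_le w r1 3)
    (b2a_mul_le w a2 (b2a_pow_le w r1 2))) (b2a_mul_le w a4 r1)) a6

theorem gep_two (hW : Int5 W w) (hR : ¬ Big w R) (hS : ¬ Big w S)
    (h : w.V (xco R - xco S) < 1) : Near w R S ∨ Near w R (-S) := by
  obtain ⟨r0, r1⟩ := gep_notBig.1 hR
  obtain ⟨s0, s1⟩ := gep_notBig.1 hS
  have r2 := gep_yco hW hR
  obtain ⟨a1, a2, a3, a4, a6⟩ := hW
  have key : w.V (yco R - yco S) * w.V (yco R - yco (-S)) < 1 := by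
    rw [← map_mul, gep_neg s0, show (yco R - yco S) *
      (yco R - (-yco S - (W.a₁ : Qbar) * xco S - (W.a₃ : Qbar))) =
      (xco R ^ 2 + xco R * xco S + xco S ^ 2 + (W.a₂ : Qbar) * (xco R + xco S) + (W.a₄ : Qbar) -
        (W.a₁ : Qbar) * yco R) * (xco R - xco S) by linear_combination gep_eq r0 - gep_eq s0]
    exact b2a_mul_lt w (w.V.map_sub_le (w.V.map_add_le (w.V.map_add_le (w.V.map_add_le
      (w.V.map_add_le (b2a_pow_le w r1 2) (b2a_mul_le w r1 s1)) (b2a_pow_le w s1 2))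
      (b2a_mul_le w a2 (w.V.map_add_le r1 s1))) a4) (b2a_mul_le w a1 r2)) h
  by_cases k : w.V (yco R - yco S) < 1
  · exact .inl (.inr ⟨hR, hS, h, k⟩)
  · refine .inr (.inr ⟨hR, gep_notBig.2 ⟨neg_ne_zero.2 s0, by rwa [xco_neg]⟩, by rwa [xco_neg], ?_⟩)
    by_contra k'
    exact key.not_ge (one_le_mul (not_lt.1 k) (not_lt.1 k'))

theorem gep_infinite [W.IsElliptic] {K : AddSubgroup (Pt W Qbar)}
    (hK : ∀ R S, R - S ∈ K ↔ Near w R S) : Infinite (Pt W Qbar ⧸ K) := by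
  have := kr_infinite w.V.valuationSubring
  choose x hx using IsLocalRing.residue_surjective (R := w.V.valuationSubring)
  choose P h0 h1 using exists_pt (W := W)
  refine Infinite.of_injective (fun r => (P (x r) : Pt W Qbar ⧸ K)) fun r r' e => ?_
  rcases (hK _ _).1 (QuotientAddGroup.eq_iff_sub_mem.1 e) with k | k
  · exact absurd k.1 (gep_notBig.2 ⟨h0 _, by rw [h1]; exact (x r).2⟩)
  · rw [← hx r, ← hx r', ← sub_eq_zero, ← map_sub, IsLocalRing.residue_eq_zero_iff,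
      Valuation.mem_maximalIdeal_iff]
    have k1 := k.2.2.1
    rw [h1, h1] at k1
    exact k1

/-- A subgroup that contains all points outside finitely many residue classes is everything. -/
theorem eq_top_of_cofinite [W.IsElliptic] (hW : Int5 W w) {K H : AddSubgroup (Pt W Qbar)}
    (hK : ∀ R S, R - S ∈ K ↔ Near w R S) (hH : K ≤ H) {s : Set Qbar} (hs : s.Finite)
    (h : ∀ R, ¬ Big w R → (∀ x ∈ s, ¬ w.V (xco R - x) < 1) → R ∈ H) : H = ⊤ := by
  have hq : ∀ {R S : Pt W Qbar}, Near w R S → (R : Pt W Qbar ⧸ K) = S := fun k =>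
    QuotientAddGroup.eq_iff_sub_mem.2 ((hK _ _).2 k)
  have h1 : ∀ x : Qbar, ((fun R : Pt W Qbar => (R : Pt W Qbar ⧸ K)) ''
      {R | ¬ Big w R ∧ w.V (xco R - x) < 1}).Finite := fun x => by
    rcases Set.eq_empty_or_nonempty {R : Pt W Qbar | ¬ Big w R ∧ w.V (xco R - x) < 1} with
      e | ⟨S, hS⟩
    · rw [e, Set.image_empty]
      exact Set.finite_empty
    refine (Set.toFinite {(S : Pt W Qbar ⧸ K), ((-S : Pt W Qbar) : Pt W Qbar ⧸ K)}).subset ?_
    rintro _ ⟨R, hR, rfl⟩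
    exact (gep_two hW hR.1 hS.1 (by simpa using w.V.map_sub_lt hR.2 hS.2)).imp hq hq
  have h2 : ((fun R : Pt W Qbar => (R : Pt W Qbar ⧸ K)) '' {R | R ∉ H}).Finite := by
    refine (hs.biUnion fun x _ => h1 x).subset ?_
    rintro _ ⟨R, hR, rfl⟩
    have b : ¬ Big w R := fun b => hR (hH (by simpa using (hK R 0).2 (.inl ⟨b, .inl rfl⟩)))
    by_contra k
    exact hR (h R b fun x hx k' => k (Set.mem_biUnion hx ⟨R, ⟨b, k'⟩, rfl⟩))
  by_contra k
  obtain ⟨P, hP⟩ : ∃ P, P ∉ H := by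
    by_contra! k'
    exact k ((AddSubgroup.eq_top_iff' H).2 k')
  have := gep_infinite hK
  refine Set.infinite_univ ((h2.union (h2.image fun q => q - (P : Pt W Qbar ⧸ K))).subset ?_)
  intro q _
  obtain ⟨R, rfl⟩ := QuotientAddGroup.mk_surjective q
  by_cases r : R ∈ H
  · exact .inr ⟨_, ⟨R + P, fun e => hP (by simpa using H.sub_mem e r), rfl⟩, by simp⟩
  · exact .inl ⟨R, r, rfl⟩

/-- Extension of a place to the complex numbers. -/
theorem exists_ext (w : Plc) : ∃ B : ValuationSubring ℂ,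
    (∀ x, B.valuation (jC x) ≤ 1 ↔ w.V x ≤ 1) ∧ ∀ x, B.valuation (jC x) < 1 ↔ w.V x < 1 := by
  obtain ⟨B, h1, h2⟩ := IsLocalRing.exists_factor_valuationRing
    (jC.comp w.V.valuationSubring.subtype)
  have h3 : ∀ x, w.V x < 1 → B.valuation (jC x) < 1 := fun x hx =>
    (B.valuation_lt_one_iff ⟨_, h1 ⟨x, hx.le⟩⟩).mp fun k =>
      (Valuation.mem_maximalIdeal_iff _ _ |>.mpr hx) (h2.1 ⟨x, hx.le⟩ k)
  refine ⟨B, fun x => ⟨fun h => ?_, fun h => (B.valuation_le_one_iff _).mpr (h1 ⟨x, h⟩)⟩,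
    fun x => ⟨fun h => ?_, h3 x⟩⟩
  · by_contra! k
    have := h3 x⁻¹ (by rw [map_inv₀]; exact inv_lt_one_of_one_lt₀ k)
    rw [map_inv₀, map_inv₀, inv_lt_one_iff₀, le_zero_iff, map_eq_zero, map_eq_zero] at this
    rcases this with rfl | e
    · simp at k
    · exact e.not_ge h
  · by_contra! k
    have : B.valuation (jC x⁻¹) ≤ 1 := (B.valuation_le_one_iff _).mpr
      (h1 ⟨x⁻¹, show w.V _ ≤ 1 by rw [map_inv₀]; exact inv_le_one_of_one_le₀ k⟩)
    rw [map_inv₀, map_inv₀, inv_le_one_iff₀, le_zero_iff, map_eq_zero, map_eq_zero] at this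
    rcases this with rfl | e
    · simp at k
    · exact e.not_gt h

end Pool.Agent.B4.GE
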