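import Pool.Agent.Lib.MP_696deb_nt.B4.GEc
import Pool.Agent.Lib.MP_696deb_nt.B4.GEe
import Pool.Agent.Lib.MP_696deb_nt.B4.GEp

/-! Algebraicity and the congruence relation for points. -/

set_option autoImplicit false

open Polynomial Filter Topology
open scoped Classical

namespace Pool.Agent.B4.GE

open Pool.Agent.Lib.MP_696deb_nt Pool.Agent.Lib.MP_696deb_nt.B2 Pool.Agent.Shared.Weier

variable {W : WeierstrassCurve ℚ} {N : ℕ}

theorem Par.elliptic (P : Par W N) : W.IsElliptic :=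
  ⟨Ne.isUnit fun h => P.per.Δ_ne (by
    rw [WeierstrassCurve.baseChange, WeierstrassCurve.map_Δ, h, map_zero])⟩

theorem gef_alg {y : ℂ} (h : ∀ B : ValuationSubring ℂ, (∀ x, B.valuation (jC x) ≤ 1) →
    B.valuation y ≤ 1) : ∃ x, jC x = y := by
  have h1 : IsIntegral ℚ y := by
    by_contra k
    obtain ⟨B, h1, h2⟩ := Subring.exists_le_valuationSubring_of_isIntegrallyClosedIn
      (R := (integralClosure ℚ ℂ).toSubring) (x := y) k
    exact h2 ((B.valuation_le_one_iff _).mp (h B fun x => (B.valuation_le_one_iff _).mpr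
      (h1 ((Algebra.IsIntegral.isIntegral (R := ℚ) x).map jC.toRatAlgHom))))
  exact h1.mem_range_algHom_of_minpoly_splits (K := Qbar) (IsAlgClosed.splits _) jC.toRatAlgHom

theorem alg_isog {τ : ℂ} {x : Qbar} (hτ : 0 < τ.im) (hx : jC x = jf τ) {B : MZ} (hB : 0 < B.det) :
    ∃ y, jC y = jf (act B τ) := gef_alg fun _ h => (val_isog hB hτ (hx ▸ h x)).2

theorem Par.alg (P : Par W N) {τ : ℂ} {x : Qbar} (hτ : 0 < τ.im) (hx : jC x = jf τ) :
    ∃ Q, pmap jC Q = P.φ τ := by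
  obtain ⟨T, r, M, hM, h⟩ := P.two_charts
  obtain ⟨S, hS⟩ : ∃ S : Chart P, aeval (jf τ) S.b ≠ 0 := by
    by_contra! k
    have := congrArg (aeval (jf τ)) h
    simp [k, hM, eq_comm] at this
  choose y hy using fun i => gef_alg fun B hB => (S.rf i).val_le P.N0 (V := B.valuation) (by
    have h1 : (S.e.leadingCoeff : ℂ) ≠ 0 := Int.cast_ne_zero.2 (leadingCoeff_ne_zero.2 S.e0)
    have h2 := hB (S.e.leadingCoeff : Qbar)⁻¹
    rw [map_inv₀, map_intCast, map_inv₀, inv_le_one₀ (by rwa [zero_lt_iff, Valuation.ne_zero_iff])]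
      at h2
    exact le_antisymm (val_int _ _) h2) hτ (hx ▸ hB x)
  refine ⟨ofUV W S.c (y true / aeval x S.b) (y false / aeval x S.b), ?_⟩
  rw [pmap_ofUV, map_div₀, map_div₀, hy, hy, map_ev1, hx, mul_div_cancel_left₀ _ hS,
    mul_div_cancel_left₀ _ hS, map_intCast, ofUV_ch (S.fn τ hτ hS)]

theorem Par.exists_Φ (P : Par W N) : ∃ (m : ℤ[X]) (Φ : Qbar → Qbar → Pt W Qbar), m ≠ 0 ∧
    (∀ (g : Gam) (x y : Qbar), ga g (Φ x y) = Φ (g x) (g y)) ∧
    ∀ (τ : ℂ) (x y : Qbar), 0 < τ.im → jC x = jf τ → jC y = jf (N * τ) → aeval x m ≠ 0 →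
      pmap jC (Φ x y) = P.φ τ := by
  obtain ⟨T, -⟩ := P.two_charts
  let S := T true
  refine ⟨S.e * S.b, fun x y => ofUV W S.c (aevalAeval x y (S.A true) / aeval x (S.e * S.b))
    (aevalAeval x y (S.A false) / aeval x (S.e * S.b)), mul_ne_zero S.e0 S.b0, fun g x y => ?_,
    fun τ x y hτ hx hy h => ?_⟩
  · rw [pmap_ofUV, map_div₀, map_div₀, map_ev, map_ev, map_ev1, map_intCast]
    rfl
  · have h1 := (map_ne_zero jC).2 h
    rw [map_ev1, hx] at h1
    have h2 : ∀ i, aevalAeval (jf τ) (jf (N * τ)) (S.A i) / aeval (jf τ) (S.e * S.b) =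
        ch (S.c : ℂ) i (P.φ τ) := fun i => by
      rw [div_eq_iff h1, map_mul, mul_comm (ch _ _ _), mul_assoc]
      exact ((S.rf i).rel τ hτ).symm
    rw [pmap_ofUV, map_div₀, map_div₀, map_ev, map_ev, map_ev1, map_intCast, hx, hy, h2, h2,
      ofUV_ch (S.fn τ hτ (right_ne_zero_of_mul (map_mul (aeval (jf τ)) S.e S.b ▸ h1)))]

theorem gef_ev (w : Plc) {x : Qbar} (hx : w.V x ≤ 1) (b : ℤ[X]) : w.V (aeval x b) ≤ 1 :=
  (congrArg w.V (map_ev1 w.V.integer.subtype ⟨x, hx⟩ b)).symm.trans_le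
    (aeval (⟨x, hx⟩ : w.V.integer) b).2

theorem gef_div (w : Plc) {β γ u v : Qbar} (hβ : w.V β = 1) (hv : w.V v ≤ 1)
    (h1 : w.V (β - γ) < 1) (h2 : w.V (β * u - γ * v) < 1) : w.V (u - v) < 1 := by
  have h3 := w.V.map_sub_lt h2 (b2a_mul_lt w hv h1)
  rwa [show β * u - γ * v - v * (β - γ) = β * (u - v) by ring, map_mul, hβ, one_mul] at h3

theorem gef_frob {w : Plc} {f : Gam} (hf : IsFrob w w.p f) {x y : Qbar} (hx : w.V x ≤ 1)
    (h : w.V (y - x ^ w.p) < 1) : w.V (y - f x) < 1 := by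
  rw [show y - f x = y - x ^ w.p - (f x - x ^ w.p) by ring]
  exact w.V.map_sub_lt h (hf.2 x hx)

theorem gef_ga (f : Gam) (c : ℤ) (R : Pt W Qbar) : (Fn (c : Qbar) (ga f R) ↔ Fn (c : Qbar) R) ∧
    ∀ i, ch (c : Qbar) i (ga f R) = f (ch (c : Qbar) i R) := by
  have h1 := fn_pmap (f : Qbar →+* Qbar) c R
  have h2 := fun i => ch_pmap (f : Qbar →+* Qbar) c i R
  rw [map_intCast] at h1 h2
  exact ⟨h1, h2⟩

theorem Par.kron (P : Par W N) : ∃ M : ℕ, M ≠ 0 ∧ ∀ (w : Plc) (f : Gam) (τ : ℂ) (x : Qbar)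
    (Q : Pt W Qbar), ¬ w.p ∣ M → IsFrob w w.p f → 0 < τ.im → jC x = jf τ → w.V x ≤ 1 →
    pmap jC Q = P.φ τ → ∃ R : Option (Fin w.p) → Pt W Qbar,
      (∀ i, pmap jC (R i) = P.φ (act (rP w.p i) τ)) ∧
      ∃ i, Near w (R i) (ga f Q) ∧ ∀ k ≠ i, Near w (ga f (R k)) Q := by
  obtain ⟨T, r, M, hM, h⟩ := P.two_charts
  obtain ⟨M', hM', h5⟩ := exists_int5 W
  refine ⟨2 * N * M' * (M * ∏ i, (T i).e.leadingCoeff).natAbs, mul_ne_zero (mul_ne_zero
    (mul_ne_zero two_ne_zero P.N0) hM') (Int.natAbs_ne_zero.2 (mul_ne_zero hM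
      (Finset.prod_ne_zero_iff.2 fun i _ => leadingCoeff_ne_zero.2 (T i).e0))),
    fun w f τ x Q hw hf hτ hx ix hQ => ?_⟩
  have hp := w.prime
  have w2 : w.p ≠ 2 := fun k => hw (k ▸ ⟨_, by rw [mul_assoc, mul_assoc]⟩)
  have wN : ¬ w.p ∣ N := fun k => hw (((k.mul_left _).mul_right _).mul_right _)
  have w5 := h5 w fun k => hw ((k.mul_left _).mul_right _)
  have wM : ¬ (w.p : ℤ) ∣ M * ∏ i, (T i).e.leadingCoeff := fun k =>
    hw ((Int.natCast_dvd.1 k).mul_left _)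
  obtain ⟨i, hi⟩ : ∃ i, w.V (aeval x (T i).b) = 1 := by
    by_contra! k
    have h1 := fun i => b2a_mul_lt w (gef_ev w ix (r i)) ((gef_ev w ix _).lt_of_ne (k i))
    have h2 := w.V.map_add_lt (h1 true) (h1 false)
    rw [← map_mul, ← map_mul, ← map_add, h, aeval_C, eq_intCast,
      w.V_int_eq_one.2 fun k => wM (k.mul_right _)] at h2
    exact h2.false
  have we : ¬ (w.p : ℤ) ∣ (T i).e.leadingCoeff := fun k =>
    wM ((k.trans (Finset.dvd_prod_of_mem (fun i => (T i).e.leadingCoeff)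
      (Finset.mem_univ i))).mul_left _)
  generalize T i = S at hi we
  obtain ⟨B, b1, b2⟩ := exists_ext w
  have he : B.valuation (S.e.leadingCoeff : ℂ) = 1 := le_antisymm (val_int _ _) (not_lt.1 fun k => by
    rw [← map_intCast jC, b2, w.V_int_eq_one.2 we] at k
    exact k.false)
  have hj : B.valuation (jf τ) ≤ 1 := hx ▸ (b1 x).2 ix
  have pos := fun k => act_pos (rP_pos hp k) hτ
  choose y hy using fun k => alg_isog hτ hx (rP_pos hp k)
  choose R hR using fun k => P.alg (pos k) (hy k)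
  have e1 : ∀ {z : ℂ} {a : Qbar} {U : Pt W Qbar}, 0 < z.im → jC a = jf z → pmap jC U = P.φ z →
      B.valuation (jf z) ≤ 1 → (∀ t, aeval (jf z) S.b * ch (S.c : ℂ) t (P.φ z) =
        jC (aeval a S.b * ch (S.c : Qbar) t U)) ∧ (w.V (aeval a S.b) = 1 → Fn (S.c : Qbar) U ∧
          ∀ t, w.V (ch (S.c : Qbar) t U) ≤ 1) := fun {z a U} hz ha hU hv => by
    have h1 : ∀ t, aeval (jf z) S.b * ch (S.c : ℂ) t (P.φ z) =
        jC (aeval a S.b * ch (S.c : Qbar) t U) := fun t => by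
      rw [map_mul, map_ev1, ha, ← ch_pmap, hU, map_intCast]
    refine ⟨h1, fun k => ⟨?_, fun t => ?_⟩⟩
    · rw [← fn_pmap jC, hU, map_intCast]
      refine S.fn z hz ?_
      rw [← ha, ← map_ev1, _root_.map_ne_zero]
      exact fun k' => by simp [k'] at k
    · have h2 := (S.rf t).val_le P.N0 he hz hv
      rwa [h1, b1, map_mul, k, one_mul] at h2
  obtain ⟨k, h1, h2⟩ := RF.kron P.N0 (T := Option Bool) (A := fun t => t.elim (C (S.e * S.b)) S.A)
    (h := fun t z => aeval (jf z) S.b * t.elim 1 fun t => ch (S.c : ℂ) t (P.φ z)) (e := S.e)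
    (fun t => by
      cases t
      · exact ⟨fun g hg z hz => by simp only [jf_act hg.1 hz, Option.elim],
          fun z hz => (GEc_hol1 _ z hz).mul_const _, fun z _ => by
            simp only [Option.elim, aevalAeval_C, map_mul, mul_one]⟩
      · exact S.rf _) B he hp wN (by rw [← map_natCast jC, b2]; exact b2a_p_lt w) hτ hj
  have e2 := e1 hτ hx hQ hj
  have e3 := fun k => e1 (pos k) (hy k) (hR k) (val_isog (rP_pos hp k) hτ hj).2
  have e4 := e2.2 hi
  refine ⟨R, hR, k, ?_, fun k' hk => ?_⟩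
  · have h3 := h1 none
    have h4 := fun t => h1 (some t)
    simp only [Option.elim, mul_one, ← hx, ← hy, ← map_ev1, ← map_pow jC, ← map_sub, b2] at h3
    simp only [Option.elim, e2.1, (e3 k).1, ← map_pow jC, ← map_sub, b2, mul_pow] at h4
    have h6 : w.V (aeval (y k) S.b) = 1 := by
      rw [← sub_add_cancel (aeval (y k) S.b) (aeval x S.b ^ w.p), w.V.map_add_eq_of_lt_right
        (by rwa [map_pow, hi, one_pow]), map_pow, hi, one_pow]
    exact near_of_ch w5 w2 ((e3 k).2 h6).1 ((gef_ga f _ _).1.2 e4.1) ((e3 k).2 h6).2 fun t => by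
      rw [(gef_ga f _ _).2]
      exact gef_frob hf (e4.2 t) (gef_div w h6 (b2a_pow_le w (e4.2 t) _) h3 (h4 t))
  · have h3 := h2 k' hk none
    have h4 := fun t => h2 k' hk (some t)
    simp only [Option.elim, mul_one, ← hx, ← hy, ← map_ev1, ← map_pow jC, ← map_sub, b2] at h3
    simp only [Option.elim, e2.1, (e3 k').1, ← map_pow jC, ← map_sub, b2, mul_pow] at h4
    have h6 : w.V (aeval (y k') S.b ^ w.p) = 1 := by
      rw [← sub_add_cancel (aeval (y k') S.b ^ w.p) (aeval x S.b), w.V.map_add_eq_of_lt_right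
        (by rwa [hi]), hi]
    have h7 := (e3 k').2 ((pow_eq_one_iff_left hp.ne_zero).1 (map_pow w.V _ _ ▸ h6))
    exact near_of_ch w5 w2 ((gef_ga f _ _).1.2 h7.1) e4.1
      (fun t => by rw [(gef_ga f _ _).2, mem_Dec.1 hf.1]; exact h7.2 t) fun t => by
      rw [(gef_ga f _ _).2, w.V.map_sub_swap]
      exact gef_frob hf (h7.2 t) (w.V.map_sub_swap _ _ ▸ gef_div w h6 (e4.2 t) h3 (h4 t))

end Pool.Agent.B4.GE
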