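import Pool.Agent.Lib.MP_696deb_nt.B4.HSa

/-! Heegner points of level `N` in the upper half plane. -/

set_option autoImplicit false

open scoped Classical NumberTheorySymbols

namespace Pool.Agent.B4

open Pool.Agent.Lib.MP_696deb_nt Pool.Agent.Lib.MP_696deb_nt.B2 Pool.Agent.Lib.MP_696deb_nt.B2.CM

variable {N n c l : ℕ} {r : ℤ} {τ τ' : ℂ} {Q Q' : Fm}

/-- The standing hypotheses for Heegner points. -/
structure OkN (N n c : ℕ) (r : ℤ) : Prop extends Ok n c where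
  root : 4 * (N : ℤ) ∣ r ^ 2 + n
  cop : (n * c).Coprime N

/-- Heegner points of level `N`, conductor `c` and orientation `r`. -/
structure HgN (N n c : ℕ) (r : ℤ) (τ : ℂ) : Prop where
  pos : 0 < τ.im
  iv : IsIv (Oc n c) (sp2 τ 1)
  one : be n c (r * c) ∈ sp2 (N * τ) 1
  tau : be n c (r * c) * τ ∈ sp2 (N * τ) 1

/-- The class of the ideal of norm `N`. -/
noncomputable def nn (N n c : ℕ) (r : ℤ) : Pc n c := cl _ (idl n c N (r * c))

theorem OkN.of_mul (ok : OkN N n (c * l) r) : OkN N n c r :=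
  ⟨⟨ok.m4, ok.gt, left_ne_zero_of_mul ok.ne⟩, ok.root,
    ok.cop.coprime_dvd_left ⟨l, (mul_assoc n c l).symm⟩⟩

theorem OkN.N_ne (ok : OkN N n c r) : N ≠ 0 := by
  rintro rfl
  have h1 := Nat.le_of_dvd one_pos (Dvd.intro _ ((Nat.coprime_zero_right _).1 ok.cop))
  have := ok.gt
  omega

theorem OkN.cop_r (ok : OkN N n c r) : IsCoprime (N : ℤ) (r * c) := by
  have h : IsCoprime ((n : ℤ) * c) N := by exact_mod_cast Nat.isCoprime_iff_coprime.2 ok.cop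
  obtain ⟨u, v, e⟩ := h.of_mul_left_left
  obtain ⟨k, hk⟩ := ok.root
  exact (IsCoprime.mul_left ⟨-u * r, 4 * k * u + v, by linear_combination e - u * hk⟩
    h.of_mul_left_right).symm

theorem OkN.eq (ok : OkN N n c r) : ∃ k : ℤ, (r * c) ^ 2 + n * c ^ 2 = 4 * N * k := by
  obtain ⟨k, hk⟩ := ok.root
  exact ⟨k * c ^ 2, by linear_combination c ^ 2 * hk⟩

theorem OkN.isIv (ok : OkN N n c r) : IsIv (Oc n c) (idl n c N (r * c)) := by
  obtain ⟨k, hk⟩ := ok.eq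
  exact cmc_isIv ok.m4 hk (by exact_mod_cast ok.N_ne) ok.cop_r

theorem im_mul_pos (hN : N ≠ 0) (h : 0 < τ.im) : 0 < (N * τ).im := by
  simpa using mul_pos (Nat.cast_pos.2 (Nat.pos_of_ne_zero hN)) h

/-- The lattice of `N τ` is the product of the lattice of `τ` with the ideal of norm `N`. -/
theorem HgN.mul (ok : OkN N n c r) (h : HgN N n c r τ) :
    idl n c N (r * c) * sp2 τ 1 = sp2 (N * τ) 1 := by
  rw [idl]
  refine le_antisymm (sp2_mul_le.2 ⟨by simpa using left_mem_sp2 _ _,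
    mem_sp2.2 ⟨0, N, by simp⟩, h.tau, by simpa using h.one⟩) ?_
  obtain ⟨m1, m2, -, m4⟩ := (sp2_mul_le (a := (N : ℤ)) (b := be n c (r * c)) (c := τ) (d := 1)).1 le_rfl
  obtain ⟨k, hk⟩ := ok.eq
  obtain ⟨x, y, e1⟩ := cmd_mem h.one
  obtain ⟨u, v, e2⟩ := cmd_mem h.tau
  have h0 : x * N ≠ 0 := fun e => cma_im (n := n) (b := r * c) (by have := ok.gt; omega) ok.ne (by
    rw [e1, ← mul_assoc, show (x : ℂ) * N = 0 by exact_mod_cast e]
    simp)
  have h1 := (tau_indep h.pos.ne' (x := x * N * (u * N + y - r * c))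
    (y := x * N * v + y ^ 2 - r * c * y + N * k) (by
      have := be_sq (N := N * k) (hk.trans (mul_assoc _ _ _))
      push_cast at this ⊢
      linear_combination this - x * N * e2 - (be n c (r * c) + y - r * c) * e1)).1
  obtain ⟨s, t, e⟩ := ok.cop_r
  have h2 : (s + t * u) * N + t * y = 1 := by
    linear_combination e + t * (mul_eq_zero.1 h1).resolve_left h0
  replace h2 := congrArg (Int.cast : ℤ → ℂ) h2
  refine sp2_le.2 ⟨by simpa using m1, ?_⟩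
  have h3 := add_mem (int_mul_mem m2 (s + t * u)) (int_mul_mem (sub_mem m4 (int_mul_mem m1 x)) t)
  rwa [show ((s + t * u : ℤ) : ℂ) * ((N : ℤ) * 1) + t * (be n c (r * c) * 1 - x * ((N : ℤ) * τ)) = 1 by
    push_cast at h2 ⊢
    linear_combination h2 + t * e1] at h3

theorem HgN.jP (ok : OkN N n c r) (h : HgN N n c r τ) : jP n c (cl _ (sp2 τ 1)) = jf τ ∧
    jP n c (nn N n c r * cl _ (sp2 τ 1)) = jf (N * τ) := by
  rw [nn, ← cl_mul ok.isIv h.iv, jP_cl ok.toOk h.iv, jP_cl ok.toOk (ok.isIv.mul h.iv), h.mul ok,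
    jL_tau h.pos, jL_tau (im_mul_pos ok.N_ne h.pos)]
  exact ⟨rfl, rfl⟩

/-- The root of a Heegner form is a Heegner point. -/
theorem hg_form (ok : OkN N n c r) (hD : fdisc Q = -(n * c ^ 2)) (h : 0 < Q.1) (h1 : (N : ℤ) ∣ Q.1)
    (h2 : 2 * (N : ℤ) ∣ Q.2.1 - r * c) (hI : IsIv (Oc n c) (sp2 (froot Q) 1)) :
    HgN N n c r (froot Q) := by
  obtain ⟨a, ha⟩ := h1
  obtain ⟨k, hk⟩ := h2
  have h3 := froot_root (hD ▸ ok_neg ok.toOk) h
  have h4 : be n c (r * c) = a * (N * froot Q) + (r * c + N * k : ℤ) := by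
    have := cmc_be_add n c (-Q.2.1) (r * c + N * k)
    rw [show -Q.2.1 + 2 * (r * c + N * k) = r * c by linear_combination -hk, be_froot hD h,
      ha] at this
    rw [this]
    push_cast
    ring
  refine ⟨im_froot_pos (hD ▸ ok_neg ok.toOk) h, hI, mem_sp2.2 ⟨a, _, by rw [mul_one]; exact h4⟩,
    mem_sp2.2 ⟨-k, -Q.2.2, ?_⟩⟩
  have hk' := congrArg (Int.cast : ℤ → ℂ) hk
  rw [h4]
  rw [ha] at h3
  push_cast at h3 hk' ⊢
  linear_combination h3 - froot Q * hk'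

/-- Every class contains a Heegner form. -/
theorem exists_hform (ok : OkN N n c r) (x : Pc n c) : ∃ Q : Fm, fdisc Q = -(n * c ^ 2) ∧ 0 < Q.1 ∧
    (N : ℤ) ∣ Q.1 ∧ 2 * (N : ℤ) ∣ Q.2.1 - r * c ∧ IsIv (Oc n c) (sp2 (froot Q) 1) ∧
    cl _ (sp2 (froot Q) 1) = x := by
  have N0 : (N : ℤ) ≠ 0 := by exact_mod_cast ok.N_ne
  obtain ⟨a, b, k, h1, h2, h3, h4, h5⟩ := exists_idl_coprime ok.toOk (nn N n c r * x) N0
  obtain ⟨j, hj⟩ := ok.eq
  obtain ⟨s, hs⟩ : 2 ∣ b + r * c := by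
    have := two_dvd_sub ok.m4 (h2.trans (mul_assoc _ _ _))
    have := two_dvd_sub ok.m4 (hj.trans (mul_assoc _ _ _))
    omega
  obtain ⟨u, v, e⟩ := h3
  obtain ⟨B, e1, e2⟩ : ∃ B : ℤ, B = r * c - 2 * N * (v * s) ∧ B = -b + 2 * a * (u * s) :=
    ⟨_, rfl, by linear_combination hs - 2 * s * e⟩
  have e3 : B ^ 2 + n * c ^ 2 = 4 * (N * (j - r * c * v * s + N * (v * s) ^ 2)) := by
    rw [e1]; linear_combination hj
  have e4 : B ^ 2 + n * c ^ 2 = 4 * (a * (k - b * u * s + a * (u * s) ^ 2)) := by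
    rw [e2]; linear_combination h2
  obtain ⟨C, hC⟩ : (a : ℤ) ∣ j - r * c * v * s + N * (v * s) ^ 2 :=
    IsCoprime.dvd_of_dvd_mul_left ⟨u, v, e⟩ ⟨k - b * u * s + a * (u * s) ^ 2, by linarith⟩
  have e5 : (-B) ^ 2 + n * c ^ 2 = 4 * (N * a) * C := by rw [neg_sq, e3, hC]; ring
  have h6 : fdisc (N * a, B, C) = -(n * c ^ 2) := by simp only [fdisc]; linear_combination e5
  have h7 : (0 : ℤ) < N * a := by have := ok.N_ne; positivity
  have h8 := idl_froot h6 h7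
  have a0 : (a : ℤ) ≠ 0 := by exact_mod_cast h1
  have i1 := cmc_isIv ok.m4 h2 a0 h4
  have i2 : IsIv (Oc n c) (idl n c N (-(r * c))) :=
    cmc_isIv ok.m4 (by rw [neg_sq, hj]) N0 ok.cop_r.neg_right
  obtain ⟨s', t', e'⟩ := ok.cop_r
  simp only at h8
  rw [idl_mul e5 ⟨v, u, 0, by linear_combination e⟩, idl_congr (b' := -(r * c)) ⟨v * s, by
    rw [e1]; ring⟩, idl_congr (b := -B) (b' := b) ⟨-(u * s), by rw [e2]; ring⟩] at h8
  have h9 : ((N * a : ℤ) : ℂ) ≠ 0 := by exact_mod_cast h7.ne'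
  have i3 := (h8 ▸ i2.mul i1).sc (inv_ne_zero h9)
  rw [sc_inv_sc h9] at i3
  refine ⟨_, h6, h7, dvd_mul_right _ _, ⟨-(v * s), by rw [e1]; ring⟩, i3, ?_⟩
  rw [← cl_sc i3 h9, ← h8, cl_mul i2 i1, ← h5, cl_idl_neg ok.m4 hj N0 ⟨s', t', 0, by
    linear_combination e'⟩, nn, inv_mul_cancel_left]

theorem exists_hgN (ok : OkN N n c r) (x : Pc n c) : ∃ τ, HgN N n c r τ ∧ cl _ (sp2 τ 1) = x := by
  obtain ⟨Q, h1, h2, h3, h4, h5, h6⟩ := exists_hform ok x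
  exact ⟨_, hg_form ok h1 h2 h3 h4 h5, h6⟩

/-- Heegner forms with the same class are equivalent under the congruence subgroup. -/
theorem hform_uniq (ok : OkN N n c r) (hD : fdisc Q = -(n * c ^ 2)) (hD' : fdisc Q' = -(n * c ^ 2))
    (h : 0 < Q.1) (h' : 0 < Q'.1) (k : HgN N n c r (froot Q)) (k' : HgN N n c r (froot Q'))
    (e : cl (Oc n c) (sp2 (froot Q) 1) = cl _ (sp2 (froot Q') 1)) :
    ∃ x y z w : ℤ, x * w - y * (N * z) = 1 ∧ Q' = fmap Q x y (N * z) w := by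
  obtain ⟨a, ha, e⟩ := (cl_eq_iff k.iv k'.iv).1 e
  obtain ⟨x, y, z, w, h1, h2, h3⟩ := exists_fmap (hD ▸ ok_neg ok.toOk) (hD'.trans hD.symm) h h' ha e
  have h4 : a * 1 ∈ sp2 (N * froot Q') 1 := by
    rw [← k'.mul ok, e, mul_sc, k.mul ok, mul_mem_sc ha]
    exact right_mem_sp2 _ _
  obtain ⟨u, v, h5⟩ := cmd_mem h4
  obtain rfl : z = N * u := (cmd_ext k'.pos.ne' (y := w) (y' := v) (by
    push_cast; linear_combination h5 - h2)).1
  exact ⟨x, y, u, w, h1, h3⟩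

theorem im_hk (hl : 0 < l) (h : 0 < τ.im) (i : Option (Fin l)) : 0 < (hk l τ i).im := by
  have l1 : (0 : ℝ) < l := by exact_mod_cast hl
  rcases i with _ | j
  · simpa [hk] using mul_pos l1 h
  · simpa [hk] using div_pos h l1

theorem hg_hk (ok : OkN N n (c * l) r) (hl : l.Prime) (h2 : l ≠ 2) (hJ : J(-n | l) = -1)
    (hc : ¬ l ∣ c) (h : HgN N n c r τ) (i : Option (Fin l)) : HgN N n (c * l) r (hk l τ i) ∧
      cl (Oc n (c * l)) (sp2 (hk l τ i) 1) = cl _ (sc 1 (CM.nb l 1 τ i)) := by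
  have l2 : (l : ℂ) ≠ 0 := by exact_mod_cast hl.ne_zero
  have k := (nb_isIv (s := 1) ok.of_mul.toOk hl h2 hJ hc h.pos.ne' one_ne_zero
    (by rw [sc_one]; exact h.iv) i).1
  have e : be n (c * l) (r * (c * l : ℕ)) = l * be n c (r * c) := by
    rw [← be_mul, Nat.cast_mul, mul_assoc]
  obtain ⟨x, y, e1⟩ := cmd_mem h.one
  obtain ⟨u, v, e2⟩ := cmd_mem h.tau
  have i0 := im_hk hl.pos h.pos i
  rcases i with _ | j
  · have e3 : sp2 (hk l τ none) 1 = sc 1 (CM.nb l 1 τ none) := by rw [sc_one, CM.nb, hk]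
    exact ⟨⟨i0, e3 ▸ k, mem_sp2.2 ⟨x, l * y, by
      rw [e, hk]; push_cast; linear_combination (l : ℂ) * e1⟩, mem_sp2.2 ⟨l * u, l ^ 2 * v, by
      rw [e, hk]; push_cast; linear_combination (l : ℂ) ^ 2 * e2⟩⟩, by rw [e3]⟩
  · have e3 : sp2 (hk l τ (some j)) 1 = sc (l : ℂ)⁻¹ (sc 1 (CM.nb l 1 τ (some j))) := by
      rw [sc_one, CM.nb, hk, sc_sp2, inv_mul_cancel₀ l2, Int.cast_one, one_mul, inv_mul_eq_div]
    have e4 : l * hk l τ (some j) = τ + (j : ℕ) := by rw [hk, mul_div_cancel₀ _ l2]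
    exact ⟨⟨i0, e3 ▸ k.sc (inv_ne_zero l2), mem_sp2.2 ⟨l ^ 2 * x, l * (y - x * N * (j : ℕ)), by
      rw [e]; push_cast; linear_combination (l : ℂ) * e1 - l * x * N * e4⟩,
      mem_sp2.2 ⟨l * (u + (j : ℕ) * x), v + (j : ℕ) * y - (u + (j : ℕ) * x) * N * (j : ℕ), by
        rw [e]
        push_cast
        linear_combination e2 + ((j : ℕ) : ℂ) * e1 +
          (be n c (r * c) - (u + (j : ℕ) * x) * N) * e4⟩⟩,
      by rw [e3, cl_sc k (inv_ne_zero l2)]⟩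

/-- The classes above a given class belong to the Hecke neighbours. -/
theorem exists_fibN (ok : OkN N n (c * l) r) (hl : l.Prime) (h2 : l ≠ 2) (hJ : J(-n | l) = -1)
    (hc : ¬ l ∣ c) (z : Pc n c) : ∃ τ : ℂ, HgN N n c r τ ∧ cl _ (sp2 τ 1) = z ∧
      (∀ i, HgN N n (c * l) r (hk l τ i)) ∧
      (Function.Injective fun i => cl (Oc n (c * l)) (sp2 (hk l τ i) 1)) ∧
      ∀ x, pj n c (c * l) x = z ↔ ∃ i, cl _ (sp2 (hk l τ i) 1) = x := by
  have ok' := ok.of_mul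
  obtain ⟨τ, h, rfl⟩ := exists_hgN ok' z
  have k := hg_hk ok hl h2 hJ hc h
  have hI : IsIv (Oc n c) (sc 1 (sp2 τ 1)) := by rw [sc_one]; exact h.iv
  refine ⟨τ, h, rfl, fun i => (k i).1, ?_, fun x => ⟨fun e => ?_, ?_⟩⟩
  · simpa only [(k _).2] using nb_cl_inj ok'.toOk hl h2 hJ hc (cmd_one hl) h.pos.ne' one_ne_zero hI
  · exact (nb_cl_surj ok'.toOk hl (cmd_one hl) h.pos.ne' one_ne_zero hI
      (by rwa [sc_one])).imp fun i e => (k i).2.trans e.symm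
  · rintro ⟨i, rfl⟩
    rw [(k i).2, (nb_isIv ok'.toOk hl h2 hJ hc h.pos.ne' one_ne_zero hI i).2, sc_one]

/-- A polynomial vanishes at singular moduli of finitely many fields only. -/
theorem exists_bound {m : Polynomial ℂ} (hm : m ≠ 0) : ∃ B : ℕ, ∀ n > B,
    ∀ c, Ok n c → ∀ x, m.eval (jP n c x) ≠ 0 := by
  have key : ∀ (n n' c c' : ℕ) (x : Pc n c) (x' : Pc n' c'), Ok n c → Ok n' c' →
      jP n c x = jP n' c' x' → n' * c' ^ 2 ≤ n * c ^ 2 := fun n n' c c' x x' ok ok' e => by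
    obtain ⟨I, hI, rfl⟩ := cl_surj x
    obtain ⟨I', hI', rfl⟩ := cl_surj x'
    rw [jP_cl ok hI, jP_cl ok' hI'] at e
    obtain ⟨a, ha, rfl⟩ := jL_inj (hI.isLat ok) (hI'.isLat ok') e
    have h1 : be n c c ∈ ot (Oc n' c') := hI'.mem_of_mul fun z hz =>
      (hI.sc ha).mul_mem (be_mem ok.m4 (by simp)) hz
    rw [cma_ot ok'.m4] at h1
    obtain ⟨u, v, h1⟩ := mem_sp2.1 h1
    have h2 : ((c : ℂ) - 2 * u - v * c') + c * dl n = v * c' * dl n' := by
      simp only [be] at h1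
      push_cast at h1
      linear_combination 2 * h1
    have h3 : (c : ℝ) * √n = v * c' * √n' := by simpa [dl] using congrArg Complex.im h2
    have h4 : ((n * c ^ 2 : ℕ) : ℝ) = (v ^ 2 * (n' * c' ^ 2 : ℕ) : ℤ) := by
      push_cast
      linear_combination (c * √n + v * c' * √n') * h3 - c ^ 2 * Real.sq_sqrt (Nat.cast_nonneg n) +
        v ^ 2 * c' ^ 2 * Real.sq_sqrt (Nat.cast_nonneg n')
    have h5 : ((n * c ^ 2 : ℕ) : ℤ) = v ^ 2 * (n' * c' ^ 2 : ℕ) := by exact_mod_cast h4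
    have h6 : v ≠ 0 := by
      rintro rfl
      have := ok_neg ok
      push_cast at h5
      omega
    have h7 : 1 ≤ v ^ 2 := by have := sq_pos_of_ne_zero h6; omega
    zify at h5 ⊢
    nlinarith [mul_nonneg (Nat.cast_nonneg (α := ℤ) n') (sq_nonneg (c' : ℤ))]
  let f : ℂ → ℕ := fun z => if h : ∃ p : ℕ × ℕ, Ok p.1 p.2 ∧ ∃ x, jP p.1 p.2 x = z then
    h.choose.1 * h.choose.2 ^ 2 else 0
  refine ⟨m.roots.toFinset.sup f, fun n hn c ok x e => hn.not_ge ?_⟩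
  have h : ∃ p : ℕ × ℕ, Ok p.1 p.2 ∧ ∃ y, jP p.1 p.2 y = jP n c x := ⟨(n, c), ok, x, rfl⟩
  obtain ⟨h1, y, h2⟩ := h.choose_spec
  refine le_trans ?_ (Finset.le_sup (f := f) (b := jP n c x) (by simp [hm, e]))
  simp only [f, dif_pos h]
  exact (Nat.le_mul_of_pos_right _ (pow_pos (Nat.pos_of_ne_zero ok.ne) 2)).trans
    (key _ _ _ _ y x h1 ok h2)

end Pool.Agent.B4
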