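import Pool.Agent.Lib.MP_696deb_nt.B4.GE0

/-! Cosets of the congruence subgroup, and values of invariant functions. -/

set_option autoImplicit false

open Polynomial Filter Topology
open scoped Classical

namespace Pool.Agent.B4.GE

open Pool.Agent.Lib.MP_696deb_nt Pool.Agent.Lib.MP_696deb_nt.B2 Pool.Agent.Shared.Weier

variable {N : ℕ} {g g' : MZ}

theorem G0.mul (h : G0 N g) (h' : G0 N g') : G0 N (g * g') :=
  ⟨by rw [Matrix.det_mul, h.1, h'.1, one_mul], by
    simpa [Matrix.mul_apply] using (h.2.mul_right _).add (h'.2.mul_left _)⟩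

theorem act_dg (z : ℂ) : act (ut N 0 1) z = N * z := by simp [ut, act_of, mob]

theorem G0.conj (h : G0 N g) : ∃ k : MZ, k.det = 1 ∧ ut N 0 1 * g = k * ut N 0 1 := by
  obtain ⟨h1, c, hc⟩ := h
  refine ⟨!![g 0 0, N * g 0 1; c, g 1 1], ?_, ?_⟩
  · rw [Matrix.det_fin_two, hc] at h1
    rw [Matrix.det_fin_two_of]
    linear_combination h1
  · ext i j
    fin_cases i <;> fin_cases j <;> simp [ut, Matrix.mul_apply, hc, mul_comm]

theorem G0.of_conj (hg : g.det = 1) {k : MZ} (h : ut N 0 1 * g = k * ut N 0 1) : G0 N g :=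
  ⟨hg, k 1 0, by simpa [ut, Matrix.mul_apply, mul_comm] using congrFun (congrFun h 1) 0⟩

theorem jN_act (hN : N ≠ 0) (hg : g.det = 1) {k B : MZ} (hk : k.det = 1)
    (h : ut N 0 1 * g = k * B) {z : ℂ} (hz : 0 < z.im) : jN N (act g z) = jf (act B z) := by
  have h1 : B.det = N := by simpa [hg, hk, det_ut] using (congrArg Matrix.det h).symm
  have h2 : 0 < B.det := by omega
  rw [jN, ← act_dg, ← act_mul _ (by omega) hz, h, act_mul _ h2.ne' hz, jf_act hk (act_pos h2 hz)]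

theorem inv0_jN (hN : N ≠ 0) : Inv0 N (jN N) := fun g hg z hz => by
  obtain ⟨k, h1, h2⟩ := hg.conj
  rw [jN_act hN hg.1 h1 h2 hz, act_dg, jN]

theorem inv0_jf : Inv0 N jf := fun _ hg _ hz => jf_act hg.1 hz

theorem Inv0.periodic {α : Type*} {G : ℂ → α} (h : Inv0 N G) (hg : g.det = 1) {n : ℕ} (hn : N ∣ n)
    {z : ℂ} (hn0 : n ≠ 0) (hz : 0 < z.im) : G (act g (n * (z + 1))) = G (act g (n * z)) := by
  have h0 : 0 < ((n : ℂ) * z).im := by simpa using mul_pos (by positivity) hz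
  have h1 : g * ut 1 n 1 = g * ut 1 n 1 * g.adjugate * g := by
    rw [mul_assoc _ _ g, Matrix.adjugate_mul, hg, one_smul, mul_one]
  have h2 : (n : ℂ) * (z + 1) = act (ut 1 n 1) (n * z) := by simp [ut, act_of, mob, mul_add]
  rw [h2, ← act_mul _ (by simp [det_ut]) h0, h1, act_mul _ (by omega) h0]
  refine h _ ⟨by simp [hg, det_ut, det_adjugate_two], ?_⟩ _ (act_pos (by omega) h0)
  refine (Int.natCast_dvd_natCast.2 hn).trans ⟨-g 1 0 ^ 2, ?_⟩
  simp [ut, Matrix.mul_apply, Matrix.adjugate_fin_two]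
  ring

/-- The set of cosets. -/
def CI (N : ℕ) : Type :=
  {x : RI N // ∃ g k : MZ, g.det = 1 ∧ k.det = 1 ∧ ut N 0 1 * g = k * rI x}

theorem finite_CI (hN : N ≠ 0) : Finite (CI N) :=
  have := finite_RI hN
  Subtype.finite

/-- Representatives of the cosets. -/
noncomputable def cr (i : CI N) : MZ := i.2.choose

theorem cr_det (i : CI N) : (cr i).det = 1 := i.2.choose_spec.choose_spec.1

theorem cr_ut (i : CI N) : ∃ k : MZ, k.det = 1 ∧ ut N 0 1 * cr i = k * rI i.1 :=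
  ⟨_, i.2.choose_spec.choose_spec.2⟩

theorem jN_cr (hN : N ≠ 0) (i : CI N) {z : ℂ} (hz : 0 < z.im) :
    jN N (act (cr i) z) = jf (act (rI i.1) z) :=
  (cr_ut i).elim fun _ h => jN_act hN (cr_det i) h.1 h.2 hz

theorem cr_surj (hN : N ≠ 0) (hg : g.det = 1) : ∃ (i : CI N) (γ : MZ), G0 N γ ∧ g = γ * cr i := by
  obtain ⟨x, k, h1, h2⟩ := (isReps_rI hN).surj (ut N 0 1 * g) (by simp [hg, det_ut])
  let i : CI N := ⟨x, g, k, hg, h1, h2⟩
  obtain ⟨k', h3, h4⟩ := cr_ut i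
  have h5 : (cr i).adjugate * cr i = 1 := by rw [Matrix.adjugate_mul, cr_det, one_smul]
  have h6 : cr i * (cr i).adjugate = 1 := by rw [Matrix.mul_adjugate, cr_det, one_smul]
  have h7 : k'.adjugate * k' = 1 := by rw [Matrix.adjugate_mul, h3, one_smul]
  refine ⟨i, g * (cr i).adjugate, G0.of_conj (k := k * k'.adjugate)
    (by rw [Matrix.det_mul, hg, det_adjugate_two, cr_det, one_mul]) ?_, by
      rw [mul_assoc, h5, mul_one]⟩
  have h8 : ut N 0 1 = k' * rI x * (cr i).adjugate := by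
    rw [← mul_one (ut N 0 1), ← h6, ← mul_assoc, h4]
  rw [← mul_assoc, h2, h8]
  simp only [← mul_assoc]
  rw [mul_assoc k _ k', h7, mul_one]

theorem cr_inj (hN : N ≠ 0) {i j : CI N} {γ : MZ} (hγ : G0 N γ) (h : cr i = γ * cr j) : i = j := by
  obtain ⟨k, h1, h2⟩ := cr_ut i
  obtain ⟨k', h3, h4⟩ := cr_ut j
  obtain ⟨c, h5, h6⟩ := hγ.conj
  have h7 : k.adjugate * k = 1 := by rw [Matrix.adjugate_mul, h1, one_smul]
  refine Subtype.ext ((isReps_rI hN).inj _ _ (k.adjugate * c * k')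
    (by simp [h3, h5, h1, det_adjugate_two]) ?_)
  rw [mul_assoc, ← h4, mul_assoc, ← mul_assoc c, ← h6, mul_assoc, ← h, h2, ← mul_assoc, h7, one_mul]

/-- The conjugates of an invariant function are permuted. -/
theorem Inv0.permF (hN : N ≠ 0) {α : Type*} {G : ℂ → α} (h : Inv0 N G) :
    PermF fun (i : CI N) z => G (act (cr i) z) := fun g hg => by
  have := finite_CI hN
  choose σ γ h1 h2 using fun i : CI N => cr_surj (g := cr i * g) hN (by simp [hg, cr_det])
  have h3 : g * g.adjugate = 1 := by rw [Matrix.mul_adjugate, hg, one_smul]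
  have h4 : Function.Injective σ := fun i j e => by
    have h5 : (γ j).adjugate * γ j = 1 := by rw [Matrix.adjugate_mul, (h1 j).1, one_smul]
    refine cr_inj hN (γ := γ i * (γ j).adjugate) ((h1 i).mul ⟨by rw [det_adjugate_two, (h1 j).1], by
      simpa [Matrix.adjugate_fin_two] using (h1 j).2⟩) ?_
    rw [← mul_one (cr j), ← mul_one (cr i), ← h3, ← mul_assoc (cr i), ← mul_assoc (cr j), h2, h2, e]
    simp only [← mul_assoc]
    rw [mul_assoc (γ i) _ (γ j), h5, mul_one]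
  refine ⟨.ofBijective σ (Finite.injective_iff_bijective.1 h4), fun z hz i => ?_⟩
  have h5 := cr_det (σ i)
  change G _ = G (act (cr (σ i)) z)
  rw [← act_mul _ (by omega) hz, h2, act_mul _ (by omega) hz, h _ (h1 i) _ (act_pos (by omega) hz)]

theorem Inv0.exists_cr (hN : N ≠ 0) {α : Type*} {G : ℂ → α} (h : Inv0 N G) (hg : g.det = 1) :
    ∃ i : CI N, ∀ z : ℂ, 0 < z.im → G (act g z) = G (act (cr i) z) := by
  obtain ⟨i, γ, h1, rfl⟩ := cr_surj hN hg
  have h5 := cr_det i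
  exact ⟨i, fun z hz => by rw [act_mul _ (by omega) hz, h _ h1 _ (act_pos (by omega) hz)]⟩

variable {Γ : Type*} [LinearOrderedCommGroupWithZero Γ] {V : Valuation ℂ Γ} {G : ℂ → ℂ} {n : ℕ}
  {τ : ℂ}

theorem Inv0.val_le (hN : N ≠ 0) (h : Inv0 N G) (hn : n ≠ 0)
    (hG : ∀ g : MZ, g.det = 1 → (fun z => G (act g (n * z))) ∈ LR V.integer) (hτ : 0 < τ.im)
    (hj : V (jf τ) ≤ 1) : V (G τ) ≤ 1 := by
  have := finite_CI hN
  obtain ⟨i, hi⟩ := h.exists_cr hN Matrix.det_one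
  rw [← act_one τ, hi τ hτ]
  exact (h.permF hN).val_le hn (fun i => hG _ (cr_det i)) hτ hj i

theorem Inv0.val_lt (hN : N ≠ 0) (h : Inv0 N G) (hn : n ≠ 0)
    (hG : ∀ g : MZ, g.det = 1 → LE (V.ltAddSubgroup 1) fun z => G (act g (n * z))) (hτ : 0 < τ.im)
    (hj : V (jf τ) ≤ 1) : V (G τ) < 1 := by
  by_contra! k
  have h0 : G τ ≠ 0 := fun e => by simp [e] at k
  have h1 : V (G τ)⁻¹ ≤ 1 := by rw [map_inv₀]; exact inv_le_one_of_one_le₀ k
  have := finite_CI hN
  have := Fintype.ofFinite (CI N)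
  have h2 : ∀ i : CI N, (fun z => G (act (cr i) (n * z))) ∈ LR V.integer := fun i =>
    (hG _ (cr_det i)).mono fun x hx => le_of_lt (α := Γ) hx
  have h3 : red V (∏ i, (1 - (⟨_, const_mem V h1⟩ : LR V.integer) * ⟨_, h2 i⟩) - 1) = 0 := by
    have h4 : ∀ i, red V ⟨_, h2 i⟩ = 0 := fun i =>
      Ideal.Quotient.eq_zero_iff_mem.mpr (hG _ (cr_det i))
    simp only [map_sub, map_prod, map_mul, h4, mul_zero, map_one, sub_zero, Finset.prod_const_one,
      sub_self]
  have h4 := LE.val_lt (F := fun z => ∏ i : CI N, (1 - (G τ)⁻¹ * G (act (cr i) z)) - 1) hn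
    (le_of_red h3 fun z => by simp only [map_sub, map_mul, map_prod, map_one]; rfl)
    ((h.permF hN).inv1 (fun _ a => ∏ k, (1 - (G τ)⁻¹ * a k) - 1) fun _ a σ => by
      rw [Equiv.prod_comp σ fun k => 1 - (G τ)⁻¹ * a k]) hτ hj
  obtain ⟨i, hi⟩ := h.exists_cr hN Matrix.det_one
  rw [Finset.prod_eq_zero (Finset.mem_univ i) (by
    rw [← hi τ hτ, act_one, inv_mul_cancel₀ h0, sub_self])] at h4
  simp at h4

end Pool.Agent.B4.GE
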