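import Pool.Agent.Lib.MP_696deb_nt.B2.Red0
import Pool.Agent.Lib.MP_696deb_nt.Ordinary
import Pool.Agent.Shared.Weier.Unif

/-! Modular parametrizations of arbitrary level: definitions and the interface. -/

set_option autoImplicit false

open Polynomial Filter Topology
open scoped Classical

namespace Pool.Agent.B4.GE

open Pool.Agent.Lib.MP_696deb_nt Pool.Agent.Lib.MP_696deb_nt.B2 Pool.Agent.Shared.Weier

/-- The congruence subgroup. -/
def G0 (N : ℕ) (g : MZ) : Prop := g.det = 1 ∧ (N : ℤ) ∣ g 1 0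

/-- Invariant functions. -/
def Inv0 (N : ℕ) {α : Type*} (G : ℂ → α) : Prop :=
  ∀ g, G0 N g → ∀ z : ℂ, 0 < z.im → G (act g z) = G z

/-- The second modular invariant. -/
noncomputable def jN (N : ℕ) (z : ℂ) : ℂ := jf (N * z)

/-- Modular functions without poles in the upper half plane. -/
def MF (N : ℕ) (h : ℂ → ℂ) : Prop :=
  Inv0 N h ∧ ∀ g : MZ, g.det = 1 → LE ⊤ fun z => h (act g (N * z))

/-- Modular functions given by a quotient of integral polynomials in the two invariants. -/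
structure RF (N : ℕ) (e : ℤ[X]) (A : ℤ[X][X]) (h : ℂ → ℂ) : Prop where
  inv : Inv0 N h
  hol : Hol h
  rel : ∀ z : ℂ, 0 < z.im → aeval (jf z) e * h z = aevalAeval (jf z) (jN N z) A

/-- The analytic data of a modular parametrization. -/
structure Par (W : WeierstrassCurve ℚ) (N : ℕ) where
  N0 : N ≠ 0
  L : PeriodPair
  per : IsPer L (W.baseChange ℂ)
  F : ℂ → ℂ
  A : PowerSeries ℚ
  qe : QE F (PowerSeries.map (algebraMap ℚ ℂ) A)
  A0 : PowerSeries.coeff 0 A = 0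
  A1 : A ≠ 0
  inv : ∀ g, G0 N g → ∀ z : ℂ, 0 < z.im → F (act g z) - F z ∈ L.lattice
  cusp : ∀ g : MZ, g.det = 1 → ∃ B, QE (fun z => F (act g (N * z))) B
  a : ℕ → ℤ
  hecke : ∀ l : ℕ, l.Prime → ¬ l ∣ N → ∀ z : ℂ, 0 < z.im →
    ∑ i, F (act (rP l i) z) = a l * F z
  t0 : ℂ
  al : ∀ z : ℂ, 0 < z.im → F (-1 / (N * z)) = t0 - F z

variable {W : WeierstrassCurve ℚ} {N : ℕ}

/-- The parametrization. -/
noncomputable def Par.φ (P : Par W N) (z : ℂ) : Pt W ℂ := P.per.unif (P.F z)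

/-- The values at the cusps. -/
def Par.CV (P : Par W N) : Set (Pt W ℂ) := {R | ∃ (g : MZ) (c : ℂ), g.det = 1 ∧
  Tendsto (fun z => P.F (act g (N * z))) atI (𝓝 c) ∧ R = P.per.unif c}

theorem Par.inv0 (P : Par W N) : Inv0 N P.φ := fun g hg z hz =>
  P.per.unif_eq_iff.2 (P.inv g hg z hz)

theorem Par.φ_hecke (P : Par W N) {l : ℕ} (hl : l.Prime) (h : ¬ l ∣ N) {z : ℂ} (hz : 0 < z.im) :
    ∑ i, P.φ (act (rP l i) z) = P.a l • P.φ z := by
  simp only [Par.φ]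
  rw [← map_sum, P.hecke l hl h z hz, ← map_zsmul, zsmul_eq_mul]

theorem Par.φ_al (P : Par W N) {z : ℂ} (hz : 0 < z.im) :
    P.φ (-1 / (N * z)) = P.per.unif P.t0 - P.φ z := by
  rw [Par.φ, P.al z hz, map_sub, Par.φ]

section chart
variable {K : Type*} [Field K] [CharZero K]

/-- The domain of the chart. -/
def Fn (c : K) (R : Pt W K) : Prop := R = 0 ∨ xco R ≠ c

/-- The first coordinate of the chart. -/
noncomputable def cu (c : K) (R : Pt W K) : K := if R = 0 then 0 else (xco R - c)⁻¹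

/-- The second coordinate of the chart. -/
noncomputable def cv (c : K) (R : Pt W K) : K :=
  (2 * yco R + (W.a₁ : K) * xco R + (W.a₃ : K)) * cu c R ^ 2

/-- Both coordinates. -/
noncomputable def ch (c : K) (i : Bool) (R : Pt W K) : K := bif i then cu c R else cv c R

end chart

/-- A chart whose coordinates are cleared of their poles. -/
structure Chart (P : Par W N) where
  c : ℤ
  b : ℤ[X]
  e : ℤ[X]
  A : Bool → ℤ[X][X]
  b0 : b ≠ 0
  e0 : e ≠ 0
  fn : ∀ z : ℂ, 0 < z.im → aeval (jf z) b ≠ 0 → Fn (c : ℂ) (P.φ z)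
  rf : ∀ i, RF N e (A i) fun z => aeval (jf z) b * ch (c : ℂ) i (P.φ z)

/-- Points that reduce to the origin. -/
def Big (w : Plc) (R : Pt W Qbar) : Prop := R = 0 ∨ 1 < w.V (xco R)

/-- Points with the same reduction. -/
def Near (w : Plc) (R S : Pt W Qbar) : Prop := Big w R ∧ Big w S ∨
  ¬ Big w R ∧ ¬ Big w S ∧ w.V (xco R - xco S) < 1 ∧ w.V (yco R - yco S) < 1

/-- The action of the Galois group on points. -/
noncomputable abbrev ga (g : Gam) : Pt W Qbar →+ Pt W Qbar := pmap (g : Qbar →+* Qbar)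

/-- What is proved about a modular parametrization. -/
structure Geo (P : Par W N) where
  M : ℕ
  M0 : M ≠ 0
  dvd : 2 * N ∣ M
  m : ℤ[X]
  m0 : m ≠ 0
  Φ : Qbar → Qbar → Pt W Qbar
  Φ_gal : ∀ (g : Gam) (x y : Qbar), ga g (Φ x y) = Φ (g x) (g y)
  Φ_eq : ∀ (τ : ℂ) (x y : Qbar), 0 < τ.im → jC x = jf τ → jC y = jf (N * τ) → aeval x m ≠ 0 →
    pmap jC (Φ x y) = P.φ τ
  alg : ∀ (τ : ℂ) (x : Qbar), 0 < τ.im → jC x = jf τ → ∃ Q, pmap jC Q = P.φ τ
  kron : ∀ (w : Plc) (f : Gam) (τ : ℂ) (x : Qbar) (Q : Pt W Qbar), ¬ w.p ∣ M → IsFrob w w.p f →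
    0 < τ.im → jC x = jf τ → w.V x ≤ 1 → pmap jC Q = P.φ τ →
    ∃ R : Option (Fin w.p) → Pt W Qbar, (∀ i, pmap jC (R i) = P.φ (act (rP w.p i) τ)) ∧
      ∃ i, Near w (R i) (ga f Q) ∧ ∀ k ≠ i, Near w (ga f (R k)) Q
  es : ∀ (w : Plc) (f : Gam) (K : AddSubgroup (Pt W Qbar)), ¬ w.p ∣ M → IsFrob w w.p f →
    (∀ R S, R - S ∈ K ↔ Near w R S) → ∀ Q, ga f (ga f Q) - P.a w.p • ga f Q + w.p • Q ∈ K

theorem map_ev {K L : Type*} [CommRing K] [CommRing L] [Algebra ℤ K] [Algebra ℤ L] (f : K →+* L)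
    (x y : K) (A : ℤ[X][X]) :
    f (aevalAeval x y A) = aevalAeval (f x) (f y) A :=
  RingHom.congr_fun (show f.comp (aevalAeval x y : ℤ[X][X] →ₐ[ℤ] K).toRingHom =
    (aevalAeval (f x) (f y) : ℤ[X][X] →ₐ[ℤ] L).toRingHom by ext <;> simp) A

theorem map_ev1 {K L : Type*} [CommRing K] [CommRing L] [Algebra ℤ K] [Algebra ℤ L] (f : K →+* L)
    (x : K) (A : ℤ[X]) :
    f (aeval x A) = aeval (f x) A :=
  RingHom.congr_fun (show f.comp (aeval x : ℤ[X] →ₐ[ℤ] K).toRingHom =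
    (aeval (f x) : ℤ[X] →ₐ[ℤ] L).toRingHom by ext <;> simp) A

theorem act_rP_some {l : ℕ} (k : Fin l) (z : ℂ) : act (rP l (some k)) z = (z + (k : ℕ)) / l := by
  simp [rP, ut, act_of, mob]

end Pool.Agent.B4.GE
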