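import Pool.Agent.Lib.MP_696deb_nt.B2.Red0

/-! A family of curves of conductor `p q` with full rational two-torsion. -/

set_option autoImplicit false

open WeierstrassCurve WeierstrassCurve.Affine

namespace Pool.Agent.B4

/-- The data of a curve `y ^ 2 = x (x - u) (x - v)` with `u = -p ^ a`, `v = u + 16 w`. -/
class Cv where
  p : ℕ
  q : ℕ
  a : ℕ
  b : ℕ
  v : ℤ
  w : ℤ
  hp : p.Prime
  hq : q.Prime
  q_odd : Odd q
  a_odd : Odd a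
  b_odd : Odd b
  p_m4 : p % 4 = 3
  rel : v = -(p : ℤ) ^ a + 16 * w
  cas : (w = 1 ∧ |v| = (q : ℤ) ^ b) ∨ (v = 1 ∧ w = (q : ℤ) ^ b)

variable [Cv]

/-- The conductor. -/
def NN : ℕ := Cv.p * Cv.q

/-- The smallest root `u = -p ^ a`. -/
def cu : ℤ := -(Cv.p : ℤ) ^ Cv.a

/-- The root `v = u + 16 w`. -/
def cv : ℤ := Cv.v

/-- The parameter `w`. -/
def cw : ℤ := Cv.w

/-- The coefficient `(u - 1) / 4 - 4 w`. -/
def cm : ℤ := (cu - 1) / 4 - 4 * cw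

/-- One if zero is the largest root, two otherwise. -/
def eps : ℤ := if cv < 0 then 1 else 2

theorem NN_eq : NN = Cv.p * Cv.q := rfl

theorem cu_def : cu = -(Cv.p : ℤ) ^ Cv.a := rfl

theorem cv_eq : cv = cu + 16 * cw := Cv.rel

theorem cv_cas : (cw = 1 ∧ |cv| = (Cv.q : ℤ) ^ Cv.b) ∨ (cv = 1 ∧ cw = (Cv.q : ℤ) ^ Cv.b) := Cv.cas

theorem p_m4 : Cv.p % 4 = 3 := Cv.p_m4

theorem a_odd : Odd Cv.a := Cv.a_odd

theorem b_odd : Odd Cv.b := Cv.b_odd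

theorem a_ne : Cv.a ≠ 0 := a_odd.pos.ne'

theorem b_ne : Cv.b ≠ 0 := b_odd.pos.ne'

theorem p_ne_two : Cv.p ≠ 2 := by have := p_m4; omega

theorem q_ne_two : Cv.q ≠ 2 := fun h => by have := Cv.q_odd; rw [h] at this; exact absurd this (by decide)

theorem cu_m4 : cu % 4 = 1 := by
  obtain ⟨c, hc⟩ := a_odd
  have h : ((Cv.p : ℤ) ^ Cv.a) % 4 = 3 := by
    have h1 : (Cv.p : ℤ) ≡ -1 [ZMOD 4] := by have := p_m4; unfold Int.ModEq; omega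
    have h2 := h1.pow Cv.a
    rw [a_odd.neg_one_pow] at h2
    exact h2
  rw [cu]
  omega

theorem cu_eq : cu = 4 * cm + 16 * cw + 1 := by
  have h := cu_m4
  rw [cm]
  omega

theorem cv_m4 : cv % 4 = 1 := by have := cu_m4; have := cv_eq; omega

theorem cu_neg : cu < 0 := neg_lt_zero.2 (pow_pos (Int.natCast_pos.2 Cv.hp.pos) _)

theorem qb_pos : 0 < (Cv.q : ℤ) ^ Cv.b := pow_pos (Int.natCast_pos.2 Cv.hq.pos) _

theorem cw_pos : 0 < cw := by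
  rcases cv_cas with h | h
  · rw [h.1]; exact one_pos
  · rw [h.2]; exact qb_pos

theorem cu_ne : cu ≠ 0 := cu_neg.ne

theorem cw_ne : cw ≠ 0 := cw_pos.ne'

theorem cv_ne : cv ≠ 0 := by have := cv_m4; omega

theorem cu_lt_cv : cu < cv := by have := cv_eq; have := cw_pos; omega

theorem abs_cvw : |cv * cw| = (Cv.q : ℤ) ^ Cv.b := by
  rcases cv_cas with h | h
  · rw [h.1, mul_one, h.2]
  · rw [h.1, one_mul, h.2, abs_of_pos qb_pos]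

/-- The three cases. -/
theorem cv_cases : (cw = 1 ∧ cv = -(Cv.q : ℤ) ^ Cv.b ∧ eps = 1) ∨
    (cw = 1 ∧ cv = (Cv.q : ℤ) ^ Cv.b ∧ eps = 2) ∨ (cv = 1 ∧ cw = (Cv.q : ℤ) ^ Cv.b ∧ eps = 2) := by
  rcases cv_cas with h | h
  · by_cases k : cv < 0
    · exact .inl ⟨h.1, by rw [← h.2, abs_of_neg k, neg_neg], if_pos k⟩
    · exact .inr (.inl ⟨h.1, by rw [← h.2, abs_of_nonneg (not_lt.1 k)], if_neg k⟩)
  · exact .inr (.inr ⟨h.1, h.2, if_neg (by rw [h.1]; decide)⟩)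

theorem eps_or : eps = 1 ∨ eps = 2 := by unfold eps; split_ifs <;> simp

theorem cw_odd : Odd cw := by
  rcases cv_cas with h | h
  · rw [h.1]; exact odd_one
  · rw [h.2]; exact ((Int.odd_coe_nat _).2 Cv.q_odd).pow

theorem dvd_cu {l : ℕ} (hl : l.Prime) : (l : ℤ) ∣ cu ↔ l = Cv.p := by
  rw [cu, dvd_neg, ← Nat.cast_pow, Int.natCast_dvd_natCast]
  exact ⟨fun h => (Nat.prime_dvd_prime_iff_eq hl Cv.hp).1 (hl.dvd_of_dvd_pow h),
    fun h => h ▸ dvd_pow_self _ a_ne⟩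

theorem dvd_cvw {l : ℕ} (hl : l.Prime) : (l : ℤ) ∣ cv * cw ↔ l = Cv.q := by
  rw [← dvd_abs, abs_cvw, ← Nat.cast_pow, Int.natCast_dvd_natCast]
  exact ⟨fun h => (Nat.prime_dvd_prime_iff_eq hl Cv.hq).1 (hl.dvd_of_dvd_pow h),
    fun h => h ▸ dvd_pow_self _ b_ne⟩

theorem p_ne_q : Cv.p ≠ Cv.q := fun h => by
  have h1 : (Cv.p : ℤ) ∣ cu := (dvd_cu Cv.hp).2 rfl
  have h2 : (Cv.p : ℤ) ∣ cv * cw := (dvd_cvw Cv.hp).2 h
  rcases cv_cas with k | k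
  · rw [k.1, mul_one, cv_eq, k.1, mul_one] at h2
    have h3 : (Cv.p : ℤ) ∣ ((2 ^ 4 : ℕ) : ℤ) := (dvd_add_right h1).1 h2
    exact p_ne_two ((Nat.prime_dvd_prime_iff_eq Cv.hp Nat.prime_two).1
      (Cv.hp.dvd_of_dvd_pow (Int.natCast_dvd_natCast.1 h3)))
  · rw [k.1, one_mul] at h2
    have h3 : (Cv.p : ℤ) ∣ cv := cv_eq ▸ dvd_add h1 (h2.mul_left 16)
    rw [k.1] at h3
    exact Cv.hp.one_lt.ne' (by exact_mod_cast Int.eq_one_of_dvd_one (Int.natCast_nonneg _) h3)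

theorem cop_pq : Cv.p.Coprime Cv.q := (Nat.coprime_primes Cv.hp Cv.hq).2 p_ne_q

theorem NN_pos : 0 < NN := Nat.mul_pos Cv.hp.pos Cv.hq.pos

theorem NN_odd : Odd NN :=
  (Cv.hp.odd_of_ne_two p_ne_two).mul (Cv.hq.odd_of_ne_two q_ne_two)

theorem NN_sqf : Squarefree NN :=
  (Nat.squarefree_mul cop_pq).2 ⟨Cv.hp.squarefree, Cv.hq.squarefree⟩

theorem dvd_NN {l : ℕ} (hl : l.Prime) : l ∣ NN ↔ l = Cv.p ∨ l = Cv.q := by
  rw [NN, hl.dvd_mul, Nat.prime_dvd_prime_iff_eq hl Cv.hp, Nat.prime_dvd_prime_iff_eq hl Cv.hq]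

theorem dvd_two_NN {l : ℕ} (hl : l.Prime) : l ∣ 2 * NN ↔ l = 2 ∨ l = Cv.p ∨ l = Cv.q := by
  rw [hl.dvd_mul, dvd_NN hl, Nat.prime_dvd_prime_iff_eq hl Nat.prime_two]

/-- The minimal model `Y ^ 2 + X Y = X ^ 3 + ((u - 1) / 4 - 4 w) X ^ 2 - u w X`. -/
def Wu : WeierstrassCurve ℚ := ⟨1, cm, 0, -(cu * cw), 0⟩

section
variable {K : Type*} [Field K] [CharZero K]

omit [CharZero K] in
theorem cu_cast : (cu : K) = 4 * cm + 16 * cw + 1 := by rw [cu_eq]; push_cast; rfl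

omit [CharZero K] in
theorem cv_cast : (cv : K) = cu + 16 * cw := by rw [cv_eq]; push_cast; rfl

theorem cu_ne' : (cu : K) ≠ 0 := Int.cast_ne_zero.2 cu_ne

theorem cv_ne' : (cv : K) ≠ 0 := Int.cast_ne_zero.2 cv_ne

theorem cw_ne' : (cw : K) ≠ 0 := Int.cast_ne_zero.2 cw_ne

theorem Wu_Δ : Wu.Δ = (cu * (cv * cw)) ^ 2 := by
  simp only [Wu, Δ, b₂, b₄, b₆, b₈, cv_cast, cu_cast]
  ring

instance : Wu.IsElliptic := ⟨by
  rw [Wu_Δ]
  exact Ne.isUnit (pow_ne_zero _ (mul_ne_zero cu_ne' (mul_ne_zero cv_ne' cw_ne')))⟩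

@[simp] lemma Wu_a₁ : (Wu.baseChange K).a₁ = 1 := by simp [Wu, WeierstrassCurve.baseChange]
@[simp] lemma Wu_a₂ : (Wu.baseChange K).a₂ = cm := by simp [Wu, WeierstrassCurve.baseChange]
@[simp] lemma Wu_a₃ : (Wu.baseChange K).a₃ = 0 := by simp [Wu, WeierstrassCurve.baseChange]
@[simp] lemma Wu_a₄ : (Wu.baseChange K).a₄ = -(cu * cw) := by
  simp [Wu, WeierstrassCurve.baseChange]
@[simp] lemma Wu_a₆ : (Wu.baseChange K).a₆ = 0 := by simp [Wu, WeierstrassCurve.baseChange]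
@[simp] lemma Wu_b₂ : (Wu.baseChange K).b₂ = cu - 16 * cw := by
  simp only [b₂, Wu_a₁, Wu_a₂, cu_cast]; ring
@[simp] lemma Wu_b₄ : (Wu.baseChange K).b₄ = -2 * (cu * cw) := by
  simp only [b₄, Wu_a₁, Wu_a₃, Wu_a₄]; ring
@[simp] lemma Wu_b₆ : (Wu.baseChange K).b₆ = 0 := by
  simp only [b₆, Wu_a₃, Wu_a₆]; ring
@[simp] lemma Wu_b₈ : (Wu.baseChange K).b₈ = -(cu * cw) ^ 2 := by
  simp only [b₈, Wu_a₁, Wu_a₂, Wu_a₃, Wu_a₄, Wu_a₆]; ring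

lemma Wu_nonsingular (x y : K) : (Wu.baseChange K).toAffine.Nonsingular x y ↔
    y ^ 2 + x * y = x ^ 3 + cm * x ^ 2 - cu * cw * x := by
  rw [← equation_iff_nonsingular, equation_iff]
  simp only [toAffine, Wu_a₁, Wu_a₂, Wu_a₃, Wu_a₄, Wu_a₆]
  constructor <;> intro h <;> linear_combination h

end

end Pool.Agent.B4
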