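import Pool.Agent.Shared.Weier.Unif

/-! The chart `1 / (x - c)`, `y / (x - c) ^ 2` on a complex torus. -/

set_option autoImplicit false

open Complex PeriodPair Filter Topology
open Pool.Agent.Shared.Weier

namespace Pool.Agent.Lib.MP_696deb_nt.B4

variable {L : PeriodPair} {a z : ℂ}

/-- The poles of the chart. -/
def Po (L : PeriodPair) (a z : ℂ) : Prop := z + a ∈ L.lattice ∨ z - a ∈ L.lattice

/-- The first coordinate of the chart. -/
noncomputable def cU (L : PeriodPair) (a z : ℂ) : ℂ :=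
  -(sig L a ^ 2 * sig L z ^ 2) / (sig L (z + a) * sig L (z - a))

/-- The second coordinate of the chart. -/
noncomputable def cV (L : PeriodPair) (a z : ℂ) : ℂ := ℘'[L] z * cU L a z ^ 2

/-- The right side of the differential equation. -/
noncomputable def cQ (g₂ g₃ e u : ℂ) : ℂ :=
  -2 - 12 * e * u - 3 / 2 * (12 * e ^ 2 - g₂) * u ^ 2 - 2 * (4 * e ^ 3 - g₂ * e - g₃) * u ^ 3

theorem cU_of_mem (hz : z ∈ L.lattice) : cU L a z = 0 := by
  simp [cU, sig_eq_zero_iff.mpr hz]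

theorem cV_of_mem (hz : z ∈ L.lattice) : cV L a z = 0 := by simp [cV, cU_of_mem hz]

theorem cU_eq (ha : a ∉ L.lattice) (hz : z ∉ L.lattice) : cU L a z = (℘[L] z - ℘[L] a)⁻¹ := by
  rw [wp_sub hz ha, inv_div, cU, neg_div, div_neg, mul_comm]

theorem po_iff (ha : a ∉ L.lattice) : Po L a z ↔ z ∉ L.lattice ∧ ℘[L] z = ℘[L] a := by
  constructor
  · intro h
    have hz : z ∉ L.lattice := fun k => ha (h.elim (fun e => by simpa using sub_mem e k)
      fun e => by simpa using sub_mem k e)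
    exact ⟨hz, (wp_eq_iff hz ha).mpr h⟩
  · exact fun h => (wp_eq_iff h.1 ha).mp h.2

theorem po_add {l : ℂ} (hl : l ∈ L.lattice) : Po L a (z + l) ↔ Po L a z := by
  rw [Po, Po, add_right_comm, add_sub_right_comm, Submodule.add_mem_iff_left _ hl,
    Submodule.add_mem_iff_left _ hl]

theorem cU_add (ha : a ∉ L.lattice) {l : ℂ} (hl : l ∈ L.lattice) : cU L a (z + l) = cU L a z := by
  by_cases hz : z ∈ L.lattice
  · rw [cU_of_mem hz, cU_of_mem (add_mem hz hl)]
  · rw [cU_eq ha hz, cU_eq ha (add_notMem hz hl), L.weierstrassP_add_coe z ⟨l, hl⟩]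

theorem cV_add (ha : a ∉ L.lattice) {l : ℂ} (hl : l ∈ L.lattice) : cV L a (z + l) = cV L a z := by
  rw [cV, cV, cU_add ha hl, L.derivWeierstrassP_add_coe z ⟨l, hl⟩]

theorem ev_not_po (z : ℂ) : ∀ᶠ w in 𝓝[≠] z, ¬ Po L a w := by
  filter_upwards [(tendsto_add_nhdsNE z a).eventually (ev_notMem (L := L) _),
    (tendsto_add_nhdsNE z (-a)).eventually (ev_notMem (L := L) _)] with w h1 h2
  exact not_or.mpr ⟨h1, by rwa [sub_eq_add_neg]⟩

theorem ev_not_po' (hz : ¬ Po L a z) : ∀ᶠ w in 𝓝 z, ¬ Po L a w := by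
  filter_upwards [ev_add_notMem (not_or.mp hz).1, ev_sub_notMem (not_or.mp hz).2] with w h1 h2
  exact not_or.mpr ⟨h1, h2⟩

theorem an_den (z : ℂ) : AnalyticAt ℂ (fun z => sig L (z + a) * sig L (z - a)) z :=
  ((analyticAt_sig _).comp (f := fun z => z + a) (by fun_prop)).mul
    ((analyticAt_sig _).comp (f := fun z => z - a) (by fun_prop))

theorem an_cU (hz : ¬ Po L a z) : AnalyticAt ℂ (cU L a) z :=
  (analyticAt_const.mul ((analyticAt_sig z).pow 2)).neg.div (an_den z)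
    (mul_ne_zero (sig_ne (not_or.mp hz).1) (sig_ne (not_or.mp hz).2))

theorem mero_cU (z : ℂ) : MeromorphicAt (cU L a) z :=
  (analyticAt_const.mul ((analyticAt_sig z).pow 2)).neg.meromorphicAt.div (an_den z).meromorphicAt

theorem mero_cV (z : ℂ) : MeromorphicAt (cV L a) z :=
  (L.meromorphic_derivWeierstrassP z).mul ((mero_cU z).pow 2)

theorem hasDerivAt_cU (ha : a ∉ L.lattice) (hz : ¬ Po L a z) :
    HasDerivAt (cU L a) (-cV L a z) z := by
  by_cases h : z ∈ L.lattice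
  · have h1 := (((differentiable_sig L z).hasDerivAt.pow 2).const_mul (sig L a ^ 2)).neg.div
      (an_den (L := L) (a := a) z).differentiableAt.hasDerivAt
      (mul_ne_zero (sig_ne (not_or.mp hz).1) (sig_ne (not_or.mp hz).2))
    convert! h1 using 1
    simp [cV_of_mem h, sig_eq_zero_iff.mpr h]
  · have h0 : ℘[L] z - ℘[L] a ≠ 0 := sub_ne_zero.mpr fun e => hz ((po_iff ha).mpr ⟨h, e⟩)
    have h1 := (((hasDerivAt_wp h).sub_const (℘[L] a)).inv h0).congr_of_eventuallyEq
      (Filter.mem_of_superset (isOpen_compl.mem_nhds h) fun w hw => cU_eq ha hw)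
    convert! h1 using 1
    rw [cV, cU_eq ha h, inv_pow, neg_div, div_eq_mul_inv]

theorem an_cV (ha : a ∉ L.lattice) (hz : ¬ Po L a z) : AnalyticAt ℂ (cV L a) z :=
  (an_cU hz).deriv.neg.congr ((ev_not_po' hz).mono fun w hw => by
    simp [(hasDerivAt_cU ha hw).deriv])

theorem hasDerivAt_cV (ha : a ∉ L.lattice) (hz : ¬ Po L a z) :
    HasDerivAt (cV L a) (cQ L.g₂ L.g₃ (℘[L] a) (cU L a z)) z := by
  have key : ∀ z, ¬ Po L a z → z ∉ L.lattice →
      deriv (cV L a) z = cQ L.g₂ L.g₃ (℘[L] a) (cU L a z) := fun z hz h => by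
    have h0 : ℘[L] z - ℘[L] a ≠ 0 := sub_ne_zero.mpr fun e => hz ((po_iff ha).mpr ⟨h, e⟩)
    have h1 := L.derivWeierstrassP_sq z h
    rw [show cV L a = ℘'[L] * cU L a ^ 2 from rfl,
      ((hasDerivAt_wp' h).mul ((hasDerivAt_cU ha hz).pow 2)).deriv]
    simp only [Pi.pow_apply, cV, cQ, cU_eq ha h, Nat.cast_ofNat, Nat.add_one_sub_one, pow_one]
    field_simp
    linear_combination (-4) * h1
  have h1 : ContinuousAt (fun z => cQ L.g₂ L.g₃ (℘[L] a) (cU L a z)) z := by
    have := (an_cU hz).continuousAt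
    unfold cQ
    fun_prop
  rw [← ((an_cV ha hz).deriv.continuousAt.eventuallyEq_nhds_iff_eventuallyEq_nhdsNE h1).mp
    (by filter_upwards [ev_not_po (L := L) (a := a) z, ev_notMem (L := L) z] with w h1 h2
        exact key w h1 h2) |>.eq_of_nhds]
  exact (an_cV ha hz).differentiableAt.hasDerivAt

theorem not_po_of_mem (ha : a ∉ L.lattice) (hz : z ∈ L.lattice) : ¬ Po L a z :=
  fun h => ((po_iff ha).mp h).1 hz

end Pool.Agent.Lib.MP_696deb_nt.B4
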