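import Pool.Agent.Lib.MP_696deb_nt.LExp

/-! Formal solutions of the differential equation of the chart, and shifted expansions. -/

set_option autoImplicit false

open PowerSeries Complex

namespace Pool.Agent.Lib.MP_696deb_nt.B4

/-- Series whose first coefficients lie in a subfield. -/
def Rn (K : Subfield ℂ) (n : ℕ) : Subring ℂ⟦X⟧ where
  carrier := {A | ∀ k < n, coeff k A ∈ K}
  mul_mem' {A B} h h' k hk := by
    rw [coeff_mul]
    exact sum_mem fun x hx => by
      have := Finset.HasAntidiagonal.mem_antidiagonal.mp hx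
      exact mul_mem (h _ (by omega)) (h' _ (by omega))
  one_mem' k _ := by rw [coeff_one]; split_ifs; exacts [one_mem _, zero_mem _]
  add_mem' h h' k hk := by rw [map_add]; exact add_mem (h k hk) (h' k hk)
  zero_mem' k _ := by rw [map_zero]; exact zero_mem _
  neg_mem' h k hk := by rw [map_neg]; exact neg_mem (h k hk)

variable {K : Subfield ℂ} {n : ℕ} {A B g : ℂ⟦X⟧}

theorem rn_C {c : ℂ} (h : c ∈ K) : C c ∈ Rn K n := fun k _ => by
  rw [coeff_C]; split_ifs; exacts [h, zero_mem _]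

theorem rn_step (hg : ∀ k, coeff k g ∈ K) (g0 : coeff 0 g = 0) (A0 : coeff 0 A = 0)
    (hB : B ∈ Rn K n) (h : X * d⁄dX ℂ A = B * g) : A ∈ Rn K (n + 1) := by
  obtain ⟨g, rfl⟩ := X_dvd_iff.mpr (coeff_zero_eq_constantCoeff_apply g ▸ g0)
  have h1 : B * g ∈ Rn K n := mul_mem hB fun k _ => by simpa only [coeff_succ_X_mul] using hg (k + 1)
  rw [mul_left_comm, mul_right_inj' X_ne_zero] at h
  rintro (_ | k) hk
  · rw [A0]; exact zero_mem _
  have h2 := h1 k (by omega)
  rw [← h, coeff_derivative] at h2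
  have h3 : (k + 1 : ℂ) ≠ 0 := by exact_mod_cast k.succ_ne_zero
  rw [← mul_div_cancel_right₀ (coeff (k + 1) A) h3]
  exact div_mem h2 (add_mem (natCast_mem _ k) (one_mem _))

/-- The solution of the equation of the chart has its coefficients in the field of definition. -/
theorem ode_mem {r₀ r₁ r₂ r₃ : ℂ} (h₀ : r₀ ∈ K) (h₁ : r₁ ∈ K) (h₂ : r₂ ∈ K) (h₃ : r₃ ∈ K)
    (hg : ∀ k, coeff k g ∈ K) (g0 : coeff 0 g = 0) (A0 : coeff 0 A = 0) (B0 : coeff 0 B = 0)
    (hA : X * d⁄dX ℂ A = -B * g)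
    (hB : X * d⁄dX ℂ B = (C r₀ + C r₁ * A + C r₂ * A ^ 2 + C r₃ * A ^ 3) * g) (k : ℕ) :
    coeff k A ∈ K ∧ coeff k B ∈ K := by
  have key : ∀ n, A ∈ Rn K n ∧ B ∈ Rn K n := fun n => by
    induction n with
    | zero => exact ⟨fun k hk => absurd hk k.not_lt_zero, fun k hk => absurd hk k.not_lt_zero⟩
    | succ n ih =>
      exact ⟨rn_step hg g0 A0 (neg_mem ih.2) hA, rn_step hg g0 B0 (add_mem (add_mem (add_mem
        (rn_C h₀) (mul_mem (rn_C h₁) ih.1)) (mul_mem (rn_C h₂) (pow_mem ih.1 2)))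
        (mul_mem (rn_C h₃) (pow_mem ih.1 3))) hB⟩
  exact ⟨(key (k + 1)).1 k k.lt_succ_self, (key (k + 1)).2 k k.lt_succ_self⟩

theorem qe_shift {F : ℂ → ℂ} (h : QE F A) {c : ℂ} (hc : 0 ≤ c.im) :
    QE (fun z => F (z + c)) (rescale (q1 c) A) :=
  QE.of_hasSum fun z hz => by
    have := h.hasSum (z := z + c) (by rw [add_im]; linarith)
    simp only [q1_add, mul_pow] at this
    simp only [coeff_rescale]
    convert this using 2
    ring

theorem rescale_inj {r : ℂ} (hr : r ≠ 0) (h : rescale r A = rescale r B) : A = B := by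
  simpa [rescale_rescale, hr] using congrArg (rescale r⁻¹) h

theorem rescale_deriv (r : ℂ) (A : ℂ⟦X⟧) :
    rescale r (X * d⁄dX ℂ A) = X * d⁄dX ℂ (rescale r A) := by
  ext (_ | k)
  · simp
  · simp only [coeff_rescale, coeff_succ_X_mul, coeff_derivative]
    ring

theorem rescale_C (r c : ℂ) : rescale r (C c) = C c := by
  ext k
  rw [coeff_rescale, coeff_C]
  split_ifs with h <;> simp [h]

end Pool.Agent.Lib.MP_696deb_nt.B4
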