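import Pool.Agent.Lib.MP_696deb_nt.ModPoly

/-! Poles of invariant meromorphic functions are cleared by a polynomial in the modular
invariant. -/

set_option autoImplicit false

open Complex Filter Topology Polynomial

namespace Pool.Agent.Lib.MP_696deb_nt.B4

variable {N : ℕ} {g : MZ} {z : ℂ}

theorem gb_reps (hN : N ≠ 0) : ∃ R : Set MZ, R.Finite ∧ (∀ r ∈ R, r.det = 1) ∧
    ∀ g : MZ, g.det = 1 → ∃ r ∈ R, ∃ γ : MZ, γ.det = 1 ∧ (N : ℤ) ∣ γ 1 0 ∧ g = γ * r := by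
  have : NeZero N := ⟨hN⟩
  obtain ⟨R, h1, h2, h3⟩ := Set.Finite.exists_subset_finite_image_eq (s := {g : MZ | g.det = 1})
    (f := fun g : MZ => g.map (Int.cast : ℤ → ZMod N)) (Set.toFinite _) subset_rfl
  refine ⟨R, h2, h1, fun g hg => ?_⟩
  obtain ⟨r, hr, e⟩ := h3.ge ⟨g, hg, rfl⟩
  have h4 : r.det = 1 := h1 hr
  refine ⟨r, hr, g * r.adjugate, by rw [Matrix.det_mul, det_adjugate_two, hg, h4, one_mul], ?_,
    by rw [mul_assoc, Matrix.adjugate_mul, h4, one_smul, mul_one]⟩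
  have e0 := congrFun (congrFun e 1) 0
  have e1 := congrFun (congrFun e 1) 1
  simp only [Matrix.map_apply] at e0 e1
  rw [← ZMod.intCast_zmod_eq_zero_iff_dvd]
  simp [Matrix.mul_apply, Matrix.adjugate_fin_two, e0, e1, mul_comm]

theorem gb_compact (T : ℝ) : ∃ K : Set ℂ, IsCompact K ∧ (∀ z ∈ K, 0 < z.im) ∧
    ∀ z : ℂ, 0 < z.im → ∃ g : MZ, g.det = 1 ∧ ∃ x : ℂ, 0 < x.im ∧ z = act g x ∧
      (x ∈ K ∨ T ≤ x.im) := by
  refine ⟨_, UpperHalfPlane.isEmbedding_coe.isCompact_iff.mp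
    (ModularGroup.isCompact_truncatedFundamentalDomain T), ?_, fun z hz => ?_⟩
  · rintro _ ⟨τ, -, rfl⟩
    exact τ.im_pos
  obtain ⟨γ, hγ⟩ := ModularGroup.exists_smul_mem_fd ⟨z, hz⟩
  refine ⟨γ.1.adjugate, by rw [det_adjugate_two, γ.2], _, (γ • (⟨z, hz⟩ : UpperHalfPlane)).im_pos,
    ?_, (le_total _ T).imp_left fun h => ⟨_, ⟨hγ, h⟩, rfl⟩⟩
  rw [coe_smul_eq_mob]
  exact (act_adjugate (by rw [γ.2]; exact one_ne_zero) hz).symm

theorem gb_ev (hz : 0 < z.im) : ∀ᶠ w in 𝓝 z, 0 < w.im :=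
  (isOpen_lt continuous_const Complex.continuous_im).mem_nhds hz

theorem gb_an {F : ℂ → ℂ} (h : Hol F) (hz : 0 < z.im) : AnalyticAt ℂ F z :=
  analyticAt_iff_eventually_differentiableAt.mpr ((gb_ev hz).mono h)

theorem gb_tendsto (hg : g.det ≠ 0) (hz : 0 < z.im) :
    Tendsto (act g) (𝓝[≠] z) (𝓝[≠] act g z) := by
  refine tendsto_nhdsWithin_iff.mpr ⟨(hol_act hg z hz).continuousAt.tendsto.mono_left
    nhdsWithin_le_nhds, ?_⟩
  filter_upwards [self_mem_nhdsWithin, mem_nhdsWithin_of_mem_nhds (gb_ev hz)] with w h1 h2 h3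
  exact h1 (by rw [← act_adjugate hg h2, show act g w = _ from h3, act_adjugate hg hz]; rfl)

/-- A discrete invariant set that avoids the cusps is a finite union of orbits. -/
theorem gb_orbits (hN : N ≠ 0) {Z : ℂ → Prop}
    (h1 : ∀ γ : MZ, γ.det = 1 → (N : ℤ) ∣ γ 1 0 → ∀ z : ℂ, 0 < z.im → (Z (act γ z) ↔ Z z))
    (h2 : ∀ z : ℂ, 0 < z.im → ∀ᶠ t in 𝓝[≠] z, ¬ Z t)
    (h3 : ∀ g : MZ, g.det = 1 → ∀ᶠ z in atI, ¬ Z (act g z)) :
    ∃ S : Set ℂ, S.Finite ∧ (∀ x ∈ S, 0 < x.im ∧ Z x) ∧ ∀ z : ℂ, 0 < z.im → Z z →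
      ∃ x ∈ S, ∃ γ : MZ, γ.det = 1 ∧ (N : ℤ) ∣ γ 1 0 ∧ z = act γ x := by
  obtain ⟨R, r1, r2, r3⟩ := gb_reps hN
  obtain ⟨s, hs, hT⟩ := mem_comap.mp ((eventually_all_finite r1).mpr fun r hr => h3 r (r2 r hr))
  obtain ⟨T, hT'⟩ := mem_atTop_sets.mp hs
  obtain ⟨K, k1, k2, k3⟩ := gb_compact T
  obtain ⟨t, t1, t2⟩ := k1.elim_nhds_subcover (fun x => {w | w ≠ x → ∀ r ∈ R, ¬ Z (act r w)})
    fun x hx => eventually_nhdsWithin_iff.mp ((eventually_all_finite r1).mpr fun r hr =>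
      (gb_tendsto (by rw [r2 r hr]; exact one_ne_zero) (k2 x hx)).eventually
        (h2 _ (act_pos (by rw [r2 r hr]; exact one_pos) (k2 x hx))))
  refine ⟨Set.image2 act R t ∩ {x | Z x}, (r1.image2 _ t.finite_toSet).inter_of_left _, ?_,
    fun z hz hZ => ?_⟩
  · rintro _ ⟨⟨r, hr, x, hx, rfl⟩, h⟩
    exact ⟨act_pos (by rw [r2 r hr]; exact one_pos) (k2 x (t1 x hx)), h⟩
  obtain ⟨g, g1, x, x1, rfl, x2⟩ := k3 z hz
  obtain ⟨r, hr, γ, c1, c2, rfl⟩ := r3 g g1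
  have h4 := r2 r hr
  rw [act_mul _ (by omega) x1] at hZ ⊢
  rw [h1 γ c1 c2 _ (act_pos (by omega) x1)] at hZ
  refine ⟨_, ⟨⟨r, hr, x, ?_, rfl⟩, hZ⟩, γ, c1, c2, rfl⟩
  obtain ⟨y, hy, e⟩ := Set.mem_iUnion₂.mp (t2 (x2.resolve_right fun h => hT (hT' _ h) r hr hZ))
  rwa [show x = y from by_contra fun k => e k r hr hZ]

/-- Locally a power of `j - j z` clears the pole. -/
def Clr (w : ℂ → ℂ) (m : ℕ) (z : ℂ) : Prop :=
  ∃ G : ℂ → ℂ, AnalyticAt ℂ G z ∧ G =ᶠ[𝓝[≠] z] fun t => (jf t - jf z) ^ m * w t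

theorem hol_jf : Hol jf := LE.hol (lz_jf.mem ⊤)

theorem Clr.mono {w : ℂ → ℂ} {m k : ℕ} (h : Clr w m z) (hz : 0 < z.im) (hk : m ≤ k) :
    Clr w k z := by
  obtain ⟨k, rfl⟩ := Nat.exists_eq_add_of_le hk
  obtain ⟨G, h1, h2⟩ := h
  exact ⟨fun t => (jf t - jf z) ^ k * G t, (((gb_an hol_jf hz).sub analyticAt_const).pow k).mul h1,
    h2.mono fun t ht => by simp only [ht]; ring⟩

theorem exists_clr {w : ℂ → ℂ} (h : MeromorphicAt w z) (hz : 0 < z.im) : ∃ m, Clr w m z := by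
  obtain ⟨m, hm⟩ := h
  obtain ⟨p, hp⟩ := gb_an hol_jf hz
  refine ⟨m, _, (hp.has_fpower_series_dslope_fslope.analyticAt.pow m).mul hm, .of_forall fun t => ?_⟩
  simp only [Pi.mul_apply, Pi.pow_apply, ← sub_smul_dslope jf z t, smul_eq_mul, mul_pow]
  ring

theorem Clr.act {w : ℂ → ℂ} {m : ℕ} (hg : g.det = 1) (hz : 0 < z.im)
    (hw : ∀ z : ℂ, 0 < z.im → w (act g z) = w z) (h : Clr w m z) : Clr w m (act g z) := by
  obtain ⟨G, h1, h2⟩ := h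
  have h3 : g.adjugate.det = 1 := by rw [det_adjugate_two, hg]
  have h4 := act_pos (by omega : 0 < g.det) hz
  have h5 := act_adjugate (by omega : g.det ≠ 0) hz
  refine ⟨fun t => G (MP_696deb_nt.act g.adjugate t),
    AnalyticAt.fun_comp_of_eq h1 (gb_an (hol_act (by omega)) h4) h5, ?_⟩
  filter_upwards [(h5 ▸ gb_tendsto (g := g.adjugate) (by omega) h4).eventually h2,
    mem_nhdsWithin_of_mem_nhds (gb_ev h4)] with t e ht
  rw [e, jf_act h3 ht, jf_act hg hz, ← hw _ (act_pos (by omega) ht), ← act_mul _ (by omega) ht,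
    Matrix.mul_adjugate, hg, one_smul, act_one]

theorem gb_poly (b : ℂ[X]) : (fun z => b.eval (jf z)) ∈ LR ⊤ := by
  induction b using Polynomial.induction_on' with
  | add p q hp hq => simpa only [eval_add] using! add_mem hp hq
  | monomial n a =>
    simpa only [eval_monomial] using! mul_mem (show (fun _ => a) ∈ LR ⊤ from LE.const trivial)
      (pow_mem (lz_jf.mem ⊤) n)

theorem gb_conj (hg : g.det = 1) : ∃ γ : MZ, γ.det = 1 ∧ (N : ℤ) ∣ γ 1 0 ∧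
    ∀ z : ℂ, 0 < z.im → act g (z + N) = act γ (act g z) := by
  refine ⟨g * !![1, (N : ℤ); 0, 1] * g.adjugate, by simp [hg, det_adjugate_two], ⟨-g 1 0 ^ 2, ?_⟩, fun z hz => ?_⟩
  · simp [Matrix.mul_apply, Matrix.adjugate_fin_two]
    ring
  · rw [← act_mul _ (by omega) hz, mul_assoc, Matrix.adjugate_mul, hg, one_smul, mul_one,
      act_mul _ (by simp) hz]
    simp [act_of, mob]

/-- Clearing the poles. -/
theorem gb_clear (hN : N ≠ 0) {Z : ℂ → Prop} {w : ℂ → ℂ}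
    (h1 : ∀ γ : MZ, γ.det = 1 → (N : ℤ) ∣ γ 1 0 → ∀ z : ℂ, 0 < z.im → (Z (act γ z) ↔ Z z))
    (h2 : ∀ z : ℂ, 0 < z.im → ∀ᶠ t in 𝓝[≠] z, ¬ Z t)
    (h3 : ∀ g : MZ, g.det = 1 → ∀ᶠ z in atI, ¬ Z (act g z))
    (w1 : ∀ γ : MZ, γ.det = 1 → (N : ℤ) ∣ γ 1 0 → ∀ z : ℂ, 0 < z.im → w (act γ z) = w z)
    (w2 : ∀ z : ℂ, 0 < z.im → MeromorphicAt w z)
    (w3 : ∀ z : ℂ, 0 < z.im → ¬ Z z → ContinuousAt w z)
    (w4 : ∀ g : MZ, g.det = 1 → Bdd fun z => w (act g z)) :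
    ∃ m : ℕ, ∀ b : ℂ[X], (∀ z : ℂ, 0 < z.im → Z z → (X - C (jf z)) ^ m ∣ b) → ∃ h : ℂ → ℂ,
      (∀ γ : MZ, γ.det = 1 → (N : ℤ) ∣ γ 1 0 → ∀ z : ℂ, 0 < z.im → h (act γ z) = h z) ∧
      (∀ g : MZ, g.det = 1 → LE ⊤ fun z => h (act g (N * z))) ∧ Hol h ∧
      ∀ z : ℂ, 0 < z.im → ¬ Z z → h z = b.eval (jf z) * w z := by
  classical
  obtain ⟨S, s1, s2, s3⟩ := gb_orbits hN h1 h2 h3
  choose! m hm using fun z hz => exists_clr (w2 z hz) hz
  obtain ⟨M, hM⟩ := (s1.image m).bddAbove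
  refine ⟨M, fun b hb => ?_⟩
  have hb0 : Hol fun z => b.eval (jf z) := LE.hol (gb_poly b)
  let h : ℂ → ℂ := fun z =>
    if Z z then limUnder (𝓝[≠] z) fun t => b.eval (jf t) * w t else b.eval (jf z) * w z
  have e0 : ∀ z, ¬ Z z → h z = b.eval (jf z) * w z := fun z hz => if_neg hz
  have e1 : Hol h := fun z hz => by
    by_cases hZ : Z z
    · obtain ⟨x, hx, γ, c1, c2, rfl⟩ := s3 z hz hZ
      obtain ⟨G, k1, k2⟩ := ((hm x (s2 x hx).1).mono (s2 x hx).1 (hM ⟨x, hx, rfl⟩)).act c1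
        (s2 x hx).1 (w1 γ c1 c2)
      obtain ⟨c, rfl⟩ := hb _ hz hZ
      have k3 := (gb_an (LE.hol (gb_poly c)) hz).mul k1
      have k4 : (fun z => c.eval (jf z)) * G =ᶠ[𝓝[≠] act γ x]
          fun t => ((X - C (jf (act γ x))) ^ M * c).eval (jf t) * w t := k2.mono fun t ht => by
        simp only [Pi.mul_apply, ht, eval_mul, eval_pow, eval_sub, eval_X, eval_C]
        ring
      refine k3.differentiableAt.congr_of_eventuallyEq (eventuallyEq_nhds_of_eventuallyEq_nhdsNE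
        ?_ ?_)
      · filter_upwards [k4, h2 _ hz] with t e ht
        rw [e0 t ht, e]
      · exact (if_pos hZ).trans
          ((k3.continuousAt.tendsto.mono_left nhdsWithin_le_nhds).congr' k4).limUnder_eq
    · have k1 : AnalyticAt ℂ w z := (w2 z hz).analyticAt (w3 z hz hZ)
      refine ((hb0 z hz).mul k1.differentiableAt).congr_of_eventuallyEq
        (eventuallyEq_nhds_of_eventuallyEq_nhdsNE ((h2 z hz).mono e0) (e0 z hZ))
  have e2 : ∀ γ : MZ, γ.det = 1 → (N : ℤ) ∣ γ 1 0 → ∀ z : ℂ, 0 < z.im → h (act γ z) = h z :=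
    fun γ c1 c2 z hz => by
      refine (((e1 _ (act_pos (by omega) hz)).comp z (hol_act (by omega) z hz)
        ).continuousAt.eventuallyEq_nhds_iff_eventuallyEq_nhdsNE (e1 z hz).continuousAt).mp ?_
        |>.eq_of_nhds
      filter_upwards [h2 z hz, mem_nhdsWithin_of_mem_nhds (gb_ev hz)] with t ht ht'
      rw [Function.comp, e0 t ht, e0 _ (mt (h1 γ c1 c2 t ht').mp ht), jf_act c1 ht', w1 γ c1 c2 t ht']
  refine ⟨h, e2, fun g hg => ?_, e1, fun z _ => e0 z⟩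
  obtain ⟨n, A, hA, -⟩ := gb_poly b
  have hN' : (0 : ℝ) < N := by exact_mod_cast Nat.pos_of_ne_zero hN
  have p0 : ∀ z : ℂ, 0 < z.im → 0 < ((N : ℂ) * z).im := fun z hz => by simpa using mul_pos hN' hz
  have p1 : Tendsto (fun z : ℂ => (N : ℂ) * z) atI atI := by simpa using tendsto_affine hN' 0
  obtain ⟨γ, c1, c2, c3⟩ := gb_conj (N := N) hg
  obtain ⟨B, hB⟩ := QE.exists_of_periodic (F := fun z => q1 z ^ (N * n) * h (act g (N * z)))
    (fun z hz => ((hol_q1 z hz).pow _).mul (((e1 _ (act_pos (by omega) (p0 z hz))).comp _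
      (hol_act (by omega) _ (p0 z hz))).comp z (by fun_prop)))
    (fun z hz => by
      rw [mul_add, mul_one, c3 _ (p0 z hz), e2 γ c1 c2 _ (act_pos (by omega) (p0 z hz)), q1_add,
        show q1 1 = 1 by simpa using q1_int 1, mul_one])
    (((hA.expand N hN).bdd.mul ((w4 g hg).comp_tendsto p1)).congr' (by
      filter_upwards [p1.eventually (h3 g hg), ev_pos] with z k1 k2
      rw [e0 _ k1, jf_act hg (p0 z k2), q1_nat_mul, ← pow_mul, mul_assoc]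
      rfl) EventuallyEq.rfl)
  exact ⟨_, B, hB, fun _ => trivial⟩

end Pool.Agent.Lib.MP_696deb_nt.B4
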