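import Pool.Agent.Lib.MP_696deb_nt.B4.GBa
import Pool.Agent.Lib.MP_696deb_nt.B4.GBb
import Pool.Agent.Lib.MP_696deb_nt.B4.GBc

/-! The chart composed with the integral of a cusp form. -/

set_option autoImplicit false

open Complex Filter Topology PeriodPair PowerSeries
open scoped Real
open Pool.Agent.Shared.Weier

namespace Pool.Agent.Lib.MP_696deb_nt.B4

/-- The function `F` is the integral of a cusp form of level `N` with periods in `L`. -/
structure Ig (N : ℕ) (L : PeriodPair) (F : ℂ → ℂ) (A : ℂ⟦X⟧) : Prop where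
  pos : N ≠ 0
  qe : QE F A
  zero : coeff 0 A = 0
  ne : A ≠ 0
  inv : ∀ γ : MZ, γ.det = 1 → (N : ℤ) ∣ γ 1 0 → ∀ z : ℂ, 0 < z.im → F (act γ z) - F z ∈ L.lattice
  cusp : ∀ g : MZ, g.det = 1 → ∃ c, Tendsto (fun z => F (act g z)) atI (𝓝 c)

/-- The poles of the chart are not images of cusps. -/
def Avo (L : PeriodPair) (F : ℂ → ℂ) (a : ℂ) : Prop := a ∉ L.lattice ∧
  ∀ g : MZ, g.det = 1 → ∀ c, Tendsto (fun z => F (act g z)) atI (𝓝 c) → ¬ Po L a c

theorem gb_nonconst {F : ℂ → ℂ} (h : Hol F) (hc : ∀ c, ¬ ∀ z : ℂ, 0 < z.im → F z = c) {z : ℂ}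
    (hz : 0 < z.im) : Tendsto F (𝓝[≠] z) (𝓝[≠] F z) := by
  refine tendsto_nhdsWithin_iff.mpr ⟨(h z hz).continuousAt.tendsto.mono_left nhdsWithin_le_nhds,
    ((gb_an h hz).eventually_eq_or_eventually_ne analyticAt_const).resolve_left fun k => hc (F z) ?_⟩
  exact AnalyticOnNhd.eqOn_of_preconnected_of_eventuallyEq (U := {z : ℂ | 0 < z.im})
    (fun _ => gb_an h) analyticOnNhd_const (convex_halfSpace_im_gt 0).isPreconnected hz k

theorem tendsto_jf : Tendsto jf atI (Bornology.cobounded ℂ) := by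
  have h1 := qe_jf.tendsto
  rw [cc_toC, cc_Js, Int.cast_one] at h1
  have h2 := tendsto_q1.mul (h1.inv₀ one_ne_zero)
  rw [zero_mul] at h2
  have h3 := h1.eventually_ne one_ne_zero
  refine (tendsto_inv₀_nhdsNE_zero.comp (tendsto_nhdsWithin_iff.mpr ⟨h2, h3.mono fun z hz =>
    mul_ne_zero (q1_ne z) (inv_ne_zero hz)⟩)).congr fun z => ?_
  have := q1_ne z
  simp only [Function.comp, mul_inv, inv_inv]
  field_simp

/-- The zeros of a polynomial in the modular invariant form finitely many orbits. -/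
theorem gb_fibre {N : ℕ} (hN : N ≠ 0) {b : Polynomial ℂ} (hb : b ≠ 0) :
    ∃ S : Set ℂ, S.Finite ∧ (∀ x ∈ S, 0 < x.im ∧ b.eval (jf x) = 0) ∧ ∀ z : ℂ, 0 < z.im →
      b.eval (jf z) = 0 → ∃ x ∈ S, ∃ γ : MZ, γ.det = 1 ∧ (N : ℤ) ∣ γ 1 0 ∧ z = act γ x := by
  have h0 := b.finite_setOfPred_isRoot hb
  have h1 : ∀ {s : Set ℂ}, s.Finite → ∀ᶠ z in atI, jf z ∉ s := fun hs =>
    tendsto_jf.eventually hs.isBounded
  refine gb_orbits hN (fun γ c _ z hz => by rw [jf_act c hz]) (fun z hz => ?_) fun g hg => ?_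
  · refine (gb_nonconst hol_jf (fun c hc => ?_) hz).eventually
      (nhdsNE_le_cofinite _ h0.compl_mem_cofinite)
    obtain ⟨w, w1, w2⟩ := ((h1 (Set.finite_singleton c)).and ev_pos).exists
    exact w1 (hc w w2)
  · filter_upwards [h1 h0, ev_pos] with z k hz
    rwa [jf_act hg hz]

theorem gb_atI {p : ℂ → Prop} (h : ∀ᶠ z in atI, p z) :
    ∃ c : ℂ, 0 ≤ c.im ∧ ∀ z : ℂ, 0 < z.im → p (z + c) := by
  obtain ⟨s, hs, hT⟩ := mem_comap.mp h
  obtain ⟨T, hT'⟩ := mem_atTop_sets.mp hs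
  refine ⟨|T| * I, by simp, fun z hz => hT (hT' _ ?_)⟩
  have := le_abs_self T
  simp only [add_im, mul_im, ofReal_re, I_im, ofReal_im, I_re]
  linarith

theorem qe_unique_ev {F G : ℂ → ℂ} {A B : ℂ⟦X⟧} (h : QE F A) (h' : QE G B) (e : F =ᶠ[atI] G) :
    A = B := by
  obtain ⟨c, h1, h2⟩ := gb_atI e
  exact rescale_inj (q1_ne c) ((qe_shift h h1).unique (qe_shift h' h1) h2)

/-- The series `B` is the expansion of `w` near infinity. -/
def QL (w : ℂ → ℂ) (B : ℂ⟦X⟧) : Prop := ∀ (p h : ℂ → ℂ) (β H : ℂ⟦X⟧), QE p β → QE h H →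
  (∀ᶠ z in atI, h z = p z * w z) → H = β * B

theorem ql_of_shift {w : ℂ → ℂ} {B : ℂ⟦X⟧} {c : ℂ} (hc : 0 ≤ c.im)
    (h : QE (fun z => w (z + c)) B) : QL w (rescale (q1 c)⁻¹ B) := fun p k β H h1 h2 h3 => by
  apply rescale_inj (q1_ne c)
  rw [map_mul, rescale_rescale, inv_mul_cancel₀ (q1_ne c), rescale_one, RingHom.id_apply]
  exact qe_unique_ev (qe_shift h2 hc) ((qe_shift h1 hc).mul h)
    ((by simpa using tendsto_affine one_pos c :
      Tendsto (fun z : ℂ => z + c) atI atI).eventually h3)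

namespace Ig

variable {N : ℕ} {L : PeriodPair} {F : ℂ → ℂ} {A : ℂ⟦X⟧} {a z : ℂ} (h : Ig N L F A)
include h

theorem tendsto_zero : Tendsto F atI (𝓝 0) := h.zero ▸ h.qe.tendsto

theorem nonconst (hz : 0 < z.im) : Tendsto F (𝓝[≠] z) (𝓝[≠] F z) :=
  gb_nonconst h.qe.hol (fun c hc => h.ne (by
    have h1 := h.qe.unique (QE.const c) hc
    have h2 := h.zero
    rw [h1, coeff_zero_C] at h2
    rw [h1, h2, map_zero])) hz

theorem eq_add {γ : MZ} (h1 : γ.det = 1) (h2 : (N : ℤ) ∣ γ 1 0) (hz : 0 < z.im) :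
    ∃ l ∈ L.lattice, F (act γ z) = F z + l := ⟨_, h.inv γ h1 h2 z hz, by ring⟩

theorem po_inv (γ : MZ) (h1 : γ.det = 1) (h2 : (N : ℤ) ∣ γ 1 0) (z : ℂ) (hz : 0 < z.im) :
    Po L a (F (act γ z)) ↔ Po L a (F z) := by
  obtain ⟨l, hl, e⟩ := h.eq_add h1 h2 hz
  rw [e, po_add hl]

theorem ev_not_po (z : ℂ) (hz : 0 < z.im) : ∀ᶠ t in 𝓝[≠] z, ¬ Po L a (F t) :=
  (h.nonconst hz).eventually (B4.ev_not_po _)

theorem ev_avo (ha : Avo L F a) (g : MZ) (hg : g.det = 1) : ∀ᶠ z in atI, ¬ Po L a (F (act g z)) := by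
  obtain ⟨c, hc⟩ := h.cusp g hg
  exact hc.eventually (ev_not_po' (ha.2 g hg c hc))

/-- All charts but finitely many avoid the cusps. -/
theorem exists_avo : ∃ S : Set ℂ, S.Finite ∧ ∀ a ∉ L.lattice, ℘[L] a ∉ S → Avo L F a := by
  obtain ⟨R, r1, r2, r3⟩ := gb_reps h.pos
  choose! c hc using h.cusp
  refine ⟨_, r1.image fun r => ℘[L] (c r), fun a ha hS => ⟨ha, fun g hg x hx hP => hS ?_⟩⟩
  obtain ⟨r, hr, γ, c1, c2, rfl⟩ := r3 g hg
  have h1 := r2 r hr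
  have h2 : x - c r ∈ L.lattice := L.isClosed_lattice.mem_of_tendsto (hx.sub (hc r h1))
    (ev_pos.mono fun z hz => by
      rw [act_mul _ (by omega) hz]
      exact h.inv γ c1 c2 _ (act_pos (by omega) hz))
  rw [← add_sub_cancel (c r) x, po_add h2] at hP
  exact ⟨r, hr, ((po_iff ha).mp hP).2⟩

/-- The poles form finitely many orbits. -/
theorem orbits (ha : Avo L F a) : ∃ S : Set ℂ, S.Finite ∧ (∀ x ∈ S, 0 < x.im ∧ Po L a (F x)) ∧
    ∀ z : ℂ, 0 < z.im → Po L a (F z) →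
      ∃ x ∈ S, ∃ γ : MZ, γ.det = 1 ∧ (N : ℤ) ∣ γ 1 0 ∧ z = act γ x :=
  gb_orbits h.pos h.po_inv h.ev_not_po (h.ev_avo ha)

theorem finite_poles (ha : Avo L F a) :
    (jf '' {z : ℂ | 0 < z.im ∧ Po L a (F z)}).Finite := by
  obtain ⟨S, s1, s2, s3⟩ := h.orbits ha
  refine (s1.image jf).subset ?_
  rintro _ ⟨z, ⟨h1, h2⟩, rfl⟩
  obtain ⟨x, hx, γ, c1, -, rfl⟩ := s3 z h1 h2
  exact ⟨x, hx, (jf_act c1 (s2 x hx).1).symm⟩

/-- Over finitely many values of `j` there are finitely many values of `℘`. -/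
theorem finite_fibre {b : Polynomial ℂ} (hb : b ≠ 0) :
    ((fun z => ℘[L] (F z)) '' {z : ℂ | 0 < z.im ∧ b.eval (jf z) = 0}).Finite := by
  obtain ⟨S, s1, s2, s3⟩ := gb_fibre h.pos hb
  refine (s1.image fun z => ℘[L] (F z)).subset ?_
  rintro _ ⟨z, ⟨h1, h2⟩, rfl⟩
  obtain ⟨x, hx, γ, c1, c2, rfl⟩ := s3 z h1 h2
  obtain ⟨l, hl, e⟩ := h.eq_add c1 c2 (s2 x hx).1
  exact ⟨x, hx, by simp only [e, L.weierstrassP_add_coe _ ⟨l, hl⟩]⟩

theorem clear (ha : Avo L F a) {U : ℂ → ℂ} (u1 : ∀ z, ∀ l ∈ L.lattice, U (z + l) = U z)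
    (u2 : ∀ z, MeromorphicAt U z) (u3 : ∀ z, ¬ Po L a z → AnalyticAt ℂ U z) :
    ∃ m : ℕ, ∀ b : Polynomial ℂ, (∀ z : ℂ, 0 < z.im → Po L a (F z) →
      (Polynomial.X - Polynomial.C (jf z)) ^ m ∣ b) → ∃ k : ℂ → ℂ,
      (∀ γ : MZ, γ.det = 1 → (N : ℤ) ∣ γ 1 0 → ∀ z : ℂ, 0 < z.im → k (act γ z) = k z) ∧
      (∀ g : MZ, g.det = 1 → LE ⊤ fun z => k (act g (N * z))) ∧ Hol k ∧
      ∀ z : ℂ, 0 < z.im → ¬ Po L a (F z) → k z = b.eval (jf z) * U (F z) :=
  gb_clear h.pos (w := fun z => U (F z)) h.po_inv h.ev_not_po (h.ev_avo ha)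
    (fun γ c1 c2 z hz => by
      obtain ⟨l, hl, e⟩ := h.eq_add c1 c2 hz
      rw [e, u1 _ l hl])
    (fun z hz => (u2 _).comp_analyticAt (gb_an h.qe.hol hz))
    (fun z hz k => (u3 _ k).continuousAt.comp (h.qe.hol z hz).continuousAt) fun g hg => by
      obtain ⟨c, hc⟩ := h.cusp g hg
      exact Bdd.of_tendsto ((u3 c (ha.2 g hg c hc)).continuousAt.tendsto.comp hc)

/-- Every point that is not the image of a cusp is attained up to sign. -/
theorem surj (ha : Avo L F a) : ∃ z : ℂ, 0 < z.im ∧ Po L a (F z) := by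
  by_contra! k
  have : NeZero N := ⟨h.pos⟩
  obtain ⟨c, hc⟩ := const_of_inv N (h := fun z => cU L a (F z))
    (fun z hz => (an_cU (k z hz)).differentiableAt.comp z (h.qe.hol z hz))
    (fun p q r s e z hz => by
      obtain ⟨l, hl, e⟩ := h.eq_add (γ := !![p, q; N * r, s]) (by simpa using e) (by simp) hz
      rw [← act_of, e, cU_add ha.1 hl])
    fun p q r s e => by
      have hg : Matrix.det !![p, q; r, s] = 1 := by simpa using e
      obtain ⟨c, hc⟩ := h.cusp _ hg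
      exact Bdd.of_tendsto ((an_cU (ha.2 _ hg c hc)).continuousAt.tendsto.comp hc)
  have h1 := (an_cU (not_po_of_mem ha.1 L.lattice.zero_mem)).continuousAt.tendsto.comp
    h.tendsto_zero
  rw [cU_of_mem L.lattice.zero_mem] at h1
  obtain rfl : c = 0 :=
    tendsto_nhds_unique (tendsto_const_nhds.congr' (ev_pos.mono fun z hz => (hc z hz).symm)) h1
  obtain ⟨z, z1, z2⟩ := (((h.nonconst (z := I) (by simp)).eventually (ev_notMem (L := L) _)).and
    (mem_nhdsWithin_of_mem_nhds (gb_ev (z := I) (by simp)))).exists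
  have h2 := hc z z2
  rw [cU_eq ha.1 z1, _root_.inv_eq_zero, sub_eq_zero] at h2
  exact k z z2 ((po_iff ha.1).mpr ⟨z1, h2⟩)

/-- The expansions of the chart have their coefficients in the field of definition. -/
theorem series (ha : a ∉ L.lattice) {K : Subfield ℂ} (g2 : L.g₂ ∈ K) (g3 : L.g₃ ∈ K)
    (e : ℘[L] a ∈ K) (hA : ∀ k, coeff k A ∈ K) : ∃ Au Av : ℂ⟦X⟧, (∀ k, coeff k Au ∈ K) ∧
      (∀ k, coeff k Av ∈ K) ∧ QL (fun z => cU L a (F z)) Au ∧ QL (fun z => cV L a (F z)) Av := by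
  have h0 := not_po_of_mem ha L.lattice.zero_mem
  obtain ⟨c, c1, c2⟩ := gb_atI (h.tendsto_zero.eventually (ev_not_po' h0))
  have hF := qe_shift h.qe c1
  have F0 : Tendsto (fun z => F (z + c)) atI (𝓝 0) := by simpa [h.zero] using hF.tendsto
  have key : ∀ U : ℂ → ℂ, (∀ z, ¬ Po L a z → AnalyticAt ℂ U z) → U 0 = 0 →
      ∃ B, QE (fun z => U (F (z + c))) B ∧ coeff 0 B = 0 := fun U u1 u2 => by
    have h1 := (u1 0 h0).continuousAt.tendsto.comp F0
    obtain ⟨B, hB⟩ := QE.exists_of_periodic (F := fun z => U (F (z + c)))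
      (fun z hz => (u1 _ (c2 z hz)).differentiableAt.comp z (hF.hol z hz))
      (fun z hz => congrArg U (by simpa using hF.periodic 1 hz)) (Bdd.of_tendsto h1)
    exact ⟨B, hB, (tendsto_nhds_unique hB.tendsto h1).trans u2⟩
  obtain ⟨Bu, u1, u2⟩ := key _ (fun _ => an_cU) (cU_of_mem L.lattice.zero_mem)
  obtain ⟨Bv, v1, v2⟩ := key _ (fun _ => an_cV ha) (cV_of_mem L.lattice.zero_mem)
  obtain ⟨f, f1, f2⟩ := hF.hasDerivAt
  obtain ⟨u, u3, u4⟩ := u1.hasDerivAt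
  obtain ⟨v, v3, v4⟩ := v1.hasDerivAt
  have e1 := u3.unique (v1.neg.mul f1) fun z hz => mul_left_cancel₀ two_pi_I (by
    exact ((u4 z hz).unique ((hasDerivAt_cU ha (c2 z hz)).comp z (f2 z hz) :)).trans (by ring))
  have e2 := v3.unique (((((QE.const (-2)).add (u1.smul (-(12 * ℘[L] a)))).add
    ((u1.pow 2).smul (-(3 / 2 * (12 * ℘[L] a ^ 2 - L.g₂))))).add
    ((u1.pow 3).smul (-(2 * (4 * ℘[L] a ^ 3 - L.g₂ * ℘[L] a - L.g₃))))).mul f1)
    fun z hz => mul_left_cancel₀ two_pi_I (by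
      exact ((v4 z hz).unique ((hasDerivAt_cV ha (c2 z hz)).comp z (f2 z hz) :)).trans
        (by rw [cQ]; ring))
  replace e1 := congrArg (rescale (q1 c)⁻¹) e1
  replace e2 := congrArg (rescale (q1 c)⁻¹) e2
  rw [rescale_deriv, map_mul, rescale_deriv, rescale_rescale, mul_inv_cancel₀ (q1_ne c),
    rescale_one, RingHom.id_apply] at e1 e2
  simp only [map_neg (rescale _), map_add (rescale _), map_mul (rescale _), map_pow (rescale _),
    rescale_C] at e1 e2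
  have n : ∀ k : ℕ, (k : ℂ) ∈ K := natCast_mem K
  have := ode_mem (K := K) (neg_mem (n 2)) (neg_mem (mul_mem (n 12) e))
    (neg_mem (mul_mem (div_mem (n 3) (n 2)) (sub_mem (mul_mem (n 12) (pow_mem e 2)) g2)))
    (neg_mem (mul_mem (n 2) (sub_mem (sub_mem (mul_mem (n 4) (pow_mem e 3)) (mul_mem g2 e)) g3)))
    (g := X * d⁄dX ℂ A) (by
      rintro (_ | k)
      · simp
      · rw [coeff_succ_X_mul, coeff_derivative]
        exact mul_mem (hA _) (add_mem (n k) (one_mem _)))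
    (by simp) (by rw [coeff_rescale, u2, mul_zero]) (by rw [coeff_rescale, v2, mul_zero]) e1 e2
  exact ⟨_, _, fun k => (this k).1, fun k => (this k).2, ql_of_shift c1 u1, ql_of_shift c1 v1⟩

end Ig

end Pool.Agent.Lib.MP_696deb_nt.B4
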