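import Pool.Agent.Lib.MP_696deb_nt.B4.GE1

/-! Modular functions are rational in the two invariants. -/

set_option autoImplicit false

open Polynomial Filter Topology
open scoped Classical NNReal

namespace Pool.Agent.B4.GE

open Pool.Agent.Lib.MP_696deb_nt Pool.Agent.Lib.MP_696deb_nt.B2 Pool.Agent.Shared.Weier

variable {W : WeierstrassCurve ℚ} {N : ℕ}

/-- The trivial valuation. -/
noncomputable abbrev V1 : Valuation ℂ ℝ≥0 := 1

theorem ga_le (x : ℂ) : V1 x ≤ 1 := Valuation.one_apply_le_one x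

theorem ga_mem {F : ℂ → ℂ} (h : LE ⊤ F) : F ∈ LR V1.integer := h.mono fun x _ => ga_le x

theorem ga_biv (hN : N ≠ 0) {T : ℂ → ℂ[X]} (P : (LR V1.integer)[X])
    (hP : ∀ z : ℂ, T (N * z) = P.map (evz V1 z))
    (hT : ∀ k, Inv1 fun z => (T z).coeff k) :
    ∃ A : ℂ[X][X], ∀ z : ℂ, 0 < z.im → A.map (evalRingHom (jf z)) = T z := by
  have n1 : (N : ℂ) ≠ 0 := by exact_mod_cast hN
  choose Q _ hQ using fun k => (LE.of_comp hN (hT k).periodic
    (LE.congr (P.coeff k).2 fun z _ => by rw [hP, coeff_map]; rfl)).exists_poly (hT k)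
  refine ⟨∑ k ∈ Finset.range (P.natDegree + 1), monomial k (Q k), fun z hz => ?_⟩
  have h1 : (T z).natDegree < P.natDegree + 1 := by
    rw [← mul_div_cancel₀ z n1, hP]
    exact Nat.lt_succ_of_le natDegree_map_le
  rw [as_sum_range' _ _ h1, Polynomial.map_sum]
  exact Finset.sum_congr rfl fun k _ => by rw [Polynomial.map_monomial, hQ k z hz]; rfl

theorem ga_pos (hN : N ≠ 0) {z : ℂ} (hz : 0 < z.im) : 0 < ((N : ℂ) * z).im := by
  simpa using mul_pos (Nat.cast_pos.2 (Nat.pos_of_ne_zero hN)) hz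

theorem ga_ne (hN : N ≠ 0) (x : RI N) : x.1.1 ≠ 0 ∧ x.1.2.2 ≠ 0 :=
  mul_ne_zero_iff.1 (x.2.1.trans_ne hN)

theorem ga_jB (hN : N ≠ 0) (x : RI N) (z : ℂ) : jf (act (rI x) (N * z)) =
    jf ((x.1.1 * x.1.1 : ℕ) * z + (((x.1.2.1 : ℤ) / x.1.2.2 : ℝ) : ℂ)) := by
  rw [← act_ut (ga_ne hN x).2, x.2.1, rI]

theorem ga_jN (hN : N ≠ 0) (i : CI N) : (fun z => jN N (act (cr i) (N * z))) ∈ LR V1.integer := by
  have := lz_jf.ut_mem V1 (b := i.1.1.2.1) (ga_ne hN i.1).1 (ga_ne hN i.1).2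
  rw [i.1.2.1] at this
  exact LE.congr this fun z hz => jN_cr hN i (ga_pos hN hz)

theorem ga_lu (hN : N ≠ 0) {x y : RI N} (h : x ≠ y) :
    ∃ n, LU V1 n fun z => jf (act (rI x) (N * z)) - jf (act (rI y) (N * z)) := by
  have u : ∀ c : ℝ, V1 (q1 c) = 1 := fun c => Valuation.one_apply_of_ne_zero (q1_ne _)
  simp only [ga_jB hN]
  obtain ⟨⟨a, b, d⟩, e1, e2⟩ := x
  obtain ⟨⟨a', b', d'⟩, e3, e4⟩ := y
  have a0 : a ≠ 0 := left_ne_zero_of_mul (e1.trans_ne hN)
  have a1 : a' ≠ 0 := left_ne_zero_of_mul (e3.trans_ne hN)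
  by_cases ha : a = a'
  swap
  · exact (lu_jf_affine (mul_ne_zero a0 a0) (u _)).sub (lu_jf_affine (mul_ne_zero a1 a1) (u _))
      fun k => ha (Nat.mul_self_inj.1 k)
  subst ha
  obtain rfl : d = d' := Nat.eq_of_mul_eq_mul_left (Nat.pos_of_ne_zero a0) (e1.trans e3.symm)
  refine ⟨a * a * 1, _, ((qe_affine qe_jf (mul_ne_zero a0 a0) _).sub
    (qe_affine qe_jf (mul_ne_zero a0 a0) _)).congr fun z _ => mul_sub _ _ _,
    fun k => ga_le _, Valuation.one_apply_of_ne_zero fun k => h ?_⟩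
  have d0 : (d : ℂ) ≠ 0 := by exact_mod_cast (Nat.zero_lt_of_lt e2).ne'
  simp only [map_sub, PowerSeries.coeff_C_mul, PowerSeries.coeff_expand, dvd_zero, if_true,
    Nat.zero_div, PowerSeries.coeff_rescale, pow_zero, pow_one, cc_toC, cc_Js,
    Int.cast_one, mul_one, sub_eq_zero, inv_inj, q1, Complex.exp_eq_exp_iff_exists_int] at k
  obtain ⟨n, k⟩ := k
  have k2 : (b : ℤ) = b' + d * n := by
    push_cast at k
    have := Complex.two_pi_I_ne_zero
    field_simp at k
    exact_mod_cast k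
  have k3 : n = 0 := by
    change b < d at e2
    change b' < d at e4
    by_contra k3
    rcases lt_or_gt_of_ne k3 with k4 | k4 <;> nlinarith
  obtain rfl : b = b' := by simpa [k3] using k2
  rfl

section
variable {ι R R' : Type*} [Fintype ι] [CommRing R] [CommRing R']

/-- One factor of the discriminant. -/
noncomputable def gaD (a : ι → R) (i : ι) : R := ∏ k ∈ Finset.univ.erase i, (a i - a k)

/-- The interpolation polynomial, without denominators. -/
noncomputable def gaI (b a : ι → R) : R[X] :=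
  sp (fun i => C (b i * ∏ k ∈ Finset.univ.erase i, gaD a k)) fun i => X - C (a i)

theorem gaD_perm (a : ι → R) (σ : Equiv.Perm ι) (i : ι) :
    gaD (fun i => a (σ i)) i = gaD a (σ i) :=
  Finset.prod_equiv σ (by simp) fun _ _ => rfl

theorem gaI_perm (b a : ι → R) (σ : Equiv.Perm ι) :
    gaI (fun i => b (σ i)) (fun i => a (σ i)) = gaI b a := by
  have e : ∀ i, ∏ k ∈ Finset.univ.erase i, gaD a (σ k) = ∏ k ∈ Finset.univ.erase (σ i), gaD a k :=
    fun i => Finset.prod_equiv σ (by simp) fun _ _ => rfl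
  rw [gaI, gaI, ← sp_perm (fun i => C (b i * ∏ k ∈ Finset.univ.erase i, gaD a k)) _ σ]
  simp only [gaD_perm, e]

theorem map_gaD (f : R →+* R') (a : ι → R) (i : ι) :
    f (gaD a i) = gaD (fun i => f (a i)) i := by
  simp only [gaD, map_prod, map_sub]

theorem map_gaI (f : R →+* R') (b a : ι → R) :
    (gaI b a).map f = gaI (fun i => f (b i)) fun i => f (a i) := by
  rw [gaI, ← coe_mapRingHom, map_sp]
  simp only [coe_mapRingHom, map_C, Polynomial.map_sub, map_X, map_mul, map_prod, map_gaD, gaI]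

theorem eval_gaI (b a : ι → R) (i : ι) : (gaI b a).eval (a i) = (∏ k, gaD a k) * b i := by
  rw [gaI, ← coe_evalRingHom, map_sp, sp_of_eq_zero (i := i) _ (by simp),
    ← Finset.mul_prod_erase _ (gaD a) (Finset.mem_univ i)]
  simp only [coe_evalRingHom, eval_C, eval_sub, eval_X]
  rw [← gaD]
  ring

theorem ga_mod (a : ι → ℂ) : X ^ Fintype.card ι + (∏ i, (X - C (a i))) %ₘ X ^ Fintype.card ι =
    ∏ i, (X - C (a i)) := by
  have m : (∏ i, (X - C (a i))).Monic := monic_prod_of_monic _ _ fun _ _ => monic_X_sub_C _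
  have d : (∏ i, (X - C (a i))).degree = (X ^ Fintype.card ι : ℂ[X]).degree := by
    simp [degree_prod]
  rw [(div_modByMonic_unique 1 (∏ i, (X - C (a i)) - X ^ Fintype.card ι) (monic_X_pow _)
    ⟨by ring, d ▸ degree_sub_lt_left d m.ne_zero
      (m.leadingCoeff.trans (monic_X_pow _).leadingCoeff.symm)⟩).2, add_sub_cancel]

end

theorem field_thm (hN : N ≠ 0) {h : ℂ → ℂ} (hh : MF N h) : ∃ D : ℂ[X], D ≠ 0 ∧ ∃ A : ℂ[X][X],
    ∀ z : ℂ, 0 < z.im → D.eval (jf z) * h z = A.evalEval (jf z) (jN N z) := by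
  have := finite_CI hN
  have := Fintype.ofFinite (CI N)
  have i0 : Inv0 N fun z => (h z, jN N z) := fun g hg z hz =>
    Prod.ext (hh.1 g hg z hz) (inv0_jN hN g hg z hz)
  have p := i0.permF hN
  obtain ⟨J, hJ⟩ : ∃ J : CI N → LR V1.integer, ∀ i z, evz V1 z (J i) = jN N (act (cr i) (N * z)) :=
    ⟨fun i => ⟨_, ga_jN hN i⟩, fun _ _ => rfl⟩
  obtain ⟨F, hF⟩ : ∃ F : CI N → LR V1.integer, ∀ i z, evz V1 z (F i) = h (act (cr i) (N * z)) :=
    ⟨fun i => ⟨_, ga_mem (hh.2 _ (cr_det i))⟩, fun _ _ => rfl⟩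
  obtain ⟨A, hA⟩ := ga_biv hN (T := fun z => gaI (fun i : CI N => h (act (cr i) z))
    fun i => jN N (act (cr i) z)) (gaI F J) (fun z => by simp only [map_gaI, hJ, hF])
    fun k => p.inv1 (fun _ a => (gaI (fun x => (a x).1) fun x => (a x).2).coeff k)
      fun _ a σ => by rw [gaI_perm (fun x => (a x).1) fun x => (a x).2]
  have hI : Inv1 fun z => ∏ k : CI N, gaD (fun i => jN N (act (cr i) z)) k :=
    p.inv1 (fun _ a => ∏ k, gaD (fun x => (a x).2) k) fun _ a σ => by
      simp only [gaD_perm fun x => (a x).2]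
      exact Equiv.prod_comp σ (gaD fun x => (a x).2)
  obtain ⟨D, -, hD⟩ := (LE.of_comp hN hI.periodic (LE.congr (∏ k, gaD J k).2 fun z _ => by
    rw [← evz_apply, map_prod]
    simp only [map_gaD, hJ])).exists_poly hI
  refine ⟨D, fun d0 => ?_, A, fun z hz => ?_⟩
  · obtain ⟨n, B, b1, -, b2⟩ := LU.prod (V := V1) Finset.univ fun (x : CI N) _ =>
      LU.prod (Finset.univ.erase x) fun y hy => ga_lu hN (x := x.1) (y := y.1)
        fun e => (Finset.ne_of_mem_erase hy).symm (Subtype.ext e)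
    rw [b1.unique (QE.const 0) fun z hz => by
      have := hD (N * z) (ga_pos hN hz)
      simp only [d0, eval_zero, gaD, jN_cr hN _ (ga_pos hN hz)] at this
      exact mul_eq_zero_of_right _ this] at b2
    simp at b2
  · obtain ⟨i, hi⟩ := i0.exists_cr hN Matrix.det_one
    have e := hi z hz
    rw [act_one, Prod.ext_iff] at e
    have k := eval_gaI (fun i : CI N => h (act (cr i) z)) (fun i => jN N (act (cr i) z)) i
    rw [← map_evalRingHom_eval, hA z hz, ← hD z hz]
    exact (congrArg _ e.1).trans (k.symm.trans (congrArg (eval · _) e.2.symm))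

/-- Modular functions are integral over the polynomials in the first invariant. -/
theorem monic_rel (hN : N ≠ 0) {h : ℂ → ℂ} (hh : MF N h) : ∃ A : ℂ[X][X], A.Monic ∧
    ∀ z : ℂ, 0 < z.im → A.evalEval (jf z) (h z) = 0 := by
  have := finite_CI hN
  have := Fintype.ofFinite (CI N)
  have p := hh.1.permF hN
  obtain ⟨F, hF⟩ : ∃ F : CI N → LR V1.integer, ∀ i z, evz V1 z (F i) = h (act (cr i) (N * z)) :=
    ⟨fun i => ⟨_, ga_mem (hh.2 _ (cr_det i))⟩, fun _ _ => rfl⟩
  obtain ⟨A, hA⟩ := ga_biv hN (T := fun z => ∏ i : CI N, (X - C (h (act (cr i) z))))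
    (∏ i, (X - C (F i))) (fun z => by
      simp only [Polynomial.map_prod, Polynomial.map_sub, map_X, map_C, hF])
    fun k => p.inv1 (fun _ a => (∏ i, (X - C (a i))).coeff k)
      fun _ a σ => by rw [Equiv.prod_comp σ fun i => X - C (a i)]
  obtain ⟨i, hi⟩ := hh.1.exists_cr hN Matrix.det_one
  refine ⟨X ^ Fintype.card (CI N) + A %ₘ X ^ Fintype.card (CI N),
    monic_X_pow_add (by simpa using degree_modByMonic_lt A (monic_X_pow _)), fun z hz => ?_⟩
  rw [← map_evalRingHom_eval, Polynomial.map_add, map_modByMonic _ (monic_X_pow _), hA z hz,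
    Polynomial.map_pow, map_X, ga_mod, eval_prod]
  exact Finset.prod_eq_zero (Finset.mem_univ i) (by simp [← hi z hz, act_one])

end Pool.Agent.B4.GE
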