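import Pool.Agent.Lib.MP_696deb_nt.B4.GEb
import Pool.Agent.Lib.MP_696deb_nt.B4.GBd

/-! Two charts that cover the modular curve. -/

set_option autoImplicit false

open Polynomial Filter Topology
open scoped Classical

namespace Pool.Agent.B4.GE

open Pool.Agent.Lib.MP_696deb_nt Pool.Agent.Lib.MP_696deb_nt.B2 Pool.Agent.Shared.Weier

variable {W : WeierstrassCurve ℚ} {N : ℕ}

theorem Par.fib_finite (P : Par W N) {m : ℤ[X]} (hm : m ≠ 0) :
    {R | ∃ z : ℂ, 0 < z.im ∧ aeval (jf z) m = 0 ∧ R = P.φ z}.Finite := by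
  obtain ⟨S, s1, s2, s3⟩ := B4.gb_fibre P.N0 (b := m.map (algebraMap ℤ ℂ))
    ((Polynomial.map_ne_zero_iff (algebraMap ℤ ℂ).injective_int).2 hm)
  refine (s1.image P.φ).subset ?_
  rintro _ ⟨z, h1, h2, rfl⟩
  obtain ⟨x, hx, γ, c1, c2, rfl⟩ := s3 z h1 (by rwa [eval_map_algebraMap])
  exact ⟨x, hx, (P.inv0 γ ⟨c1, c2⟩ x (s2 x hx).1).symm⟩

theorem GEc_strip (m : ℚ[X]) {m' : ℚ[X]} (hm' : m' ≠ 0) : ∃ b e : ℚ[X], b * e = m' ∧
    IsCoprime m b ∧ ∀ x : ℂ, aeval x e = 0 → aeval x m = 0 := by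
  induction m' using UniqueFactorizationMonoid.induction_on_prime with
  | h₁ => exact absurd rfl hm'
  | h₂ u hu =>
    exact ⟨u, 1, mul_one u, by
      simpa using (isCoprime_mul_unit_left_right hu m 1).2 isCoprime_one_right,
      fun x h => by simp at h⟩
  | h₃ a p ha hp ih =>
    obtain ⟨b, e, h1, h2, h3⟩ := ih ha
    by_cases h : p ∣ m
    · refine ⟨b, p * e, by rw [← h1]; ring, h2, fun x hx => ?_⟩
      rw [map_mul] at hx
      refine (mul_eq_zero.1 hx).elim (fun k => ?_) (h3 x)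
      obtain ⟨c, rfl⟩ := h
      rw [map_mul, k, zero_mul]
    · exact ⟨p * b, e, by rw [← h1]; ring,
        ((hp.irreducible.coprime_iff_not_dvd.2 h).symm).mul_right h2, h3⟩

theorem GEc_clear (p : ℚ[X]) : ∃ (k : ℤ) (q : ℤ[X]), k ≠ 0 ∧
    q.map (algebraMap ℤ ℚ) = C (k : ℚ) * p := by
  obtain ⟨k, hk, h⟩ := IsLocalization.integerNormalization_spec (nonZeroDivisors ℤ) p
  exact ⟨k, _, nonZeroDivisors.ne_zero hk, by rw [h, zsmul_eq_mul, ← C_eq_intCast]⟩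

theorem strip (m : ℤ[X]) {m' : ℤ[X]} (hm' : m' ≠ 0) : ∃ (b e r s : ℤ[X]) (k M : ℤ), k ≠ 0 ∧
    M ≠ 0 ∧ b * e = C k * m' ∧ r * m ^ 2 + s * b ^ 2 = C M ∧
      ∀ x : ℂ, aeval x e = 0 → aeval x m = 0 := by
  have hi := (algebraMap ℤ ℚ).injective_int
  obtain ⟨b₀, e₀, h1, h2, h3⟩ := GEc_strip (m.map (algebraMap ℤ ℚ))
    ((Polynomial.map_ne_zero_iff hi).2 hm')
  obtain ⟨kb, b, b1, b2⟩ := GEc_clear b₀
  obtain ⟨ke, e, e1, e2⟩ := GEc_clear e₀
  have h4 : IsCoprime (m.map (algebraMap ℤ ℚ)) (b.map (algebraMap ℤ ℚ)) := by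
    rw [b2, isCoprime_mul_unit_left_right (isUnit_C.2 (Ne.isUnit (Int.cast_ne_zero.2 b1)))]
    exact h2
  obtain ⟨r₀, s₀, h5⟩ := h4.pow (m := 2) (n := 2)
  obtain ⟨kr, r, r1, r2⟩ := GEc_clear r₀
  obtain ⟨ks, s, s1, s2⟩ := GEc_clear s₀
  refine ⟨b, e, C ks * r, C kr * s, kb * ke, kr * ks, mul_ne_zero b1 e1, mul_ne_zero r1 s1,
    map_injective _ hi ?_, map_injective _ hi ?_, fun x hx => ?_⟩
  · simp only [Polynomial.map_mul, b2, e2, ← h1, eq_intCast, Int.cast_mul,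
      Polynomial.map_intCast, map_intCast]
    ring
  · simp only [Polynomial.map_mul, Polynomial.map_add, Polynomial.map_pow, r2, s2,
      eq_intCast, Int.cast_mul, Polynomial.map_intCast, map_intCast]
    linear_combination (kr : ℚ[X]) * (ks : ℚ[X]) * h5
  · rw [← aeval_map_algebraMap ℚ, e2, map_mul, aeval_C, mul_eq_zero] at hx
    rw [← aeval_map_algebraMap ℚ]
    exact h3 x (hx.resolve_left (by simpa using e1))

theorem exists_fn {s : Set (Pt W ℂ)} (hs : s.Finite) : ∃ c : ℤ, ∀ R ∈ s, Fn (c : ℂ) R := by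
  obtain ⟨c, hc⟩ := ((hs.image xco).preimage
    (Int.cast_injective (α := ℂ)).injOn).exists_notMem
  exact ⟨c, fun R hR => .inr fun h => hc ⟨R, hR, h⟩⟩

theorem GEc_hol1 (a : ℤ[X]) : Hol fun z => aeval (jf z) a := fun z hz =>
  (a.differentiableAt_aeval (x := jf z)).comp z (B4.hol_jf z hz)

theorem GEc_hol2 (hN : N ≠ 0) (A : ℤ[X][X]) : Hol fun z => aevalAeval (jf z) (jN N z) A := by
  have h1 : Hol (jN N) := fun z hz => (B4.hol_jf (N * z) (by
    simpa using mul_pos (Nat.cast_pos.2 (Nat.pos_of_ne_zero hN)) hz)).comp z (by fun_prop)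
  induction A using Polynomial.induction_on with
  | C a => simpa only [aevalAeval_C] using GEc_hol1 a
  | add p q hp hq =>
    simp only [map_add]
    exact fun z hz => (hp z hz).add (hq z hz)
  | monomial n a h =>
    simp only [pow_succ, ← mul_assoc, map_mul (aevalAeval _ _) _ (X : ℤ[X][X]), aevalAeval_Y]
    exact fun z hz => (h z hz).mul (h1 z hz)

theorem GEc_chart (P : Par W N) (c : ℤ) {m b e : ℤ[X]} {k : ℤ} {A : Bool → ℤ[X][X]} (hm : m ≠ 0)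
    (hk : k ≠ 0) (hbe : b * e = C k * m) (h : ∀ z : ℂ, 0 < z.im →
      (Fn (c : ℂ) (P.φ z) → ∀ i, aeval (jf z) m * ch (c : ℂ) i (P.φ z) =
        aevalAeval (jf z) (jN N z) (A i)) ∧
      (¬ Fn (c : ℂ) (P.φ z) → aeval (jf z) m = 0))
    (hp : ∀ z : ℂ, 0 < z.im → aeval (jf z) e = 0 → Fn (c : ℂ) (P.φ z)) :
    ∃ T : Chart P, T.b = b ^ 2 := by
  have h0 : b * e ≠ 0 := hbe ▸ mul_ne_zero (C_ne_zero.2 hk) hm
  have h1 : ∀ x : ℂ, aeval x b * aeval x e = k * aeval x m := fun x => by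
    rw [← map_mul, hbe, map_mul, aeval_C, eq_intCast]
  have h2 : ∀ z : ℂ, 0 < z.im → ¬ Fn (c : ℂ) (P.φ z) → aeval (jf z) b = 0 := fun z hz hF => by
    have := h1 (jf z)
    rw [(h z hz).2 hF, mul_zero] at this
    exact (mul_eq_zero.1 this).resolve_right fun k => hF (hp z hz k)
  have h3 : ∀ i, ∀ z : ℂ, 0 < z.im → aeval (jf z) e * (aeval (jf z) (b ^ 2) *
      ch (c : ℂ) i (P.φ z)) = aevalAeval (jf z) (jN N z) (C (C k * b) * A i) := fun i z hz => by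
    rw [map_mul, aevalAeval_C, map_mul, aeval_C, eq_intCast, map_pow]
    by_cases hF : Fn (c : ℂ) (P.φ z)
    · rw [← (h z hz).1 hF i]
      linear_combination aeval (jf z) b * ch (c : ℂ) i (P.φ z) * h1 (jf z)
    · rw [h2 z hz hF]
      ring
  refine ⟨⟨c, b ^ 2, e, fun i => C (C k * b) * A i, pow_ne_zero 2 (left_ne_zero_of_mul h0),
    right_ne_zero_of_mul h0, fun z hz hb => ?_, fun i => ⟨fun g hg z hz => ?_, fun z hz => ?_,
      h3 i⟩⟩, rfl⟩
  · by_contra hF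
    exact hb (by rw [map_pow, h2 z hz hF]; ring)
  · simp only [jf_act hg.1 hz, P.inv0 g hg z hz]
  · by_cases he : aeval (jf z) e = 0
    · exact (GEc_hol1 _ z hz).mul (P.hol_ch c i hz (hp z hz he))
    · refine ((GEc_hol2 P.N0 (C (C k * b) * A i) z hz).div (GEc_hol1 e z hz) he
        ).congr_of_eventuallyEq ?_
      filter_upwards [B4.gb_ev hz, (GEc_hol1 e z hz).continuousAt.eventually_ne he] with t h4 h5
      rw [Pi.div_apply, ← h3 i t h4, mul_div_cancel_left₀ _ h5]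

theorem Par.two_charts (P : Par W N) : ∃ (T : Bool → Chart P) (r : Bool → ℤ[X]) (M : ℤ), M ≠ 0 ∧
    r true * (T true).b + r false * (T false).b = C M := by
  obtain ⟨c₁, h1⟩ := exists_fn P.CV_finite
  obtain ⟨m₁, m1, A₁, a1⟩ := P.chart_rel c₁ h1
  obtain ⟨c₂, h2⟩ := exists_fn (P.CV_finite.union (P.fib_finite m1))
  obtain ⟨m₂, m2, A₂, a2⟩ := P.chart_rel c₂ fun R hR => h2 R (.inl hR)
  obtain ⟨b, e, r, s, k, M, hk, hM, e1, e2, e3⟩ := strip m₁ m2
  obtain ⟨T₁, t1⟩ := GEc_chart P c₁ (b := m₁) (e := 1) (k := 1) m1 one_ne_zero (by simp) a1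
    fun z _ h => by simp at h
  obtain ⟨T₂, t2⟩ := GEc_chart P c₂ m2 hk e1 a2 fun z hz h => h2 _ (.inr ⟨z, hz, e3 _ h, rfl⟩)
  exact ⟨fun i => bif i then T₁ else T₂, fun i => bif i then r else s, M, hM, by
    simpa only [cond_true, cond_false, t1, t2] using e2⟩

end Pool.Agent.B4.GE
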