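import Pool.Agent.Lib.MP_696deb_nt.B4.GE1

/-! Integrality of the expansions at all cusps. -/

set_option autoImplicit false

open Polynomial Filter Topology
open scoped Classical

namespace Pool.Agent.B4.GE

open Pool.Agent.Lib.MP_696deb_nt Pool.Agent.Lib.MP_696deb_nt.B2 Pool.Agent.Shared.Weier

variable {W : WeierstrassCurve ℚ} {N : ℕ}

variable {Γ : Type*} [LinearOrderedCommGroupWithZero Γ] {V : Valuation ℂ Γ}
  {e : ℤ[X]} {A : ℤ[X][X]} {h : ℂ → ℂ} {τ : ℂ}

/-- Division by an expansion with unit leading coefficient. -/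
theorem le_div {S : AddSubgroup ℂ} (hS : ∀ s, V s ≤ 1 → ∀ t ∈ S, s * t ∈ S) {E H : ℂ → ℂ} {n : ℕ}
    (hE : LU V n E) (hH : Hol H) (hp : ∀ z : ℂ, 0 < z.im → H (z + 1) = H z)
    (h : LE S fun z => E z * H z) : LE S H := by
  obtain ⟨B, b1, b2, b3⟩ := hE
  obtain ⟨m, G, g1, g2⟩ := h
  have b0 : PowerSeries.coeff 0 B ≠ 0 := fun k => by simp [k] at b3
  have h1 := g1.pow_mul n
  have h2 : Bdd fun z => q1 z ^ m * H z :=
    (Bdd.of_tendsto (h1.tendsto.div b1.tendsto b0)).congr'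
      ((b1.tendsto.eventually_ne b0).mono fun z hz => by
        simp only [Pi.div_apply]
        rw [div_eq_iff hz]
        ring) .rfl
  obtain ⟨D, hD⟩ := QE.exists_of_periodic (F := fun z => q1 z ^ m * H z)
    (fun z hz => ((hol_q1 z hz).pow m).mul (hH z hz))
    (fun z hz => by rw [hp z hz, q1_add, ← Int.cast_one, q1_int, mul_one]) h2
  have h3 := (b1.mul hD).unique h1 fun z _ => by ring
  refine ⟨m, D, hD, fun k => ?_⟩
  induction k using Nat.strong_induction_on with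
  | _ k ih =>
    have h4 := g2.X_pow_mul n k
    rw [← h3, PowerSeries.coeff_mul, ← Finset.add_sum_erase _ _
      (Finset.HasAntidiagonal.mem_antidiagonal.2 (zero_add k) : ((0, k) : ℕ × ℕ) ∈ _)] at h4
    have h5 := hS (PowerSeries.coeff 0 B)⁻¹ (by rw [map_inv₀, b3, inv_one]) _
      ((S.add_mem_cancel_right (S.sum_mem fun x hx => hS _ (b2 _) _ (ih _ ?_))).1 h4)
    · rwa [inv_mul_cancel_left₀ b0] at h5
    · have h6 := Finset.HasAntidiagonal.mem_antidiagonal.1 (Finset.mem_of_mem_erase hx)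
      have h7 := Finset.ne_of_mem_erase hx
      by_contra h8
      exact h7 (Prod.ext (by simp only; omega) (by simp only; omega))

theorem ged_int (s : ℂ) (hs : V s ≤ 1) (t : ℂ) (ht : t ∈ V.integer.toAddSubgroup) :
    s * t ∈ V.integer.toAddSubgroup := V.integer.mul_mem hs ht

theorem ged_lt (s : ℂ) (hs : V s ≤ 1) (t : ℂ) (ht : t ∈ V.ltAddSubgroup 1) :
    s * t ∈ V.ltAddSubgroup 1 := by
  rw [Valuation.mem_ltAddSubgroup_iff, map_mul]
  exact mul_lt_one_of_nonneg_of_lt_one_right hs zero_le ht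

theorem le_periodic {S : AddSubgroup ℂ} {F : ℂ → ℂ} (h : LE S F) (z : ℂ) (hz : 0 < z.im) :
    F (z + 1) = F z := by
  obtain ⟨n, B, h, -⟩ := h
  have h1 := h.periodic 1 hz
  rw [q1_add, q1_int, mul_one, Int.cast_one] at h1
  exact mul_left_cancel₀ (pow_ne_zero _ (q1_ne z)) h1

theorem red_cancel {E : LR V.integer} {n : ℕ} (hE : LU V n E.1) {r s : LR V.integer ⧸ LI V}
    (h : red V E * r = red V E * s) : r = s := by
  obtain ⟨G, hG⟩ := Ideal.Quotient.mk_surjective (r - s)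
  rw [← sub_eq_zero, ← mul_sub, ← hG, ← map_mul] at h
  rw [← sub_eq_zero, ← hG]
  exact Ideal.Quotient.eq_zero_iff_mem.2 (le_div ged_lt hE (LE.hol G.2) (le_periodic G.2)
    (Ideal.Quotient.eq_zero_iff_mem.1 h))

theorem red_congr {F G : LR V.integer} (h : ∀ z : ℂ, 0 < z.im → F.1 z = G.1 z) :
    red V F = red V G :=
  Ideal.Quotient.eq.2 ((LE.const (zero_mem _)).congr fun z hz => sub_eq_zero.2 (h z hz))

/-- Affine maps. -/
noncomputable def aff (a : ℕ) (c : ℚ) (z : ℂ) : ℂ := a * z + ((c : ℝ) : ℂ)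

theorem aff_pos {a : ℕ} (ha : a ≠ 0) (c : ℚ) {z : ℂ} (hz : 0 < z.im) : 0 < (aff a c z).im := by
  simpa [aff] using mul_pos (by positivity) hz

theorem val_q1 (c : ℚ) : V (q1 ((c : ℝ) : ℂ)) = 1 := by
  rw [Rat.cast_def]
  exact val_eq_one_of_pow V c.den_nz (q1_div_pow_eq_one c.num c.den_nz)

theorem le_aff {S : AddSubgroup ℂ} (hS : ∀ s, V s ≤ 1 → ∀ t ∈ S, s * t ∈ S) {F : ℂ → ℂ}
    (h : LE S F) {a : ℕ} (ha : a ≠ 0) (c : ℚ) : LE S fun z => F (aff a c z) := by
  obtain ⟨n, B, h1, h2⟩ := h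
  refine ⟨_, _, qe_affine h1 ha c, fun k => ?_⟩
  rw [PowerSeries.coeff_C_mul]
  refine hS _ (by rw [map_inv₀, map_pow, val_q1, one_pow, inv_one]) _
    (Cf.expand (fun k => ?_) a ha k)
  rw [PowerSeries.coeff_rescale]
  exact hS _ (by rw [map_pow, val_q1, one_pow]) _ (h2 k)

variable (V) in
/-- The expansions of the conjugates of the invariant. -/
noncomputable def Ja {a : ℕ} (ha : a ≠ 0) (c : ℚ) : LR V.integer :=
  ⟨fun z => jf (aff a c z), lz_jf.affine_mem V ha (val_q1 c)⟩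

theorem lu_aeval {a : ℕ} (ha : a ≠ 0) (c : ℚ) (he : V (e.leadingCoeff : ℂ) = 1) :
    LU V (e.natDegree * a) (aeval (Ja V ha c) e).1 := by
  have h0 : (aeval (Ja V ha c) e).1 = fun z => aeval (jf (aff a c z)) e :=
    funext fun z => map_ev1 (evz V z) _ e
  rw [h0]
  clear h0
  induction e using Polynomial.recOnHorner with
  | M0 => simp at he
  | MC p b h1 _ ih =>
    by_cases hp : p = 0
    · subst hp
      rw [zero_add, leadingCoeff_C] at he
      exact ⟨_, (QE.const b).congr fun z _ => by simp, Cf.const he.le, by simpa using he⟩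
    have h2 : p.natDegree ≠ 0 := fun k => hp (by rw [eq_C_of_natDegree_eq_zero k, h1, C_0])
    have h3 : (p + C b).natDegree = p.natDegree := natDegree_add_C
    rw [leadingCoeff, h3, coeff_add, coeff_C_of_ne_zero h2, add_zero] at he
    obtain ⟨B, b1, b2, b3⟩ := ih he
    rw [h3]
    exact ⟨_, (b1.add ((QE.const b).pow_mul (p.natDegree * a))).congr fun z _ => by
      simp [mul_add], b2.add ((Cf.const (val_int V b)).X_pow_mul _), by
        simpa [PowerSeries.coeff_X_pow_mul', h2, ha] using b3⟩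
  | MX p hp ih =>
    rw [leadingCoeff_mul_X] at he
    rw [natDegree_mul_X hp, add_one_mul]
    simpa only [map_mul, aeval_X, aff] using (ih he).mul (lu_jf_affine ha (val_q1 c))

theorem Inv0.shift {α : Type*} {G : ℂ → α} (h : Inv0 N G) {g : MZ} (hg : g.det = 1) (n : ℕ)
    {z : ℂ} (hz : 0 < z.im) : G (act g (z + (N * n : ℕ))) = G (act g z) := by
  rcases eq_or_ne (N * n) 0 with h0 | h0
  · simp [h0]
  have h1 : ((N * n : ℕ) : ℂ) ≠ 0 := Nat.cast_ne_zero.2 h0
  have h2 := h.periodic hg (dvd_mul_right N n) (z := z / (N * n : ℕ)) h0 (by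
    rw [Complex.div_natCast_im]; positivity)
  rwa [mul_add, mul_div_cancel₀ _ h1, mul_one] at h2

theorem RF.dat (hh : RF N e A h) (he : V (e.leadingCoeff : ℂ) = 1) {g : MZ}
    (hg : g.det = 1) {n a : ℕ} (hn : N * n ≠ 0) (ha : a ≠ 0) (c c' : ℚ)
    (hy : ∀ z : ℂ, 0 < z.im → jN N (act g (aff (N * n) c z)) = jf (aff a c' z)) :
    ∃ k : (fun z => h (act g (aff (N * n) c z))) ∈ LR V.integer,
      aeval (red V (Ja V hn c)) e * red V ⟨_, k⟩ =
        aevalAeval (red V (Ja V hn c)) (red V (Ja V ha c')) A := by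
  have h1 : ∀ z : ℂ, 0 < z.im → (aeval (Ja V hn c) e).1 z * h (act g (aff (N * n) c z)) =
      (aevalAeval (Ja V hn c) (Ja V ha c') A).1 z := fun z hz => by
    have h2 := hh.rel _ (act_pos (M := g) (by omega) (aff_pos hn c hz))
    rw [hy z hz, jf_act hg (aff_pos hn c hz)] at h2
    rw [← evz_apply, ← evz_apply, map_ev, map_ev1]
    exact h2
  have k : (fun z => h (act g (aff (N * n) c z))) ∈ LR V.integer :=
    le_div ged_int (lu_aeval hn c he) (fun z hz =>
      (hh.hol _ (act_pos (by omega) (aff_pos hn c hz))).comp z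
        ((hol_act (by omega) _ (aff_pos hn c hz)).comp z (by unfold aff; fun_prop)))
      (fun z hz => by
        rw [← hh.inv.shift hg n (aff_pos hn c hz)]
        congr 2
        simp only [aff]
        ring) (LE.congr (aevalAeval (Ja V hn c) (Ja V ha c') A).2 h1)
  refine ⟨k, ?_⟩
  rw [← map_ev, ← map_ev1, ← map_mul]
  exact red_congr h1

theorem act_ut_aff {a b d : ℕ} (hd : d ≠ 0) (n : ℕ) (z : ℂ) :
    act (ut a b d) (aff (a * d * n) 0 z) = aff (a * a * n) (b / d) z := by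
  have : (d : ℂ) ≠ 0 := by exact_mod_cast hd
  simp only [ut, act_of, mob, aff]
  push_cast
  rw [zero_mul, zero_add]
  field_simp
  ring

theorem exists_dg (hN : N ≠ 0) {g : MZ} (hg : g.det = 1) : ∃ (a b d : ℕ) (k : MZ), a * d = N ∧
    k.det = 1 ∧ ut N 0 1 * g = k * ut a b d := by
  obtain ⟨x, k, h1, h2⟩ := (isReps_rI hN).surj (ut N 0 1 * g) (by simp [hg, det_ut])
  exact ⟨_, _, _, k, x.2.1, h1, h2⟩

theorem RF.mem (hN : N ≠ 0) (hh : RF N e A h) (he : V (e.leadingCoeff : ℂ) = 1) {g : MZ}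
    (hg : g.det = 1) {n : ℕ} (hn : n ≠ 0) :
    (fun z => h (act g ((N * n : ℕ) * z))) ∈ LR V.integer := by
  obtain ⟨a, b, d, k, rfl, h1, h2⟩ := exists_dg hN hg
  obtain ⟨ha, hd⟩ := mul_ne_zero_iff.1 hN
  obtain ⟨m, -⟩ := hh.dat he hg (mul_ne_zero hN hn) (mul_ne_zero (mul_ne_zero ha ha) hn) 0 (b / d)
    fun z hz => by rw [jN_act hN hg h1 h2 (aff_pos (mul_ne_zero hN hn) 0 hz), act_ut_aff hd]
  simpa only [aff, Rat.cast_zero, Complex.ofReal_zero, add_zero] using m

theorem RF.val_le (hN : N ≠ 0) (hh : RF N e A h) (he : V (e.leadingCoeff : ℂ) = 1)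
    (hτ : 0 < τ.im) (hj : V (jf τ) ≤ 1) : V (h τ) ≤ 1 :=
  hh.inv.val_le hN (mul_ne_zero hN one_ne_zero) (fun _ hg => hh.mem hN he hg one_ne_zero) hτ hj

end Pool.Agent.B4.GE
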