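import Pool.Agent.Lib.MP_696deb_nt.B2.PA0

/-! The algebraic interface of the patching argument: finite level towers of Selmer modules over
quotients of the ring of power series, and the statement `PAStmt`. -/

set_option autoImplicit false

open scoped Classical
open Finset Matrix PowerSeries

namespace Pool.Agent.B4

open Pool.Agent.Lib.MP_696deb_nt Pool.Agent.Lib.MP_696deb_nt.B2

/-- The slope of the Lagrangian line. -/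
class Ep where
  ε : ℤ

variable [Ep]

section

variable {G : Type} {k : ℕ}

/-- The diagonal local condition at the auxiliary prime. -/
noncomputable def Lag (k : ℕ) (φ σ : G) : Submodule Lam (G → Fin 2 → Ak k) where
  carrier := {c | c φ 1 = Ep.ε • c φ 0 ∧ Ep.ε • c σ 0 + c σ 1 = 0}
  zero_mem' := by simp
  add_mem' := fun {c c'} h h' => ⟨by simp only [Pi.add_apply, h.1, h'.1, smul_add], by
    simp only [Pi.add_apply, smul_add]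
    linear_combination h.2 + h'.2⟩
  smul_mem' := fun a c h => ⟨by simp only [Pi.smul_apply, h.1, smul_comm a], by
    simp only [Pi.smul_apply, smul_comm _ a, ← smul_add, h.2, smul_zero]⟩

end

/-- The data at level `k` for one branch.  The number `e` bounds all errors. -/
structure Lev (G : Type) [Group G] (θ : G →* G) (e k : ℕ) where
  act : G →* Matrix (Fin 2) (Fin 2) (Ak k)
  N : Subgroup G
  normal : N.Normal
  θN : ∀ σ ∈ N, θ σ ∈ N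
  actN : ∀ σ ∈ N, act σ = 1
  z1 : G
  act_z1 : act z1 = (1 + X : Lam) • 1
  act_θz1 : (1 + X : Lam) • act (θ z1) = 1
  z2 : G
  d : Ak k
  act_z2 : act z2 = d • 1
  d_dvd : d - 1 ∣ 2 ^ e
  z2_comm : ∀ g, z2 * g * z2⁻¹ * g⁻¹ ∈ N
  fl : G
  fl_det : (act fl - 1).det ∣ 2 ^ e
  un : Fin 2 → G
  un_sq : ∀ v, (act (un v) - 1) * (act (un v) - 1) = 0
  un_tr : ((act (un 0) - 1) * (act (un 1) - 1)).trace ∣ 2 ^ e
  un_θ : ∀ v, act (θ (un v)) = tauM _ * act (un v) * tauM _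
  ns : Fin 2 → Bool → G
  nl : Fin 2 → Bool → Fin 2 → Lam
  Q : Fin 2 → Bool → Lam
  Q_cop : ∀ v, 2 ^ e ∈ Ideal.span {Q v true, Q v false} ⊔ aa k k
  Q_T : ∀ v b, 2 ^ e ∈ Ideal.span {Q v b, X} ⊔ aa k k
  St : Type
  S : St → Submodule Lam (G → Fin 2 → Ak k)
  kap : St → G → Fin 2 → Ak k
  kap_mem : ∀ n, kap n ∈ S n
  coc : ∀ n, ∀ c ∈ S n, ∀ g h, c (g * h) = c g + act g *ᵥ c h
  van : ∀ n, ∀ c ∈ S n, c fl = 0
  Q_nu : ∀ n, ∀ c ∈ S n, ∀ v b, Q v b • ∑ i, nl v b i • c (ns v b) i = 0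
  step : ∀ n, ∀ σ ∈ N, ∃ (n' : St) (Sq : Submodule Lam (G → Fin 2 → Ak k)) (φ s : G)
    (u u1 u2 : Ak k), s ∈ N ∧ S n = Sq ⊓ Van k s ∧ S n' = Sq ⊓ Van k φ ∧
    u ∣ 2 ^ e ∧ u1 ∣ 2 ^ e ∧ u2 ∣ 2 ^ e ∧
    (∀ c ∈ S n, c φ = u • (c σ + c (θ σ))) ∧ (∀ c ∈ S n', c (θ s) = -c s) ∧
    u1 • kap n' s = u2 • (tauM _ *ᵥ kap n φ) ∧
    ∀ o, IsoW (2 ^ e * Q 0 (!o 0) * Q 1 (!o 1)) (Sq ⊓ Ori k ns nl o) φ s ∧
      CoW (2 ^ e) (Sq ⊓ Ori k ns nl o) φ s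
  n0 : St
  S0 : Submodule Lam (G → Fin 2 → Ak k)
  φ0 : G
  s0 : G
  fin0 : Finite S0
  S_n0 : S n0 = S0 ⊓ Van k s0
  Q_nu0 : ∀ c ∈ S0, ∀ v b, Q v b • ∑ i, nl v b i • c (ns v b) i = 0
  iso0 : ∀ o, IsoW (2 ^ e * Q 0 (!o 0) * Q 1 (!o 1)) (S0 ⊓ Ori k ns nl o) φ0 s0
  h : Lam
  kap_h : ∃ u : Ak k, u ∣ 2 ^ e ∧ kap n0 φ0 1 - Ep.ε • kap n0 φ0 0 = u * Ideal.Quotient.mk _ h
  sq : Nat.card (Wk (S0 ⊓ Lag k φ0 s0) (aa k k ⊔ Ideal.span {(2 * X) ^ (k - 1)})) ≤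
    Nat.card ↥(S0 ⊓ Lag k φ0 s0)

/-- The main Selmer module. -/
noncomputable def Lev.SF {G : Type} [Group G] {θ : G →* G} {e k : ℕ} (T : Lev G θ e k) :
    Submodule Lam (G → Fin 2 → Ak k) := T.S0 ⊓ Lag k T.φ0 T.s0

/-- The analytic side. -/
noncomputable def Lev.g {G : Type} [Group G] {θ : G →* G} {e k : ℕ} (T : Lev G θ e k) : Lam :=
  T.h ^ 2 * (T.Q 0 true * T.Q 0 false * (T.Q 1 true * T.Q 1 false))

/-- The result of the patching argument, for a target branch `T` and a reference branch `R`. -/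
def PAStmt : Prop := ∀ (G : Type) [Group G] (θ : G →* G) (e : ℕ) (lv : ℕ → ℕ)
  (T R : ∀ k, Lev G θ e (lv k)), (∀ k, k < lv k) →
  (∃ C, ∀ k j, j ≤ lv k → Nat.card (Wk (R k).SF (aa 1 j)) ≤ C) →
  (∀ k j, j ≤ lv k → Nat.card (Wk (T k).SF (aa 1 j)) = Nat.card (Wk (R k).SF (aa 1 j))) →
  (∀ k, (T k).g - (R k).g ∈ aa 1 (lv k)) →
  (∃ j, ∀ k, j ≤ lv k → ∃ m < j, (R k).g ∉ aa (m + 1) 1 ∧
    2 ^ m ≤ Nat.card (Wk (R k).SF (aa j 1))) →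
  (∃ C, ∀ k j, j ≤ lv k → Nat.card (Wk ((T k).S (T k).n0) (aa j 1)) ≤ C * 4 ^ j) →
  (¬ ∃ a : ℕ, ∀ k, ∀ σ ∈ (T k).N, ∀ i,
    2 ^ a * (T k).kap (T k).n0 σ i ∈ Ideal.span {Ideal.Quotient.mk (aa (lv k) (lv k)) X}) ∧
  ∃ C, ∀ j, ∃ k, j ≤ lv k ∧ Nat.card (Wk ((T k).S (T k).n0) (aa j 1)) ≤ C * 2 ^ j

end Pool.Agent.B4
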