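import Pool.Agent.Lib.MP_696deb_nt.B4.PA0
import Pool.Agent.Lib.MP_696deb_nt.B2.PA1

/-! Internal definitions of the patching argument. -/

set_option autoImplicit false

open scoped Classical
open Finset Matrix PowerSeries Filter Submodule LinearMap

namespace Pool.Agent.B4.PA

open Pool.Agent.Lib.MP_696deb_nt Pool.Agent.Lib.MP_696deb_nt.B2 Pool.Agent.Lib.MP_696deb_nt.B2.PA

variable [Ep]

section

variable {O F : Type} [CommRing O] [AddCommGroup F] [Module O F]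

end

/-- The limit system over a ring `O`, with errors outside of the ideal `P`. -/
structure Sys (O : Type) [CommRing O] (P : Ideal O) (Γ : Type) [Group Γ] (N : Subgroup Γ)
    (F : Type) [AddCommGroup F] [Module O F] (par : Prop) (f h q0 q1 : O)
    (k0 : Γ → Fin 2 → O) where
  θ : Γ →* Γ
  normal : N.Normal
  θN : ∀ σ ∈ N, θ σ ∈ N
  two : (2 : O) ∉ P
  ev : Γ → Fin 2 → F
  z : Γ
  u : O
  hu : u * u ≠ 1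
  un : Fin 2 → Γ
  nm : Fin 2 → Matrix (Fin 2) (Fin 2) O
  nm_sq : ∀ v, nm v * nm v = 0
  nm_tr : (nm 0 * nm 1).trace ∉ P
  St : Type
  R : St → Submodule O F
  kap : St → F →ₗ[O] O
  kap_R : ∀ n, R n ≤ ker (kap n)
  fg : ∀ n, Module.Finite O (F ⧸ R n)
  gen : ∀ n x, ∃ t ∉ P, t • x ∈ R n ⊔ span O {y | ∃ σ ∈ N, ∃ i, y = ev σ i}
  add : ∀ n, ∀ σ ∈ N, ∀ σ' ∈ N, ∀ i, ev (σ * σ') i - (ev σ i + ev σ' i) ∈ R n
  eq_un : ∀ n v, ∀ σ ∈ N, ∀ i,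
    ev (un v * σ * (un v)⁻¹) i - ∑ j, (1 + nm v) i j • ev σ j ∈ R n
  eq_unθ : ∀ n v, ∀ σ ∈ N, ∀ i, ev (θ (un v) * σ * (θ (un v))⁻¹) i -
    ∑ j, (tauM O * (1 + nm v) * tauM O) i j • ev σ j ∈ R n
  eq_z : ∀ n, ∀ σ ∈ N, ∀ i, ev (z * σ * z⁻¹) i - u • ev σ i ∈ R n
  eq_zθ : ∀ n, ∀ σ ∈ N, ∀ i, u • ev (θ z * σ * (θ z)⁻¹) i - ev σ i ∈ R n
  step : ∀ n, ∀ σ ∈ N, ∃ (n' : St) (Rq : Submodule O F) (φ s : Γ) (u0 u1 u2 : O), s ∈ N ∧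
    R n = Rq ⊔ span O (Set.range (ev s)) ∧ R n' = Rq ⊔ span O (Set.range (ev φ)) ∧
    u0 ∉ P ∧ u1 ∉ P ∧ u2 ∉ P ∧ (∀ i, ev φ i - u0 • (ev σ i + ev (θ σ) i) ∈ R n) ∧
    (∀ i, ev (θ s) i + ev s i ∈ R n') ∧
    u1 • (kap n' ∘ ev s) = u2 • (tauM O *ᵥ (kap n ∘ ev φ)) ∧
    IsoS P Rq (ev φ) (ev s) ∧ CoS P Rq (ev φ) (ev s) ∧ IsoR P Rq (ev φ) (ev s) ∧
    (par → CoR P Rq (ev φ) (ev s))
  n0 : St
  R0 : Submodule O F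
  φ0 : Γ
  s0 : Γ
  R_n0 : R n0 = R0 ⊔ span O (Set.range (ev s0))
  iso0 : IsoS P R0 (ev φ0) (ev s0)
  kap_h : ∃ a ∉ P, kap n0 (ev φ0 1) - Ep.ε • kap n0 (ev φ0 0) = a * h
  kap_k0 : ∀ g i, kap n0 (ev g i) = k0 g i
  RF : Submodule O F
  nu : Fin 2 → F
  nu0 : q0 • nu 0 ∈ RF
  nu1 : q1 • nu 1 ∈ RF
  RF_eq : RF ⊔ span O (Set.range nu) =
    R0 ⊔ span O {ev φ0 1 - Ep.ε • ev φ0 0, Ep.ε • ev s0 0 + ev s0 1}
  r : ℕ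
  M : Matrix (Fin r) (Fin r) O
  det : M.det = f
  pres : ∃ p : F →ₗ[O] Cok M, Function.Surjective p ∧ RF ≤ ker p
  dim : par → Dim2 P (R n0)

end Pool.Agent.B4.PA
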