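import Pool.Agent.Lib.MP_696deb_nt.B4.Cv

/-! The algebraic points of the curve, and the kernel of reduction. -/

set_option autoImplicit false

open scoped NNReal Classical
open WeierstrassCurve WeierstrassCurve.Affine

namespace Pool.Agent.B4

open Pool.Agent.Lib.MP_696deb_nt Pool.Agent.Lib.MP_696deb_nt.B2

variable [Cv]

/-- The group of algebraic points. -/
abbrev EE : Type := Pt Wu Qbar

noncomputable instance : DistribMulAction Gam EE where
  smul g P := pmap (g : Qbar →+* Qbar) P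
  one_smul P := by cases P <;> rfl
  mul_smul g h P := by cases P <;> rfl
  smul_zero g := map_zero (pmap (W := Wu) (g : Qbar →+* Qbar))
  smul_add g := map_add (pmap (W := Wu) (g : Qbar →+* Qbar))

theorem smul_pt (g : Gam) (P : EE) : g • P = pmap (g : Qbar →+* Qbar) P := rfl

theorem xco_smul (g : Gam) (P : EE) : xco (g • P) = g (xco P) := xco_pmap _ P

theorem yco_smul (g : Gam) (P : EE) : yco (g • P) = g (yco P) := yco_pmap _ P

/-- The point of order two in the kernel of reduction at two. -/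
noncomputable def T1 : EE := .some (-cu / 4) (cu / 8) ((Wu_nonsingular _ _).mpr (by rw [cu_cast]; ring))

/-- The second point of order two. -/
noncomputable def T2 : EE := .some 0 0 ((Wu_nonsingular _ _).mpr (by norm_num))

/-- The third point of order two. -/
noncomputable def T3 : EE := .some (4 * cw) (-2 * cw) ((Wu_nonsingular _ _).mpr (by rw [cu_cast]; ring))

theorem xco_T1 : xco T1 = -cu / 4 := rfl

theorem xco_T2 : xco T2 = 0 := rfl

theorem xco_T3 : xco T3 = 4 * cw := rfl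

theorem r0_eqn (P : EE) :
    yco P ^ 2 + xco P * yco P = xco P ^ 3 + cm * xco P ^ 2 - cu * cw * xco P := by
  rcases P with _ | ⟨x, y, h⟩
  · simp [← Point.zero_def]
  · exact (Wu_nonsingular x y).1 h

theorem r0_negY (x y : Qbar) : (Wu.baseChange Qbar).toAffine.negY x y = -y - x := by
  simp only [negY, toAffine, Wu_a₁, Wu_a₃]; ring

theorem r0_neg (P : EE) : yco (-P) = -yco P - xco P := by
  rcases P with _ | ⟨x, y, h⟩
  · simp [← Point.zero_def]
  · exact r0_negY x y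

theorem r0_ext {P Q : EE} (hP : P ≠ 0) (hQ : Q ≠ 0) (hx : xco P = xco Q) (hy : yco P = yco Q) :
    P = Q := by
  rcases P with _ | ⟨x, y, h⟩
  · exact absurd rfl hP
  rcases Q with _ | ⟨x', y', h'⟩
  · exact absurd rfl hQ
  simp only [Point.some.injEq]
  exact ⟨hx, hy⟩

/-- The line through two points. -/
theorem r0_line {P Q : EE} (hP : P ≠ 0) (hQ : Q ≠ 0) (h : P + Q ≠ 0) : ∃ l ν : Qbar,
    yco P = l * xco P + ν ∧ yco Q = l * xco Q + ν ∧ yco (-(P + Q)) = l * xco (P + Q) + ν ∧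
      xco P + xco Q + xco (P + Q) = l ^ 2 + l - cm ∧
      xco P * xco Q + xco P * xco (P + Q) + xco Q * xco (P + Q) = -(cu * cw) - 2 * l * ν - ν := by
  rcases P with _ | ⟨x1, y1, h1⟩
  · exact absurd rfl hP
  rcases Q with _ | ⟨x2, y2, h2⟩
  · exact absurd rfl hQ
  have hxy : ¬ (x1 = x2 ∧ y1 = (Wu.baseChange Qbar).toAffine.negY x2 y2) := fun k =>
    h (Point.add_of_Y_eq k.1 k.2)
  have e1 := (Wu_nonsingular _ _).1 h1
  have e2 := (Wu_nonsingular _ _).1 h2
  have key : ∀ l, l = (Wu.baseChange Qbar).toAffine.slope x1 x2 y1 y2 →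
      l * (x1 - x2) = y1 - y2 ∧
      l * (y1 + y2 + x1) = x1 ^ 2 + x1 * x2 + x2 ^ 2 + cm * (x1 + x2) - cu * cw - y2 := by
    intro l hl
    by_cases hx : x1 = x2
    · have hy := fun k => hxy ⟨hx, k⟩
      obtain rfl := Y_eq_of_Y_ne h1.1 h2.1 hx hy
      subst hx
      rw [slope_of_Y_ne rfl hy, eq_div_iff (sub_ne_zero.2 hy), r0_negY] at hl
      simp only [toAffine, Wu_a₁, Wu_a₂, Wu_a₄] at hl
      exact ⟨by ring, by linear_combination hl⟩
    · rw [slope_of_X_ne hx, eq_div_iff (sub_ne_zero.2 hx)] at hl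
      exact ⟨hl, mul_left_cancel₀ (sub_ne_zero.2 hx)
        (by linear_combination (y1 + y2 + x1) * hl + e1 - e2)⟩
  obtain ⟨a, b⟩ := key _ rfl
  rw [r0_neg, Point.add_some hxy]
  simp only [xco_some, yco_some, addY, r0_negY, negAddY, addX, toAffine, Wu_a₁, Wu_a₂]
  generalize (Wu.baseChange Qbar).toAffine.slope x1 x2 y1 y2 = l at a b ⊢
  exact ⟨l, y1 - l * x1, by ring, by linear_combination a, by ring, by ring,
    by linear_combination b - (l + 1) * a⟩

theorem r0_yco (w : Plc) {P : EE} (h : w.V (xco P) ≤ 1) : w.V (yco P) ≤ 1 := by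
  have h1 : xco P ∈ w.V.integer := h
  refine r0_quad w h1 ?_
  rw [r0_eqn]
  have hm : (cm : Qbar) ∈ w.V.integer := intCast_mem _ _
  have hu : (cu * cw : Qbar) ∈ w.V.integer := mul_mem (intCast_mem _ _) (intCast_mem _ _)
  generalize xco P = x, (cm : Qbar) = m, (cu * cw : Qbar) = u at h1 hm hu
  clear h
  aesop

theorem r0_key (w : Plc) {x1 x2 x3 y3 l ν : Qbar} (e0 : y3 = l * x3 + ν)
    (e1 : x1 + x2 + x3 = l ^ 2 + l - cm) (e2 : x1 * x2 + x1 * x3 + x2 * x3 = -(cu * cw) - 2 * l * ν - ν)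
    (h1 : 1 < w.V x1) (h2 : 1 < w.V x2) (h3 : x3 ∈ w.V.integer) (h4 : y3 ∈ w.V.integer) :
    False := by
  have hm : (cm : Qbar) ∈ w.V.integer := intCast_mem _ _
  have hu : (cu * cw : Qbar) ∈ w.V.integer := mul_mem (intCast_mem _ _) (intCast_mem _ _)
  generalize (cm : Qbar) = m, (cu * cw : Qbar) = u at e1 e2 hm hu
  have e3 : x1 * x2 = l ^ 2 * x3 - 2 * l * y3 - y3 + x3 ^ 2 + m * x3 - u := by
    linear_combination e2 - x3 * e1 + (2 * l + 1) * e0
  clear e0 e2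
  rcases le_or_gt (w.V l) 1 with hl | hl
  · have h5 : l ∈ w.V.integer := hl
    refine (r0_big w h1 ?_).not_gt h2
    rw [e3]
    clear e1 e3 h1 h2 hl
    aesop
  have l0 : l ≠ 0 := by rintro rfl; simp at hl
  obtain ⟨t, rfl⟩ : ∃ t, l = t⁻¹ := ⟨l⁻¹, (inv_inv l).symm⟩
  have t0 : t ≠ 0 := fun k => l0 (by rw [k, inv_zero])
  have t1 : w.V t < 1 := r0_big w hl (by rw [inv_mul_cancel₀ t0]; exact one_mem _)
  have t2 : t ∈ w.V.integer := t1.le
  have a1 : x1 * (x2 * t ^ 2) ∈ w.V.integer := by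
    rw [show x1 * (x2 * t ^ 2) = x3 - 2 * t * y3 + t ^ 2 * (x3 ^ 2 - y3 + m * x3 - u) by
      rw [← mul_assoc, e3]; field_simp; ring]
    clear e1 e3 h1 h2 hl l0 t0 t1
    aesop
  have a2 := r0_big w h1 a1
  have a3 := r0_big w h2 (a := x1 * t ^ 2) (by rwa [mul_left_comm])
  have a4 := w.V.map_add_lt a3 a2
  rw [show x1 * t ^ 2 + x2 * t ^ 2 = 1 + t * (1 + t * (-m - x3)) by
    rw [← add_mul, eq_sub_of_add_eq e1]; field_simp; ring, r0_one w (r0_mul w t1 ?_)] at a4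
  · exact a4.false
  · exact add_mem (one_mem _) (mul_mem t2 (sub_mem (neg_mem hm) h3))

theorem red0_add (w : Plc) {P Q : EE} (hP : P = 0 ∨ 1 < w.V (xco P))
    (hQ : Q = 0 ∨ 1 < w.V (xco Q)) : P + Q = 0 ∨ 1 < w.V (xco (P + Q)) := by
  by_cases p0 : P = 0
  · rwa [p0, zero_add]
  by_cases q0 : Q = 0
  · rwa [q0, add_zero]
  refine or_iff_not_imp_left.2 fun h => not_le.1 fun k => ?_
  obtain ⟨l, ν, -, -, e0, e1, e2⟩ := r0_line p0 q0 h
  exact r0_key w e0 e1 e2 (hP.resolve_left p0) (hQ.resolve_left q0) k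
    (r0_yco w (P := -(P + Q)) (by rwa [xco_neg]))

/-- The kernel of reduction. -/
noncomputable def K1 (w : Plc) : AddSubgroup EE where
  carrier := {P | P = 0 ∨ 1 < w.V (xco P)}
  zero_mem' := .inl rfl
  add_mem' := red0_add w
  neg_mem' h := h.imp neg_eq_zero.2 fun k => by rwa [xco_neg]

theorem mem_K1 {w : Plc} {P : EE} : P ∈ K1 w ↔ P = 0 ∨ 1 < w.V (xco P) := Iff.rfl

variable {w : Plc} {P Q : EE} {g : Gam}

theorem V_xco_le (h : P ∉ K1 w) : w.V (xco P) ≤ 1 ∧ w.V (yco P) ≤ 1 := by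
  have h1 := not_lt.1 fun k => h (.inr k)
  exact ⟨h1, r0_yco w h1⟩

theorem V_cu {w : Plc} (hw : w.p ≠ Cv.p) : w.V (cu : Qbar) = 1 :=
  w.V_int_eq_one.2 fun k => hw ((dvd_cu w.prime).1 k)

theorem V_cv {w : Plc} (hw : w.p ≠ Cv.q) : w.V (cv : Qbar) = 1 :=
  w.V_int_eq_one.2 fun k => hw ((dvd_cvw w.prime).1 (k.mul_right _))

theorem V_cw {w : Plc} (hw : w.p ≠ Cv.q) : w.V (cw : Qbar) = 1 :=
  w.V_int_eq_one.2 fun k => hw ((dvd_cvw w.prime).1 (k.mul_left _))

theorem r0_sing (w : Plc) (hw : ¬ w.p ∣ NN) {x1 x2 x3 y1 y2 l ν : Qbar}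
    (e : y1 ^ 2 + x1 * y1 = x1 ^ 3 + cm * x1 ^ 2 - cu * cw * x1) (e3 : y1 = l * x1 + ν)
    (e4 : -y2 - x2 = l * x2 + ν) (e1 : x1 + x2 + x3 = l ^ 2 + l - cm)
    (e2 : x1 * x2 + x1 * x3 + x2 * x3 = -(cu * cw) - 2 * l * ν - ν) (h1 : x1 ∈ w.V.integer)
    (h2 : x2 ∈ w.V.integer) (h3 : x3 ∈ w.V.integer)
    (hx : w.V (x1 - x2) < 1) (hy : w.V (y1 - y2) < 1) : False := by
  rw [dvd_NN w.prime, not_or] at hw
  have hd : w.V (((cu : Qbar) * cw) ^ 2 * ((1 + 4 * cm) ^ 2 + 64 * (cu * cw))) = 1 := by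
    rw [show (1 + 4 * cm : Qbar) ^ 2 + 64 * (cu * cw) = cv ^ 2 by rw [cv_cast, cu_cast]; ring,
      map_mul, map_pow, map_pow, map_mul, V_cu hw.1, V_cw hw.2, V_cv hw.2]; simp
  have hm : (cm : Qbar) ∈ w.V.integer := intCast_mem _ _
  generalize (cm : Qbar) = m, (cu * cw : Qbar) = u at hm hd e e1 e2
  have hl : l ∈ w.V.integer := r0_quad w (one_mem _) (by
    rw [show l ^ 2 + 1 * l = x1 + x2 + x3 + m by linear_combination -e1]
    exact add_mem (add_mem (add_mem h1 h2) h3) hm)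
  have s1 : w.V (2 * y1 + x1) < 1 := by
    rw [show 2 * y1 + x1 = (x1 - x2) * (l + 1) + (y1 - y2) by linear_combination e3 - e4]
    exact w.V.map_add_lt (r0_mul w hx (add_mem hl (one_mem _))) hy
  have s2 : w.V (3 * x1 ^ 2 + 2 * m * x1 - u - y1) < 1 := by
    rw [show 3 * x1 ^ 2 + 2 * m * x1 - u - y1 =
        (y1 - y2) * l + (x1 - x2) * (2 * x1 + x2 + m) by
      linear_combination (x1 + x2) * e1 - e2 - (l + 1) * e3 - l * e4]
    exact w.V.map_add_lt (r0_mul w hy hl) (r0_mul w hx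
      (add_mem (add_mem (mul_mem (ofNat_mem _ 2) h1) h2) hm))
  have key : ∀ s t a c : Qbar, s = 2 * y1 + x1 → t = 3 * x1 ^ 2 + 2 * m * x1 - u - y1 →
      a = m + 3 * x1 → c = x1 ^ 3 + m * x1 ^ 2 - u * x1 - (y1 ^ 2 + x1 * y1) →
      u ^ 2 * ((1 + 4 * m) ^ 2 + 64 * u) =
        -(1 + 4 * a) ^ 2 * (c + 4 * a * c - s * t + a * s ^ 2 - t ^ 2) - 8 * (2 * t + s) ^ 3 -
          27 * (s ^ 2 + 4 * c) ^ 2 + 9 * (1 + 4 * a) * (2 * t + s) * (s ^ 2 + 4 * c) := by
    rintro s t a c rfl rfl rfl rfl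
    ring
  have k := key _ _ _ 0 rfl rfl rfl (by linear_combination e)
  have ha : m + 3 * x1 ∈ w.V.integer := add_mem hm (mul_mem (ofNat_mem _ 3) h1)
  generalize 2 * y1 + x1 = s, 3 * x1 ^ 2 + 2 * m * x1 - u - y1 = t, m + 3 * x1 = a
    at k s1 s2 ha
  have hs : s ∈ w.V.integer := s1.le
  have ht : t ∈ w.V.integer := s2.le
  have m1 : (1 + 4 * a) ^ 2 * (t - a * s) - 8 * (12 * t ^ 2 + 6 * t * s + s ^ 2) - 27 * s ^ 3 +
      9 * (1 + 4 * a) * (2 * t + s) * s ∈ w.V.integer ∧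
      (1 + 4 * a) ^ 2 * t - 64 * t ^ 2 ∈ w.V.integer := by
    clear e e1 e2 e3 e4 hx hy s1 s2 hw k key hd
    aesop
  have s4 := w.V.map_add_lt (r0_mul w s1 m1.1) (r0_mul w s2 m1.2)
  rw [show _ + _ = u ^ 2 * ((1 + 4 * m) ^ 2 + 64 * u) by rw [k]; ring, hd] at s4
  exact s4.false

/-- Points with congruent coordinates have the same reduction. -/
theorem K1_near (hw : ¬ w.p ∣ NN) (hP : P ∉ K1 w) (hQ : Q ∉ K1 w) (hx : w.V (xco P - xco Q) < 1)
    (hy : w.V (yco P - yco Q) < 1) : P - Q ∈ K1 w := by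
  have p0 : P ≠ 0 := fun k => hP (.inl k)
  have q0 : -Q ≠ 0 := fun k => hQ (.inl (neg_eq_zero.1 k))
  rw [sub_eq_add_neg]
  refine or_iff_not_imp_left.2 fun h => not_le.1 fun k => ?_
  obtain ⟨l, ν, e3, e4, -, e1, e2⟩ := r0_line p0 q0 h
  rw [r0_neg] at e4
  rw [xco_neg] at e1 e2 e4
  exact r0_sing w hw (r0_eqn P) e3 e4 e1 e2 (V_xco_le hP).1 (V_xco_le hQ).1 k hx hy

/-- The converse. -/
theorem near_of_K1 (hP : P ∉ K1 w) (h : P - Q ∈ K1 w) :
    w.V (xco P - xco Q) < 1 ∧ w.V (yco P - yco Q) < 1 := by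
  by_cases h0 : P - Q = 0
  · simp [sub_eq_zero.1 h0]
  have hQ : Q ∉ K1 w := fun k => hP (by simpa using add_mem h k)
  have p0 : Q + (P - Q) ≠ 0 := fun k => hP (.inl (by simpa using k))
  obtain ⟨l, ν, e3, -, e4, e1, e2⟩ := r0_line (fun k => hQ (.inl k)) h0 p0
  rw [r0_neg] at e4
  rw [add_sub_cancel] at e1 e2 e4
  have h1 : xco P ∈ w.V.integer := (V_xco_le hP).1
  have h2 : yco P ∈ w.V.integer := (V_xco_le hP).2
  have h3 : xco Q ∈ w.V.integer := (V_xco_le hQ).1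
  have h4 : yco Q ∈ w.V.integer := (V_xco_le hQ).2
  have h5 := h.resolve_left h0
  have hm : (cm : Qbar) ∈ w.V.integer := intCast_mem _ _
  have hu : (cu * cw : Qbar) ∈ w.V.integer := mul_mem (intCast_mem _ _) (intCast_mem _ _)
  generalize xco P = x3, yco P = y3, xco Q = x1, yco Q = y1, xco (P - Q) = x2,
    (cm : Qbar) = m, (cu * cw : Qbar) = u at *
  clear hP h h0 hQ p0
  have hl : 1 < w.V l := not_le.1 fun k => h5.not_ge (by
    have h6 : l ∈ w.V.integer := k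
    change x2 ∈ w.V.integer
    rw [show x2 = l ^ 2 + l - m - x1 - x3 by linear_combination e1]
    clear e1 e2 e3 e4 h5 k
    aesop)
  constructor
  · refine r0_big w hl ?_
    rw [show l * (x3 - x1) = -y3 - x3 - y1 by linear_combination e3 - e4]
    exact sub_mem (sub_mem (neg_mem h2) h1) h4
  · refine r0_big w hl ?_
    rw [show l * (y3 - y1) = y1 - (x1 ^ 2 + x1 * x3 + x3 ^ 2 + m * (x1 + x3) - u) by
      linear_combination (x1 + x3) * e1 - e2 - (l + 1) * e3 - l * e4]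
    clear e1 e2 e3 e4 h5 hl
    aesop

theorem K1_smul (hg : g ∈ Dec w) : g • P ∈ K1 w ↔ P ∈ K1 w := by
  rw [mem_K1, mem_K1, xco_smul, mem_Dec.1 hg, smul_eq_zero_iff_eq]

theorem K1_ine (hw : ¬ w.p ∣ NN) (hg : g ∈ Ine w) (P : EE) : g • P - P ∈ K1 w := by
  by_cases h : P ∈ K1 w
  · exact sub_mem ((K1_smul hg.1).2 h) h
  · refine K1_near hw (mt (K1_smul hg.1).1 h) h ?_ ?_
    · rw [xco_smul]; exact hg.2 _ (V_xco_le h).1
    · rw [yco_smul]; exact hg.2 _ (V_xco_le h).2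

theorem r0_two_y (h : 2 • P = 0) : yco P = -xco P / 2 := by
  have h1 := r0_neg P
  rw [neg_eq_of_add_eq_zero_left (two_nsmul P ▸ h)] at h1
  linear_combination (1 / 2) * h1

theorem r0_two (h : 2 • P = 0) : xco P = -cu / 4 ∨ xco P = 0 ∨ xco P = 4 * cw := by
  have h1 := r0_eqn P
  rw [r0_two_y h] at h1
  have h2 : (xco P - -cu / 4) * (xco P * (xco P - 4 * cw)) = 0 := by
    rw [cu_cast] at h1 ⊢
    linear_combination -h1
  simpa only [mul_eq_zero, sub_eq_zero] using h2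

theorem K1_tors (hw : w.p ≠ 2) (h : P ∈ K1 w) {m : ℕ} (k : 2 ^ m • P = 0) : P = 0 := by
  induction m generalizing P with
  | zero => simpa using k
  | succ m ih =>
    have h1 := ih (nsmul_mem h 2) (by rw [smul_smul, ← pow_succ, k])
    refine h.resolve_right (not_lt.2 ?_)
    have h2 := r0_two h1
    have h3 : w.V ((2 : ℤ) : Qbar) = 1 := w.V_int_eq_one.2 fun e =>
      hw ((Nat.prime_dvd_prime_iff_eq w.prime Nat.prime_two).1 (by exact_mod_cast e))
    have h4 : ∀ a : ℤ, w.V ((a : Qbar) / 4) ≤ 1 := fun a => by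
      rw [map_div₀, show (4 : Qbar) = (2 : ℤ) * (2 : ℤ) by norm_num, map_mul, h3, mul_one, div_one]
      exact w.V_int_le a
    rcases h2 with e | e | e
    · simpa [e] using h4 (-cu)
    · simp [e]
    · simpa [e] using w.V_int_le (4 * cw)

theorem sm_pt (H : Subgroup Gam) (P : EE) : Sm H fun g => g • P := by
  rcases P with _ | ⟨x, y, h⟩
  · exact (Sm.const 0).congr fun g _ => (smul_zero g).symm
  · refine ((sm_apply x).comp₂ (sm_apply y) fun a b =>
      if k : (Wu.baseChange Qbar).toAffine.Nonsingular a b then (.some a b k : EE) else 0).congr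
      fun g _ => ?_
    have k : (Wu.baseChange Qbar).toAffine.Nonsingular (g x) (g y) := by
      rw [Wu_nonsingular] at h ⊢
      simpa [map_ofNat] using congrArg g h
    exact dif_pos k

theorem r0_pt (x : Qbar) : ∃ y, (Wu.baseChange Qbar).toAffine.Nonsingular x y := by
  simpa only [Wu_nonsingular] using r0_root x _

theorem exists_half (P : EE) : ∃ Q, 2 • Q = P := by
  rcases P with _ | ⟨x, y, h⟩
  · exact ⟨0, smul_zero 2⟩
  obtain ⟨t, ht⟩ := r0_root (-4 * x) (-4 * (cu * cw) + (cu - 16 * cw) * x)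
  obtain ⟨u, hu⟩ := r0_root (-t) (cu * cw)
  obtain ⟨v, hv⟩ := r0_pt u
  have e : dup1 (Wu.baseChange Qbar) u = x * dup2 (Wu.baseChange Qbar) u := by
    simp only [dup1, dup2, Wu_b₂, Wu_b₄, Wu_b₆, Wu_b₈]
    linear_combination u ^ 2 * ht + (u ^ 2 - cu * cw + t * u - 4 * x * u) * hu
  have e0 : dup2 (Wu.baseChange Qbar) u ≠ 0 := fun k => dup_ne k (by rw [e, k, mul_zero])
  obtain ⟨y', h', e1⟩ := two_nsmul_some hv e0
  rcases (Point.X_eq_iff (h₁ := h) (h₂ := h')).1 (by rw [e, mul_div_cancel_right₀ _ e0]) with k | k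
  · exact ⟨_, e1.trans k.symm⟩
  · exact ⟨-.some u v hv, by rw [neg_nsmul, e1, k]⟩

theorem r0_fix (g : Gam) (hP : P ≠ 0) (hx : g (xco P) = xco P) (hy : g (yco P) = yco P) :
    g • P = P :=
  r0_ext (mt (smul_eq_zero_iff_eq g).1 hP) hP (xco_smul g P ▸ hx) (yco_smul g P ▸ hy)

theorem smul_T1 (g : Gam) : g • T1 = T1 := by
  refine r0_fix g (Point.some_ne_zero _) ?_ ?_ <;> simp [T1, map_ofNat]

theorem smul_T2 (g : Gam) : g • T2 = T2 := by
  refine r0_fix g (Point.some_ne_zero _) ?_ ?_ <;> simp [T2]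

theorem smul_T3 (g : Gam) : g • T3 = T3 := by
  refine r0_fix g (Point.some_ne_zero _) ?_ ?_ <;> simp [T3, map_ofNat]

theorem two_T1 : 2 • T1 = 0 := by
  rw [two_nsmul]
  exact Point.add_self_of_Y_eq (by rw [r0_negY]; ring)

theorem two_T2 : 2 • T2 = 0 := by
  rw [two_nsmul]
  exact Point.add_self_of_Y_eq (by rw [r0_negY]; norm_num)

theorem T1_add_T2 : T1 + T2 = T3 := by
  have h : T1 + T2 ≠ 0 := fun k => by
    have := congrArg xco (eq_neg_of_add_eq_zero_left k)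
    rw [xco_neg] at this
    change -(cu : Qbar) / 4 = 0 at this
    exact cu_ne' (K := Qbar) (by linear_combination -4 * this)
  obtain ⟨l, ν, e3, e4, e5, e1, -⟩ := r0_line (P := T1) (Q := T2) (Point.some_ne_zero _)
    (Point.some_ne_zero _) h
  rw [r0_neg] at e5
  change (cu : Qbar) / 8 = l * (-cu / 4) + ν at e3
  change 0 = l * 0 + ν at e4
  change -(cu : Qbar) / 4 + 0 + _ = _ at e1
  obtain rfl : ν = 0 := by linear_combination -e4
  obtain rfl : l = -1 / 2 := 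
    mul_left_cancel₀ (cu_ne' (K := Qbar)) (by linear_combination 4 * e3)
  have e6 : xco (T1 + T2) = 4 * cw := by
    linear_combination e1 + (1 / 4) * cu_cast (K := Qbar)
  refine r0_ext h (Point.some_ne_zero _) e6 ?_
  change _ = -2 * (cw : Qbar)
  linear_combination -e5 - (1 / 2) * e6

theorem two_eq_zero : 2 • P = 0 ↔ P = 0 ∨ P = T1 ∨ P = T2 ∨ P = T3 := by
  constructor
  · intro h
    refine or_iff_not_imp_left.2 fun h0 => ?_
    have h1 := r0_two_y h
    refine (r0_two h).imp (fun e => ?_) (Or.imp (fun e => ?_) fun e => ?_) <;>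
      refine r0_ext h0 (Point.some_ne_zero _) e ?_ <;> rw [h1, e] <;>
      simp only [T1, T2, T3, yco_some] <;> ring
  · rintro (rfl | rfl | rfl | rfl)
    · exact smul_zero 2
    · exact two_T1
    · exact two_T2
    · rw [← T1_add_T2, smul_add, two_T1, two_T2, add_zero]

theorem T_ne : T1 ≠ 0 ∧ T2 ≠ 0 ∧ T3 ≠ 0 ∧ T1 ≠ T2 ∧ T1 ≠ T3 ∧ T2 ≠ T3 := by
  refine ⟨Point.some_ne_zero _, Point.some_ne_zero _, Point.some_ne_zero _, fun k => ?_,
    fun k => ?_, fun k => ?_⟩ <;> have := congrArg xco k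
  · change -(cu : Qbar) / 4 = 0 at this
    exact cu_ne' (K := Qbar) (by linear_combination -4 * this)
  · change -(cu : Qbar) / 4 = 4 * cw at this
    exact cv_ne' (K := Qbar) (by linear_combination -4 * this + cv_cast (K := Qbar))
  · change (0 : Qbar) = 4 * cw at this
    exact cw_ne' (K := Qbar) (by linear_combination -(1 / 4) * this)

/-- Complex points with algebraic coordinates come from algebraic points. -/
theorem exists_pt_of_alg {R : Pt Wu ℂ} (hx : IsAlgebraic ℚ (xco R)) : ∃ P : EE, pmap jC P = R := by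
  rcases R with _ | ⟨x, y, h⟩
  · exact ⟨0, map_zero _⟩
  obtain ⟨u, hu⟩ := hx.isIntegral.mem_range_algHom_of_minpoly_splits (K := Qbar)
    (IsAlgClosed.splits _) jC.toRatAlgHom
  obtain ⟨v, hv⟩ := r0_pt u
  have h' : (Wu.baseChange ℂ).toAffine.Nonsingular (jC u) (jC v) := by
    rw [Wu_nonsingular] at hv ⊢
    simpa [map_ofNat] using congrArg jC hv
  rcases (Point.X_eq_iff (h₁ := h) (h₂ := h')).1 hu.symm with k | k
  · exact ⟨.some u v hv, k.symm⟩
  · exact ⟨-.some u v hv, by rw [map_neg, k]; rfl⟩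

theorem jC_cc_pt (P : EE) : pmap jC (cc • P) = pmap (starRingEnd ℂ) (pmap jC P) := by
  rw [smul_pt, pmap_pmap, pmap_pmap]
  exact congrArg (pmap · P) (RingHom.ext jC_cc)

end Pool.Agent.B4
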